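import Pool.Agent.DRT.MaxE

set_option autoImplicit false

/-!
# Closure of almost everywhere convergence

PROOFS. `closure_av`: as `Pool.Lib.Erg.closure_L1` (`Pool/Agent/Lib/MaximalErgodic.lean`, copy its
proof): for `r > 0` the set where the averages of `w_n f ∘ T^n` are not `r`-Cauchy is contained in
the null set where those of `f'` do not converge, together with the set where
`av N (‖f - f'‖ ∘ T^n) > r / (4 (C+1))` for some `N`, which is small by `weak2`.
`cv_ae_congr`: `T^n` preserves null sets.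
-/

open MeasureTheory Filter Topology
open scoped ComplexConjugate NNReal ENNReal

noncomputable section

namespace Pool.DRT

variable {X : Type*} [MeasurableSpace X] {μ : Measure X} [IsProbabilityMeasure μ]
  {S T : Equiv.Perm X}

theorem closure_av (hT : MP μ T) {w : ℤ → X → ℂ} {C : ℝ} (hw : ∀ n x, ‖w n x‖ ≤ C) {f : X → ℂ}
    (hf : Integrable f μ)
    (h : ∀ ε : ℝ, 0 < ε → ∃ f' : X → ℂ, Integrable f' μ ∧ ∫ x, ‖f x - f' x‖ ∂μ ≤ ε ∧
      ∀ᵐ x ∂μ, CV fun N => av N fun n => w n x * f' ((T ^ n) x)) :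
    ∀ᵐ x ∂μ, CV fun N => av N fun n => w n x * f ((T ^ n) x) := by
  set C' : ℝ := |C| + 1 with hC'
  have hC'0 : 0 < C' := by positivity
  have hw' : ∀ n x, ‖w n x‖ ≤ C' := fun n x => by
    have := hw n x
    have := le_abs_self C
    linarith
  have key : ∀ r : ℝ, 0 < r →
      ∀ᵐ x ∂μ, Pool.Lib.Erg.CauchyAt (fun N => av N fun n => w n x * f ((T ^ n) x)) r := by
    intro r hr
    rw [ae_iff]
    have hle : ∀ ε : ℝ, 0 < ε →
        μ {x | ¬ Pool.Lib.Erg.CauchyAt (fun N => av N fun n => w n x * f ((T ^ n) x)) r} ≤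
          ENNReal.ofReal ε := by
      intro ε hε
      set l : ℝ := r / (4 * C') with hl
      have hl0 : 0 < l := by positivity
      obtain ⟨φ, hφi, hφ, hφc⟩ := h (ε * l / 4) (by positivity)
      have hwt := weak2 hT (φ := fun x => ‖f x - φ x‖) (hf.sub hφi).norm
        (fun x => norm_nonneg _) hl0
      set B : Set X := {x | ∃ N : ℕ, l < av N fun n => ‖f ((T ^ n) x) - φ ((T ^ n) x)‖} with hB
      set Z : Set X := {x | ¬ CV fun N => av N fun n => w n x * φ ((T ^ n) x)} with hZ
      have hZ0 : μ Z = 0 := hφc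
      have hsub : {x | ¬ Pool.Lib.Erg.CauchyAt (fun N => av N fun n => w n x * f ((T ^ n) x)) r} ⊆
          Z ∪ B := by
        intro x hx
        by_contra hcon
        rw [Set.mem_union, not_or] at hcon
        obtain ⟨hxZ, hxB⟩ := hcon
        have hxZ' : CV fun N => av N fun n => w n x * φ ((T ^ n) x) := by
          by_contra h'
          exact hxZ h'
        obtain ⟨L, hL⟩ := hxZ'
        have hxB' : ∀ N : ℕ, (av N fun n => ‖f ((T ^ n) x) - φ ((T ^ n) x)‖) ≤ l := by
          intro N
          by_contra h'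
          exact hxB ⟨N, not_le.1 h'⟩
        apply hx
        obtain ⟨N0, hN0⟩ := Pool.Lib.Erg.cauchyAt_of_lim _ L hL (r / 2) (by positivity)
        have hdiff : ∀ N : ℕ, ‖(av N fun n => w n x * f ((T ^ n) x)) -
            (av N fun n => w n x * φ ((T ^ n) x))‖ ≤ r / 4 := by
          intro N
          rw [← av_sub]
          refine (norm_av_le _ _).trans ?_
          calc (av N fun n => ‖w n x * f ((T ^ n) x) - w n x * φ ((T ^ n) x)‖) ≤
              av N fun n => C' * ‖f ((T ^ n) x) - φ ((T ^ n) x)‖ := by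
                apply av_mono
                intro n _
                rw [← mul_sub, norm_mul]
                exact mul_le_mul_of_nonneg_right (hw' n x) (norm_nonneg _)
            _ = C' * av N fun n => ‖f ((T ^ n) x) - φ ((T ^ n) x)‖ := by
                have := av_smul N C' (fun n => ‖f ((T ^ n) x) - φ ((T ^ n) x)‖)
                simpa only [smul_eq_mul] using this
            _ ≤ C' * l := mul_le_mul_of_nonneg_left (hxB' N) hC'0.le
            _ = r / 4 := by rw [hl]; field_simp
        refine ⟨N0, fun m hm n hn => ?_⟩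
        have e1 := hdiff m
        have e2 := hdiff n
        have e3 := hN0 m hm n hn
        have e4 : (av m fun k => w k x * f ((T ^ k) x)) - (av n fun k => w k x * f ((T ^ k) x)) =
            ((av m fun k => w k x * f ((T ^ k) x)) - (av m fun k => w k x * φ ((T ^ k) x))) -
              ((av n fun k => w k x * f ((T ^ k) x)) - (av n fun k => w k x * φ ((T ^ k) x))) +
              ((av m fun k => w k x * φ ((T ^ k) x)) -
                (av n fun k => w k x * φ ((T ^ k) x))) := by ring
        simp only [e4]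
        calc _ ≤ (r / 4 + r / 4) + r / 2 := by
              refine (norm_add_le _ _).trans (add_le_add ?_ e3)
              exact (norm_sub_le _ _).trans (add_le_add e1 e2)
          _ = r := by ring
      calc μ {x | ¬ Pool.Lib.Erg.CauchyAt (fun N => av N fun n => w n x * f ((T ^ n) x)) r} ≤
          μ (Z ∪ B) := measure_mono hsub
        _ ≤ μ Z + μ B := measure_union_le _ _
        _ ≤ 0 + ENNReal.ofReal (4 * (∫ x, ‖f x - φ x‖ ∂μ) / l) := by
            rw [hZ0]; exact add_le_add le_rfl hwt
        _ ≤ ENNReal.ofReal ε := by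
            rw [zero_add]
            apply ENNReal.ofReal_le_ofReal
            rw [div_le_iff₀ hl0]
            linarith
    refine le_antisymm ?_ bot_le
    apply le_of_forall_pos_le_add
    intro ε hε
    rw [zero_add]
    by_cases htop : ε = ⊤
    · rw [htop]; exact le_top
    · have := hle ε.toReal (ENNReal.toReal_pos hε.ne' htop)
      rwa [ENNReal.ofReal_toReal htop] at this
  have hall : ∀ᵐ x ∂μ, ∀ j : ℕ,
      Pool.Lib.Erg.CauchyAt (fun N => av N fun n => w n x * f ((T ^ n) x)) (1 / (j + 1)) := by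
    rw [ae_all_iff]
    intro j
    exact key _ (by positivity)
  filter_upwards [hall] with x hx
  exact Pool.Lib.Erg.exists_lim_of_cauchyAt _ hx

theorem AN_ae_congr (hS : MP μ S) (hT : MP μ T) {f f' g g' : X → ℂ} (hf : f =ᵐ[μ] f')
    (hg : g =ᵐ[μ] g') : ∀ᵐ x ∂μ, ∀ N, AN S T f g N x = AN S T f' g' N x := by
  have h1 : ∀ᵐ x ∂μ, ∀ n : ℤ, f ((S ^ n) x) = f' ((S ^ n) x) := by
    rw [ae_all_iff]
    intro n
    exact (hS.zpow n).quasiMeasurePreserving.ae hf
  have h2 : ∀ᵐ x ∂μ, ∀ n : ℤ, g ((T ^ n) x) = g' ((T ^ n) x) := by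
    rw [ae_all_iff]
    intro n
    exact (hT.zpow n).quasiMeasurePreserving.ae hg
  filter_upwards [h1, h2] with x hx1 hx2 N
  unfold AN
  exact av_congr fun n _ => by rw [hx1 n, hx2 n]

theorem CV.add {u v : ℕ → ℂ} (hu : CV u) (hv : CV v) : CV fun N => u N + v N := by
  obtain ⟨a, ha⟩ := hu
  obtain ⟨b, hb⟩ := hv
  exact ⟨a + b, ha.add hb⟩

theorem CV.sub {u v : ℕ → ℂ} (hu : CV u) (hv : CV v) : CV fun N => u N - v N := by
  obtain ⟨a, ha⟩ := hu
  obtain ⟨b, hb⟩ := hv
  exact ⟨a - b, ha.sub hb⟩

theorem CV.const_mul {u : ℕ → ℂ} (hu : CV u) (c : ℂ) : CV fun N => c * u N := by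
  obtain ⟨a, ha⟩ := hu
  exact ⟨c * a, ha.const_mul c⟩

theorem CV.sum {ι : Type*} (s : Finset ι) {u : ι → ℕ → ℂ} (hu : ∀ i ∈ s, CV (u i)) :
    CV fun N => ∑ i ∈ s, u i N := by
  classical
  choose! a ha using hu
  exact ⟨∑ i ∈ s, a i, tendsto_finsetSum s ha⟩

end Pool.DRT
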