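import Pool.Agent.DRT.CptB
import Pool.Agent.DRT.Clo

set_option autoImplicit false
set_option linter.overlappingInstances false

/-!
# Adjoining the relatively compact functions

PROOF.  Let `𝒜` be the set of measurable bounded `f : X → ℂ` which are `L¹`-limits of finite linear
combinations of functions in `Cpt m μ S`.  `𝒜` is closed under sums, products and bounded pointwise limits.
Let `m' = {A measurable : 1_A ∈ 𝒜}`: it is a σ-algebra containing `m`.
Each `h ∈ Cpt` is `m'`-measurable: let `u = Re h` or `Im h`, `|u| ≤ 1`; every polynomial in `u` is a linear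
combination of functions in `Cpt`; by the Weierstrass theorem `φ ∘ u ∈ 𝒜` for `φ` continuous; the indicator of
`{u > t}` is the pointwise limit of `min 1 (j (u - t)⁺)`, so it is in `𝒜`, and `{u > t} ∈ m'`.
Invariance under `R = S, S⁻¹, T, T⁻¹`: if `1_A ∈ 𝒜` then `1_A ∘ R ∈ 𝒜` by `Cpt.comp` and because `R` preserves `μ`.
Convergence: let `f, g` be `m'`-measurable, bounded by one.  `f ∈ 𝒜` (approximation by simple functions with
sets in `m'`).  For `h ∈ Cpt`, `AN S T h g` converges a.e. by `hB`; so it does for linear combinations, and for `f` by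
`closure_av` (with the map `S` and the weights `w n x = g(T^n x)`).
-/

open MeasureTheory Filter Topology
open scoped ComplexConjugate NNReal ENNReal

noncomputable section

namespace Pool.DRT

variable {X : Type*} {m : MeasurableSpace X} [mX : MeasurableSpace X] {μ : Measure X}
  [IsProbabilityMeasure μ] {S T : Equiv.Perm X}

/-- the linear span of the relatively compact functions -/
def Adj_Sp (m : MeasurableSpace X) [mX : MeasurableSpace X] (μ : Measure X) (S : Equiv.Perm X) :
    Submodule ℂ (X → ℂ) := Submodule.span ℂ {h | Cpt m μ S h}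

omit [IsProbabilityMeasure μ] in
theorem Adj_Sp_meas {p : X → ℂ} (hp : p ∈ Adj_Sp m μ S) : Measurable p := by
  unfold Adj_Sp at hp
  induction hp using Submodule.span_induction with
  | mem x h => exact h.meas
  | zero => exact measurable_const
  | add x y _ _ hx hy => exact hx.add hy
  | smul a x _ hx => exact hx.const_smul a

omit [IsProbabilityMeasure μ] in
theorem Adj_Sp_bdd {p : X → ℂ} (hp : p ∈ Adj_Sp m μ S) : ∃ C : ℝ, ∀ x, ‖p x‖ ≤ C := by
  unfold Adj_Sp at hp
  induction hp using Submodule.span_induction with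
  | mem x h => exact ⟨1, h.bd⟩
  | zero => exact ⟨0, fun x => by simp⟩
  | add x y _ _ hx hy =>
    obtain ⟨A, hA⟩ := hx
    obtain ⟨B, hB⟩ := hy
    exact ⟨A + B, fun z => (norm_add_le _ _).trans (add_le_add (hA z) (hB z))⟩
  | smul a x _ hx =>
    obtain ⟨A, hA⟩ := hx
    refine ⟨‖a‖ * A, fun z => ?_⟩
    rw [Pi.smul_apply, norm_smul]
    exact mul_le_mul_of_nonneg_left (hA z) (norm_nonneg _)

theorem Adj_Sp_mul (hm : m ≤ mX) (hS : MP μ S) {p q : X → ℂ} (hp : p ∈ Adj_Sp m μ S)
    (hq : q ∈ Adj_Sp m μ S) : p * q ∈ Adj_Sp m μ S := by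
  have h1 : p * q ∈ Adj_Sp m μ S * Adj_Sp m μ S := Submodule.mul_mem_mul hp hq
  unfold Adj_Sp at h1 ⊢
  rw [Submodule.span_mul_span] at h1
  refine Submodule.span_mono ?_ h1
  rw [Set.mul_subset_iff]
  intro f hf g hg
  exact Cpt.mul hm hS hf hg

/-- bounded measurable functions in the `L¹` closure of the span -/
structure Adj_In (m : MeasurableSpace X) [mX : MeasurableSpace X] (μ : Measure X)
    (S : Equiv.Perm X) (f : X → ℂ) : Prop where
  meas : Measurable f
  bdd : ∃ C : ℝ, ∀ x, ‖f x‖ ≤ C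
  app : ∀ ε : ℝ, 0 < ε → ∃ p ∈ Adj_Sp m μ S, ∫ x, ‖f x - p x‖ ∂μ ≤ ε

theorem Adj_integrable {f : X → ℂ} (hf : Measurable f) (hb : ∃ C : ℝ, ∀ x, ‖f x‖ ≤ C) :
    Integrable f μ := by
  obtain ⟨C, hC⟩ := hb
  exact Integrable.of_bound hf.aestronglyMeasurable C (Eventually.of_forall hC)

theorem Adj_In_span {p : X → ℂ} (hp : p ∈ Adj_Sp m μ S) : Adj_In m μ S p :=
  ⟨Adj_Sp_meas hp, Adj_Sp_bdd hp, fun ε hε => ⟨p, hp, by simpa using hε.le⟩⟩

theorem Adj_In_add {f g : X → ℂ} (hf : Adj_In m μ S f) (hg : Adj_In m μ S g) :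
    Adj_In m μ S fun x => f x + g x := by
  refine ⟨hf.meas.add hg.meas, ?_, fun ε hε => ?_⟩
  · obtain ⟨A, hA⟩ := hf.bdd
    obtain ⟨B, hB⟩ := hg.bdd
    exact ⟨A + B, fun z => (norm_add_le _ _).trans (add_le_add (hA z) (hB z))⟩
  · obtain ⟨p, hp, h1⟩ := hf.app (ε / 2) (by positivity)
    obtain ⟨q, hq, h2⟩ := hg.app (ε / 2) (by positivity)
    refine ⟨p + q, Submodule.add_mem _ hp hq, ?_⟩
    have i1 : Integrable (fun x => f x - p x) μ :=
      (Adj_integrable hf.meas hf.bdd).sub (Adj_integrable (Adj_Sp_meas hp) (Adj_Sp_bdd hp))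
    have i2 : Integrable (fun x => g x - q x) μ :=
      (Adj_integrable hg.meas hg.bdd).sub (Adj_integrable (Adj_Sp_meas hq) (Adj_Sp_bdd hq))
    calc ∫ x, ‖f x + g x - (p + q) x‖ ∂μ ≤ ∫ x, (‖f x - p x‖ + ‖g x - q x‖) ∂μ := by
          refine integral_mono_of_nonneg (Eventually.of_forall fun x => norm_nonneg _)
            (i1.norm.add i2.norm) (Eventually.of_forall fun x => ?_)
          have e : f x + g x - (p + q) x = (f x - p x) + (g x - q x) := by
            rw [Pi.add_apply]; ring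
          change ‖f x + g x - (p + q) x‖ ≤ ‖f x - p x‖ + ‖g x - q x‖
          rw [e]
          exact norm_add_le _ _
      _ = (∫ x, ‖f x - p x‖ ∂μ) + ∫ x, ‖g x - q x‖ ∂μ := integral_add i1.norm i2.norm
      _ ≤ ε := by linarith

theorem Adj_In_mul (hm : m ≤ mX) (hS : MP μ S) {f g : X → ℂ} (hf : Adj_In m μ S f)
    (hg : Adj_In m μ S g) : Adj_In m μ S fun x => f x * g x := by
  obtain ⟨A, hA⟩ := hf.bdd
  obtain ⟨B, hB⟩ := hg.bdd
  refine ⟨hf.meas.mul hg.meas, ⟨A * B, fun x => ?_⟩, fun ε hε => ?_⟩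
  · rw [norm_mul]
    exact mul_le_mul (hA x) (hB x) (norm_nonneg _) ((norm_nonneg _).trans (hA x))
  · obtain ⟨q, hq, h2⟩ := hg.app (ε / (2 * (|A| + 1))) (by positivity)
    obtain ⟨C, hC⟩ := Adj_Sp_bdd hq
    obtain ⟨p, hp, h1⟩ := hf.app (ε / (2 * (|C| + 1))) (by positivity)
    refine ⟨p * q, Adj_Sp_mul hm hS hp hq, ?_⟩
    have i1 : Integrable (fun x => f x - p x) μ :=
      (Adj_integrable hf.meas hf.bdd).sub (Adj_integrable (Adj_Sp_meas hp) (Adj_Sp_bdd hp))
    have i2 : Integrable (fun x => g x - q x) μ :=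
      (Adj_integrable hg.meas hg.bdd).sub (Adj_integrable (Adj_Sp_meas hq) (Adj_Sp_bdd hq))
    calc ∫ x, ‖f x * g x - (p * q) x‖ ∂μ ≤
          ∫ x, ((|C| + 1) * ‖f x - p x‖ + (|A| + 1) * ‖g x - q x‖) ∂μ := by
          refine integral_mono_of_nonneg (Eventually.of_forall fun x => norm_nonneg _)
            ((i1.norm.const_mul _).add (i2.norm.const_mul _)) (Eventually.of_forall fun x => ?_)
          have e : f x * g x - (p * q) x = (f x - p x) * q x + f x * (g x - q x) := by
            rw [Pi.mul_apply]; ring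
          change ‖f x * g x - (p * q) x‖ ≤ (|C| + 1) * ‖f x - p x‖ + (|A| + 1) * ‖g x - q x‖
          rw [e]
          refine (norm_add_le _ _).trans (add_le_add ?_ ?_)
          · rw [norm_mul, mul_comm]
            refine mul_le_mul_of_nonneg_right ?_ (norm_nonneg _)
            linarith [hC x, le_abs_self C]
          · rw [norm_mul]
            refine mul_le_mul_of_nonneg_right ?_ (norm_nonneg _)
            linarith [hA x, le_abs_self A]
      _ = (|C| + 1) * (∫ x, ‖f x - p x‖ ∂μ) + (|A| + 1) * ∫ x, ‖g x - q x‖ ∂μ := by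
          rw [integral_add (i1.norm.const_mul _) (i2.norm.const_mul _), integral_const_mul,
            integral_const_mul]
      _ ≤ (|C| + 1) * (ε / (2 * (|C| + 1))) + (|A| + 1) * (ε / (2 * (|A| + 1))) := by
          gcongr
      _ = ε := by
          field_simp
          ring

theorem Adj_In_lim {F : ℕ → X → ℂ} {f : X → ℂ} {C : ℝ} (hF : ∀ n, Adj_In m μ S (F n))
    (hC : ∀ n x, ‖F n x‖ ≤ C) (hl : ∀ x, Tendsto (fun n => F n x) atTop (𝓝 (f x))) :
    Adj_In m μ S f := by
  have hfm : Measurable f := measurable_of_tendsto_metrizable (fun n => (hF n).meas)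
    (tendsto_pi_nhds.2 hl)
  have hfb : ∀ x, ‖f x‖ ≤ C := fun x =>
    le_of_tendsto (hl x).norm (Eventually.of_forall fun n => hC n x)
  refine ⟨hfm, ⟨C, hfb⟩, fun ε hε => ?_⟩
  have h1 : Tendsto (fun n => ∫ x, ‖f x - F n x‖ ∂μ) atTop (𝓝 (∫ _x, (0 : ℝ) ∂μ)) := by
    refine tendsto_integral_of_dominated_convergence (fun _ => 2 * C)
      (fun n => (hfm.sub (hF n).meas).norm.aestronglyMeasurable) (integrable_const _)
      (fun n => Eventually.of_forall fun x => ?_) (Eventually.of_forall fun x => ?_)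
    · rw [norm_norm]
      refine (norm_sub_le _ _).trans ?_
      linarith [hfb x, hC n x]
    · have h2 : Tendsto (fun n => f x - F n x) atTop (𝓝 (f x - f x)) := (hl x).const_sub (f x)
      rw [sub_self] at h2
      simpa using h2.norm
  rw [integral_zero] at h1
  obtain ⟨n, hn⟩ := (h1.eventually (gt_mem_nhds (show (0 : ℝ) < ε / 2 by positivity))).exists
  obtain ⟨p, hp, hpe⟩ := (hF n).app (ε / 2) (by positivity)
  refine ⟨p, hp, ?_⟩
  have i1 : Integrable (fun x => f x - F n x) μ :=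
    (Adj_integrable hfm ⟨C, hfb⟩).sub (Adj_integrable (hF n).meas (hF n).bdd)
  have i2 : Integrable (fun x => F n x - p x) μ :=
    (Adj_integrable (hF n).meas (hF n).bdd).sub
      (Adj_integrable (Adj_Sp_meas hp) (Adj_Sp_bdd hp))
  calc ∫ x, ‖f x - p x‖ ∂μ ≤ ∫ x, (‖f x - F n x‖ + ‖F n x - p x‖) ∂μ := by
        refine integral_mono_of_nonneg (Eventually.of_forall fun x => norm_nonneg _)
          (i1.norm.add i2.norm) (Eventually.of_forall fun x => ?_)
        have e : f x - p x = (f x - F n x) + (F n x - p x) := by ring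
        change ‖f x - p x‖ ≤ ‖f x - F n x‖ + ‖F n x - p x‖
        rw [e]
        exact norm_add_le _ _
    _ = (∫ x, ‖f x - F n x‖ ∂μ) + ∫ x, ‖F n x - p x‖ ∂μ := integral_add i1.norm i2.norm
    _ ≤ ε := by linarith

theorem Adj_In_comp {R : Equiv.Perm X} (hm : m ≤ mX) (hR : MP μ R) (hRI : Inv m R)
    (hc : Commute S R) {f : X → ℂ} (hf : Adj_In m μ S f) : Adj_In m μ S fun x => f (R x) := by
  refine ⟨hf.meas.comp hR.1.measurable, ?_, fun ε hε => ?_⟩
  · obtain ⟨C, hC⟩ := hf.bdd
    exact ⟨C, fun x => hC _⟩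
  · obtain ⟨p, hp, hpe⟩ := hf.app ε hε
    refine ⟨fun x => p (R x), ?_, ?_⟩
    · clear hpe
      unfold Adj_Sp at hp ⊢
      induction hp using Submodule.span_induction with
      | mem x h => exact Submodule.subset_span (Cpt.comp hm hR hRI hc h)
      | zero => exact Submodule.zero_mem _
      | add x y _ _ hx hy => exact Submodule.add_mem _ hx hy
      | smul a x _ hx => exact Submodule.smul_mem _ a hx
    · rw [CptB_integral_comp hR (fun x => ‖f x - p x‖)]
      exact hpe

theorem Adj_one (hm : m ≤ mX) (hS : MP μ S) (hI : Inv m S) :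
    (fun _ => (1 : ℂ)) ∈ Adj_Sp m μ S := by
  refine Submodule.subset_span (Cpt.of_meas hm hS hI measurable_const ?_)
  intro x
  simp

theorem Adj_const (hm : m ≤ mX) (hS : MP μ S) (hI : Inv m S) (c : ℂ) :
    (fun _ => c) ∈ Adj_Sp m μ S := by
  have h := Submodule.smul_mem _ c (Adj_one (μ := μ) hm hS hI)
  have e : c • (fun _ : X => (1 : ℂ)) = fun _ => c := by
    funext x; simp
  rwa [e] at h

theorem Adj_In_const_mul (hm : m ≤ mX) (hS : MP μ S) (hI : Inv m S) (c : ℂ) {f : X → ℂ}
    (hf : Adj_In m μ S f) : Adj_In m μ S fun x => c * f x :=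
  Adj_In_mul hm hS (Adj_In_span (Adj_const hm hS hI c)) hf

/-- the sets whose indicators are in the closure of the span -/
def Adj_set (m : MeasurableSpace X) [mX : MeasurableSpace X] (μ : Measure X) (S : Equiv.Perm X)
    (A : Set X) : Prop := MeasurableSet[mX] A ∧ Adj_In m μ S (A.indicator fun _ => (1 : ℂ))

theorem Adj_set_compl (hm : m ≤ mX) (hS : MP μ S) (hI : Inv m S) {A : Set X}
    (hA : Adj_set m μ S A) : Adj_set m μ S Aᶜ := by
  refine ⟨hA.1.compl, ?_⟩
  have h := Adj_In_add (Adj_In_span (Adj_one (μ := μ) hm hS hI))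
    (Adj_In_const_mul hm hS hI (-1) hA.2)
  have e : (Aᶜ.indicator fun _ => (1 : ℂ)) = fun x => 1 + -1 * A.indicator (fun _ => (1 : ℂ)) x := by
    funext x
    by_cases hx : x ∈ A
    · simp [hx]
    · simp [hx]
  rw [e]
  exact h

theorem Adj_set_inter (hm : m ≤ mX) (hS : MP μ S) {A B : Set X}
    (hA : Adj_set m μ S A) (hB : Adj_set m μ S B) : Adj_set m μ S (A ∩ B) := by
  refine ⟨hA.1.inter hB.1, ?_⟩
  have h := Adj_In_mul hm hS hA.2 hB.2
  have e : ((A ∩ B).indicator fun _ => (1 : ℂ)) =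
      fun x => A.indicator (fun _ => (1 : ℂ)) x * B.indicator (fun _ => (1 : ℂ)) x := by
    funext x
    by_cases hx : x ∈ A
    · by_cases hy : x ∈ B
      · simp [hx, hy]
      · simp [hx, hy]
    · simp [hx]
  rw [e]
  exact h

theorem Adj_set_union (hm : m ≤ mX) (hS : MP μ S) (hI : Inv m S) {A B : Set X}
    (hA : Adj_set m μ S A) (hB : Adj_set m μ S B) : Adj_set m μ S (A ∪ B) := by
  have h := Adj_set_compl hm hS hI
    (Adj_set_inter hm hS (Adj_set_compl hm hS hI hA) (Adj_set_compl hm hS hI hB))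
  rwa [← Set.compl_union, compl_compl] at h

theorem Adj_set_empty (hm : m ≤ mX) (hS : MP μ S) (hI : Inv m S) : Adj_set m μ S (∅ : Set X) := by
  refine ⟨MeasurableSet.empty, ?_⟩
  rw [Set.indicator_empty]
  exact Adj_In_span (Adj_const hm hS hI 0)

theorem Adj_set_lim {B : ℕ → Set X} {A : Set X} (hB : ∀ n, Adj_set m μ S (B n))
    (hA : MeasurableSet[mX] A)
    (hl : ∀ x, ∀ᶠ n in atTop, (x ∈ B n ↔ x ∈ A)) : Adj_set m μ S A := by
  refine ⟨hA, Adj_In_lim (fun n => (hB n).2) (C := 1) (fun n x => ?_) fun x => ?_⟩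
  · by_cases hx : x ∈ B n
    · simp [hx]
    · simp [hx]
  · refine tendsto_const_nhds.congr' ?_
    filter_upwards [hl x] with n hn
    by_cases hx : x ∈ A
    · simp [hx, hn.2 hx]
    · have : x ∉ B n := fun h => hx (hn.1 h)
      simp [hx, this]

/-- the sigma-algebra of these sets -/
@[instance_reducible]
def Adj_alg (m : MeasurableSpace X) [mX : MeasurableSpace X] (μ : Measure X)
    [IsProbabilityMeasure μ] (S : Equiv.Perm X) (hm : m ≤ mX) (hS : MP μ S) (hI : Inv m S) :
    MeasurableSpace X where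
  MeasurableSet' A := Adj_set m μ S A
  measurableSet_empty := Adj_set_empty hm hS hI
  measurableSet_compl _ h := Adj_set_compl hm hS hI h
  measurableSet_iUnion A hA := by
    have h1 : ∀ n : ℕ, Adj_set m μ S (⋃ i ∈ Finset.range n, A i) := by
      intro n
      induction n with
      | zero => simpa using Adj_set_empty (μ := μ) hm hS hI
      | succ n ih =>
        have e : (⋃ i ∈ Finset.range (n + 1), A i) = A n ∪ ⋃ i ∈ Finset.range n, A i := by
          rw [Finset.range_add_one, Finset.set_biUnion_insert]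
        rw [e]
        exact Adj_set_union hm hS hI (hA n) ih
    refine Adj_set_lim h1 (MeasurableSet.iUnion fun i => (hA i).1) fun x => ?_
    by_cases hx : x ∈ ⋃ i, A i
    · obtain ⟨i, hi⟩ := Set.mem_iUnion.1 hx
      filter_upwards [eventually_gt_atTop i] with n hn
      refine ⟨fun _ => hx, fun _ => ?_⟩
      exact Set.mem_iUnion₂.2 ⟨i, Finset.mem_range.2 hn, hi⟩
    · refine Eventually.of_forall fun n => ⟨fun h => ?_, fun h => absurd h hx⟩
      obtain ⟨i, _, hi⟩ := Set.mem_iUnion₂.1 h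
      exact Set.mem_iUnion.2 ⟨i, hi⟩

theorem Adj_poly (hm : m ≤ mX) (hS : MP μ S) (hI : Inv m S) {u : X → ℝ}
    (hu : (fun x => (u x : ℂ)) ∈ Adj_Sp m μ S) (p : Polynomial ℝ) :
    (fun x => ((p.eval (u x) : ℝ) : ℂ)) ∈ Adj_Sp m μ S := by
  induction p using Polynomial.induction_on' with
  | add p q hp hq =>
    have h := Submodule.add_mem _ hp hq
    convert h using 1
    funext x
    simp
  | monomial n a =>
    have h : ∀ n : ℕ, (fun x => (u x : ℂ)) ^ n ∈ Adj_Sp m μ S := by
      intro n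
      induction n with
      | zero => exact Adj_one hm hS hI
      | succ n ih =>
        rw [pow_succ]
        exact Adj_Sp_mul hm hS ih hu
    have h2 := Submodule.smul_mem _ (a : ℂ) (h n)
    convert h2 using 1
    funext x
    simp

theorem Adj_cont (hm : m ≤ mX) (hS : MP μ S) (hI : Inv m S) {u : X → ℝ}
    (hu : (fun x => (u x : ℂ)) ∈ Adj_Sp m μ S) (hum : Measurable u) (hub : ∀ x, |u x| ≤ 1)
    {φ : ℝ → ℝ} (hφ : Continuous φ) {C : ℝ} (hφb : ∀ t, |φ t| ≤ C) :
    Adj_In m μ S fun x => ((φ (u x) : ℝ) : ℂ) := by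
  refine ⟨Complex.measurable_ofReal.comp (hφ.measurable.comp hum), ⟨C, fun x => ?_⟩,
    fun ε hε => ?_⟩
  · rw [Complex.norm_real]; exact hφb _
  · obtain ⟨p, hp⟩ := exists_polynomial_near_of_continuousOn (-1) 1 φ hφ.continuousOn ε hε
    refine ⟨_, Adj_poly hm hS hI hu p, ?_⟩
    calc ∫ x, ‖((φ (u x) : ℝ) : ℂ) - ((p.eval (u x) : ℝ) : ℂ)‖ ∂μ ≤ ∫ _x, ε ∂μ := by
          refine integral_mono_of_nonneg (Eventually.of_forall fun x => norm_nonneg _)
            (integrable_const _) (Eventually.of_forall fun x => ?_)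
          change ‖((φ (u x) : ℝ) : ℂ) - ((p.eval (u x) : ℝ) : ℂ)‖ ≤ ε
          rw [← Complex.ofReal_sub, Complex.norm_real, Real.norm_eq_abs, abs_sub_comm]
          exact (hp _ (abs_le.1 (hub x))).le
      _ = ε := by simp

theorem Adj_level (hm : m ≤ mX) (hS : MP μ S) (hI : Inv m S) {u : X → ℝ}
    (hu : (fun x => (u x : ℂ)) ∈ Adj_Sp m μ S) (hum : Measurable u) (hub : ∀ x, |u x| ≤ 1)
    (t : ℝ) : Adj_set m μ S (u ⁻¹' Set.Ioi t) := by
  refine ⟨hum measurableSet_Ioi, ?_⟩
  have hφ : ∀ j : ℕ, Continuous fun s : ℝ => min 1 (max 0 ((j : ℝ) * (s - t))) := by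
    intro j; fun_prop
  have h0 : ∀ (j : ℕ) (s : ℝ), 0 ≤ min 1 (max 0 ((j : ℝ) * (s - t))) := fun j s =>
    le_min zero_le_one (le_max_left _ _)
  have h1 : ∀ (j : ℕ) (s : ℝ), |min 1 (max 0 ((j : ℝ) * (s - t)))| ≤ 1 := fun j s => by
    rw [abs_of_nonneg (h0 j s)]
    exact min_le_left _ _
  refine Adj_In_lim (F := fun j x => ((min 1 (max 0 ((j : ℝ) * (u x - t))) : ℝ) : ℂ)) (C := 1)
    (fun j => Adj_cont hm hS hI hu hum hub (hφ j) (h1 j)) (fun j x => ?_) fun x => ?_
  · rw [Complex.norm_real]; exact h1 j _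
  · by_cases hx : t < u x
    · have hx' : x ∈ u ⁻¹' Set.Ioi t := hx
      rw [Set.indicator_of_mem hx']
      refine tendsto_const_nhds.congr' ?_
      obtain ⟨J, hJ⟩ := exists_nat_gt (1 / (u x - t))
      filter_upwards [eventually_ge_atTop J] with j hj
      have h2 : 0 < u x - t := by linarith
      have h3 : 1 ≤ (j : ℝ) * (u x - t) := by
        rw [div_lt_iff₀ h2] at hJ
        have h4 : (J : ℝ) ≤ j := by exact_mod_cast hj
        nlinarith
      rw [min_eq_left (h3.trans (le_max_right _ _))]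
      simp
    · have hx' : x ∉ u ⁻¹' Set.Ioi t := hx
      rw [Set.indicator_of_notMem hx']
      refine tendsto_const_nhds.congr' (Eventually.of_forall fun j => ?_)
      have h2 : (j : ℝ) * (u x - t) ≤ 0 :=
        mul_nonpos_of_nonneg_of_nonpos (Nat.cast_nonneg j) (by linarith [not_lt.1 hx])
      change (0 : ℂ) = ((min 1 (max 0 ((j : ℝ) * (u x - t))) : ℝ) : ℂ)
      rw [max_eq_left h2]
      simp

theorem Adj_re_im (hm : m ≤ mX) (hS : MP μ S) (hI : Inv m S) {h : X → ℂ} (hh : Cpt m μ S h) :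
    (fun x => (((h x).re : ℝ) : ℂ)) ∈ Adj_Sp m μ S ∧
      (fun x => (((h x).im : ℝ) : ℂ)) ∈ Adj_Sp m μ S := by
  have _ := hm
  have _ := hS
  have _ := hI
  have h1 : h ∈ Adj_Sp m μ S := Submodule.subset_span hh
  have h2 : (fun x => conj (h x)) ∈ Adj_Sp m μ S := Submodule.subset_span hh.conj
  constructor
  · have h3 := Submodule.smul_mem _ (2⁻¹ : ℂ) (Submodule.add_mem _ h1 h2)
    convert h3 using 1
    funext x
    simp only [Pi.smul_apply, Pi.add_apply, smul_eq_mul]
    rw [Complex.add_conj]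
    push_cast
    ring
  · have h3 := Submodule.smul_mem _ ((2 * Complex.I)⁻¹ : ℂ) (Submodule.sub_mem _ h1 h2)
    convert h3 using 1
    funext x
    simp only [Pi.smul_apply, Pi.sub_apply, smul_eq_mul]
    rw [Complex.sub_conj]
    push_cast
    field_simp

theorem Adj_cpt_meas (hm : m ≤ mX) (hS : MP μ S) (hI : Inv m S) {h : X → ℂ}
    (hh : Cpt m μ S h) : Measurable[Adj_alg m μ S hm hS hI] h := by
  have hre : Measurable[Adj_alg m μ S hm hS hI] fun x => (h x).re := by
    refine @measurable_of_Ioi ℝ X _ _ _ (Adj_alg m μ S hm hS hI) _ _ _ _ fun t => ?_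
    exact Adj_level hm hS hI (Adj_re_im hm hS hI hh).1 (Complex.measurable_re.comp hh.meas)
      (fun x => (Complex.abs_re_le_norm _).trans (hh.bd x)) t
  have him : Measurable[Adj_alg m μ S hm hS hI] fun x => (h x).im := by
    refine @measurable_of_Ioi ℝ X _ _ _ (Adj_alg m μ S hm hS hI) _ _ _ _ fun t => ?_
    exact Adj_level hm hS hI (Adj_re_im hm hS hI hh).2 (Complex.measurable_im.comp hh.meas)
      (fun x => (Complex.abs_im_le_norm _).trans (hh.bd x)) t
  exact @measurable_of_re_im X ℂ _ (Adj_alg m μ S hm hS hI) h hre him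

theorem Adj_le (hm : m ≤ mX) (hS : MP μ S) (hI : Inv m S) : m ≤ Adj_alg m μ S hm hS hI := by
  intro A hA
  refine ⟨hm A hA, Adj_In_span (Submodule.subset_span (Cpt.of_meas hm hS hI ?_ ?_))⟩
  · exact measurable_const.indicator hA
  · intro x
    by_cases hx : x ∈ A
    · simp [hx]
    · simp [hx]

theorem Adj_inv {R : Equiv.Perm X} (hm : m ≤ mX) (hS : MP μ S) (hI : Inv m S) (hR : MP μ R)
    (hRI : Inv m R) (hc : Commute S R) :
    Measurable[Adj_alg m μ S hm hS hI, Adj_alg m μ S hm hS hI] R := by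
  intro A hA
  exact ⟨hR.1.measurable hA.1, Adj_In_comp hm hR hRI hc hA.2⟩

theorem Adj_In_meas (hm : m ≤ mX) (hS : MP μ S) (hI : Inv m S) {f : X → ℂ}
    (hf : Measurable[Adj_alg m μ S hm hS hI] f) (hb : Bd f) : Adj_In m μ S f := by
  have hsf : StronglyMeasurable[Adj_alg m μ S hm hS hI] f := hf.stronglyMeasurable
  have hsimple : ∀ g : @SimpleFunc X (Adj_alg m μ S hm hS hI) ℂ, Adj_In m μ S g := by
    intro g
    refine @SimpleFunc.induction X ℂ (Adj_alg m μ S hm hS hI) _ (fun g => Adj_In m μ S g)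
      ?_ ?_ g
    · intro c A hA
      have h := Adj_In_const_mul hm hS hI c (show Adj_set m μ S A from hA).2
      convert h using 1
      funext x
      by_cases hx : x ∈ A
      · simp [hx]
      · simp [hx]
    · intro f g _ hf hg
      exact Adj_In_add hf hg
  refine Adj_In_lim (F := fun n x => hsf.approxBounded 1 n x) (C := 1)
    (fun n => hsimple (hsf.approxBounded 1 n)) (fun n x => ?_) fun x => ?_
  · exact hsf.norm_approxBounded_le zero_le_one n x
  · exact hsf.tendsto_approxBounded_of_norm_le (hb x)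

theorem adjoin (hS : MP μ S) (hT : MP μ T) (hST : Commute S T) (hG : Good m μ S T)
    (hB : ∀ f g : X → ℂ, Cpt m μ S f → Measurable g → Bd g →
      ∀ᵐ x ∂μ, CV fun N => AN S T f g N x) :
    ∃ m' : MeasurableSpace X, m ≤ m' ∧ @Good X m' mX μ S T ∧
      ∀ h : X → ℂ, @Cpt X m mX μ S h → Measurable[m'] h := by
  have hm := hG.le
  have hI := hG.invS
  refine ⟨Adj_alg m μ S hm hS hI, Adj_le hm hS hI, ⟨fun A hA => hA.1, ?_, ?_, ?_⟩,
    fun h hh => Adj_cpt_meas hm hS hI hh⟩
  · exact ⟨Adj_inv hm hS hI hS hG.invS (Commute.refl S),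
      Adj_inv hm hS hI hS.inv ⟨hG.invS.2, by rw [inv_inv]; exact hG.invS.1⟩
        (Commute.refl S).inv_right⟩
  · exact ⟨Adj_inv hm hS hI hT hG.invT hST,
      Adj_inv hm hS hI hT.inv ⟨hG.invT.2, by rw [inv_inv]; exact hG.invT.1⟩ hST.inv_right⟩
  · intro f g hf hg hfb hgb
    have hle : Adj_alg m μ S hm hS hI ≤ mX := fun A hA => hA.1
    have hfI := Adj_In_meas hm hS hI hf hfb
    have hgm : Measurable g := hg.mono hle le_rfl
    have h := closure_av hS (w := fun n x => g ((T ^ n) x)) (C := 1) (fun n x => hgb _)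
      (Adj_integrable hfI.meas hfI.bdd) (fun ε hε => by
        obtain ⟨p, hp, hpe⟩ := hfI.app ε hε
        refine ⟨p, Adj_integrable (Adj_Sp_meas hp) (Adj_Sp_bdd hp), hpe, ?_⟩
        clear hpe
        unfold Adj_Sp at hp
        induction hp using Submodule.span_induction with
        | mem x h =>
          filter_upwards [hB x g h hgm hgb] with y hy
          simpa only [AN, mul_comm] using hy
        | zero => exact Eventually.of_forall fun y => ⟨0, by simp [av_zero]⟩
        | add x y _ _ hx hy =>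
          filter_upwards [hx, hy] with z h1 h2
          have h3 := h1.add h2
          simpa only [← av_add, ← mul_add, Pi.add_apply] using h3
        | smul a x _ hx =>
          filter_upwards [hx] with z h1
          have h3 := h1.const_mul a
          simp only [← av_mul_left] at h3
          have e : ∀ n : ℤ, a * (g ((T ^ n) z) * x ((S ^ n) z)) =
              g ((T ^ n) z) * (a • x) ((S ^ n) z) := by
            intro n
            rw [Pi.smul_apply, smul_eq_mul]; ring
          simpa only [e] using h3)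
    filter_upwards [h] with x hx
    simpa only [AN, mul_comm] using hx

end Pool.DRT
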