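import Pool.Agent.DRT.Clo

set_option autoImplicit false

/-!
# Upper bounds of chains of good factors

PROOF.  Let `m'` be generated by the union of the algebras `m ∈ 𝒞`.  Every set `A` of `m'` can be approximated:
for all `ε > 0` there are `m ∈ 𝒞` and `B ∈ m` with `μ(A Δ B) ≤ ε` (complements: same `B`; finite unions: both `B`
lie in the larger of the two algebras; countable unions: approximate by a finite union, continuity from below).
It contains all `m ∈ 𝒞`, and it is invariant under `S, S⁻¹, T, T⁻¹`.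
Convergence: let `f, g` be `m'`-measurable, bounded by one.  By simple functions there are
for every `ε` an `m₁ ∈ 𝒞` and an `m₁`-measurable bounded `f₁` with `∫ ‖f - f₁‖ ≤ ε`, the same for `g`; the larger of the two
algebras works for both.  So: (1) for `g₁` measurable with respect to some `m ∈ 𝒞` and bounded and `f₁` too,
`AN S T f₁ g₁` converges a.e. (`Good.cv`, scaling); (2) for such `g₁` and `f` as above: `closure_av` for the map `S`, weights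
`g₁(T^n x)`, approximating `f` by `f₁` (which may be taken in a larger algebra of the chain than `g₁`); (3) for `f`, `g`:
`closure_av` for the map `T`, weights `f(S^n x)`, approximating `g` by `g₁`.
-/

open MeasureTheory Filter Topology
open scoped ComplexConjugate NNReal ENNReal

noncomputable section

namespace Pool.DRT

variable {X : Type*} [mX : MeasurableSpace X] {μ : Measure X}
  [IsProbabilityMeasure μ] {S T : Equiv.Perm X}

/-- the algebra generated by a family of algebras -/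
@[reducible] def Chain_gen (𝒞 : Set (MeasurableSpace X)) : MeasurableSpace X :=
  MeasurableSpace.generateFrom {s | ∃ m ∈ 𝒞, MeasurableSet[m] s}

omit mX in
theorem Chain_le_gen {𝒞 : Set (MeasurableSpace X)} {m : MeasurableSpace X} (hm : m ∈ 𝒞) :
    m ≤ Chain_gen 𝒞 := fun _ hs =>
  MeasurableSpace.measurableSet_generateFrom ⟨m, hm, hs⟩

omit mX in
theorem Chain_gen_le {𝒞 : Set (MeasurableSpace X)} {m' : MeasurableSpace X}
    (h : ∀ m ∈ 𝒞, m ≤ m') : Chain_gen 𝒞 ≤ m' := by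
  apply MeasurableSpace.generateFrom_le
  rintro t ⟨m, hm, ht⟩
  exact h m hm t ht

omit mX in
theorem Chain_gen_meas {𝒞 : Set (MeasurableSpace X)} {f : X → X}
    (h : ∀ m ∈ 𝒞, Measurable[m, m] f) : Measurable[Chain_gen 𝒞, Chain_gen 𝒞] f := by
  apply @measurable_generateFrom X X (Chain_gen 𝒞)
  rintro t ⟨m, hm, ht⟩
  exact Chain_le_gen hm _ (h m hm ht)

omit mX in
theorem Chain_gen_inv {𝒞 : Set (MeasurableSpace X)} {R : Equiv.Perm X}
    (h : ∀ m ∈ 𝒞, Inv m R) : Inv (Chain_gen 𝒞) R :=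
  ⟨Chain_gen_meas fun m hm => (h m hm).1, Chain_gen_meas fun m hm => (h m hm).2⟩

omit mX in
theorem Chain_max {𝒞 : Set (MeasurableSpace X)} (hC : IsChain (· ≤ ·) 𝒞)
    (i j : 𝒞) : ∃ k : 𝒞, i.1 ≤ k.1 ∧ j.1 ≤ k.1 := by
  rcases hC.total i.2 j.2 with h | h
  · exact ⟨j, h, le_rfl⟩
  · exact ⟨i, le_rfl, h⟩

/-- approximable sets -/
def Chain_apx (μ : Measure X) (𝒞 : Set (MeasurableSpace X)) (A : Set X) : Prop :=
  ∀ ε : ℝ≥0∞, 0 < ε → ∃ i : 𝒞, ∃ B : Set X, MeasurableSet[i.1] B ∧ μ (symmDiff A B) ≤ ε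

omit [IsProbabilityMeasure μ] in
theorem Chain_apx_union {𝒞 : Set (MeasurableSpace X)} (hC : IsChain (· ≤ ·) 𝒞) {A A' : Set X}
    (h : Chain_apx μ 𝒞 A) (h' : Chain_apx μ 𝒞 A') : Chain_apx μ 𝒞 (A ∪ A') := by
  intro ε hε
  obtain ⟨i, B, hB, hB2⟩ := h (ε / 2) (ENNReal.half_pos hε.ne')
  obtain ⟨j, B', hB', hB2'⟩ := h' (ε / 2) (ENNReal.half_pos hε.ne')
  obtain ⟨k, h1, h2⟩ := Chain_max hC i j
  refine ⟨k, B ∪ B', @MeasurableSet.union X k.1 _ _ (h1 _ hB) (h2 _ hB'), ?_⟩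
  calc μ (symmDiff (A ∪ A') (B ∪ B')) ≤ μ (symmDiff A B ∪ symmDiff A' B') := by
        apply measure_mono
        intro x hx
        simp only [Set.mem_symmDiff, Set.mem_union] at hx ⊢
        tauto
    _ ≤ μ (symmDiff A B) + μ (symmDiff A' B') := measure_union_le _ _
    _ ≤ ε / 2 + ε / 2 := add_le_add hB2 hB2'
    _ = ε := ENNReal.add_halves ε

theorem Chain_apx_gen {𝒞 : Set (MeasurableSpace X)} (hC : IsChain (· ≤ ·) 𝒞) (hne : 𝒞.Nonempty)
    (hle : ∀ m ∈ 𝒞, m ≤ mX) {A : Set X} (hA : MeasurableSet[Chain_gen 𝒞] A) :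
    Chain_apx μ 𝒞 A := by
  have hA' : MeasurableSpace.GenerateMeasurable {s | ∃ m ∈ 𝒞, MeasurableSet[m] s} A := hA
  clear hA
  induction hA' with
  | basic u hu =>
    intro ε hε
    obtain ⟨m, hm, h⟩ := hu
    exact ⟨⟨m, hm⟩, u, h, by simp⟩
  | empty =>
    intro ε hε
    obtain ⟨m, hm⟩ := hne
    exact ⟨⟨m, hm⟩, ∅, @MeasurableSet.empty X m, by simp⟩
  | compl t ht ih =>
    intro ε hε
    obtain ⟨i, B, hB, hB2⟩ := ih ε hε
    refine ⟨i, Bᶜ, @MeasurableSet.compl X B i.1 hB, ?_⟩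
    rw [compl_symmDiff_compl]
    exact hB2
  | iUnion f hf ih =>
    have hmeas : ∀ n, MeasurableSet (f n) := fun n => Chain_gen_le hle _ (hf n)
    have hacc : ∀ n, Chain_apx μ 𝒞 (Set.accumulate f n) := by
      intro n
      induction n with
      | zero => rw [Set.accumulate_zero_nat]; exact ih 0
      | succ n ihn => rw [Set.accumulate_succ]; exact Chain_apx_union hC ihn (ih (n + 1))
    intro ε hε
    have hlim : Tendsto (fun n => μ (⋃ i, f i) - μ (Set.accumulate f n)) atTop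
        (𝓝 (μ (⋃ i, f i) - μ (⋃ i, f i))) :=
      ENNReal.Tendsto.sub tendsto_const_nhds (tendsto_measure_iUnion_accumulate)
        (Or.inl (measure_ne_top _ _))
    rw [tsub_self] at hlim
    have hev : ∀ᶠ n in atTop, μ (⋃ i, f i) - μ (Set.accumulate f n) < ε / 2 :=
      hlim.eventually_lt_const (ENNReal.half_pos hε.ne')
    obtain ⟨n, hn⟩ := hev.exists
    obtain ⟨i, B, hB, hB2⟩ := hacc n (ε / 2) (ENNReal.half_pos hε.ne')
    refine ⟨i, B, hB, ?_⟩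
    have hsub : Set.accumulate f n ⊆ ⋃ i, f i := Set.accumulate_subset_iUnion n
    have hdiff : μ ((⋃ i, f i) \ Set.accumulate f n) ≤ ε / 2 := by
      have hma : MeasurableSet (Set.accumulate f n) := by
        rw [Set.accumulate_def]
        exact MeasurableSet.biUnion (Set.to_countable _) fun i _ => hmeas i
      rw [measure_sdiff hsub hma.nullMeasurableSet (measure_ne_top _ _)]
      exact hn.le
    calc μ (symmDiff (⋃ i, f i) B) ≤
          μ (((⋃ i, f i) \ Set.accumulate f n) ∪ symmDiff (Set.accumulate f n) B) := by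
          apply measure_mono
          intro x hx
          have hs := @hsub x
          simp only [Set.mem_symmDiff, Set.mem_union, Set.mem_sdiff] at hx ⊢
          tauto
      _ ≤ μ ((⋃ i, f i) \ Set.accumulate f n) + μ (symmDiff (Set.accumulate f n) B) :=
          measure_union_le _ _
      _ ≤ ε / 2 + ε / 2 := add_le_add hdiff hB2
      _ = ε := ENNReal.add_halves ε

/-- functions which can be approximated by bounded functions of the algebras of the chain -/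
def Chain_Q (μ : Measure X) (𝒞 : Set (MeasurableSpace X)) (f : X → ℂ) : Prop :=
  Measurable f ∧ (∃ C : ℝ, ∀ x, ‖f x‖ ≤ C) ∧ ∀ ε : ℝ, 0 < ε → ∃ i : 𝒞, ∃ f₁ : X → ℂ,
    Measurable[i.1] f₁ ∧ (∃ C : ℝ, ∀ x, ‖f₁ x‖ ≤ C) ∧ ∫ x, ‖f x - f₁ x‖ ∂μ ≤ ε

theorem Chain_integrable {f : X → ℂ} (hf : Measurable f) {C : ℝ} (hC : ∀ x, ‖f x‖ ≤ C) :
    Integrable f μ :=
  Integrable.of_bound hf.aestronglyMeasurable C (Filter.Eventually.of_forall hC)

omit [IsProbabilityMeasure μ] in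
theorem Chain_Q_ind {𝒞 : Set (MeasurableSpace X)} (hle : ∀ m ∈ 𝒞, m ≤ mX) {A : Set X}
    (hA : MeasurableSet A) (h : Chain_apx μ 𝒞 A) (c : ℂ) :
    Chain_Q μ 𝒞 (A.indicator fun _ => c) := by
  have hbd : ∀ (D : Set X) (x : X), ‖D.indicator (fun _ => c) x‖ ≤ ‖c‖ := by
    intro D x
    exact norm_indicator_le_norm_self _ _
  refine ⟨measurable_const.indicator hA, ⟨‖c‖, hbd A⟩, ?_⟩
  intro ε hε
  have hc : 0 < ‖c‖ + 1 := by positivity
  obtain ⟨i, B, hB, hB2⟩ := h (ENNReal.ofReal (ε / (‖c‖ + 1)))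
    (ENNReal.ofReal_pos.2 (by positivity))
  have hBX : MeasurableSet B := hle i.1 i.2 B hB
  refine ⟨i, B.indicator fun _ => c, ?_, ⟨‖c‖, hbd B⟩, ?_⟩
  · exact (@measurable_const ℂ X _ i.1 c).indicator hB
  · have h1 : ∀ x, ‖A.indicator (fun _ => c) x - B.indicator (fun _ => c) x‖ =
        (symmDiff A B).indicator (fun _ => ‖c‖) x := by
      intro x
      by_cases ha : x ∈ A <;> by_cases hb : x ∈ B <;>
        simp [Set.indicator, Set.mem_symmDiff, ha, hb]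
    simp_rw [h1]
    rw [integral_indicator (hA.symmDiff hBX), setIntegral_const, smul_eq_mul]
    have h2 : μ.real (symmDiff A B) ≤ ε / (‖c‖ + 1) :=
      ENNReal.toReal_le_of_le_ofReal (by positivity) hB2
    calc μ.real (symmDiff A B) * ‖c‖ ≤ ε / (‖c‖ + 1) * ‖c‖ :=
          mul_le_mul_of_nonneg_right h2 (norm_nonneg _)
      _ ≤ ε / (‖c‖ + 1) * (‖c‖ + 1) := mul_le_mul_of_nonneg_left (by linarith) (by positivity)
      _ = ε := div_mul_cancel₀ _ hc.ne'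

omit [IsProbabilityMeasure μ] in
theorem Chain_Q_zero {𝒞 : Set (MeasurableSpace X)} (hne : 𝒞.Nonempty) :
    Chain_Q μ 𝒞 fun _ => 0 := by
  refine ⟨measurable_const, ⟨0, by simp⟩, fun ε hε => ?_⟩
  have i : 𝒞 := ⟨hne.some, hne.some_mem⟩
  exact ⟨i, fun _ => 0, @measurable_const ℂ X _ i.1 0, ⟨0, by simp⟩, by simpa using hε.le⟩

theorem Chain_Q_add {𝒞 : Set (MeasurableSpace X)} (hC : IsChain (· ≤ ·) 𝒞)
    (hle : ∀ m ∈ 𝒞, m ≤ mX) {f g : X → ℂ} (hf : Chain_Q μ 𝒞 f) (hg : Chain_Q μ 𝒞 g) :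
    Chain_Q μ 𝒞 fun x => f x + g x := by
  obtain ⟨hf1, ⟨Cf, hCf⟩, hf3⟩ := hf
  obtain ⟨hg1, ⟨Cg, hCg⟩, hg3⟩ := hg
  refine ⟨hf1.add hg1, ⟨Cf + Cg, fun x => (norm_add_le _ _).trans (add_le_add (hCf x) (hCg x))⟩,
    ?_⟩
  intro ε hε
  obtain ⟨i, f₁, hf₁, ⟨C1, hC1⟩, hf₁'⟩ := hf3 (ε / 2) (half_pos hε)
  obtain ⟨j, g₁, hg₁, ⟨C2, hC2⟩, hg₁'⟩ := hg3 (ε / 2) (half_pos hε)
  obtain ⟨k, h1, h2⟩ := Chain_max hC i j
  have hf₁n : Measurable[k.1] f₁ := hf₁.mono h1 le_rfl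
  have hg₁n : Measurable[k.1] g₁ := hg₁.mono h2 le_rfl
  have hf₁X : Measurable f₁ := hf₁.mono (hle i.1 i.2) le_rfl
  have hg₁X : Measurable g₁ := hg₁.mono (hle j.1 j.2) le_rfl
  refine ⟨k, fun x => f₁ x + g₁ x, hf₁n.add hg₁n,
    ⟨C1 + C2, fun x => (norm_add_le _ _).trans (add_le_add (hC1 x) (hC2 x))⟩, ?_⟩
  have hi1 : Integrable (fun x => ‖f x - f₁ x‖) μ :=
    ((Chain_integrable hf1 hCf).sub (Chain_integrable hf₁X hC1)).norm
  have hi2 : Integrable (fun x => ‖g x - g₁ x‖) μ :=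
    ((Chain_integrable hg1 hCg).sub (Chain_integrable hg₁X hC2)).norm
  calc ∫ x, ‖f x + g x - (f₁ x + g₁ x)‖ ∂μ ≤ ∫ x, (‖f x - f₁ x‖ + ‖g x - g₁ x‖) ∂μ := by
        refine integral_mono_of_nonneg (Filter.Eventually.of_forall fun x => norm_nonneg _)
          (hi1.add hi2) (Filter.Eventually.of_forall fun x => ?_)
        show ‖f x + g x - (f₁ x + g₁ x)‖ ≤ ‖f x - f₁ x‖ + ‖g x - g₁ x‖
        rw [add_sub_add_comm]
        exact norm_add_le _ _
    _ = ∫ x, ‖f x - f₁ x‖ ∂μ + ∫ x, ‖g x - g₁ x‖ ∂μ := integral_add hi1 hi2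
    _ ≤ ε / 2 + ε / 2 := add_le_add hf₁' hg₁'
    _ = ε := add_halves ε

theorem Chain_Q_sum {𝒞 : Set (MeasurableSpace X)} (hC : IsChain (· ≤ ·) 𝒞) (hne : 𝒞.Nonempty)
    (hle : ∀ m ∈ 𝒞, m ≤ mX) {ι : Type*} (s : Finset ι) {f : ι → X → ℂ}
    (hf : ∀ i ∈ s, Chain_Q μ 𝒞 (f i)) : Chain_Q μ 𝒞 fun x => ∑ i ∈ s, f i x := by
  classical
  induction s using Finset.induction_on with
  | empty => simpa using Chain_Q_zero hne
  | insert i s hi ih =>
    simp_rw [Finset.sum_insert hi]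
    exact Chain_Q_add hC hle (hf i (Finset.mem_insert_self i s))
      (ih fun j hj => hf j (Finset.mem_insert_of_mem hj))

theorem Chain_Q_unif {𝒞 : Set (MeasurableSpace X)} (hle : ∀ m ∈ 𝒞, m ≤ mX) {f : X → ℂ}
    (hf : Measurable f) {C : ℝ} (hC : ∀ x, ‖f x‖ ≤ C)
    (h : ∀ δ : ℝ, 0 < δ → ∃ g : X → ℂ, Chain_Q μ 𝒞 g ∧ ∀ x, ‖f x - g x‖ ≤ δ) :
    Chain_Q μ 𝒞 f := by
  refine ⟨hf, ⟨C, hC⟩, fun ε hε => ?_⟩
  obtain ⟨g, ⟨hg1, ⟨Cg, hCg⟩, hg3⟩, hg⟩ := h (ε / 2) (half_pos hε)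
  obtain ⟨i, g₁, hg₁, ⟨C1, hC1⟩, hg₁'⟩ := hg3 (ε / 2) (half_pos hε)
  have hg₁X : Measurable g₁ := hg₁.mono (hle i.1 i.2) le_rfl
  refine ⟨i, g₁, hg₁, ⟨C1, hC1⟩, ?_⟩
  have hi2 : Integrable (fun x => ‖g x - g₁ x‖) μ :=
    ((Chain_integrable hg1 hCg).sub (Chain_integrable hg₁X hC1)).norm
  calc ∫ x, ‖f x - g₁ x‖ ∂μ ≤ ∫ x, (ε / 2 + ‖g x - g₁ x‖) ∂μ := by
        refine integral_mono_of_nonneg (Filter.Eventually.of_forall fun x => norm_nonneg _)
          ((integrable_const _).add hi2) (Filter.Eventually.of_forall fun x => ?_)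
        show ‖f x - g₁ x‖ ≤ ε / 2 + ‖g x - g₁ x‖
        calc ‖f x - g₁ x‖ = ‖(f x - g x) + (g x - g₁ x)‖ := by congr 1; ring
          _ ≤ ‖f x - g x‖ + ‖g x - g₁ x‖ := norm_add_le _ _
          _ ≤ ε / 2 + ‖g x - g₁ x‖ := by linarith [hg x]
    _ = ε / 2 + ∫ x, ‖g x - g₁ x‖ ∂μ := by
        rw [integral_add (integrable_const _) hi2]; simp
    _ ≤ ε / 2 + ε / 2 := by linarith
    _ = ε := add_halves ε

theorem Chain_Q_gen {𝒞 : Set (MeasurableSpace X)} (hC : IsChain (· ≤ ·) 𝒞) (hne : 𝒞.Nonempty)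
    (hle : ∀ m ∈ 𝒞, m ≤ mX) {f : X → ℂ} (hf : Measurable[Chain_gen 𝒞] f) (hb : Bd f) :
    Chain_Q μ 𝒞 f := by
  have hfX : Measurable f := hf.mono (Chain_gen_le hle) le_rfl
  apply Chain_Q_unif hle hfX hb
  intro δ hδ
  obtain ⟨n, hn⟩ := exists_nat_gt (2 / δ)
  have hn0 : (0 : ℝ) < n := lt_trans (by positivity) hn
  let A : ℤ × ℤ → Set X := fun p => {x | ⌊(n : ℝ) * (f x).re⌋ = p.1 ∧ ⌊(n : ℝ) * (f x).im⌋ = p.2}
  let c : ℤ × ℤ → ℂ := fun p => ⟨(p.1 : ℝ) / n, (p.2 : ℝ) / n⟩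
  have hA : ∀ p, MeasurableSet[Chain_gen 𝒞] (A p) := by
    intro p
    have h1 : Measurable[Chain_gen 𝒞] fun x => ⌊(n : ℝ) * (f x).re⌋ :=
      Int.measurable_floor.comp ((Complex.measurable_re.comp hf).const_mul _)
    have h2 : Measurable[Chain_gen 𝒞] fun x => ⌊(n : ℝ) * (f x).im⌋ :=
      Int.measurable_floor.comp ((Complex.measurable_im.comp hf).const_mul _)
    exact @MeasurableSet.inter X (Chain_gen 𝒞) _ _ (h1 (measurableSet_singleton p.1))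
      (h2 (measurableSet_singleton p.2))
  refine ⟨fun x => ∑ p ∈ Finset.Icc (-(n : ℤ)) n ×ˢ Finset.Icc (-(n : ℤ)) n,
    (A p).indicator (fun _ => c p) x, ?_, ?_⟩
  · apply Chain_Q_sum hC hne hle
    intro p _
    exact Chain_Q_ind hle (Chain_gen_le hle _ (hA p)) (Chain_apx_gen hC hne hle (hA p)) (c p)
  · intro x
    have hre : |(f x).re| ≤ 1 := (Complex.abs_re_le_norm _).trans (hb x)
    have him : |(f x).im| ≤ 1 := (Complex.abs_im_le_norm _).trans (hb x)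
    rw [abs_le] at hre him
    have hfl : ∀ t : ℝ, -1 ≤ t ∧ t ≤ 1 → ⌊(n : ℝ) * t⌋ ∈ Finset.Icc (-(n : ℤ)) n := by
      intro t ht
      rw [Finset.mem_Icc]
      constructor
      · rw [Int.le_floor]; push_cast; nlinarith [ht.1]
      · have : (⌊(n : ℝ) * t⌋ : ℝ) ≤ n := (Int.floor_le _).trans (by nlinarith [ht.2])
        exact_mod_cast this
    set q : ℤ × ℤ := (⌊(n : ℝ) * (f x).re⌋, ⌊(n : ℝ) * (f x).im⌋) with hq
    have hsum : ∑ p ∈ Finset.Icc (-(n : ℤ)) n ×ˢ Finset.Icc (-(n : ℤ)) n,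
        (A p).indicator (fun _ => c p) x = c q := by
      rw [Finset.sum_eq_single q]
      · rw [Set.indicator_of_mem]
        exact ⟨rfl, rfl⟩
      · intro p _ hp
        rw [Set.indicator_of_notMem]
        rintro ⟨h1, h2⟩
        exact hp (Prod.ext h1.symm h2.symm)
      · intro hp
        exact absurd (Finset.mem_product.2 ⟨hfl _ hre, hfl _ him⟩) hp
    show ‖f x - ∑ p ∈ Finset.Icc (-(n : ℤ)) n ×ˢ Finset.Icc (-(n : ℤ)) n,
      (A p).indicator (fun _ => c p) x‖ ≤ δ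
    rw [hsum]
    have hd : ∀ t : ℝ, |t - (⌊(n : ℝ) * t⌋ : ℝ) / n| ≤ 1 / n := by
      intro t
      have h1 := Int.floor_le ((n : ℝ) * t)
      have h2 := Int.lt_floor_add_one ((n : ℝ) * t)
      have h3 : t - (⌊(n : ℝ) * t⌋ : ℝ) / n = ((n : ℝ) * t - ⌊(n : ℝ) * t⌋) / n := by
        field_simp
      rw [h3, abs_div, abs_of_nonneg (by linarith), abs_of_pos hn0]
      gcongr
      linarith
    calc ‖f x - c q‖ ≤ |(f x - c q).re| + |(f x - c q).im| := Complex.norm_le_abs_re_add_abs_im _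
      _ ≤ 1 / n + 1 / n := by
          apply add_le_add
          · exact hd (f x).re
          · exact hd (f x).im
      _ = 2 / n := by ring
      _ ≤ δ := by
          rw [div_le_iff₀ hn0]
          rw [div_lt_iff₀ hδ] at hn
          linarith

omit [IsProbabilityMeasure μ] in
theorem Chain_cv1 {𝒞 : Set (MeasurableSpace X)} (hC : IsChain (· ≤ ·) 𝒞)
    (hg : ∀ m ∈ 𝒞, @Good X m mX μ S T) (i j : 𝒞)
    {f g : X → ℂ} (hf : Measurable[i.1] f) (hg' : Measurable[j.1] g) {C D : ℝ}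
    (hfC : ∀ x, ‖f x‖ ≤ C) (hgD : ∀ x, ‖g x‖ ≤ D) :
    ∀ᵐ x ∂μ, CV fun N => AN S T f g N x := by
  obtain ⟨k, hm1, hm2⟩ := Chain_max hC i j
  have hC0 : (0 : ℝ) < max C 1 := lt_max_of_lt_right one_pos
  have hD0 : (0 : ℝ) < max D 1 := lt_max_of_lt_right one_pos
  have hfm : Measurable[k.1] fun x => ((max C 1 : ℝ) : ℂ)⁻¹ * f x :=
    (hf.mono hm1 le_rfl).const_mul _
  have hgm : Measurable[k.1] fun x => ((max D 1 : ℝ) : ℂ)⁻¹ * g x :=
    (hg'.mono hm2 le_rfl).const_mul _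
  have hfb : Bd fun x => ((max C 1 : ℝ) : ℂ)⁻¹ * f x := by
    intro x
    show ‖((max C 1 : ℝ) : ℂ)⁻¹ * f x‖ ≤ 1
    rw [norm_mul, norm_inv, Complex.norm_real, Real.norm_of_nonneg hC0.le, inv_mul_le_iff₀ hC0,
      mul_one]
    exact (hfC x).trans (le_max_left _ _)
  have hgb : Bd fun x => ((max D 1 : ℝ) : ℂ)⁻¹ * g x := by
    intro x
    show ‖((max D 1 : ℝ) : ℂ)⁻¹ * g x‖ ≤ 1
    rw [norm_mul, norm_inv, Complex.norm_real, Real.norm_of_nonneg hD0.le, inv_mul_le_iff₀ hD0,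
      mul_one]
    exact (hgD x).trans (le_max_left _ _)
  filter_upwards [(hg k.1 k.2).cv _ _ hfm hgm hfb hgb] with x hx
  have hc := CV.const_mul hx (((max C 1 : ℝ) : ℂ) * ((max D 1 : ℝ) : ℂ))
  have he : ∀ N, ((max C 1 : ℝ) : ℂ) * ((max D 1 : ℝ) : ℂ) *
      AN S T (fun x => ((max C 1 : ℝ) : ℂ)⁻¹ * f x) (fun x => ((max D 1 : ℝ) : ℂ)⁻¹ * g x) N x =
      AN S T f g N x := by
    intro N
    unfold AN
    rw [← av_mul_left]
    apply av_congr
    intro k _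
    have hC1 : ((max C 1 : ℝ) : ℂ) ≠ 0 := Complex.ofReal_ne_zero.2 hC0.ne'
    have hD1 : ((max D 1 : ℝ) : ℂ) ≠ 0 := Complex.ofReal_ne_zero.2 hD0.ne'
    field_simp
  simpa only [he] using hc

theorem chain_bound (hS : MP μ S) (hT : MP μ T) {𝒞 : Set (MeasurableSpace X)}
    (hC : IsChain (· ≤ ·) 𝒞) (hne : 𝒞.Nonempty) (hg : ∀ m ∈ 𝒞, @Good X m mX μ S T) :
    ∃ m' : MeasurableSpace X, @Good X m' mX μ S T ∧ ∀ m ∈ 𝒞, m ≤ m' := by
  have hle' : ∀ i : 𝒞, i.1 ≤ mX := fun i => (hg i.1 i.2).le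
  have hiS : ∀ i : 𝒞, Inv i.1 S := fun i => (hg i.1 i.2).invS
  have hiT : ∀ i : 𝒞, Inv i.1 T := fun i => (hg i.1 i.2).invT
  have hle : ∀ m ∈ 𝒞, m ≤ mX := fun m hm => hle' ⟨m, hm⟩
  refine ⟨Chain_gen 𝒞, ?_, fun m hm => Chain_le_gen hm⟩
  refine ⟨Chain_gen_le hle, Chain_gen_inv fun m hm => hiS ⟨m, hm⟩,
    Chain_gen_inv fun m hm => hiT ⟨m, hm⟩, ?_⟩
  intro f g hf hg' hbf hbg
  have hfX : Measurable f := hf.mono (Chain_gen_le hle) le_rfl
  have hgX : Measurable g := hg'.mono (Chain_gen_le hle) le_rfl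
  have hQf := Chain_Q_gen (μ := μ) hC hne hle hf hbf
  have hQg := Chain_Q_gen (μ := μ) hC hne hle hg' hbg
  -- (2)
  have h2 : ∀ j : 𝒞, ∀ g₁ : X → ℂ, Measurable[j.1] g₁ → ∀ D : ℝ, (∀ x, ‖g₁ x‖ ≤ D) →
      ∀ᵐ x ∂μ, CV fun N => AN S T f g₁ N x := by
    intro j g₁ hg₁ D hD
    have hcl := closure_av hS (w := fun n x => g₁ ((T ^ n) x)) (C := D) (fun n x => hD _)
      (f := f) (Chain_integrable hfX hbf) (fun ε hε => by
        obtain ⟨i, f₁, hf₁, ⟨C₁, hC₁⟩, hf₁'⟩ := hQf.2.2 ε hε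
        refine ⟨f₁, Chain_integrable (hf₁.mono (hle i.1 i.2) le_rfl) hC₁, hf₁', ?_⟩
        filter_upwards [Chain_cv1 (S := S) (T := T) hC hg i j hf₁ hg₁ hC₁ hD] with x hx
        simpa only [AN, mul_comm] using hx)
    filter_upwards [hcl] with x hx
    simpa only [AN, mul_comm] using hx
  -- (3)
  have hcl := closure_av hT (w := fun n x => f ((S ^ n) x)) (C := 1) (fun n x => hbf _)
    (f := g) (Chain_integrable hgX hbg) (fun ε hε => by
      obtain ⟨j, g₁, hg₁, ⟨D₁, hD₁⟩, hg₁'⟩ := hQg.2.2 ε hε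
      refine ⟨g₁, Chain_integrable (hg₁.mono (hle j.1 j.2) le_rfl) hD₁, hg₁', ?_⟩
      exact h2 j g₁ hg₁ D₁ hD₁)
  exact hcl

end Pool.DRT
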