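import Pool.Agent.DRT.Clo

set_option autoImplicit false
set_option warn.classDefReducibility false
set_option linter.overlappingInstances false

/-!
# Completion of a good factor
-/

open MeasureTheory Filter Topology
open scoped ComplexConjugate NNReal ENNReal

noncomputable section

namespace Pool.DRT

section one

variable {X : Type*} {m : MeasurableSpace X}

theorem Compl_lim {t : ℕ → X → ℂ} (ht : ∀ n, Measurable[m] (t n)) :
    Measurable[m] fun x => limUnder atTop fun n => t n x :=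
  (StronglyMeasurable.limUnder (l := atTop) fun n => (ht n).stronglyMeasurable).measurable

theorem Compl_approx {f : X → ℂ} (hf : Measurable[m] f) :
    ∃ s : ℕ → @SimpleFunc X m ℂ, ∀ x, Tendsto (fun n => s n x) atTop (𝓝 (f x)) :=
  ⟨hf.stronglyMeasurable.approx, hf.stronglyMeasurable.tendsto_approx⟩

theorem Compl_cut {f₁ : X → ℂ} (h1 : Measurable[m] f₁) :
    Measurable[m] fun x => if ‖f₁ x‖ ≤ 1 then f₁ x else 0 :=
  Measurable.ite (measurableSet_le h1.norm measurable_const) h1 measurable_const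

end one

section two

variable {X : Type*} {m mX : MeasurableSpace X} {μ : @Measure X mX} {m' : MeasurableSpace X}

/-- a simple function for the larger algebra has an `m`-measurable version -/
theorem Compl_simple
    (h' : ∀ A, MeasurableSet[m'] A → ∃ B, MeasurableSet[m] B ∧ A =ᵐ[μ] B)
    (s : @SimpleFunc X m' ℂ) : ∃ t : X → ℂ, Measurable[m] t ∧ ∀ᵐ x ∂μ, s x = t x := by
  classical
  have hA : ∀ c : ℂ, ∃ B, MeasurableSet[m] B ∧ (s ⁻¹' {c} : Set X) =ᵐ[μ] B :=
    fun c => h' _ (s.measurableSet_fiber c)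
  choose B hB1 hB2 using hA
  refine ⟨fun x => ∑ c ∈ s.range, (B c).indicator (fun _ => c) x, ?_, ?_⟩
  · exact Finset.measurable_sum _ fun c _ => measurable_const.indicator (hB1 c)
  · have h1 : ∀ᵐ x ∂μ, ∀ c ∈ s.range, (x ∈ (s ⁻¹' {c} : Set X) ↔ x ∈ B c) := by
      rw [eventually_all_finset]
      intro c _
      filter_upwards [hB2 c] with x hx
      exact Iff.of_eq hx
    filter_upwards [h1] with x hx
    have h2 : ∀ c ∈ s.range, (B c).indicator (fun _ => c) x = if c = s x then s x else 0 := by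
      intro c hc
      by_cases h : c = s x
      · rw [if_pos h, Set.indicator_of_mem ((hx c hc).1 (by simp [h])), h]
      · rw [if_neg h, Set.indicator_of_notMem]
        intro hm
        have := (hx c hc).2 hm
        exact h (by simpa using this.symm)
    rw [Finset.sum_congr rfl h2, Finset.sum_ite_eq' s.range (s x) (fun _ => s x),
      if_pos (by simp)]

/-- a measurable function for the larger algebra has an `m`-measurable version -/
theorem Compl_repr
    (h' : ∀ A, MeasurableSet[m'] A → ∃ B, MeasurableSet[m] B ∧ A =ᵐ[μ] B)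
    {f : X → ℂ} (hf : Measurable[m'] f) : ∃ f' : X → ℂ, Measurable[m] f' ∧ f =ᵐ[μ] f' := by
  obtain ⟨s, hs⟩ := Compl_approx hf
  have h1 : ∀ n, ∃ t : X → ℂ, Measurable[m] t ∧ ∀ᵐ x ∂μ, s n x = t x :=
    fun n => Compl_simple h' (s n)
  choose t ht1 ht2 using h1
  refine ⟨fun x => limUnder atTop fun n => t n x, Compl_lim ht1, ?_⟩
  filter_upwards [ae_all_iff.2 ht2] with x hx
  have h2 : Tendsto (fun n => t n x) atTop (𝓝 (f x)) := (hs x).congr fun n => hx n
  exact h2.limUnder_eq.symm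

/-- bounded version -/
theorem Compl_repr_bd
    (h' : ∀ A, MeasurableSet[m'] A → ∃ B, MeasurableSet[m] B ∧ A =ᵐ[μ] B)
    {f : X → ℂ} (hf : Measurable[m'] f) (hb : Bd f) :
    ∃ f' : X → ℂ, Measurable[m] f' ∧ Bd f' ∧ f =ᵐ[μ] f' := by
  classical
  obtain ⟨f₁, h1, h2⟩ := Compl_repr h' hf
  refine ⟨fun x => if ‖f₁ x‖ ≤ 1 then f₁ x else 0, Compl_cut h1, ?_, ?_⟩
  · intro x
    by_cases h : ‖f₁ x‖ ≤ 1
    · simp only [h, if_true]
    · simp only [h, if_false, norm_zero]
      exact zero_le_one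
  · filter_upwards [h2] with x hx
    have h : ‖f₁ x‖ ≤ 1 := by rw [← hx]; exact hb x
    simp only [h, if_true]
    exact hx

end two

variable {X : Type*} {m : MeasurableSpace X} [mX : MeasurableSpace X] {μ : Measure X}

/-- the completion of `m` inside the measurable sets -/
def cpl (m : MeasurableSpace X) [mX : MeasurableSpace X] (μ : Measure X) : MeasurableSpace X :=
  mX ⊓ eventuallyMeasurableSpace m (ae μ)

theorem cpl_iff {A : Set X} : MeasurableSet[cpl m μ] A ↔
    MeasurableSet[mX] A ∧ ∃ B, MeasurableSet[m] B ∧ A =ᵐ[μ] B := by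
  unfold cpl
  rw [MeasurableSpace.measurableSet_inf]
  exact Iff.rfl

theorem le_cpl (hm : m ≤ mX) : m ≤ cpl m μ := by
  intro A hA
  rw [cpl_iff]
  exact ⟨hm A hA, A, hA, EventuallyEq.rfl⟩

theorem cpl_inv {S : Equiv.Perm X} (hS : MP μ S) (hI : Inv m S) : Inv (cpl m μ) S := by
  constructor
  · intro A hA
    rw [cpl_iff] at hA ⊢
    obtain ⟨h1, B, h2, h3⟩ := hA
    refine ⟨hS.1.measurable h1, S ⁻¹' B, hI.1 h2, ?_⟩
    exact hS.1.quasiMeasurePreserving.preimage_ae_eq h3
  · intro A hA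
    rw [cpl_iff] at hA ⊢
    obtain ⟨h1, B, h2, h3⟩ := hA
    refine ⟨hS.2.measurable h1, (S⁻¹ : Equiv.Perm X) ⁻¹' B, hI.2 h2, ?_⟩
    exact hS.2.quasiMeasurePreserving.preimage_ae_eq h3

theorem good_cpl [IsProbabilityMeasure μ] {S T : Equiv.Perm X} (hS : MP μ S) (hT : MP μ T)
    (hG : Good m μ S T) : @Good X (cpl m μ) mX μ S T := by
  refine ⟨inf_le_left, cpl_inv hS hG.invS, cpl_inv hT hG.invT, ?_⟩
  intro f g hf hg hfb hgb
  have h' : ∀ A, MeasurableSet[cpl m μ] A → ∃ B, MeasurableSet[m] B ∧ A =ᵐ[μ] B :=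
    fun A hA => (cpl_iff.1 hA).2
  obtain ⟨f', hf1, hf2, hf3⟩ := Compl_repr_bd h' hf hfb
  obtain ⟨g', hg1, hg2, hg3⟩ := Compl_repr_bd h' hg hgb
  filter_upwards [hG.cv f' g' hf1 hg1 hf2 hg2, AN_ae_congr hS hT hf3 hg3] with x hx hx'
  obtain ⟨l, hl⟩ := hx
  exact ⟨l, hl.congr fun N => (hx' N).symm⟩

/-- a maximal good factor is complete -/
theorem complete_of_max [IsProbabilityMeasure μ] {S T : Equiv.Perm X} (hS : MP μ S) (hT : MP μ T)
    (hG : Good m μ S T)
    (hmax : ∀ m' : MeasurableSpace X, @Good X m' mX μ S T → m ≤ m' → m' ≤ m)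
    {A B : Set X} (hA : MeasurableSet[mX] A) (hB : MeasurableSet[m] B) (hAB : A =ᵐ[μ] B) :
    MeasurableSet[m] A := by
  have h1 : MeasurableSet[cpl m μ] A := cpl_iff.2 ⟨hA, B, hB, hAB⟩
  exact hmax _ (good_cpl hS hT hG) (le_cpl hG.le) A h1

end Pool.DRT
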