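import Pool.Agent.DRT.Defs

set_option autoImplicit false

/-!
# Facts on bounded conditional expectations

All functions are bounded by one, `ce m μ f` is the everywhere bounded version of `μ[f | m]`.
PROOFS. `‖μ[f|m]‖ ≤ 1` a.e. (real functions: `ae_bdd_condExp_of_ae_bdd`; complex: for each rational unit vector
`u` the real part of `u μ[f|m]` is `μ[Re(u f)|m] ≤ 1`; or `‖μ[f|m]‖ ≤ μ[‖f‖|m]` if Mathlib has it for `ℂ`; or by
contradiction on the `m`-measurable set `{Re(u E f) > 1 + 1/k}`).  The rest is the uniqueness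
`ae_eq_condExp_of_forall_setIntegral_eq`, or pull-out (`condExp_mul_of_stronglyMeasurable_left` or its bilinear form)
and `integral_condExp`.  `ce_comp`: for `A ∈ m`, `∫_A (E f) ∘ S^n = ∫_{S^n A} E f = ∫_{S^n A} f = ∫_A f ∘ S^n`, and
`S^n A = (S^{-n})⁻¹ A ∈ m`.
`ce_l2`: `∫ ‖ce f‖² = ∫ ce f conj f ≤ (∫ ‖ce f‖²)^{1/2}(∫ ‖f‖²)^{1/2}`.  `ce_sub_l2`: the same for `f - f'` (linearity of
`μ[·|m]`).
-/

open MeasureTheory Filter Topology
open scoped ComplexConjugate NNReal ENNReal

noncomputable section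

namespace Pool.DRT

theorem CondE_trunc {Y : Type*} [MeasurableSpace Y] {h : Y → ℂ} (hh : Measurable h) :
    Measurable fun x => if ‖h x‖ ≤ 1 then h x else 0 :=
  Measurable.ite (hh.norm measurableSet_Iic) hh measurable_const

variable {X : Type*} {m : MeasurableSpace X} [mX : MeasurableSpace X] {μ : Measure X}
  [IsProbabilityMeasure μ] {S : Equiv.Perm X} {f f' a b : X → ℂ}

omit [IsProbabilityMeasure μ] in
theorem CondE_sm (f : X → ℂ) : StronglyMeasurable[m] (μ[f | m]) := stronglyMeasurable_condExp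

omit [IsProbabilityMeasure μ] in
theorem ce_meas (f : X → ℂ) : Measurable[m] (ce m μ f) := by
  have h1 : Measurable[m] (μ[f | m]) := (CondE_sm (m := m) (μ := μ) f).measurable
  exact @CondE_trunc X m _ h1

omit [IsProbabilityMeasure μ] in
theorem ce_bd (f : X → ℂ) : Bd (ce m μ f) := by
  intro x
  unfold ce
  split_ifs with h
  · exact h
  · simp

theorem CondE_int (hf : Measurable f) (hb : Bd f) : Integrable f μ :=
  Integrable.of_bound hf.aestronglyMeasurable 1 (Eventually.of_forall hb)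

omit [IsProbabilityMeasure μ] in
theorem CondE_ae (hb : Bd f) : ce m μ f =ᵐ[μ] μ[f | m] := by
  have h := ae_bdd_norm_condExp_of_ae_bdd_norm (m := m) (μ := μ) (f := f) (R := 1)
    (Eventually.of_forall hb)
  filter_upwards [h] with x hx
  unfold ce
  rw [if_pos hx]

theorem ce_ae (hm : m ≤ mX) (hf : Measurable f) (hb : Bd f) : ce m μ f =ᵐ[μ] μ[f | m] :=
  CondE_ae hb

theorem ce_congr (h : f =ᵐ[μ] f') : ce m μ f =ᵐ[μ] ce m μ f' := by
  have h1 : μ[f | m] =ᵐ[μ] μ[f' | m] := condExp_congr_ae h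
  filter_upwards [h1] with x hx
  unfold ce
  rw [hx]

/-- uniqueness -/
theorem CondE_uniq (hm : m ≤ mX) (hf : Measurable f) (hb : Bd f) {g : X → ℂ}
    (hg : Measurable[m] g) (hgb : Bd g)
    (h : ∀ A : Set X, MeasurableSet[m] A → ∫ x in A, g x ∂μ = ∫ x in A, f x ∂μ) :
    ce m μ f =ᵐ[μ] g := by
  have h1 : g =ᵐ[μ] μ[f | m] := by
    refine ae_eq_condExp_of_forall_setIntegral_eq hm (CondE_int hf hb) ?_ ?_ ?_
    · intro s _ _
      exact (CondE_int (hg.mono hm le_rfl) hgb).integrableOn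
    · intro s hs _
      exact h s hs
    · exact hg.stronglyMeasurable.aestronglyMeasurable
  exact (CondE_ae hb).trans h1.symm

theorem CondE_set (hm : m ≤ mX) (hf : Measurable f) (hb : Bd f) {A : Set X}
    (hA : MeasurableSet[m] A) : ∫ x in A, ce m μ f x ∂μ = ∫ x in A, f x ∂μ := by
  rw [← setIntegral_condExp hm (CondE_int hf hb) hA]
  exact setIntegral_congr_ae (hm _ hA) ((CondE_ae hb).mono fun x hx _ => hx)

theorem ce_comp (hm : m ≤ mX) (hS : MP μ S) (hI : Inv m S) (hf : Measurable f) (hb : Bd f)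
    (n : ℤ) : ce m μ (fun x => f ((S ^ n) x)) =ᵐ[μ] fun x => ce m μ f ((S ^ n) x) := by
  refine CondE_uniq hm (hf.comp (hS.measurable n)) (fun x => hb _)
    (hI.meas_comp (ce_meas f) n) (fun x => ce_bd f _) ?_
  intro A hA
  have hemb : MeasurableEmbedding (S ^ n : Equiv.Perm X) :=
    (MeasurableEquiv.mk (S ^ n : Equiv.Perm X) (hS.measurable n) (by
      have := hS.measurable (-n)
      rw [zpow_neg] at this
      exact this)).measurableEmbedding
  have hB : MeasurableSet[m] ((S ^ (-n) : Equiv.Perm X) ⁻¹' A) := (hI.zpow (-n)) hA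
  have hpre : (S ^ n : Equiv.Perm X) ⁻¹' ((S ^ (-n) : Equiv.Perm X) ⁻¹' A) = A := by
    ext x
    simp only [Set.mem_preimage]
    rw [← zpow_add_apply]
    simp
  have key : ∀ g : X → ℂ, ∫ x in A, g ((S ^ n) x) ∂μ =
      ∫ x in (S ^ (-n) : Equiv.Perm X) ⁻¹' A, g x ∂μ := by
    intro g
    have := (hS.zpow n).setIntegral_preimage_emb hemb g ((S ^ (-n) : Equiv.Perm X) ⁻¹' A)
    rw [hpre] at this
    exact this
  exact (key (ce m μ f)).trans ((CondE_set hm hf hb hB).trans (key f).symm)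

theorem ce_conj (hm : m ≤ mX) (hf : Measurable f) (hb : Bd f) :
    ce m μ (fun x => conj (f x)) =ᵐ[μ] fun x => conj (ce m μ f x) := by
  refine CondE_uniq hm (by fun_prop) (fun x => by simpa using hb x)
    (Complex.continuous_conj.measurable.comp (ce_meas f)) (fun x => by simpa using ce_bd f x) ?_
  intro A hA
  rw [integral_conj, integral_conj, CondE_set hm hf hb hA]

/-- pull-out -/
theorem ce_mul (hm : m ≤ mX) (ha : Measurable[m] a) (hab : Bd a) (hf : Measurable f)
    (hb : Bd f) : ce m μ (fun x => a x * f x) =ᵐ[μ] fun x => a x * ce m μ f x := by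
  have hbd : Bd fun x => a x * f x := fun x => by
    rw [norm_mul]
    exact mul_le_one₀ (hab x) (norm_nonneg _) (hb x)
  have hm1 : Measurable fun x => a x * f x := (ha.mono hm le_rfl).mul hf
  have h1 : μ[fun x => a x * f x | m] =ᵐ[μ] fun x => a x * (μ[f | m]) x :=
    condExp_bilin_of_stronglyMeasurable_left (ContinuousLinearMap.mul ℝ ℂ)
      ha.stronglyMeasurable (CondE_int hm1 hbd) (CondE_int hf hb)
  filter_upwards [CondE_ae (m := m) (μ := μ) hbd, h1, CondE_ae (m := m) (μ := μ) hb] with x h2 h3 h4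
  rw [h2, h3, h4]

theorem ce_self (hm : m ≤ mX) (ha : Measurable[m] a) (hab : Bd a) : ce m μ a =ᵐ[μ] a :=
  CondE_uniq hm (ha.mono hm le_rfl) hab ha hab fun _ _ => rfl

theorem integral_ce (hm : m ≤ mX) (hf : Measurable f) (hb : Bd f) :
    ∫ x, ce m μ f x ∂μ = ∫ x, f x ∂μ := by
  have h := CondE_set (m := m) (μ := μ) hm hf hb (@MeasurableSet.univ X m)
  rwa [setIntegral_univ, setIntegral_univ] at h

theorem integral_mul_ce (hm : m ≤ mX) (ha : Measurable[m] a) (hab : Bd a) (hf : Measurable f)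
    (hb : Bd f) : ∫ x, a x * ce m μ f x ∂μ = ∫ x, a x * f x ∂μ := by
  have hbd : Bd fun x => a x * f x := fun x => by
    rw [norm_mul]
    exact mul_le_one₀ (hab x) (norm_nonneg _) (hb x)
  have h1 := integral_ce (m := m) (μ := μ) (f := fun x => a x * f x) hm
    ((ha.mono hm le_rfl).mul hf) hbd
  rw [← h1]
  exact (integral_congr_ae (ce_mul hm ha hab hf hb)).symm

/-- averages of finitely many functions -/
theorem ce_av (hm : m ≤ mX) {F : ℤ → X → ℂ} (hF : ∀ j, Measurable (F j)) (hb : ∀ j, Bd (F j))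
    (J : ℕ) : ce m μ (fun x => av J fun j => F j x) =ᵐ[μ] fun x => av J fun j => ce m μ (F j) x := by
  have hmeas : ∀ {m' : MeasurableSpace X} {G : ℤ → X → ℂ}, (∀ j, Measurable[m'] (G j)) →
      Measurable[m'] fun x => av J fun j => G j x := by
    intro m' G hG
    simp only [av_eq]
    exact (Finset.measurable_sum _ fun j _ => hG j).const_mul _
  refine CondE_uniq hm (hmeas hF) (fun x => norm_av_le_of_le fun j _ => hb j x)
    (hmeas fun j => ce_meas (F j)) (fun x => norm_av_le_of_le fun j _ => ce_bd (F j) x) ?_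
  intro A hA
  simp only [av_eq]
  rw [integral_const_mul, integral_const_mul, integral_finsetSum, integral_finsetSum]
  · congr 1
    exact Finset.sum_congr rfl fun j _ => CondE_set hm (hF j) (hb j) hA
  · intro j _
    exact (CondE_int (hF j) (hb j)).integrableOn
  · intro j _
    exact (CondE_int ((ce_meas (F j)).mono hm le_rfl) (ce_bd (F j))).integrableOn

omit [IsProbabilityMeasure μ] in
theorem CondE_norm_sq (g : X → ℂ) : (∫ x, ‖g x‖ ^ (2 : ℝ) ∂μ) = ∫ x, ‖g x‖ ^ 2 ∂μ := by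
  congr 1
  ext x
  exact Real.rpow_two _

theorem CondE_l2 (hf : Measurable f) {C : ℝ} (hb : ∀ x, ‖f x‖ ≤ C) :
    ∫ x, ‖(μ[f | m]) x‖ ^ 2 ∂μ ≤ ∫ x, ‖f x‖ ^ 2 ∂μ := by
  rw [← CondE_norm_sq, ← CondE_norm_sq]
  refine integral_norm_condExp_rpow_le (by norm_num) ?_
  refine Integrable.of_bound ?_ (C ^ (2 : ℝ)) (Eventually.of_forall fun x => ?_)
  · exact (hf.norm.pow_const _).aestronglyMeasurable
  · rw [Real.norm_of_nonneg (by positivity)]
    exact Real.rpow_le_rpow (norm_nonneg _) (hb x) (by norm_num)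

theorem ce_l2 (hm : m ≤ mX) (hf : Measurable f) (hb : Bd f) :
    ∫ x, ‖ce m μ f x‖ ^ 2 ∂μ ≤ ∫ x, ‖f x‖ ^ 2 ∂μ := by
  rw [integral_congr_ae (g := fun x => ‖(μ[f | m]) x‖ ^ 2)
    ((CondE_ae (m := m) (μ := μ) hb).mono fun x hx => by simp only [hx])]
  exact CondE_l2 hf hb

theorem ce_sub_l2 (hm : m ≤ mX) (hf : Measurable f) (hb : Bd f) (hf' : Measurable f')
    (hb' : Bd f') : ∫ x, ‖ce m μ f x - ce m μ f' x‖ ^ 2 ∂μ ≤ ∫ x, ‖f x - f' x‖ ^ 2 ∂μ := by
  have h1 : μ[f - f' | m] =ᵐ[μ] μ[f | m] - μ[f' | m] :=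
    condExp_sub (CondE_int hf hb) (CondE_int hf' hb') m
  have h2 : (fun x => ‖ce m μ f x - ce m μ f' x‖ ^ 2) =ᵐ[μ]
      fun x => ‖(μ[f - f' | m]) x‖ ^ 2 := by
    filter_upwards [h1, CondE_ae (m := m) (μ := μ) hb, CondE_ae (m := m) (μ := μ) hb']
      with x h3 h4 h5
    rw [h3, h4, h5]
    rfl
  rw [integral_congr_ae h2]
  exact CondE_l2 (f := f - f') (C := 2) (hf.sub hf') fun x =>
    (norm_sub_le _ _).trans (by linarith [hb x, hb' x])

end Pool.DRT
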