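import Pool.Agent.DRT.Defs

set_option autoImplicit false

/-!
# Closure properties of relatively compact functions

PROOFS. `of_meas`: `ι = Unit`, `F = 1`, `c n = f ∘ S^n`, `q k x = f x * conj (f (S^k x))`; all errors are zero.
`mul`: index set `ι × ι'`, `F (j,j') = F j * F' j'`, `c n (j,j') = c n j * c' n j'`, kernel `q k * q' k`.  All sums factor, the
squares add up to at most one (`Finset.sum_product`), and `|ab - a'b'| ≤ |a - a'| + |b - b'|` for numbers
bounded by one (`‖∑_j F_j c_{n,j}‖ ≤ 1`, `‖∑_j c_{n,j} conj c_{n',j}‖ ≤ 1` by Cauchy-Schwarz,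
`inner_mul_le_norm_mul_norm` or `Finset.sum_mul_sq_le_sq_mul_sq`); use accuracy `ε/4`.
`conj`: conjugate everything.  `comp`: compose everything with `R` (it commutes with `S`, preserves `μ` and `m`;
`S^n (R x) = R (S^n x)`).  `smul`: multiply `F` by `a`?  No: the kernel must be changed too: `c`, `F` are kept for the
constant `a` as an `m`-measurable function: `smul` is `mul` with `of_meas` of the constant.
-/

open MeasureTheory Filter Topology
open scoped ComplexConjugate NNReal ENNReal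

noncomputable section

namespace Pool.DRT

variable {X : Type*} {m : MeasurableSpace X} [mX : MeasurableSpace X] {μ : Measure X}
  [IsProbabilityMeasure μ] {S R : Equiv.Perm X} {f g : X → ℂ}

omit [IsProbabilityMeasure μ] in
theorem CptB_of_meas_aux (hI : Inv m S) (hf : Measurable[m] f)
    (hb : Bd f) (hfm : Measurable f) : Cpt m μ S f := by
  have hq : ∀ (n : ℤ) (x : X), ‖f ((S ^ n) x)‖ ≤ 1 := fun n x => hb _
  refine ⟨hfm, hb, fun k x => f x * conj (f ((S ^ k) x)), fun k => ?_, fun k x => ?_, ?_⟩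
  · exact hf.mul (Complex.continuous_conj.measurable.comp (hI.meas_comp hf k))
  · rw [norm_mul, RCLike.norm_conj]
    exact mul_le_one₀ (hb x) (norm_nonneg _) (hb _)
  · intro M ε hε
    refine ⟨Unit, inferInstance, fun _ _ => 1, fun n _ x => f ((S ^ n) x), fun _ =>
      measurable_const, fun x => by simp, ⟨fun n _ => hI.meas_comp hf n, fun n x => ?_, ?_⟩, ?_⟩
    · simp only [Finset.univ_unique, Finset.sum_singleton]
      have := hq n x
      have h0 := norm_nonneg (f ((S ^ n) x))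
      nlinarith
    · intro n _ n' _
      have h : ∀ x, ‖(∑ _j : Unit, f ((S ^ n) x) * conj (f ((S ^ n') x))) -
          f ((S ^ n) x) * conj (f ((S ^ (n' - n)) ((S ^ n) x)))‖ = 0 := by
        intro x
        rw [← zpow_add_apply, sub_add_cancel]
        simp
      simp only [h]
      simpa using hε.le
    · intro n _
      have h : ∀ x, ‖f ((S ^ n) x) - ∑ _j : Unit, (1 : ℂ) * f ((S ^ n) x)‖ ^ 2 = 0 := by
        intro x; simp
      simp only [h]
      simpa using hε.le

theorem Cpt.of_meas (hm : m ≤ mX) (hS : MP μ S) (hI : Inv m S) (hf : Measurable[m] f)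
    (hb : Bd f) : Cpt m μ S f := by
  have _ := hS
  exact CptB_of_meas_aux hI hf hb (hf.mono hm le_rfl)

/-- Cauchy-Schwarz for vectors in the unit ball -/
theorem CptB_cs {ι : Type} [Fintype ι] {u v : ι → ℂ} (hu : ∑ j, ‖u j‖ ^ 2 ≤ 1)
    (hv : ∑ j, ‖v j‖ ^ 2 ≤ 1) : ‖∑ j, u j * v j‖ ≤ 1 := by
  have h1 : ‖∑ j, u j * v j‖ ≤ ∑ j, ‖u j‖ * ‖v j‖ := by
    refine (norm_sum_le _ _).trans (le_of_eq ?_)
    exact Finset.sum_congr rfl fun j _ => norm_mul _ _
  have h2 : (∑ j, ‖u j‖ * ‖v j‖) ^ 2 ≤ (∑ j, ‖u j‖ ^ 2) * ∑ j, ‖v j‖ ^ 2 :=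
    Finset.sum_mul_sq_le_sq_mul_sq _ _ _
  have h3 : (∑ j, ‖u j‖ ^ 2) * ∑ j, ‖v j‖ ^ 2 ≤ 1 :=
    mul_le_one₀ hu (Finset.sum_nonneg fun j _ => by positivity) hv
  have h4 : 0 ≤ ∑ j, ‖u j‖ * ‖v j‖ := Finset.sum_nonneg fun j _ => by positivity
  have h5 : (∑ j, ‖u j‖ * ‖v j‖) ≤ 1 := by
    by_contra hcon
    rw [not_le] at hcon
    nlinarith
  exact h1.trans h5

theorem CptB_cs' {ι : Type} [Fintype ι] {u v : ι → ℂ} (hu : ∑ j, ‖u j‖ ^ 2 ≤ 1)
    (hv : ∑ j, ‖v j‖ ^ 2 ≤ 1) : ‖∑ j, u j * conj (v j)‖ ≤ 1 :=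
  CptB_cs hu (by simpa only [RCLike.norm_conj] using hv)

theorem CptB_mul_sub {a b a' b' : ℂ} (hb : ‖b‖ ≤ 1) (ha' : ‖a'‖ ≤ 1) :
    ‖a * b - a' * b'‖ ≤ ‖a - a'‖ + ‖b - b'‖ := by
  have h1 : a * b - a' * b' = (a - a') * b + a' * (b - b') := by ring
  rw [h1]
  refine (norm_add_le _ _).trans (add_le_add ?_ ?_)
  · rw [norm_mul]
    exact mul_le_of_le_one_right (norm_nonneg _) hb
  · rw [norm_mul]
    exact mul_le_of_le_one_left (norm_nonneg _) ha'

theorem CptB_sum_prod {ι ι' : Type} [Fintype ι] [Fintype ι'] (u : ι → ℂ) (v : ι' → ℂ) :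
    ∑ p : ι × ι', u p.1 * v p.2 = (∑ j, u j) * ∑ j, v j := by
  rw [Finset.sum_mul_sum, ← Finset.univ_product_univ, Finset.sum_product]

theorem CptB_sum_prod_sq {ι ι' : Type} [Fintype ι] [Fintype ι'] {u : ι → ℂ} {v : ι' → ℂ}
    (hu : ∑ j, ‖u j‖ ^ 2 ≤ 1) (hv : ∑ j, ‖v j‖ ^ 2 ≤ 1) :
    ∑ p : ι × ι', ‖u p.1 * v p.2‖ ^ 2 ≤ 1 := by
  have h : ∑ p : ι × ι', ‖u p.1 * v p.2‖ ^ 2 = (∑ j, ‖u j‖ ^ 2) * ∑ j, ‖v j‖ ^ 2 := by
    rw [Finset.sum_mul_sum, ← Finset.univ_product_univ, Finset.sum_product]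
    refine Finset.sum_congr rfl fun i _ => Finset.sum_congr rfl fun j _ => ?_
    rw [norm_mul, mul_pow]
  rw [h]
  exact mul_le_one₀ hu (Finset.sum_nonneg fun j _ => by positivity) hv

theorem CptB_int {h : X → ℝ} (hm : Measurable h) {C : ℝ} (hC : ∀ x, ‖h x‖ ≤ C) :
    Integrable h μ :=
  Integrable.of_bound hm.aestronglyMeasurable C (Eventually.of_forall hC)

theorem Cpt.mul (hm : m ≤ mX) (hS : MP μ S) (hf : Cpt m μ S f) (hg : Cpt m μ S g) :
    Cpt m μ S fun x => f x * g x := by
  obtain ⟨q, hq, hqb, hF⟩ := hf.ker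
  obtain ⟨q', hq', hqb', hG⟩ := hg.ker
  refine ⟨hf.meas.mul hg.meas, fun x => ?_, fun k x => q k x * q' k x, fun k => (hq k).mul (hq' k),
    fun k x => ?_, ?_⟩
  · rw [norm_mul]
    exact mul_le_one₀ (hf.bd x) (norm_nonneg _) (hg.bd x)
  · rw [norm_mul]
    exact mul_le_one₀ (hqb k x) (norm_nonneg _) (hqb' k x)
  · intro M ε hε
    obtain ⟨ι, hι, F, c, hFm, hFb, hc, hcf⟩ := hF M (ε / 4) (by positivity)
    obtain ⟨ι', hι', G, d, hGm, hGb, hd, hdg⟩ := hG M (ε / 4) (by positivity)
    have hcm : ∀ n j, Measurable (c n j) := fun n j => (hc.meas n j).mono hm le_rfl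
    have hdm : ∀ n j, Measurable (d n j) := fun n j => (hd.meas n j).mono hm le_rfl
    have k1 : ∀ x, ∑ p : ι × ι', ‖F p.1 x * G p.2 x‖ ^ 2 ≤ 1 := fun x =>
      CptB_sum_prod_sq (u := fun j => F j x) (v := fun j => G j x) (hFb x) (hGb x)
    have k2 : ∀ n x, ∑ p : ι × ι', ‖c n p.1 x * d n p.2 x‖ ^ 2 ≤ 1 := fun n x =>
      CptB_sum_prod_sq (u := fun j => c n j x) (v := fun j => d n j x) (hc.bd n x) (hd.bd n x)
    refine ⟨ι × ι', inferInstance, fun p x => F p.1 x * G p.2 x,
      fun n p x => c n p.1 x * d n p.2 x, fun p => (hFm _).mul (hGm _), k1,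
      ⟨fun n p => (hc.meas n _).mul (hd.meas n _), k2, ?_⟩, ?_⟩
    · intro n hn n' hn'
      have h1 := hc.close n hn n' hn'
      have h2 := hd.close n hn n' hn'
      have e1 : ∀ x, ‖(∑ p : ι × ι', c n p.1 x * d n p.2 x * conj (c n' p.1 x * d n' p.2 x)) -
          q (n' - n) ((S ^ n) x) * q' (n' - n) ((S ^ n) x)‖ ≤
          ‖(∑ j, c n j x * conj (c n' j x)) - q (n' - n) ((S ^ n) x)‖ +
          ‖(∑ j, d n j x * conj (d n' j x)) - q' (n' - n) ((S ^ n) x)‖ := by
        intro x
        have e2 : (∑ p : ι × ι', c n p.1 x * d n p.2 x * conj (c n' p.1 x * d n' p.2 x)) =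
            (∑ j, c n j x * conj (c n' j x)) * ∑ j, d n j x * conj (d n' j x) := by
          rw [← CptB_sum_prod]
          refine Finset.sum_congr rfl fun p _ => ?_
          rw [map_mul]; ring
        rw [e2]
        exact CptB_mul_sub (CptB_cs' (hd.bd n x) (hd.bd n' x)) (hqb _ _)
      have i1 : Integrable (fun x => ‖(∑ j, c n j x * conj (c n' j x)) -
          q (n' - n) ((S ^ n) x)‖) μ := by
        refine CptB_int ?_ (C := 2) fun x => ?_
        · refine ((Finset.measurable_sum _ fun j _ => (hcm n j).mul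
            (Complex.continuous_conj.measurable.comp (hcm n' j))).sub
            (((hq _).mono hm le_rfl).comp (hS.measurable n))).norm
        · rw [norm_norm]
          refine (norm_sub_le _ _).trans ?_
          linarith [CptB_cs' (hc.bd n x) (hc.bd n' x), hqb (n' - n) ((S ^ n) x)]
      have i2 : Integrable (fun x => ‖(∑ j, d n j x * conj (d n' j x)) -
          q' (n' - n) ((S ^ n) x)‖) μ := by
        refine CptB_int ?_ (C := 2) fun x => ?_
        · refine ((Finset.measurable_sum _ fun j _ => (hdm n j).mul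
            (Complex.continuous_conj.measurable.comp (hdm n' j))).sub
            (((hq' _).mono hm le_rfl).comp (hS.measurable n))).norm
        · rw [norm_norm]
          refine (norm_sub_le _ _).trans ?_
          linarith [CptB_cs' (hd.bd n x) (hd.bd n' x), hqb' (n' - n) ((S ^ n) x)]
      calc _ ≤ ∫ x, (‖(∑ j, c n j x * conj (c n' j x)) - q (n' - n) ((S ^ n) x)‖ +
          ‖(∑ j, d n j x * conj (d n' j x)) - q' (n' - n) ((S ^ n) x)‖) ∂μ := by
            refine integral_mono_of_nonneg (Eventually.of_forall fun x => norm_nonneg _)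
              (i1.add i2) (Eventually.of_forall e1)
        _ = _ := integral_add i1 i2
        _ ≤ ε := by linarith
    · intro n hn
      have h1 := hcf n hn
      have h2 := hdg n hn
      have e1 : ∀ x, ‖f ((S ^ n) x) * g ((S ^ n) x) -
          ∑ p : ι × ι', F p.1 x * G p.2 x * (c n p.1 x * d n p.2 x)‖ ^ 2 ≤
          2 * ‖f ((S ^ n) x) - ∑ j, F j x * c n j x‖ ^ 2 +
          2 * ‖g ((S ^ n) x) - ∑ j, G j x * d n j x‖ ^ 2 := by
        intro x
        have e2 : (∑ p : ι × ι', F p.1 x * G p.2 x * (c n p.1 x * d n p.2 x)) =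
            (∑ j, F j x * c n j x) * ∑ j, G j x * d n j x := by
          rw [← CptB_sum_prod]
          refine Finset.sum_congr rfl fun p _ => ?_
          ring
        rw [e2]
        have e3 := CptB_mul_sub (a := f ((S ^ n) x)) (b' := ∑ j, G j x * d n j x)
          (hg.bd ((S ^ n) x)) (CptB_cs (hFb x) (hc.bd n x))
        have e4 := norm_nonneg (f ((S ^ n) x) * g ((S ^ n) x) -
          (∑ j, F j x * c n j x) * ∑ j, G j x * d n j x)
        have e5 := norm_nonneg (f ((S ^ n) x) - ∑ j, F j x * c n j x)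
        have e6 := norm_nonneg (g ((S ^ n) x) - ∑ j, G j x * d n j x)
        nlinarith [sq_nonneg (‖f ((S ^ n) x) - ∑ j, F j x * c n j x‖ -
          ‖g ((S ^ n) x) - ∑ j, G j x * d n j x‖)]
      have b1 : ∀ x, ‖f ((S ^ n) x) - ∑ j, F j x * c n j x‖ ≤ 2 := by
        intro x
        refine (norm_sub_le _ _).trans ?_
        linarith [hf.bd ((S ^ n) x), CptB_cs (hFb x) (hc.bd n x)]
      have b2 : ∀ x, ‖g ((S ^ n) x) - ∑ j, G j x * d n j x‖ ≤ 2 := by
        intro x
        refine (norm_sub_le _ _).trans ?_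
        linarith [hg.bd ((S ^ n) x), CptB_cs (hGb x) (hd.bd n x)]
      have i1 : Integrable (fun x => 2 * ‖f ((S ^ n) x) - ∑ j, F j x * c n j x‖ ^ 2) μ := by
        refine (CptB_int ?_ (C := 4) fun x => ?_).const_mul 2
        · exact (((hf.meas.comp (hS.measurable n)).sub (Finset.measurable_sum _ fun j _ =>
            (hFm j).mul (hcm n j))).norm).pow_const 2
        · rw [norm_pow, norm_norm]
          have := b1 x
          have h0 := norm_nonneg (f ((S ^ n) x) - ∑ j, F j x * c n j x)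
          nlinarith
      have i2 : Integrable (fun x => 2 * ‖g ((S ^ n) x) - ∑ j, G j x * d n j x‖ ^ 2) μ := by
        refine (CptB_int ?_ (C := 4) fun x => ?_).const_mul 2
        · exact (((hg.meas.comp (hS.measurable n)).sub (Finset.measurable_sum _ fun j _ =>
            (hGm j).mul (hdm n j))).norm).pow_const 2
        · rw [norm_pow, norm_norm]
          have := b2 x
          have h0 := norm_nonneg (g ((S ^ n) x) - ∑ j, G j x * d n j x)
          nlinarith
      calc _ ≤ ∫ x, (2 * ‖f ((S ^ n) x) - ∑ j, F j x * c n j x‖ ^ 2 +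
          2 * ‖g ((S ^ n) x) - ∑ j, G j x * d n j x‖ ^ 2) ∂μ := by
            refine integral_mono_of_nonneg (Eventually.of_forall fun x => by positivity)
              (i1.add i2) (Eventually.of_forall e1)
        _ = _ := integral_add i1 i2
        _ ≤ ε := by
            rw [integral_const_mul, integral_const_mul]
            linarith

theorem Cpt.conj (hf : Cpt m μ S f) : Cpt m μ S fun x => conj (f x) := by
  obtain ⟨q, hq, hqb, hF⟩ := hf.ker
  refine ⟨Complex.continuous_conj.measurable.comp hf.meas, fun x => ?_, fun k x => conj (q k x),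
    fun k => Complex.continuous_conj.measurable.comp (hq k), fun k x => ?_, ?_⟩
  · rw [RCLike.norm_conj]; exact hf.bd x
  · rw [RCLike.norm_conj]; exact hqb k x
  · intro M ε hε
    obtain ⟨ι, hι, F, c, hFm, hFb, hc, hcf⟩ := hF M ε hε
    refine ⟨ι, hι, fun j x => conj (F j x), fun n j x => conj (c n j x),
      fun j => Complex.continuous_conj.measurable.comp (hFm j), fun x => ?_,
      ⟨fun n j => Complex.continuous_conj.measurable.comp (hc.meas n j), fun n x => ?_, ?_⟩, ?_⟩
    · simpa only [RCLike.norm_conj] using hFb x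
    · simpa only [RCLike.norm_conj] using hc.bd n x
    · intro n hn n' hn'
      refine le_of_eq_of_le ?_ (hc.close n hn n' hn')
      congr 1
      funext x
      rw [← RCLike.norm_conj, map_sub, map_sum]
      simp only [map_mul, RingHomCompTriple.comp_apply, RingHom.id_apply]
    · intro n hn
      refine le_of_eq_of_le ?_ (hcf n hn)
      congr 1
      funext x
      rw [← RCLike.norm_conj, map_sub, map_sum]
      simp only [map_mul, RingHomCompTriple.comp_apply, RingHom.id_apply]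

omit [IsProbabilityMeasure μ] in
theorem CptB_integral_comp (hR : MP μ R) (h : X → ℝ) :
    ∫ x, h (R x) ∂μ = ∫ x, h x ∂μ := by
  let e : X ≃ᵐ X := ⟨R, hR.1.measurable, hR.2.measurable⟩
  have he : MeasurableEmbedding (R : X → X) := e.measurableEmbedding
  exact hR.1.integral_comp he h

theorem Cpt.comp (hm : m ≤ mX) (hR : MP μ R) (hRI : Inv m R) (hc : Commute S R)
    (hf : Cpt m μ S f) : Cpt m μ S fun x => f (R x) := by
  have hcom : ∀ (n : ℤ) (x : X), R ((S ^ n) x) = (S ^ n) (R x) := by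
    intro n x
    have h := comm_apply hc n 1 x
    simpa using h.symm
  obtain ⟨q, hq, hqb, hF⟩ := hf.ker
  refine ⟨hf.meas.comp hR.1.measurable, fun x => hf.bd _, fun k x => q k (R x),
    fun k => (hq k).comp hRI.1, fun k x => hqb k _, ?_⟩
  intro M ε hε
  obtain ⟨ι, hι, F, c, hFm, hFb, hG, hcf⟩ := hF M ε hε
  refine ⟨ι, hι, fun j x => F j (R x), fun n j x => c n j (R x),
    fun j => (hFm j).comp hR.1.measurable, fun x => hFb _,
    ⟨fun n j => (hG.meas n j).comp hRI.1, fun n x => hG.bd n _, ?_⟩, ?_⟩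
  · intro n hn n' hn'
    refine le_of_eq_of_le ?_ (hG.close n hn n' hn')
    rw [← CptB_integral_comp hR (fun x => ‖(∑ j, c n j x * conj (c n' j x)) -
      q (n' - n) ((S ^ n) x)‖)]
    refine integral_congr_ae (Eventually.of_forall fun x => ?_)
    simp only [hcom]
  · intro n hn
    refine le_of_eq_of_le ?_ (hcf n hn)
    rw [← CptB_integral_comp hR (fun x => ‖f ((S ^ n) x) - ∑ j, F j x * c n j x‖ ^ 2)]
    refine integral_congr_ae (Eventually.of_forall fun x => ?_)
    simp only [hcom]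

theorem Cpt.const_mul (hm : m ≤ mX) (hS : MP μ S) (hI : Inv m S) {a : ℂ} (ha : ‖a‖ ≤ 1)
    (hf : Cpt m μ S f) : Cpt m μ S fun x => a * f x :=
  Cpt.mul hm hS (Cpt.of_meas hm hS hI (measurable_const (a := a)) fun _ => ha) hf

end Pool.DRT
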