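import Mathlib

set_option autoImplicit false

/-!
# Project DRT (MP_4d8f14): the return times theorem on the diagonal.  Definitions.

`X` is a probability space, `S`, `T` commuting invertible measure preserving maps.
Everything is a two-sided average `av N a = (2N+1)⁻¹ ∑_{|n| ≤ N} a n`.
-/

open MeasureTheory Filter Topology
open scoped ComplexConjugate NNReal ENNReal

noncomputable section

namespace Pool.DRT

/-! ### averages -/

/-- the average over `|n| ≤ N` -/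
def av {E : Type*} [AddCommGroup E] [Module ℝ E] (N : ℕ) (a : ℤ → E) : E :=
  (2 * (N : ℝ) + 1)⁻¹ • ∑ n ∈ Finset.Icc (-(N : ℤ)) (N : ℤ), a n

/-- the sequence converges -/
def CV {E : Type*} [TopologicalSpace E] (u : ℕ → E) : Prop := ∃ l : E, Tendsto u atTop (𝓝 l)

/-- the maximum of `a N` (and of `0`) over `L ≤ N ≤ M` -/
def mx (L M : ℕ) (a : ℕ → ℝ) : ℝ := ((Finset.Icc L M).sup fun N => (a N).toNNReal : ℝ≥0)

section avg

variable {E : Type*} [AddCommGroup E] [Module ℝ E]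

theorem card_Icc (N : ℕ) : (Finset.Icc (-(N : ℤ)) (N : ℤ)).card = 2 * N + 1 := by
  rw [Int.card_Icc]; omega

theorem av_pos (N : ℕ) : (0 : ℝ) < 2 * (N : ℝ) + 1 := by positivity

theorem av_congr {N : ℕ} {a b : ℤ → E} (h : ∀ n ∈ Finset.Icc (-(N : ℤ)) (N : ℤ), a n = b n) :
    av N a = av N b := by
  unfold av; rw [Finset.sum_congr rfl h]

theorem av_add (N : ℕ) (a b : ℤ → E) : av N (fun n => a n + b n) = av N a + av N b := by
  unfold av; rw [Finset.sum_add_distrib, smul_add]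

theorem av_sub (N : ℕ) (a b : ℤ → E) : av N (fun n => a n - b n) = av N a - av N b := by
  unfold av; rw [Finset.sum_sub_distrib, smul_sub]

theorem av_neg (N : ℕ) (a : ℤ → E) : av N (fun n => -a n) = -av N a := by
  unfold av; rw [Finset.sum_neg_distrib, smul_neg]

theorem av_zero (N : ℕ) : av N (fun _ => (0 : E)) = 0 := by
  unfold av; simp

theorem av_smul (N : ℕ) (c : ℝ) (a : ℤ → E) : av N (fun n => c • a n) = c • av N a := by
  unfold av; rw [← Finset.smul_sum, smul_comm]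

theorem av_const (N : ℕ) (c : E) : av N (fun _ => c) = c := by
  unfold av
  rw [Finset.sum_const, card_Icc, ← Nat.cast_smul_eq_nsmul ℝ, smul_smul]
  have h := (av_pos N).ne'
  push_cast
  rw [inv_mul_cancel₀ h, one_smul]

theorem av_sum {ι : Type*} (s : Finset ι) (N : ℕ) (a : ι → ℤ → E) :
    av N (fun n => ∑ i ∈ s, a i n) = ∑ i ∈ s, av N (a i) := by
  unfold av; rw [Finset.sum_comm, Finset.smul_sum]

end avg

theorem av_mul_left (N : ℕ) (c : ℂ) (a : ℤ → ℂ) : av N (fun n => c * a n) = c * av N a := by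
  unfold av; rw [← Finset.mul_sum, mul_smul_comm]

theorem av_mul_right (N : ℕ) (c : ℂ) (a : ℤ → ℂ) : av N (fun n => a n * c) = av N a * c := by
  unfold av; rw [← Finset.sum_mul, smul_mul_assoc]

theorem av_eq (N : ℕ) (a : ℤ → ℂ) :
    av N a = (2 * (N : ℂ) + 1)⁻¹ * ∑ n ∈ Finset.Icc (-(N : ℤ)) (N : ℤ), a n := by
  unfold av; rw [Complex.real_smul]; push_cast; rfl

theorem av_eq_real (N : ℕ) (a : ℤ → ℝ) :
    av N a = (2 * (N : ℝ) + 1)⁻¹ * ∑ n ∈ Finset.Icc (-(N : ℤ)) (N : ℤ), a n := by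
  unfold av; rw [smul_eq_mul]

theorem av_mono {N : ℕ} {a b : ℤ → ℝ} (h : ∀ n ∈ Finset.Icc (-(N : ℤ)) (N : ℤ), a n ≤ b n) :
    av N a ≤ av N b := by
  rw [av_eq_real, av_eq_real]
  exact mul_le_mul_of_nonneg_left (Finset.sum_le_sum h) (by positivity)

theorem av_nonneg {N : ℕ} {a : ℤ → ℝ} (h : ∀ n ∈ Finset.Icc (-(N : ℤ)) (N : ℤ), 0 ≤ a n) :
    0 ≤ av N a := by
  rw [av_eq_real]
  exact mul_nonneg (by positivity) (Finset.sum_nonneg h)

theorem av_le {N : ℕ} {a : ℤ → ℝ} {C : ℝ} (h : ∀ n ∈ Finset.Icc (-(N : ℤ)) (N : ℤ), a n ≤ C) :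
    av N a ≤ C := by
  calc av N a ≤ av N (fun _ => C) := av_mono h
    _ = C := av_const N C

theorem norm_av_le {E : Type*} [NormedAddCommGroup E] [NormedSpace ℝ E] (N : ℕ) (a : ℤ → E) :
    ‖av N a‖ ≤ av N (fun n => ‖a n‖) := by
  rw [av_eq_real]
  unfold av
  rw [norm_smul, norm_inv, Real.norm_of_nonneg (av_pos N).le]
  exact mul_le_mul_of_nonneg_left (norm_sum_le _ _) (by positivity)

theorem norm_av_le_of_le {E : Type*} [NormedAddCommGroup E] [NormedSpace ℝ E] {N : ℕ} {a : ℤ → E}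
    {C : ℝ} (h : ∀ n ∈ Finset.Icc (-(N : ℤ)) (N : ℤ), ‖a n‖ ≤ C) : ‖av N a‖ ≤ C :=
  (norm_av_le N a).trans (av_le h)

theorem re_av (N : ℕ) (a : ℤ → ℂ) : (av N a).re = av N (fun n => (a n).re) := by
  rw [av_eq_real]
  unfold av
  rw [Complex.smul_re, Complex.re_sum, smul_eq_mul]

theorem conj_av (N : ℕ) (a : ℤ → ℂ) : conj (av N a) = av N (fun n => conj (a n)) := by
  rw [av_eq, av_eq, map_mul, map_inv₀, map_sum, map_add, map_mul, Complex.conj_natCast, map_one,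
    Complex.conj_ofNat]

/-- the average is invariant under `n ↦ -n` -/
theorem av_comp_neg {E : Type*} [AddCommGroup E] [Module ℝ E] (N : ℕ) (a : ℤ → E) :
    av N (fun n => a (-n)) = av N a := by
  unfold av
  congr 1
  refine Finset.sum_nbij' (fun n => -n) (fun n => -n) ?_ ?_ ?_ ?_ ?_
  · intro n hn; rw [Finset.mem_Icc] at hn ⊢; constructor <;> omega
  · intro n hn; rw [Finset.mem_Icc] at hn ⊢; constructor <;> omega
  · intro n _; exact neg_neg n
  · intro n _; exact neg_neg n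
  · intro n _; rfl

/-- shifting a bounded sequence by `k` changes the average by at most `2 |k| C / (2N+1)` -/
theorem norm_av_shift_sub {E : Type*} [NormedAddCommGroup E] [NormedSpace ℝ E] (N : ℕ) (k : ℤ)
    {a : ℤ → E} {C : ℝ} (hC : ∀ n, ‖a n‖ ≤ C) :
    ‖av N (fun n => a (n + k)) - av N a‖ ≤ 2 * |(k : ℝ)| * C / (2 * (N : ℝ) + 1) := by
  have hC0 : 0 ≤ C := (norm_nonneg (a 0)).trans (hC 0)
  have hstep : ∀ b : ℤ → E, (∀ n, ‖b n‖ ≤ C) →
      ‖∑ n ∈ Finset.Icc (-(N : ℤ)) (N : ℤ), b (n + 1) -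
        ∑ n ∈ Finset.Icc (-(N : ℤ)) (N : ℤ), b n‖ ≤ 2 * C := by
    intro b hb
    have h1 : ∑ n ∈ Finset.Icc (-(N : ℤ)) (N : ℤ), b (n + 1) =
        ∑ n ∈ Finset.Icc (-(N : ℤ) + 1) ((N : ℤ) + 1), b n := by
      refine Finset.sum_nbij' (fun n => n + 1) (fun n => n - 1) ?_ ?_ ?_ ?_ ?_
      · intro n hn; rw [Finset.mem_Icc] at hn ⊢; constructor <;> omega
      · intro n hn; rw [Finset.mem_Icc] at hn ⊢; constructor <;> omega
      · intro n _; ring
      · intro n _; ring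
      · intro n _; rfl
    have h2 : Finset.Icc (-(N : ℤ)) ((N : ℤ) + 1) =
        insert (-(N : ℤ)) (Finset.Icc (-(N : ℤ) + 1) ((N : ℤ) + 1)) := by
      ext n; simp only [Finset.mem_insert, Finset.mem_Icc]; omega
    have h3 : Finset.Icc (-(N : ℤ)) ((N : ℤ) + 1) =
        insert ((N : ℤ) + 1) (Finset.Icc (-(N : ℤ)) (N : ℤ)) := by
      ext n; simp only [Finset.mem_insert, Finset.mem_Icc]; omega
    have h4 : ∑ n ∈ Finset.Icc (-(N : ℤ)) ((N : ℤ) + 1), b n =
        b (-(N : ℤ)) + ∑ n ∈ Finset.Icc (-(N : ℤ) + 1) ((N : ℤ) + 1), b n := by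
      rw [h2, Finset.sum_insert]; simp
    have h5 : ∑ n ∈ Finset.Icc (-(N : ℤ)) ((N : ℤ) + 1), b n =
        b ((N : ℤ) + 1) + ∑ n ∈ Finset.Icc (-(N : ℤ)) (N : ℤ), b n := by
      rw [h3, Finset.sum_insert]; simp
    have h6 : ∑ n ∈ Finset.Icc (-(N : ℤ)) (N : ℤ), b (n + 1) -
        ∑ n ∈ Finset.Icc (-(N : ℤ)) (N : ℤ), b n = b ((N : ℤ) + 1) - b (-(N : ℤ)) := by
      rw [h1, sub_eq_sub_iff_add_eq_add, add_comm, ← h4, h5]
    rw [h6]
    calc _ ≤ ‖b ((N : ℤ) + 1)‖ + ‖b (-(N : ℤ))‖ := norm_sub_le _ _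
      _ ≤ C + C := add_le_add (hb _) (hb _)
      _ = 2 * C := by ring
  have hnat : ∀ (k : ℕ) (b : ℤ → E), (∀ n, ‖b n‖ ≤ C) →
      ‖∑ n ∈ Finset.Icc (-(N : ℤ)) (N : ℤ), b (n + k) -
        ∑ n ∈ Finset.Icc (-(N : ℤ)) (N : ℤ), b n‖ ≤ 2 * k * C := by
    intro k b hb
    induction k with
    | zero => simp
    | succ k ih =>
      have h1 := hstep (fun n => b (n + k)) (fun n => hb _)
      have h2 : ∀ n : ℤ, b (n + 1 + (k : ℤ)) = b (n + ((k + 1 : ℕ) : ℤ)) := by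
        intro n; congr 1; push_cast; ring
      simp only [h2] at h1
      calc _ = ‖(∑ n ∈ Finset.Icc (-(N : ℤ)) (N : ℤ), b (n + ((k + 1 : ℕ) : ℤ)) -
            ∑ n ∈ Finset.Icc (-(N : ℤ)) (N : ℤ), b (n + (k : ℤ))) +
            (∑ n ∈ Finset.Icc (-(N : ℤ)) (N : ℤ), b (n + (k : ℤ)) -
              ∑ n ∈ Finset.Icc (-(N : ℤ)) (N : ℤ), b n)‖ := by congr 1; abel
        _ ≤ 2 * C + 2 * k * C := (norm_add_le _ _).trans (add_le_add h1 ih)
        _ = _ := by push_cast; ring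
  have hsum : ‖∑ n ∈ Finset.Icc (-(N : ℤ)) (N : ℤ), a (n + k) -
        ∑ n ∈ Finset.Icc (-(N : ℤ)) (N : ℤ), a n‖ ≤ 2 * |(k : ℝ)| * C := by
    rcases Int.eq_nat_or_neg k with ⟨j, rfl | rfl⟩
    · have := hnat j a hC
      simpa using this
    · have := hnat j (fun n => a (n + -(j : ℤ))) (fun n => hC _)
      have h2 : ∀ n : ℤ, a (n + (j : ℤ) + -(j : ℤ)) = a n := by intro n; congr 1; ring
      simp only [h2] at this
      rw [norm_sub_rev]
      simpa using this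
  unfold av
  rw [← smul_sub, norm_smul, norm_inv, Real.norm_of_nonneg (av_pos N).le, div_eq_inv_mul]
  exact mul_le_mul_of_nonneg_left hsum (by positivity)

section mxs

variable {L M : ℕ} {a b : ℕ → ℝ}

theorem mx_nonneg (L M : ℕ) (a : ℕ → ℝ) : 0 ≤ mx L M a := NNReal.coe_nonneg _

theorem le_mx {N : ℕ} (h1 : L ≤ N) (h2 : N ≤ M) : a N ≤ mx L M a := by
  have h : (a N).toNNReal ≤ (Finset.Icc L M).sup fun N => (a N).toNNReal :=
    Finset.le_sup (f := fun N => (a N).toNNReal) (Finset.mem_Icc.2 ⟨h1, h2⟩)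
  exact (Real.le_coe_toNNReal _).trans (NNReal.coe_le_coe.2 h)

theorem mx_le {C : ℝ} (hC : 0 ≤ C) (h : ∀ N, L ≤ N → N ≤ M → a N ≤ C) : mx L M a ≤ C := by
  unfold mx
  rw [← Real.coe_toNNReal C hC]
  apply NNReal.coe_le_coe.2
  apply Finset.sup_le
  intro N hN
  rw [Finset.mem_Icc] at hN
  exact Real.toNNReal_le_toNNReal (h N hN.1 hN.2)

theorem mx_mono (h : ∀ N, L ≤ N → N ≤ M → a N ≤ b N) : mx L M a ≤ mx L M b :=
  mx_le (mx_nonneg _ _ _) fun N h1 h2 => (h N h1 h2).trans (le_mx h1 h2)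

theorem measurable_mx {X : Type*} {m : MeasurableSpace X} (L M : ℕ) {a : ℕ → X → ℝ}
    (h : ∀ N, Measurable[m] (a N)) : Measurable[m] fun x => mx L M fun N => a N x := by
  unfold mx
  apply Measurable.coe_nnreal_real
  have h1 : (fun x => (Finset.Icc L M).sup fun N => (a N x).toNNReal) =
      (Finset.Icc L M).sup (fun N x => (a N x).toNNReal) := by
    ext x; rw [Finset.sup_apply]
  rw [h1]
  exact Finset.sup_induction (p := fun f : X → ℝ≥0 => Measurable[m] f) measurable_const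
    (fun f hf g hg => hf.sup hg) (fun N _ => (h N).real_toNNReal)

theorem continuous_mx {Z : Type*} [TopologicalSpace Z] (L M : ℕ) {a : ℕ → Z → ℝ}
    (h : ∀ N, Continuous (a N)) : Continuous fun x => mx L M fun N => a N x := by
  unfold mx
  apply NNReal.continuous_coe.comp
  have h1 : (fun x => (Finset.Icc L M).sup fun N => (a N x).toNNReal) =
      (Finset.Icc L M).sup (fun N x => (a N x).toNNReal) := by
    ext x; rw [Finset.sup_apply]
  rw [h1]
  exact Finset.sup_induction (p := fun f : Z → ℝ≥0 => Continuous f) continuous_const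
    (fun f hf g hg => hf.sup hg) (fun N _ => continuous_real_toNNReal.comp (h N))

end mxs

/-! ### systems -/

section sys

variable {X : Type*}

/-- an invertible measure preserving map, with its inverse -/
def MP [MeasurableSpace X] (μ : Measure X) (T : Equiv.Perm X) : Prop :=
  MeasurePreserving T μ μ ∧ MeasurePreserving (T⁻¹ : Equiv.Perm X) μ μ

/-- bounded by one -/
def Bd (f : X → ℂ) : Prop := ∀ x, ‖f x‖ ≤ 1

/-- `m` is invariant under `S` and its inverse -/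
def Inv (m : MeasurableSpace X) (S : Equiv.Perm X) : Prop :=
  Measurable[m, m] S ∧ Measurable[m, m] (S⁻¹ : Equiv.Perm X)

/-- the averages `A_N(f, g)` -/
def AN (S T : Equiv.Perm X) (f g : X → ℂ) (N : ℕ) (x : X) : ℂ :=
  av N fun n => f ((S ^ n) x) * g ((T ^ n) x)

/-- good factors: invariant sub-σ-algebras on which all averages of pairs converge a.e. -/
structure Good (m : MeasurableSpace X) [mX : MeasurableSpace X] (μ : Measure X)
    (S T : Equiv.Perm X) : Prop where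
  le : m ≤ mX
  invS : Inv m S
  invT : Inv m T
  cv : ∀ f g : X → ℂ, Measurable[m] f → Measurable[m] g → Bd f → Bd g →
    ∀ᵐ x ∂μ, CV fun N => AN S T f g N x

/-- `c` approximates the stationary kernel `Q_{n,n'} = q_{n'-n} ∘ S^n` on `[-M, M]` up to `δ` -/
structure Gram (m : MeasurableSpace X) [mX : MeasurableSpace X] (μ : Measure X)
    (S : Equiv.Perm X) (q : ℤ → X → ℂ) (M : ℕ) (δ : ℝ) {ι : Type} [Fintype ι]
    (c : ℤ → ι → X → ℂ) : Prop where
  meas : ∀ n j, Measurable[m] (c n j)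
  bd : ∀ n x, ∑ j, ‖c n j x‖ ^ 2 ≤ 1
  close : ∀ n ∈ Finset.Icc (-(M : ℤ)) M, ∀ n' ∈ Finset.Icc (-(M : ℤ)) M,
    ∫ x, ‖∑ j, c n j x * conj (c n' j x) - q (n' - n) ((S ^ n) x)‖ ∂μ ≤ δ

/-- `f` is compact relative to `m` for `S`, and bounded by one -/
structure Cpt (m : MeasurableSpace X) [mX : MeasurableSpace X] (μ : Measure X)
    (S : Equiv.Perm X) (f : X → ℂ) : Prop where
  meas : Measurable f
  bd : Bd f
  ker : ∃ q : ℤ → X → ℂ, (∀ k, Measurable[m] (q k)) ∧ (∀ k x, ‖q k x‖ ≤ 1) ∧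
    ∀ (M : ℕ) (ε : ℝ), 0 < ε → ∃ (ι : Type) (_ : Fintype ι) (F : ι → X → ℂ) (c : ℤ → ι → X → ℂ),
      (∀ j, Measurable (F j)) ∧ (∀ x, ∑ j, ‖F j x‖ ^ 2 ≤ 1) ∧ Gram m μ S q M ε c ∧
      ∀ n ∈ Finset.Icc (-(M : ℤ)) M,
        ∫ x, ‖f ((S ^ n) x) - ∑ j, F j x * c n j x‖ ^ 2 ∂μ ≤ ε

/-! ### the condition of the weight lemma -/

/-- correlations of the weights `w` along `T` -/
def KN (T : Equiv.Perm X) (w : ℤ → X → ℂ) (N : ℕ) (r : ℤ) (y : X) : ℂ :=
  av N fun n => w n ((T ^ r) y) * conj (w (n + r) y)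

/-- oscillation of the correlations between the scales `L` and `M` -/
def kap (T : Equiv.Perm X) (w : ℤ → X → ℂ) (L M : ℕ) (r : ℤ) (y : X) : ℝ :=
  mx L M fun N => ‖KN T w N r y - KN T w L r y‖

/-- the mean of the oscillation over `|r| ≤ R` -/
def kb (T : Equiv.Perm X) (w : ℤ → X → ℂ) (L M R : ℕ) (y : X) : ℝ :=
  av R fun r => kap T w L M r y

/-- condition (C) -/
def CondC [MeasurableSpace X] (μ : Measure X) (T : Equiv.Perm X) (w : ℤ → X → ℂ) : Prop :=
  ∀ ε : ℝ, 0 < ε → ∃ L₀ : ℕ, ∀ L M : ℕ, L₀ ≤ L → L ≤ M →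
    μ {y | ¬ ∀ᶠ R in atTop, kb T w L M R y ≤ ε} ≤ ENNReal.ofReal ε

/-! ### adjoint functions for the weight lemma -/

/-- normalised weight on the window `|n| ≤ N z` of the point `z` -/
def wt (w : ℤ → X → ℂ) (N : X → ℕ) (n : ℤ) (z : X) : ℂ :=
  if n.natAbs ≤ N z then (2 * (N z : ℝ) + 1)⁻¹ • w n z else 0

/-- adjoint function: sum over `|n| ≤ M` of the weights of the points `T^{-n} x` in `B` -/
def adf (T : Equiv.Perm X) (w : ℤ → X → ℂ) (B : Set X) (N : X → ℕ) (M : ℕ) (x : X) : ℂ :=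
  ∑ n ∈ Finset.Icc (-(M : ℤ)) (M : ℤ), B.indicator (wt w N n) ((T ^ (-n)) x)

/-! ### tensors -/

/-- `u ⊗ conj v` -/
def tens {ι : Type} [Fintype ι] (u v : ι → ℂ) : EuclideanSpace ℂ (ι × ι) :=
  WithLp.toLp 2 fun p => u p.1 * conj (v p.2)

/-- oscillation of the averages of the tensors -/
def GG {ι : Type} [Fintype ι] (L M : ℕ) (u v : ℤ → ι → ℂ) : ℝ :=
  mx L M fun N => ‖(av N fun n => tens (u n) (v n)) - av L fun n => tens (u n) (v n)‖

/-! ### Toeplitz forms -/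

/-- uniform weight on `[-H, H]` -/
def uw (H : ℕ) (k : ℤ) : ℝ := if k.natAbs ≤ H then (2 * (H : ℝ) + 1)⁻¹ else 0

/-- Toeplitz form -/
def tf (ρ : ℤ → ℝ) (K : ℕ) (a : ℤ → ℝ) : ℝ :=
  ∑ k ∈ Finset.Icc (-(K : ℤ)) (K : ℤ), ∑ l ∈ Finset.Icc (-(K : ℤ)) (K : ℤ), a k * a l * ρ (l - k)

/-- the main term of the square of the difference of two averages -/
def DD (S T : Equiv.Perm X) (q : ℤ → X → ℂ) (H₀ H : ℕ) (r : ℤ) (y : X) : ℂ :=
  ∑ k ∈ Finset.Icc (-(H : ℤ)) (H : ℤ), ∑ l ∈ Finset.Icc (-(H : ℤ)) (H : ℤ),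
    (((uw H₀ k - uw H k) * (uw H₀ l - uw H l) : ℝ) : ℂ) *
      (q (l - k) ((S ^ k) ((T ^ r) y)) * conj (q (l - k) ((S ^ k) ((S ^ r) y))))

/-! ### conditional expectations -/

/-- version of the conditional expectation which is bounded by one everywhere -/
def ce (m : MeasurableSpace X) [mX : MeasurableSpace X] (μ : Measure X) (f : X → ℂ) (x : X) : ℂ :=
  if ‖(μ[f | m]) x‖ ≤ 1 then (μ[f | m]) x else 0

/-- the averages of `f_j E(conj f_j g | m)`, `f_j = f ∘ S^j` -/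
def hC (m : MeasurableSpace X) [mX : MeasurableSpace X] (μ : Measure X) (S : Equiv.Perm X)
    (f g : X → ℂ) (J : ℕ) (x : X) : ℂ :=
  av J fun j => f ((S ^ j) x) * ce m μ (fun z => conj (f ((S ^ j) z)) * g z) x

/-- the square of the norm of `E(f conj f_k | m)` -/
def ta (m : MeasurableSpace X) [mX : MeasurableSpace X] (μ : Measure X) (S : Equiv.Perm X)
    (f : X → ℂ) (k : ℤ) : ℝ :=
  ∫ x, ‖ce m μ (fun z => f z * conj (f ((S ^ k) z))) x‖ ^ 2 ∂μ

/-! ### basic facts on systems -/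

section basic

variable {m : MeasurableSpace X} [mX : MeasurableSpace X] {μ : Measure X} {S T : Equiv.Perm X}

theorem MP.zpow (hT : MP μ T) (n : ℤ) : MeasurePreserving (T ^ n : Equiv.Perm X) μ μ := by
  have hnat : ∀ (R : Equiv.Perm X), MeasurePreserving R μ μ → ∀ k : ℕ,
      MeasurePreserving (R ^ k : Equiv.Perm X) μ μ := by
    intro R hR k
    induction k with
    | zero => simpa using MeasurePreserving.id μ
    | succ k ih =>
      rw [pow_succ, Equiv.Perm.coe_mul]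
      exact ih.comp hR
  rcases Int.eq_nat_or_neg n with ⟨k, rfl | rfl⟩
  · rw [zpow_natCast]; exact hnat T hT.1 k
  · rw [zpow_neg, zpow_natCast, ← inv_pow]; exact hnat T⁻¹ hT.2 k

theorem MP.measurable (hT : MP μ T) (n : ℤ) : Measurable (T ^ n : Equiv.Perm X) :=
  (hT.zpow n).measurable

theorem MP.pow (hT : MP μ T) (n : ℤ) : MP μ (T ^ n) :=
  ⟨hT.zpow n, by rw [← zpow_neg]; exact hT.zpow (-n)⟩

theorem MP.mul (hS : MP μ S) (hT : MP μ T) : MP μ (S * T) :=
  ⟨by rw [Equiv.Perm.coe_mul]; exact hS.1.comp hT.1,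
   by rw [mul_inv_rev, Equiv.Perm.coe_mul]; exact hT.2.comp hS.2⟩

theorem MP.inv (hT : MP μ T) : MP μ T⁻¹ := ⟨hT.2, by rw [inv_inv]; exact hT.1⟩

omit mX in
theorem Inv.zpow (h : Inv m T) (n : ℤ) : Measurable[m, m] (T ^ n : Equiv.Perm X) := by
  have hnat : ∀ (R : Equiv.Perm X), Measurable[m, m] R → ∀ k : ℕ,
      Measurable[m, m] (R ^ k : Equiv.Perm X) := by
    intro R hR k
    induction k with
    | zero => simpa using @measurable_id X m
    | succ k ih =>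
      rw [pow_succ, Equiv.Perm.coe_mul]
      exact ih.comp hR
  rcases Int.eq_nat_or_neg n with ⟨k, rfl | rfl⟩
  · rw [zpow_natCast]; exact hnat T h.1 k
  · rw [zpow_neg, zpow_natCast, ← inv_pow]; exact hnat T⁻¹ h.2 k

omit mX in
theorem Inv.pow (h : Inv m T) (n : ℤ) : Inv m (T ^ n) :=
  ⟨h.zpow n, by rw [← zpow_neg]; exact h.zpow (-n)⟩

omit mX in
theorem Inv.mul (hS : Inv m S) (hT : Inv m T) : Inv m (S * T) :=
  ⟨by rw [Equiv.Perm.coe_mul]; exact hS.1.comp hT.1,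
   by rw [mul_inv_rev, Equiv.Perm.coe_mul]; exact hT.2.comp hS.2⟩

theorem Good.symm (h : Good m μ S T) : Good m μ T S where
  le := h.le
  invS := h.invT
  invT := h.invS
  cv f g hf hg hbf hbg := by
    filter_upwards [h.cv g f hg hf hbg hbf] with x hx
    simpa only [AN, mul_comm] using hx

omit mX in
theorem Inv.meas_comp {c : X → ℂ} (hS : Inv m S) (hc : Measurable[m] c) (n : ℤ) :
    Measurable[m] fun x => c ((S ^ n) x) := hc.comp (hS.zpow n)

end basic

/-! ### powers of commuting permutations -/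

section comm

variable {S T : Equiv.Perm X}

theorem comm_apply (h : Commute S T) (a b : ℤ) (x : X) :
    (S ^ a) ((T ^ b) x) = (T ^ b) ((S ^ a) x) := by
  have := (h.zpow_zpow a b).eq
  exact congrArg (fun R : Equiv.Perm X => R x) this

theorem zpow_add_apply (a b : ℤ) (x : X) : (S ^ (a + b)) x = (S ^ a) ((S ^ b) x) := by
  rw [zpow_add]; rfl

end comm

end sys

end Pool.DRT
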