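import Pool.Agent.DRT.LemC3
import Pool.Agent.DRT.Compl

set_option autoImplicit false

/-!
# A complete factor which contains all relatively compact functions contains all distal factors
-/

open MeasureTheory Filter Topology
open scoped ComplexConjugate NNReal ENNReal

noncomputable section

namespace Pool.DRT

section one

variable {X : Type*} {m : MeasurableSpace X} [mX : MeasurableSpace X] {μ : Measure X}
  [IsProbabilityMeasure μ] {S : Equiv.Perm X} {f g : X → ℂ}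

/-- a bounded function which is an `L²` limit of `m`-measurable bounded functions -/
theorem Dist_lim (hm : m ≤ mX) {h : X → ℂ} (hh : Measurable h) (hhb : Bd h) {u : ℕ → X → ℂ}
    (hu : ∀ J, Measurable[m] (u J)) (hub : ∀ J, Bd (u J))
    (hlim : Tendsto (fun J => ∫ x, ‖u J x - h x‖ ^ 2 ∂μ) atTop (𝓝 0)) :
    ce m μ h =ᵐ[μ] h := by
  have huX : ∀ J, Measurable (u J) := fun J => (hu J).mono hm le_rfl
  have hcm : Measurable (ce m μ h) := (ce_meas h).mono hm le_rfl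
  have hint : ∀ (a b : X → ℂ), Measurable a → Measurable b → Bd a → Bd b →
      Integrable (fun x => ‖a x - b x‖ ^ 2) μ := by
    intro a b ha hb hab hbb
    refine Integrable.of_bound ((ha.sub hb).norm.pow_const 2).aestronglyMeasurable 4
      (Eventually.of_forall fun x => ?_)
    rw [Real.norm_of_nonneg (by positivity)]
    have h3 : ‖a x - b x‖ ≤ 2 := by
      have := norm_sub_le (a x) (b x)
      linarith [hab x, hbb x]
    nlinarith [norm_nonneg (a x - b x)]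
  have h1 : ∀ J, ∫ x, ‖ce m μ h x - h x‖ ^ 2 ∂μ ≤ 4 * ∫ x, ‖u J x - h x‖ ^ 2 ∂μ := by
    intro J
    have e1 : ∫ x, ‖ce m μ h x - u J x‖ ^ 2 ∂μ ≤ ∫ x, ‖u J x - h x‖ ^ 2 ∂μ := by
      have e2 : ∫ x, ‖ce m μ h x - u J x‖ ^ 2 ∂μ =
          ∫ x, ‖ce m μ h x - ce m μ (u J) x‖ ^ 2 ∂μ := by
        apply integral_congr_ae
        filter_upwards [ce_self (μ := μ) hm (hu J) (hub J)] with x hx
        rw [hx]
      rw [e2]
      refine (ce_sub_l2 hm hh hhb (huX J) (hub J)).trans (le_of_eq ?_)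
      congr 1; funext x
      rw [norm_sub_rev]
    have e3 : ∫ x, ‖ce m μ h x - h x‖ ^ 2 ∂μ ≤
        ∫ x, (2 * ‖ce m μ h x - u J x‖ ^ 2 + 2 * ‖u J x - h x‖ ^ 2) ∂μ := by
      apply integral_mono (hint _ _ hcm hh (ce_bd _) hhb)
        (((hint _ _ hcm (huX J) (ce_bd _) (hub J)).const_mul 2).add
          ((hint _ _ (huX J) hh (hub J) hhb).const_mul 2))
      intro x
      show ‖ce m μ h x - h x‖ ^ 2 ≤ 2 * ‖ce m μ h x - u J x‖ ^ 2 + 2 * ‖u J x - h x‖ ^ 2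
      have h5 : ‖ce m μ h x - h x‖ ≤ ‖ce m μ h x - u J x‖ + ‖u J x - h x‖ := by
        have := norm_add_le (ce m μ h x - u J x) (u J x - h x)
        rwa [sub_add_sub_cancel] at this
      nlinarith [norm_nonneg (ce m μ h x - h x), norm_nonneg (ce m μ h x - u J x),
        norm_nonneg (u J x - h x), sq_nonneg (‖ce m μ h x - u J x‖ - ‖u J x - h x‖)]
    rw [integral_add ((hint _ _ hcm (huX J) (ce_bd _) (hub J)).const_mul 2)
      ((hint _ _ (huX J) hh (hub J) hhb).const_mul 2), integral_const_mul,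
      integral_const_mul] at e3
    linarith
  have h2 : ∫ x, ‖ce m μ h x - h x‖ ^ 2 ∂μ ≤ 0 := by
    have := hlim.const_mul 4
    rw [mul_zero] at this
    exact ge_of_tendsto' this h1
  have h3 : ∫ x, ‖ce m μ h x - h x‖ ^ 2 ∂μ = 0 :=
    le_antisymm h2 (integral_nonneg fun x => by positivity)
  rw [integral_eq_zero_iff_of_nonneg (fun x => by positivity)
    (hint _ _ hcm hh (ce_bd _) hhb)] at h3
  filter_upwards [h3] with x hx
  have hx' : ‖ce m μ h x - h x‖ ^ 2 = 0 := hx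
  have h4 : ‖ce m μ h x - h x‖ = 0 := by simpa using hx'
  exact sub_eq_zero.1 (norm_eq_zero.1 h4)

end one

section two

variable {X : Type*} {m m' : MeasurableSpace X} [mX : MeasurableSpace X] {μ : Measure X}
  {S : Equiv.Perm X} {f g : X → ℂ}

theorem Cpt.mono (h : m ≤ m') (hf : @Cpt X m mX μ S f) : @Cpt X m' mX μ S f := by
  obtain ⟨h1, h2, q, hq1, hq2, hq3⟩ := hf
  refine ⟨h1, h2, q, fun k => (hq1 k).mono h le_rfl, hq2, fun M ε hε => ?_⟩
  obtain ⟨ι, hι, F, c, hF, hF1, hc, hfc⟩ := hq3 M ε hε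
  exact ⟨ι, hι, F, c, hF, hF1, ⟨fun n j => (hc.meas n j).mono h le_rfl, hc.bd, hc.close⟩, hfc⟩

end two

section three

variable {X : Type*} {m : MeasurableSpace X} [mX : MeasurableSpace X] {μ : Measure X}
  [IsProbabilityMeasure μ] {S : Equiv.Perm X} {f g : X → ℂ}

omit mX [IsProbabilityMeasure μ] in
theorem Dist_av_meas {F : ℤ → X → ℂ} (hF : ∀ j, Measurable[m] (F j)) (J : ℕ) :
    Measurable[m] fun x => av J fun j => F j x := by
  unfold av
  exact (Finset.measurable_sum _ fun j _ => hF j).const_smul _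

end three

/-- `R` is distal on the factor `m₁`: there is no proper invariant σ-algebra relative to which `R`
is weakly mixing on `m₁`. -/
structure DistF {X : Type*} (m₁ : MeasurableSpace X) [mX : MeasurableSpace X] (μ : Measure X)
    (R : Equiv.Perm X) : Prop where
  le : m₁ ≤ mX
  inv : Inv m₁ R
  dist : ∀ 𝒜 : MeasurableSpace X, 𝒜 ≤ m₁ → Inv 𝒜 R →
    (∀ f g : X → ℂ, Measurable[m₁] f → Measurable[m₁] g → Bd f → Bd g → μ[f | 𝒜] =ᵐ[μ] 0 →
      Tendsto (fun N => av N fun n => ∫ x, ‖(μ[fun z => f ((R ^ n) z) * g z | 𝒜]) x‖ ^ 2 ∂μ)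
        atTop (𝓝 0)) →
    ∀ B, MeasurableSet[m₁] B → ∃ B', MeasurableSet[𝒜] B' ∧ B =ᵐ[μ] B'

section four

variable {X : Type*} {M m₁ : MeasurableSpace X} [mX : MeasurableSpace X] {μ : Measure X}
  [IsProbabilityMeasure μ] {S : Equiv.Perm X}

theorem Dist_inf_meas {h : X → ℂ} (h1 : Measurable[m₁] h) (h2 : Measurable[M] h) :
    Measurable[m₁ ⊓ M] h := by
  intro B hB
  exact ⟨h1 hB, h2 hB⟩

/-- the condition for `relmix'` -/
theorem Dist_self (hM : M ≤ mX) (h₁ : m₁ ≤ mX) (hS : MP μ S) (hI₁ : Inv m₁ S)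
    (hcpl : ∀ A B : Set X, MeasurableSet[mX] A → MeasurableSet[M] B → A =ᵐ[μ] B →
      MeasurableSet[M] A)
    (hmax : ∀ h : X → ℂ, @Cpt X M mX μ S h → Measurable[M] h) {f : X → ℂ}
    (hf : Measurable[m₁] f) (hb : Bd f) (h : X → ℂ) (hc : @Cpt X (m₁ ⊓ M) mX μ S h)
    (hlim : Tendsto (fun J => ∫ x, ‖@hC X (m₁ ⊓ M) mX μ S f f J x - h x‖ ^ 2 ∂μ) atTop (𝓝 0)) :
    @ce X (m₁ ⊓ M) mX μ h =ᵐ[μ] h := by
  have hA : m₁ ⊓ M ≤ mX := inf_le_left.trans h₁
  have hhb : Bd h := @Cpt.bd X (m₁ ⊓ M) mX μ S h hc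
  have hhm : Measurable[mX] h := @Cpt.meas X (m₁ ⊓ M) mX μ S h hc
  have hhM : Measurable[M] h := hmax h (@Cpt.mono X (m₁ ⊓ M) M mX μ S h inf_le_right hc)
  have e1 : @ce X m₁ mX μ h =ᵐ[μ] h := by
    refine @Dist_lim X m₁ mX μ _ h₁ h hhm hhb (fun J => @hC X (m₁ ⊓ M) mX μ S f f J) ?_ ?_ hlim
    · intro J
      apply Dist_av_meas
      intro j
      exact (hf.comp (hI₁.zpow j)).mul
        ((@ce_meas X (m₁ ⊓ M) mX μ (fun z => conj (f ((S ^ j) z)) * f z)).mono inf_le_left le_rfl)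
    · intro J x
      exact @hC_bd X (m₁ ⊓ M) mX μ S f f hb J x
  set h' := @ce X m₁ mX μ h with hh'
  have hm1 : Measurable[m₁] h' := @ce_meas X m₁ mX μ h
  have hmM : Measurable[M] h' := by
    intro B hB
    refine hcpl _ (h ⁻¹' B) (hm1.mono h₁ le_rfl hB) (hhM hB) ?_
    filter_upwards [e1] with x hx
    show (h' x ∈ B) = (h x ∈ B)
    rw [hx]
  have hmA : Measurable[m₁ ⊓ M] h' := Dist_inf_meas hm1 hmM
  have e2 : @ce X (m₁ ⊓ M) mX μ h' =ᵐ[μ] h' :=
    @ce_self X (m₁ ⊓ M) mX μ _ h' hA hmA (@ce_bd X m₁ mX μ h)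
  have e3 : @ce X (m₁ ⊓ M) mX μ h' =ᵐ[μ] @ce X (m₁ ⊓ M) mX μ h :=
    @ce_congr X (m₁ ⊓ M) mX μ _ h' h e1
  exact e3.symm.trans (e2.trans e1)

theorem dist_le (hM : M ≤ mX) (hS : MP μ S) (hI : Inv M S)
    (hcpl : ∀ A B : Set X, MeasurableSet[mX] A → MeasurableSet[M] B → A =ᵐ[μ] B →
      MeasurableSet[M] A)
    (hmax : ∀ h : X → ℂ, @Cpt X M mX μ S h → Measurable[M] h)
    (hD : @DistF X m₁ mX μ S) : m₁ ≤ M := by
  have h₁ : m₁ ≤ mX := @DistF.le X m₁ mX μ S hD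
  have hI₁ : Inv m₁ S := @DistF.inv X m₁ mX μ S hD
  have hA : m₁ ⊓ M ≤ mX := inf_le_left.trans h₁
  have hIA : Inv (m₁ ⊓ M) S := by
    constructor
    · intro B hB
      exact ⟨hI₁.1 hB.1, hI.1 hB.2⟩
    · intro B hB
      exact ⟨hI₁.2 hB.1, hI.2 hB.2⟩
  intro B hB
  obtain ⟨B', hB', hBB'⟩ := @DistF.dist X m₁ mX μ S hD (m₁ ⊓ M) inf_le_left hIA
    (fun f g hf hg hfb hgb hf0 => @relmix' X (m₁ ⊓ M) mX μ _ S f g hA hS hIA
      (hf.mono h₁ le_rfl) hfb (hg.mono h₁ le_rfl) hgb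
      (fun h hc hlim => Dist_self hM h₁ hS hI₁ hcpl hmax hf hfb h hc hlim) hf0) B hB
  exact hcpl B B' (h₁ B hB) hB'.2 hBB'

end four

end Pool.DRT
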