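import Pool.Agent.DRT.Defs
import Pool.Agent.Lib.MaximalErgodic

set_option autoImplicit false

/-!
# Two-sided maximal inequalities

PROOFS. `weak2`: `∑_{|n| ≤ N} φ(T^n x) ≤ ∑_{0 ≤ i < N+1} φ(T^i x) + ∑_{0 ≤ i < N+1} φ((T⁻¹)^i x)`; if the
left side is `> t (2N+1)` then one of the two sums is `> t (2N+1)/2 ≥ (t/2)(N+1)`.  So the set is
contained in the union of the two sets of `Pool.Lib.Erg.weak_type` with `l = t/2` for `T` and `T⁻¹`
(convert `T^[i] x` to `(T ^ (i:ℤ)) x`: `Equiv.Perm.iterate_eq_pow`), each of measure at most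
`(∫ φ)/(t/2)`; total `4 (∫ φ)/t`.
`limsup2`: if it is false that eventually `av R ≤ t` then some `R` has `av R > t`.
`intmax2`: let `F x = mx 0 M ...`, `0 ≤ F ≤ 2` (`mx_le`, `av_le`), measurable (`measurable_mx`).  For
`η > 0`: `F ≤ η + 2 · 1_{F > η}` and `{F > η}` is contained in the set of `weak2` with `t = η`, so
`∫ F ≤ η + 8 (∫ φ)/η`.  If `∫ φ > 0` take `η = √(∫ φ)`; if `∫ φ = 0` let `η → 0`.
-/

open MeasureTheory Filter Topology
open scoped ComplexConjugate NNReal ENNReal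

noncomputable section

namespace Pool.DRT

variable {X : Type*} [MeasurableSpace X] {μ : Measure X} [IsProbabilityMeasure μ]
  {T : Equiv.Perm X}

/-- splitting a two-sided sum -/
theorem MaxE_split (a : ℤ → ℝ) (h0 : ∀ n, 0 ≤ a n) (N : ℕ) :
    ∑ n ∈ Finset.Icc (-(N : ℤ)) (N : ℤ), a n ≤
      ∑ i ∈ Finset.range (N + 1), a (i : ℤ) + ∑ i ∈ Finset.range (N + 1), a (-(i : ℤ)) := by
  have h1 : ∑ i ∈ Finset.range (N + 1), a (i : ℤ) =
      ∑ n ∈ Finset.Icc (0 : ℤ) (N : ℤ), a n := by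
    refine Finset.sum_nbij' (fun i : ℕ => (i : ℤ)) (fun n : ℤ => n.toNat) ?_ ?_ ?_ ?_ ?_
    · intro i hi; rw [Finset.mem_range] at hi; rw [Finset.mem_Icc]; constructor <;> omega
    · intro n hn; rw [Finset.mem_Icc] at hn; rw [Finset.mem_range]; omega
    · intro i _; exact Int.toNat_natCast i
    · intro n hn; rw [Finset.mem_Icc] at hn; exact Int.toNat_of_nonneg hn.1
    · intro i _; rfl
  have h2 : ∑ i ∈ Finset.range (N + 1), a (-(i : ℤ)) =
      ∑ n ∈ Finset.Icc (-(N : ℤ)) (0 : ℤ), a n := by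
    refine Finset.sum_nbij' (fun i : ℕ => -(i : ℤ)) (fun n : ℤ => (-n).toNat) ?_ ?_ ?_ ?_ ?_
    · intro i hi; rw [Finset.mem_range] at hi; rw [Finset.mem_Icc]; constructor <;> omega
    · intro n hn; rw [Finset.mem_Icc] at hn; rw [Finset.mem_range]; omega
    · intro i _; simp
    · intro n hn
      rw [Finset.mem_Icc] at hn
      have : ((-n).toNat : ℤ) = -n := Int.toNat_of_nonneg (by omega)
      simp only [this, neg_neg]
    · intro i _; rfl
  have h3 : Finset.Icc (-(N : ℤ)) (N : ℤ) =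
      Finset.Icc (0 : ℤ) (N : ℤ) ∪ Finset.Icc (-(N : ℤ)) (0 : ℤ) := by
    ext n; simp only [Finset.mem_union, Finset.mem_Icc]; omega
  rw [h1, h2, h3, ← Finset.sum_union_inter]
  have h4 : 0 ≤ ∑ n ∈ Finset.Icc (0 : ℤ) (N : ℤ) ∩ Finset.Icc (-(N : ℤ)) (0 : ℤ), a n :=
    Finset.sum_nonneg fun n _ => h0 n
  linarith

/-- inclusion of the exceptional set -/
theorem MaxE_sub {φ : X → ℝ} (h0 : ∀ x, 0 ≤ φ x) {t : ℝ} (ht : 0 < t) :
    {x | ∃ N : ℕ, t < av N fun n => φ ((T ^ n) x)} ⊆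
      {x | ∃ n : ℕ, t / 2 * n < ∑ i ∈ Finset.range n, φ ((⇑T)^[i] x)} ∪
      {x | ∃ n : ℕ, t / 2 * n < ∑ i ∈ Finset.range n, φ ((⇑T⁻¹)^[i] x)} := by
  rintro x ⟨N, hN⟩
  rw [av_eq_real] at hN
  have hpos := av_pos N
  have h1 : t * (2 * (N : ℝ) + 1) < ∑ n ∈ Finset.Icc (-(N : ℤ)) (N : ℤ), φ ((T ^ n) x) := by
    have := mul_lt_mul_of_pos_left hN hpos
    rw [← mul_assoc, mul_inv_cancel₀ hpos.ne', one_mul] at this
    linarith
  have h2 := MaxE_split (fun n => φ ((T ^ n) x)) (fun n => h0 _) N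
  have h3 : ∀ i : ℕ, φ ((T ^ (i : ℤ)) x) = φ ((⇑T)^[i] x) := by
    intro i; rw [zpow_natCast, Equiv.Perm.iterate_eq_pow]
  have h4 : ∀ i : ℕ, φ ((T ^ (-(i : ℤ))) x) = φ ((⇑T⁻¹)^[i] x) := by
    intro i; rw [zpow_neg, zpow_natCast, Equiv.Perm.iterate_eq_pow, inv_pow]
  simp only [h3, h4] at h2
  have hNt : 0 ≤ t * (N : ℝ) := by positivity
  by_cases h5 : t / 2 * ((N + 1 : ℕ) : ℝ) < ∑ i ∈ Finset.range (N + 1), φ ((⇑T)^[i] x)
  · exact Or.inl ⟨N + 1, h5⟩
  · refine Or.inr ⟨N + 1, ?_⟩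
    push_neg at h5
    push_cast at h5 ⊢
    nlinarith

/-- weak type (1,1), two-sided averages -/
theorem weak2 (hT : MP μ T) {φ : X → ℝ} (hφ : Integrable φ μ) (h0 : ∀ x, 0 ≤ φ x) {t : ℝ}
    (ht : 0 < t) :
    μ {x | ∃ N : ℕ, t < av N fun n => φ ((T ^ n) x)} ≤
      ENNReal.ofReal (4 * (∫ x, φ x ∂μ) / t) := by
  have hI : 0 ≤ ∫ x, φ x ∂μ := integral_nonneg h0
  have h1 := Pool.Lib.Erg.weak_type (⇑T) hT.1 φ hφ h0 (t / 2) (by positivity)
  have h2 := Pool.Lib.Erg.weak_type (⇑T⁻¹) hT.2 φ hφ h0 (t / 2) (by positivity)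
  refine (measure_mono (MaxE_sub (T := T) h0 ht)).trans ((measure_union_le _ _).trans ?_)
  refine (add_le_add h1 h2).trans ?_
  rw [← ENNReal.ofReal_add (by positivity) (by positivity)]
  apply ENNReal.ofReal_le_ofReal
  apply le_of_eq
  field_simp
  ring

theorem limsup2 (hT : MP μ T) {φ : X → ℝ} (hφ : Integrable φ μ) (h0 : ∀ x, 0 ≤ φ x) {t : ℝ}
    (ht : 0 < t) :
    μ {x | ¬ ∀ᶠ R in atTop, (av R fun r => φ ((T ^ r) x)) ≤ t} ≤
      ENNReal.ofReal (4 * (∫ x, φ x ∂μ) / t) := by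
  refine (measure_mono ?_).trans (weak2 hT hφ h0 ht)
  intro x hx
  by_contra h
  apply hx
  simp only [Set.mem_setOf_eq, not_exists, not_lt] at h
  exact Eventually.of_forall fun R => h R

theorem intmax2 (hT : MP μ T) {φ : X → ℝ} (hφ : Measurable φ) (h0 : ∀ x, 0 ≤ φ x)
    (h2 : ∀ x, φ x ≤ 2) (M : ℕ) :
    ∫ x, mx 0 M (fun N => av N fun n => φ ((T ^ n) x)) ∂μ ≤ 9 * √(∫ x, φ x ∂μ) := by
  have hφi : Integrable φ μ := by
    refine Integrable.of_bound hφ.aestronglyMeasurable 2 (Eventually.of_forall fun x => ?_)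
    rw [Real.norm_of_nonneg (h0 x)]; exact h2 x
  have hI : 0 ≤ ∫ x, φ x ∂μ := integral_nonneg h0
  have hav : ∀ N : ℕ, Measurable fun x => av N fun n => φ ((T ^ n) x) := by
    intro N
    simp only [av_eq_real]
    exact (Finset.measurable_sum _ fun n _ => hφ.comp (hT.measurable n)).const_mul _
  have hFm : Measurable fun x => mx 0 M (fun N => av N fun n => φ ((T ^ n) x)) :=
    measurable_mx 0 M hav
  have hF2 : ∀ x, mx 0 M (fun N => av N fun n => φ ((T ^ n) x)) ≤ 2 := fun x =>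
    mx_le (by norm_num) fun N _ _ => av_le fun n _ => h2 _
  have key : ∀ η : ℝ, 0 < η →
      ∫ x, mx 0 M (fun N => av N fun n => φ ((T ^ n) x)) ∂μ ≤ η + 8 * (∫ x, φ x ∂μ) / η := by
    intro η hη
    set E : Set X := {x | η < mx 0 M (fun N => av N fun n => φ ((T ^ n) x))} with hE
    have hEm : MeasurableSet E := measurableSet_lt measurable_const hFm
    have hEs : E ⊆ {x | ∃ N : ℕ, η < av N fun n => φ ((T ^ n) x)} := by
      intro x hx
      by_contra h
      simp only [Set.mem_setOf_eq, not_exists, not_lt] at h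
      have hx' : η < mx 0 M (fun N => av N fun n => φ ((T ^ n) x)) := hx
      exact absurd (mx_le hη.le fun N _ _ => h N) (not_le.2 hx')
    have hEμ : μ.real E ≤ 4 * (∫ x, φ x ∂μ) / η := by
      have h := (measure_mono hEs).trans (weak2 hT hφi h0 hη)
      exact ENNReal.toReal_le_of_le_ofReal (by positivity) h
    have hint : Integrable (fun x => η + E.indicator (fun _ => (2 : ℝ)) x) μ :=
      (integrable_const η).add ((integrable_const (2 : ℝ)).indicator hEm)
    have hle : ∫ x, mx 0 M (fun N => av N fun n => φ ((T ^ n) x)) ∂μ ≤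
        ∫ x, (η + E.indicator (fun _ => (2 : ℝ)) x) ∂μ := by
      apply integral_mono _ hint
      · intro x
        simp only
        by_cases hx : x ∈ E
        · rw [Set.indicator_of_mem hx]
          have := hF2 x
          linarith
        · rw [Set.indicator_of_notMem hx, add_zero]
          exact not_lt.1 hx
      · refine Integrable.of_bound hFm.aestronglyMeasurable 2 (Eventually.of_forall fun x => ?_)
        rw [Real.norm_of_nonneg (mx_nonneg _ _ _)]; exact hF2 x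
    refine hle.trans ?_
    rw [integral_add (integrable_const η) ((integrable_const (2 : ℝ)).indicator hEm),
      integral_indicator hEm, setIntegral_const, integral_const, probReal_univ, one_smul,
      smul_eq_mul]
    have : 8 * (∫ x, φ x ∂μ) / η = 4 * (∫ x, φ x ∂μ) / η * 2 := by ring
    rw [this]
    linarith
  rcases hI.eq_or_lt with hI0 | hIpos
  · rw [← hI0, Real.sqrt_zero, mul_zero]
    apply le_of_forall_pos_le_add
    intro η hη
    have := key η hη
    rw [← hI0] at this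
    simpa using this
  · have hs : 0 < √(∫ x, φ x ∂μ) := Real.sqrt_pos.2 hIpos
    refine (key _ hs).trans (le_of_eq ?_)
    have h3 : 8 * (∫ x, φ x ∂μ) / √(∫ x, φ x ∂μ) = 8 * √(∫ x, φ x ∂μ) := by
      rw [mul_div_assoc, Real.div_sqrt]
    rw [h3]
    ring

end Pool.DRT
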