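import Pool.Agent.DRT.RedB
import Pool.Agent.DRT.MaxE

set_option autoImplicit false

/-!
# Integral bound for the oscillation of the tensors, for one `r`

PROOF of `intGG`. `u n j = c n j (T^r y)`, `v n j = c n j (S^r y)`, `ζ n = tens (u n) (v n)`.  By `three`
`GG ≤ 4H₀/(2L+1) + 4M/(2H+1) + 2 mx L M (av N ‖z' n - z'' n‖)`.  For `|n| ≤ M`, by `tens_sq` (`K = H`)
`‖z' n - z'' n‖² = ∑ α_k α_l P_{n+k,n+l}(T^r y) conj P_{n+k,n+l}(S^r y)`, `P_{a,b}(x) = ∑_j c_{a,j} conj c_{b,j}`, `|P| ≤ 1`,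
and `|P_{n+k,n+l} - q_{l-k} ∘ S^{n+k}|` has integral `≤ δ` (`Gram.close`, `n+k, n+l ∈ [-M', M']`).  Since
`S^{n+k} T^r y = S^k T^r (S^n y)` and `S^{n+k} S^r y = S^k S^r (S^n y)` (commutation), with
`D = DD S T q H₀ H r`:  `| ‖z' n - z'' n‖² - D(S^n y) | ≤ err n y`,
`err n y = ∑ |α_k α_l| (|P - q∘S^{n+k}|(T^r y) + |P - q∘S^{n+k}|(S^r y))`, `∫ err n ≤ 8 δ` (`sum_uw_le`; the maps
`T^r`, `S^r` preserve `μ`).  So `‖z' n - z'' n‖ ≤ √|D(S^n y)| + √(err n y)` and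
`mx L M (av N ‖z' - z''‖) ≤ mx 0 M (av N (√|D| ∘ S^n)) + ∑_{|n| ≤ M} √(err n y)`.  `√|D| ≤ 2` (`sum_uw_le`), so `intmax2`
bounds the integral of the first by `9 √(∫ √|D|) ≤ 9 √√(∫ |D|)` (Jensen: `∫ √φ ≤ √(∫ φ)`), and
`∫ |D| ≤ ∫ ‖z' 0 - z'' 0‖² + ∫ err 0 ≤ Re ∫ D + 2 ∫ err 0 ≤ Re ∫ D + 16 δ`.  `∫ √(err n) ≤ √(8δ)`.
`re_DD`: from the same inequality for `n = 0`: `0 ≤ ∫ ‖z' 0 - z'' 0‖² ≤ Re ∫ D + 8 δ`.
-/

open MeasureTheory Filter Topology
open scoped ComplexConjugate NNReal ENNReal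

noncomputable section

namespace Pool.DRT

variable {X : Type*} {m : MeasurableSpace X} [mX : MeasurableSpace X] {μ : Measure X}
  [IsProbabilityMeasure μ] {S T : Equiv.Perm X}

section IntB1_aux

variable {q : ℤ → X → ℂ} {ι : Type} [Fintype ι] {c : ℤ → ι → X → ℂ}

private def IntB1_E (S : Equiv.Perm X) (q : ℤ → X → ℂ) {ι : Type} [Fintype ι]
    (c : ℤ → ι → X → ℂ) (p p' : ℤ) (x : X) : ℝ :=
  ‖∑ j, c p j x * conj (c p' j x) - q (p' - p) ((S ^ p) x)‖

private def IntB1_err (S T : Equiv.Perm X) (q : ℤ → X → ℂ) {ι : Type} [Fintype ι]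
    (c : ℤ → ι → X → ℂ) (H₀ H : ℕ) (r n : ℤ) (y : X) : ℝ :=
  ∑ k ∈ Finset.Icc (-(H : ℤ)) (H : ℤ), ∑ l ∈ Finset.Icc (-(H : ℤ)) (H : ℤ),
    |(uw H₀ k - uw H k) * (uw H₀ l - uw H l)| *
      (IntB1_E S q c (n + k) (n + l) ((T ^ r) y) + IntB1_E S q c (n + k) (n + l) ((S ^ r) y))

private def IntB1_z (S T : Equiv.Perm X) {ι : Type} [Fintype ι]
    (c : ℤ → ι → X → ℂ) (H₀ H : ℕ) (r n : ℤ) (y : X) : ℝ :=
  ‖(av H₀ fun k => tens (fun j => c (n + k) j ((T ^ r) y)) (fun j => c (n + k) j ((S ^ r) y))) -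
      av H fun k => tens (fun j => c (n + k) j ((T ^ r) y)) (fun j => c (n + k) j ((S ^ r) y))‖

private lemma IntB1_cs {a b : ι → ℂ} (ha : ∑ j, ‖a j‖ ^ 2 ≤ 1) (hb : ∑ j, ‖b j‖ ^ 2 ≤ 1) :
    ‖∑ j, a j * conj (b j)‖ ≤ 1 := by
  calc ‖∑ j, a j * conj (b j)‖ ≤ ∑ j, ‖a j * conj (b j)‖ := norm_sum_le _ _
    _ ≤ ∑ j, (‖a j‖ ^ 2 + ‖b j‖ ^ 2) / 2 := by
        refine Finset.sum_le_sum fun j _ => ?_
        rw [norm_mul, RCLike.norm_conj]
        nlinarith [sq_nonneg (‖a j‖ - ‖b j‖)]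
    _ = ((∑ j, ‖a j‖ ^ 2) + ∑ j, ‖b j‖ ^ 2) / 2 := by
        rw [← Finset.sum_div, Finset.sum_add_distrib]
    _ ≤ 1 := by linarith

private lemma IntB1_two {A B C D : ℂ} (hB : ‖B‖ ≤ 1) (hC : ‖C‖ ≤ 1) :
    ‖A * conj B - C * conj D‖ ≤ ‖A - C‖ + ‖B - D‖ := by
  have h : A * conj B - C * conj D = (A - C) * conj B + C * conj (B - D) := by
    rw [map_sub]; ring
  rw [h]
  refine (norm_add_le _ _).trans (add_le_add ?_ ?_)
  · rw [norm_mul, RCLike.norm_conj]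
    exact mul_le_of_le_one_right (norm_nonneg _) hB
  · rw [norm_mul, RCLike.norm_conj]
    exact mul_le_of_le_one_left (norm_nonneg _) hC

private lemma IntB1_E_nonneg (p p' : ℤ) (x : X) : 0 ≤ IntB1_E S q c p p' x := norm_nonneg _

private lemma IntB1_E_le (hbd : ∀ n x, ∑ j, ‖c n j x‖ ^ 2 ≤ 1) (hqb : ∀ k x, ‖q k x‖ ≤ 1)
    (p p' : ℤ) (x : X) : IntB1_E S q c p p' x ≤ 2 := by
  unfold IntB1_E
  refine (norm_sub_le _ _).trans ?_
  have h1 := IntB1_cs (hbd p x) (hbd p' x)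
  have h2 := hqb (p' - p) ((S ^ p) x)
  linarith

private lemma IntB1_err_nonneg (H₀ H : ℕ) (r n : ℤ) (y : X) :
    0 ≤ IntB1_err S T q c H₀ H r n y := by
  unfold IntB1_err
  refine Finset.sum_nonneg fun k _ => Finset.sum_nonneg fun l _ => ?_
  exact mul_nonneg (abs_nonneg _) (add_nonneg (IntB1_E_nonneg _ _ _) (IntB1_E_nonneg _ _ _))

private lemma IntB1_err_le (hbd : ∀ n x, ∑ j, ‖c n j x‖ ^ 2 ≤ 1) (hqb : ∀ k x, ‖q k x‖ ≤ 1)
    {H₀ H : ℕ} (hH : H₀ ≤ H) (r n : ℤ) (y : X) :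
    IntB1_err S T q c H₀ H r n y ≤ 16 := by
  unfold IntB1_err
  calc _ ≤ ∑ k ∈ Finset.Icc (-(H : ℤ)) (H : ℤ), ∑ l ∈ Finset.Icc (-(H : ℤ)) (H : ℤ),
        |(uw H₀ k - uw H k) * (uw H₀ l - uw H l)| * 4 := by
        refine Finset.sum_le_sum fun k _ => Finset.sum_le_sum fun l _ => ?_
        refine mul_le_mul_of_nonneg_left ?_ (abs_nonneg _)
        have h1 := IntB1_E_le (S := S) hbd hqb (n + k) (n + l) ((T ^ r) y)
        have h2 := IntB1_E_le (S := S) hbd hqb (n + k) (n + l) ((S ^ r) y)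
        linarith
    _ = (∑ k ∈ Finset.Icc (-(H : ℤ)) (H : ℤ), ∑ l ∈ Finset.Icc (-(H : ℤ)) (H : ℤ),
        |(uw H₀ k - uw H k) * (uw H₀ l - uw H l)|) * 4 := by
        rw [Finset.sum_mul]
        exact Finset.sum_congr rfl fun k _ => by rw [Finset.sum_mul]
    _ ≤ 4 * 4 := mul_le_mul_of_nonneg_right (sum_uw_le hH le_rfl) (by norm_num)
    _ = 16 := by norm_num

private lemma IntB1_key (hbd : ∀ n x, ∑ j, ‖c n j x‖ ^ 2 ≤ 1) (hqb : ∀ k x, ‖q k x‖ ≤ 1)
    {H₀ H : ℕ} (hH : H₀ ≤ H) (r n : ℤ) (y : X) :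
    ‖((IntB1_z S T c H₀ H r n y ^ 2 : ℝ) : ℂ) -
      ∑ k ∈ Finset.Icc (-(H : ℤ)) (H : ℤ), ∑ l ∈ Finset.Icc (-(H : ℤ)) (H : ℤ),
        (((uw H₀ k - uw H k) * (uw H₀ l - uw H l) : ℝ) : ℂ) *
          (q (l - k) ((S ^ (n + k)) ((T ^ r) y)) *
            conj (q (l - k) ((S ^ (n + k)) ((S ^ r) y))))‖ ≤
      IntB1_err S T q c H₀ H r n y := by
  have h := tens_sq (fun n j => c n j ((T ^ r) y)) (fun n j => c n j ((S ^ r) y)) hH le_rfl n
  unfold IntB1_z
  rw [h, ← Finset.sum_sub_distrib]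
  unfold IntB1_err
  refine norm_sum_le_of_le _ fun k _ => ?_
  rw [← Finset.sum_sub_distrib]
  refine norm_sum_le_of_le _ fun l _ => ?_
  rw [← mul_sub, norm_mul, Complex.norm_real, Real.norm_eq_abs]
  refine mul_le_mul_of_nonneg_left ?_ (abs_nonneg _)
  unfold IntB1_E
  rw [add_sub_add_left_eq_sub]
  exact IntB1_two (IntB1_cs (hbd _ _) (hbd _ _)) (hqb _ _)

private lemma IntB1_DD (hST : Commute S T) (H₀ H : ℕ) (r n : ℤ) (y : X) :
    DD S T q H₀ H r ((S ^ n) y) =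
      ∑ k ∈ Finset.Icc (-(H : ℤ)) (H : ℤ), ∑ l ∈ Finset.Icc (-(H : ℤ)) (H : ℤ),
        (((uw H₀ k - uw H k) * (uw H₀ l - uw H l) : ℝ) : ℂ) *
          (q (l - k) ((S ^ (n + k)) ((T ^ r) y)) *
            conj (q (l - k) ((S ^ (n + k)) ((S ^ r) y)))) := by
  unfold DD
  refine Finset.sum_congr rfl fun k _ => Finset.sum_congr rfl fun l _ => ?_
  have h1 : (S ^ k) ((T ^ r) ((S ^ n) y)) = (S ^ (n + k)) ((T ^ r) y) := by
    rw [← comm_apply hST, ← zpow_add_apply, add_comm k n]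
  have h2 : (S ^ k) ((S ^ r) ((S ^ n) y)) = (S ^ (n + k)) ((S ^ r) y) := by
    rw [← zpow_add_apply, ← zpow_add_apply, ← zpow_add_apply]
    congr 2
    ring
  rw [h1, h2]

private lemma IntB1_DD0 (H₀ H : ℕ) (r : ℤ) (y : X) :
    DD S T q H₀ H r y =
      ∑ k ∈ Finset.Icc (-(H : ℤ)) (H : ℤ), ∑ l ∈ Finset.Icc (-(H : ℤ)) (H : ℤ),
        (((uw H₀ k - uw H k) * (uw H₀ l - uw H l) : ℝ) : ℂ) *
          (q (l - k) ((S ^ (0 + k)) ((T ^ r) y)) *
            conj (q (l - k) ((S ^ (0 + k)) ((S ^ r) y)))) := by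
  unfold DD
  refine Finset.sum_congr rfl fun k _ => Finset.sum_congr rfl fun l _ => ?_
  rw [zero_add]

private lemma IntB1_DD_le (hqb : ∀ k x, ‖q k x‖ ≤ 1) {H₀ H : ℕ} (hH : H₀ ≤ H) (r : ℤ) (y : X) :
    ‖DD S T q H₀ H r y‖ ≤ 4 := by
  unfold DD
  refine le_trans (norm_sum_le_of_le _ fun k _ => norm_sum_le_of_le _ fun l _ => ?_)
    (sum_uw_le hH le_rfl)
  rw [norm_mul, Complex.norm_real, Real.norm_eq_abs]
  refine mul_le_of_le_one_right (abs_nonneg _) ?_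
  rw [norm_mul, RCLike.norm_conj]
  exact mul_le_one₀ (hqb _ _) (norm_nonneg _) (hqb _ _)

private lemma IntB1_comp {R : Equiv.Perm X} (hR : MeasurePreserving R μ μ) {g : X → ℝ}
    (hg : Measurable g) : ∫ x, g (R x) ∂μ = ∫ x, g x ∂μ := by
  have h := integral_map (μ := μ) hR.measurable.aemeasurable
    (f := g) (by rw [hR.map_eq]; exact hg.aestronglyMeasurable)
  rw [hR.map_eq] at h
  exact h.symm

private lemma IntB1_bdd {g : X → ℝ} (hg : Measurable g) {C : ℝ} (h0 : ∀ x, 0 ≤ g x)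
    (hC : ∀ x, g x ≤ C) : Integrable g μ := by
  refine Integrable.of_bound hg.aestronglyMeasurable C (Eventually.of_forall fun x => ?_)
  rw [Real.norm_eq_abs, abs_of_nonneg (h0 x)]
  exact hC x

private lemma IntB1_sqrt {g : X → ℝ} (hg : Measurable g) {C : ℝ} (h0 : ∀ x, 0 ≤ g x)
    (hC : ∀ x, g x ≤ C) : ∫ x, √(g x) ∂μ ≤ √(∫ x, g x ∂μ) := by
  have hi : Integrable g μ := IntB1_bdd hg h0 hC
  have hs : Measurable fun x => √(g x) := hg.sqrt
  have his : Integrable (fun x => √(g x)) μ :=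
    IntB1_bdd hs (fun x => Real.sqrt_nonneg _) (fun x => Real.sqrt_le_sqrt (hC x))
  apply Real.le_sqrt_of_sq_le
  set I := ∫ x, √(g x) ∂μ with hI
  have h1 : 0 ≤ ∫ x, (√(g x) - I) ^ 2 ∂μ := integral_nonneg fun x => sq_nonneg _
  have h2 : (fun x => (√(g x) - I) ^ 2) = fun x => g x - 2 * I * √(g x) + I ^ 2 := by
    ext x
    have := Real.sq_sqrt (h0 x)
    nlinarith
  have i1 : Integrable (fun x => 2 * I * √(g x)) μ := his.const_mul _
  have i2 : Integrable (fun x => g x - 2 * I * √(g x)) μ := hi.sub i1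
  rw [h2, integral_add i2 (integrable_const _),
    integral_sub hi i1, integral_const_mul, integral_const, ← hI] at h1
  simp at h1
  nlinarith

end IntB1_aux

section IntB1_meas

variable {q : ℤ → X → ℂ} {ι : Type} [Fintype ι] {c : ℤ → ι → X → ℂ}

private lemma IntB1_E_meas (hS : MP μ S) (hqm : ∀ k, Measurable (q k))
    (hcm : ∀ n j, Measurable (c n j)) (p p' : ℤ) : Measurable (IntB1_E S q c p p') := by
  unfold IntB1_E
  refine Measurable.norm (Measurable.sub ?_ ((hqm _).comp (hS.measurable p)))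
  refine Finset.measurable_sum _ fun j _ => ?_
  exact (hcm p j).mul (Complex.continuous_conj.measurable.comp (hcm p' j))

private lemma IntB1_err_meas (hS : MP μ S) (hT : MP μ T) (hqm : ∀ k, Measurable (q k))
    (hcm : ∀ n j, Measurable (c n j)) (H₀ H : ℕ) (r n : ℤ) :
    Measurable (IntB1_err S T q c H₀ H r n) := by
  unfold IntB1_err
  refine Finset.measurable_sum _ fun k _ => Finset.measurable_sum _ fun l _ => ?_
  refine Measurable.const_mul (Measurable.add ?_ ?_) _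
  · exact (IntB1_E_meas hS hqm hcm _ _).comp (hT.measurable r)
  · exact (IntB1_E_meas hS hqm hcm _ _).comp (hS.measurable r)

private lemma IntB1_DD_meas (hS : MP μ S) (hT : MP μ T) (hqm : ∀ k, Measurable (q k))
    (H₀ H : ℕ) (r : ℤ) : Measurable (DD S T q H₀ H r) := by
  unfold DD
  refine Finset.measurable_sum _ fun k _ => Finset.measurable_sum _ fun l _ => ?_
  refine Measurable.const_mul (Measurable.mul ?_ ?_) _
  · exact (hqm _).comp ((hS.measurable k).comp (hT.measurable r))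
  · exact Complex.continuous_conj.measurable.comp
      ((hqm _).comp ((hS.measurable k).comp (hS.measurable r)))

private lemma IntB1_err_int (hm : m ≤ mX) (hS : MP μ S) (hT : MP μ T)
    (hqm : ∀ k, Measurable (q k)) (hqb : ∀ k x, ‖q k x‖ ≤ 1) {H₀ H M' : ℕ} {δ : ℝ}
    (hδ : 0 ≤ δ) (hH : H₀ ≤ H) (hc : Gram m μ S q M' δ c) (r n : ℤ)
    (hn : |n| + H ≤ M') :
    ∫ y, IntB1_err S T q c H₀ H r n y ∂μ ≤ 8 * δ := by
  have hcm : ∀ n j, Measurable (c n j) := fun n j => (hc.meas n j).mono hm le_rfl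
  have hEm := IntB1_E_meas (S := S) (q := q) (c := c) hS hqm hcm
  have hEi : ∀ p p', Integrable (IntB1_E S q c p p') μ := fun p p' =>
    IntB1_bdd (hEm p p') (IntB1_E_nonneg p p') (IntB1_E_le hc.bd hqb p p')
  have hEiT : ∀ p p', Integrable (fun y => IntB1_E S q c p p' ((T ^ r) y)) μ := fun p p' =>
    IntB1_bdd ((hEm p p').comp (hT.measurable r)) (fun y => IntB1_E_nonneg p p' _)
      (fun y => IntB1_E_le hc.bd hqb p p' _)
  have hEiS : ∀ p p', Integrable (fun y => IntB1_E S q c p p' ((S ^ r) y)) μ := fun p p' =>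
    IntB1_bdd ((hEm p p').comp (hS.measurable r)) (fun y => IntB1_E_nonneg p p' _)
      (fun y => IntB1_E_le hc.bd hqb p p' _)
  have i0 : ∀ k l : ℤ, Integrable (fun y => |(uw H₀ k - uw H k) * (uw H₀ l - uw H l)| *
      (IntB1_E S q c (n + k) (n + l) ((T ^ r) y) +
        IntB1_E S q c (n + k) (n + l) ((S ^ r) y))) μ := fun k l =>
    ((hEiT _ _).add (hEiS _ _)).const_mul _
  unfold IntB1_err
  rw [integral_finsetSum _ fun k _ => integrable_finsetSum _ fun l _ => i0 k l]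
  have hn' : ∀ k ∈ Finset.Icc (-(H : ℤ)) (H : ℤ), n + k ∈ Finset.Icc (-(M' : ℤ)) (M' : ℤ) := by
    intro k hk
    rw [Finset.mem_Icc] at hk ⊢
    have h1 := abs_le.1 (le_refl |n|)
    constructor <;> omega
  calc _ ≤ ∑ k ∈ Finset.Icc (-(H : ℤ)) (H : ℤ), ∑ l ∈ Finset.Icc (-(H : ℤ)) (H : ℤ),
        |(uw H₀ k - uw H k) * (uw H₀ l - uw H l)| * (2 * δ) := by
        refine Finset.sum_le_sum fun k hk => ?_
        rw [integral_finsetSum _ fun l _ => i0 k l]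
        refine Finset.sum_le_sum fun l hl => ?_
        rw [integral_const_mul]
        refine mul_le_mul_of_nonneg_left ?_ (abs_nonneg _)
        rw [integral_add (hEiT _ _) (hEiS _ _), IntB1_comp (hT.zpow r) (hEm _ _),
          IntB1_comp (hS.zpow r) (hEm _ _)]
        have := hc.close (n + k) (hn' k hk) (n + l) (hn' l hl)
        unfold IntB1_E
        linarith
    _ = (∑ k ∈ Finset.Icc (-(H : ℤ)) (H : ℤ), ∑ l ∈ Finset.Icc (-(H : ℤ)) (H : ℤ),
        |(uw H₀ k - uw H k) * (uw H₀ l - uw H l)|) * (2 * δ) := by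
        rw [Finset.sum_mul]
        exact Finset.sum_congr rfl fun k _ => by rw [Finset.sum_mul]
    _ ≤ 4 * (2 * δ) := mul_le_mul_of_nonneg_right (sum_uw_le hH le_rfl) (by linarith)
    _ = 8 * δ := by ring

private lemma IntB1_re (hS : MP μ S) (hT : MP μ T) (hqm : ∀ k, Measurable (q k))
    (hqb : ∀ k x, ‖q k x‖ ≤ 1) {H₀ H : ℕ} (hH : H₀ ≤ H) (r : ℤ) :
    Integrable (fun y => (DD S T q H₀ H r y).re) μ ∧
    (∫ y, DD S T q H₀ H r y ∂μ).re = ∫ y, (DD S T q H₀ H r y).re ∂μ := by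
  have h1 : Integrable (DD S T q H₀ H r) μ :=
    Integrable.of_bound (IntB1_DD_meas hS hT hqm H₀ H r).aestronglyMeasurable 4
      (Eventually.of_forall fun x => IntB1_DD_le hqb hH r x)
  refine ⟨h1.re, ?_⟩
  exact (integral_re h1).symm

end IntB1_meas

theorem intGG (hm : m ≤ mX) (hS : MP μ S) (hT : MP μ T) (hST : Commute S T) {q : ℤ → X → ℂ}
    (hqm : ∀ k, Measurable (q k)) (hqb : ∀ k x, ‖q k x‖ ≤ 1) {L M H₀ H M' : ℕ} (hLM : L ≤ M)
    (hH : H₀ ≤ H) (hM' : M + H ≤ M') {δ : ℝ} (hδ : 0 ≤ δ) {ι : Type} [Fintype ι]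
    {c : ℤ → ι → X → ℂ} (hc : Gram m μ S q M' δ c) (r : ℤ) :
    ∫ y, GG L M (fun n j => c n j ((T ^ r) y)) (fun n j => c n j ((S ^ r) y)) ∂μ ≤
      4 * H₀ / (2 * L + 1) + 4 * M / (2 * H + 1) +
        18 * √√((∫ y, DD S T q H₀ H r y ∂μ).re + 16 * δ) + 2 * (2 * M + 1) * √(8 * δ) := by
  have hcm : ∀ n j, Measurable (c n j) := fun n j => (hc.meas n j).mono hm le_rfl
  -- the functions
  set φ : X → ℝ := fun y => √‖DD S T q H₀ H r y‖ with hφ
  set er : ℤ → X → ℝ := fun n y => √(IntB1_err S T q c H₀ H r n y) with her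
  have hDm := IntB1_DD_meas (q := q) hS hT hqm H₀ H r
  have hφm : Measurable φ := hDm.norm.sqrt
  have hφ0 : ∀ y, 0 ≤ φ y := fun y => Real.sqrt_nonneg _
  have hφ2 : ∀ y, φ y ≤ 2 := by
    intro y
    rw [hφ]
    refine (Real.sqrt_le_sqrt (IntB1_DD_le hqb hH r y)).trans ?_
    rw [show (4 : ℝ) = 2 ^ 2 by norm_num, Real.sqrt_sq (by norm_num)]
  have herm : ∀ n, Measurable (IntB1_err S T q c H₀ H r n) := fun n =>
    IntB1_err_meas hS hT hqm hcm H₀ H r n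
  -- pointwise bound of z
  have hz : ∀ n y, IntB1_z S T c H₀ H r n y ≤ φ ((S ^ n) y) + er n y := by
    intro n y
    have h1 := IntB1_key (S := S) (T := T) hc.bd hqb hH r n y
    rw [← IntB1_DD hST] at h1
    have h2 : IntB1_z S T c H₀ H r n y ^ 2 ≤
        ‖DD S T q H₀ H r ((S ^ n) y)‖ + IntB1_err S T q c H₀ H r n y := by
      have h3 : ‖((IntB1_z S T c H₀ H r n y ^ 2 : ℝ) : ℂ)‖ = IntB1_z S T c H₀ H r n y ^ 2 := by
        rw [Complex.norm_real, Real.norm_of_nonneg (sq_nonneg _)]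
      have h4 := norm_sub_norm_le ((IntB1_z S T c H₀ H r n y ^ 2 : ℝ) : ℂ)
        (DD S T q H₀ H r ((S ^ n) y))
      rw [h3] at h4
      linarith
    have h5 : IntB1_z S T c H₀ H r n y ≤
        √(‖DD S T q H₀ H r ((S ^ n) y)‖ + IntB1_err S T q c H₀ H r n y) :=
      Real.le_sqrt_of_sq_le h2
    refine h5.trans (Real.sqrt_le_iff.2 ⟨by positivity, ?_⟩)
    have h6 := Real.sq_sqrt (norm_nonneg (DD S T q H₀ H r ((S ^ n) y)))
    have h7 := Real.sq_sqrt (IntB1_err_nonneg (S := S) (T := T) (q := q) (c := c) H₀ H r n y)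
    change _ ≤ (√‖DD S T q H₀ H r ((S ^ n) y)‖ + √(IntB1_err S T q c H₀ H r n y)) ^ 2
    nlinarith [mul_nonneg (Real.sqrt_nonneg ‖DD S T q H₀ H r ((S ^ n) y)‖)
      (Real.sqrt_nonneg (IntB1_err S T q c H₀ H r n y))]
  -- pointwise bound of GG
  have hGG : ∀ y, GG L M (fun n j => c n j ((T ^ r) y)) (fun n j => c n j ((S ^ r) y)) ≤
      4 * H₀ / (2 * L + 1) + 4 * M / (2 * H + 1) +
        2 * (mx 0 M (fun N => av N fun n => φ ((S ^ n) y)) +
          ∑ n ∈ Finset.Icc (-(M : ℤ)) (M : ℤ), er n y) := by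
    intro y
    have h1 := three (ζ := fun n => tens (fun j => c n j ((T ^ r) y)) (fun j => c n j ((S ^ r) y)))
      (fun n => norm_tens_le (hc.bd n _) (hc.bd n _)) H₀ H hLM
    refine h1.trans ?_
    refine add_le_add le_rfl (mul_le_mul_of_nonneg_left ?_ (by norm_num))
    have hsum0 : 0 ≤ ∑ n ∈ Finset.Icc (-(M : ℤ)) (M : ℤ), er n y :=
      Finset.sum_nonneg fun n _ => Real.sqrt_nonneg _
    refine mx_le (add_nonneg (mx_nonneg _ _ _) hsum0) fun N hN1 hN2 => ?_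
    have h2 : (av N fun n => IntB1_z S T c H₀ H r n y) ≤
        (av N fun n => φ ((S ^ n) y)) + av N fun n => er n y := by
      rw [← av_add]
      exact av_mono fun n _ => hz n y
    refine h2.trans (add_le_add (le_mx (a := fun N => av N fun n => φ ((S ^ n) y))
      (Nat.zero_le _) hN2) ?_)
    rw [av_eq_real]
    have h3 : (2 * (N : ℝ) + 1)⁻¹ ≤ 1 := by
      apply inv_le_one_of_one_le₀
      have : (0 : ℝ) ≤ N := Nat.cast_nonneg _
      linarith
    have h4 : 0 ≤ ∑ n ∈ Finset.Icc (-(N : ℤ)) (N : ℤ), er n y :=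
      Finset.sum_nonneg fun n _ => Real.sqrt_nonneg _
    refine (mul_le_of_le_one_left h4 h3).trans ?_
    refine Finset.sum_le_sum_of_subset_of_nonneg ?_ fun n _ _ => Real.sqrt_nonneg _
    intro n hn
    rw [Finset.mem_Icc] at hn ⊢
    constructor <;> omega
  -- integrability
  have hmm : Measurable fun y => mx 0 M (fun N => av N fun n => φ ((S ^ n) y)) := by
    refine measurable_mx 0 M fun N => ?_
    have h : (fun y => av N fun n => φ ((S ^ n) y)) = fun y =>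
        (2 * (N : ℝ) + 1)⁻¹ * ∑ n ∈ Finset.Icc (-(N : ℤ)) (N : ℤ), φ ((S ^ n) y) := by
      ext y; rw [av_eq_real]
    rw [h]
    refine Measurable.const_mul (Finset.measurable_sum _ fun n _ => ?_) _
    exact hφm.comp (hS.measurable n)
  have hmi : Integrable (fun y => mx 0 M (fun N => av N fun n => φ ((S ^ n) y))) μ :=
    IntB1_bdd hmm (fun y => mx_nonneg _ _ _) (C := 2)
      (fun y => mx_le (by norm_num) fun N _ _ => av_le fun n _ => hφ2 _)
  have herm' : ∀ n, Measurable (er n) := fun n => (herm n).sqrt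
  have heri : ∀ n, Integrable (er n) μ := fun n =>
    IntB1_bdd (herm' n) (fun y => Real.sqrt_nonneg _)
      (fun y => Real.sqrt_le_sqrt (IntB1_err_le hc.bd hqb hH r n y))
  have hsi : Integrable (fun y => ∑ n ∈ Finset.Icc (-(M : ℤ)) (M : ℤ), er n y) μ :=
    integrable_finsetSum _ fun n _ => heri n
  have h1 : ∫ y, GG L M (fun n j => c n j ((T ^ r) y)) (fun n j => c n j ((S ^ r) y)) ∂μ ≤
      ∫ y, (4 * H₀ / (2 * L + 1) + 4 * M / (2 * H + 1) +
        2 * (mx 0 M (fun N => av N fun n => φ ((S ^ n) y)) +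
          ∑ n ∈ Finset.Icc (-(M : ℤ)) (M : ℤ), er n y)) ∂μ := by
    refine integral_mono_of_nonneg (Eventually.of_forall fun y => ?_)
      ((integrable_const _).add ((hmi.add hsi).const_mul _)) (Eventually.of_forall hGG)
    exact mx_nonneg _ _ _
  refine h1.trans ?_
  have j1 : Integrable (fun y => 2 * (mx 0 M (fun N => av N fun n => φ ((S ^ n) y)) +
      ∑ n ∈ Finset.Icc (-(M : ℤ)) (M : ℤ), er n y)) μ := (hmi.add hsi).const_mul _
  rw [integral_add (integrable_const _) j1, integral_const_mul,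
    integral_add hmi hsi, integral_const, integral_finsetSum _ fun n _ => heri n]
  have h2 := intmax2 hS hφm hφ0 hφ2 M
  -- the integral of φ
  have hDle : ∀ y, ‖DD S T q H₀ H r y‖ ≤
      (DD S T q H₀ H r y).re + 2 * IntB1_err S T q c H₀ H r 0 y := by
    intro y
    have h1 := IntB1_key (S := S) (T := T) hc.bd hqb hH r 0 y
    rw [← IntB1_DD0] at h1
    set w : ℝ := IntB1_z S T c H₀ H r 0 y ^ 2 with hw
    have hw0 : 0 ≤ w := sq_nonneg _
    have h2 : ‖DD S T q H₀ H r y‖ ≤ w + IntB1_err S T q c H₀ H r 0 y := by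
      have h3 : ‖(w : ℂ)‖ = w := by rw [Complex.norm_real, Real.norm_of_nonneg hw0]
      have h4 := norm_sub_norm_le (DD S T q H₀ H r y) (w : ℂ)
      rw [h3, norm_sub_rev] at h4
      linarith
    have h5 : w - (DD S T q H₀ H r y).re ≤ IntB1_err S T q c H₀ H r 0 y := by
      have h6 := (Complex.re_le_norm ((w : ℂ) - DD S T q H₀ H r y)).trans h1
      rwa [Complex.sub_re, Complex.ofReal_re] at h6
    linarith
  obtain ⟨hri, hre⟩ := IntB1_re (μ := μ) (q := q) hS hT hqm hqb hH r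
  have h0i : Integrable (IntB1_err S T q c H₀ H r 0) μ :=
    IntB1_bdd (herm 0) (IntB1_err_nonneg _ _ _ _) (IntB1_err_le hc.bd hqb hH r 0)
  have h3 : ∫ y, ‖DD S T q H₀ H r y‖ ∂μ ≤ (∫ y, DD S T q H₀ H r y ∂μ).re + 16 * δ := by
    calc ∫ y, ‖DD S T q H₀ H r y‖ ∂μ
        ≤ ∫ y, ((DD S T q H₀ H r y).re + 2 * IntB1_err S T q c H₀ H r 0 y) ∂μ :=
          integral_mono_of_nonneg (Eventually.of_forall fun y => norm_nonneg _)
            (hri.add (h0i.const_mul _)) (Eventually.of_forall hDle)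
      _ = (∫ y, DD S T q H₀ H r y ∂μ).re + 2 * ∫ y, IntB1_err S T q c H₀ H r 0 y ∂μ := by
          rw [integral_add hri (h0i.const_mul _), integral_const_mul, hre]
      _ ≤ _ := by
          have := IntB1_err_int (S := S) (T := T) hm hS hT hqm hqb hδ hH hc r 0
            (by rw [abs_zero]; omega)
          linarith
  have h4 : ∫ y, φ y ∂μ ≤ √((∫ y, DD S T q H₀ H r y ∂μ).re + 16 * δ) := by
    refine (IntB1_sqrt hDm.norm (fun y => norm_nonneg _) (IntB1_DD_le hqb hH r)).trans ?_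
    exact Real.sqrt_le_sqrt h3
  have h5 : √(∫ y, φ y ∂μ) ≤ √√((∫ y, DD S T q H₀ H r y ∂μ).re + 16 * δ) :=
    Real.sqrt_le_sqrt h4
  have h6 : ∑ n ∈ Finset.Icc (-(M : ℤ)) (M : ℤ), ∫ y, er n y ∂μ ≤ (2 * M + 1) * √(8 * δ) := by
    calc _ ≤ ∑ n ∈ Finset.Icc (-(M : ℤ)) (M : ℤ), √(8 * δ) := by
          refine Finset.sum_le_sum fun n hn => ?_
          refine (IntB1_sqrt (herm n) (IntB1_err_nonneg _ _ _ _)
            (IntB1_err_le hc.bd hqb hH r n)).trans (Real.sqrt_le_sqrt ?_)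
          refine IntB1_err_int hm hS hT hqm hqb hδ hH hc r n ?_
          rw [Finset.mem_Icc] at hn
          have : |n| ≤ M := abs_le.2 hn
          omega
      _ = (2 * M + 1) * √(8 * δ) := by
          rw [Finset.sum_const, card_Icc, nsmul_eq_mul]
          push_cast
          ring
  rw [probReal_univ, one_smul]
  linarith

theorem re_DD (hm : m ≤ mX) (hS : MP μ S) (hT : MP μ T) {q : ℤ → X → ℂ}
    (hqm : ∀ k, Measurable (q k)) (hqb : ∀ k x, ‖q k x‖ ≤ 1) {H₀ H M' : ℕ}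
    (hH : H₀ ≤ H) (hM' : H ≤ M') {δ : ℝ} (hδ : 0 ≤ δ) {ι : Type} [Fintype ι]
    {c : ℤ → ι → X → ℂ} (hc : Gram m μ S q M' δ c) (r : ℤ) :
    0 ≤ (∫ y, DD S T q H₀ H r y ∂μ).re + 8 * δ := by
  have hcm : ∀ n j, Measurable (c n j) := fun n j => (hc.meas n j).mono hm le_rfl
  obtain ⟨hri, hre⟩ := IntB1_re (μ := μ) (q := q) hS hT hqm hqb hH r
  have h0i : Integrable (IntB1_err S T q c H₀ H r 0) μ :=
    IntB1_bdd (IntB1_err_meas hS hT hqm hcm H₀ H r 0) (IntB1_err_nonneg _ _ _ _)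
      (IntB1_err_le hc.bd hqb hH r 0)
  have h1 := IntB1_err_int (S := S) (T := T) hm hS hT hqm hqb hδ hH hc r 0
    (by rw [abs_zero]; omega)
  have h2 : 0 ≤ ∫ y, ((DD S T q H₀ H r y).re + IntB1_err S T q c H₀ H r 0 y) ∂μ := by
    refine integral_nonneg fun y => ?_
    have h1 := IntB1_key (S := S) (T := T) hc.bd hqb hH r 0 y
    rw [← IntB1_DD0] at h1
    have h5 := (Complex.re_le_norm _).trans h1
    rw [Complex.sub_re, Complex.ofReal_re] at h5
    have h6 : 0 ≤ IntB1_z S T c H₀ H r 0 y ^ 2 := sq_nonneg _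
    change 0 ≤ (DD S T q H₀ H r y).re + IntB1_err S T q c H₀ H r 0 y
    linarith
  rw [integral_add hri h0i] at h2
  rw [hre]
  linarith

end Pool.DRT
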