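import Pool.Agent.DRT.Defs

set_option autoImplicit false

/-!
# Positive definite Toeplitz forms: uniform averages are Cauchy (Riesz)

PROOF. Let `Φ a = tf ρ K a` (for `a` supported in `[-K, K]` it does not depend on `K`; work with finitely
supported `a : ℤ → ℝ`, e.g. `ℤ →₀ ℝ`).  `Φ` is a nonnegative quadratic form, so it is convex and satisfies the
parallelogram identity `Φ(a-b) = 2Φ(a) + 2Φ(b) - Φ(a+b)`, it is invariant under shifts
`a ↦ a(· - s)`, and `Φ(a) ≤ (∑|a|)²`.  Let `d = inf Φ(p)` over probability vectors `p`.  Given `η > 0` choose `p`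
with `Φ(p) ≤ d + η`, supported in `[-A, A]`.  For `H` large, `c = uw H * p` (convolution, an average of
shifts of `p`) has `Φ(c) ≤ Φ(p)` by convexity and `∑ |c - uw H| ≤ 2A/(2H+1) · 2`, hence
`Φ(uw H) ≤ d + 2η` for `H ≥ H₀` (`√Φ` is a seminorm bounded by the l¹ norm).  For `H, H' ≥ H₀` the vector
`(uw H + uw H')/2` is a probability vector, so `Φ((uw H - uw H')/2) = (Φ(uw H) + Φ(uw H'))/2 - Φ((uw H + uw H')/2)
≤ 2η`, i.e. `Φ(uw H - uw H') ≤ 8η`.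
(Symmetry of `ρ` is not assumed: the form only sees the symmetric part `(ρ k + ρ (-k))/2`.)
`tf_uw_le`: `tf ρ K (uw N) = (2N+1)^{-2} ∑_{|k|,|l| ≤ N} ρ(l-k) ≤ (2N+1)^{-2} (2N+1) ∑_{|d| ≤ 2N} ρ d`.
-/

open MeasureTheory Filter Topology
open scoped ComplexConjugate NNReal ENNReal

noncomputable section

namespace Pool.DRT

theorem Toep_sum_uw {N K : ℕ} (hK : N ≤ K) (g : ℤ → ℝ) :
    ∑ k ∈ Finset.Icc (-(K : ℤ)) (K : ℤ), uw N k * g k = av N g := by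
  have h1 : ∑ k ∈ Finset.Icc (-(K : ℤ)) (K : ℤ), uw N k * g k =
      ∑ k ∈ Finset.Icc (-(N : ℤ)) (N : ℤ), uw N k * g k := by
    symm
    apply Finset.sum_subset
    · intro k hk
      rw [Finset.mem_Icc] at hk ⊢
      constructor <;> omega
    · intro k _ hk
      rw [Finset.mem_Icc] at hk
      have : ¬ k.natAbs ≤ N := by omega
      rw [uw, if_neg this, zero_mul]
  rw [h1, av_eq_real, Finset.mul_sum]
  apply Finset.sum_congr rfl
  intro k hk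
  rw [Finset.mem_Icc] at hk
  have : k.natAbs ≤ N := by omega
  rw [uw, if_pos this]

theorem Toep_uw {ρ : ℤ → ℝ} {N K : ℕ} (hK : N ≤ K) :
    tf ρ K (uw N) = av N (fun k => av N (fun l => ρ (l - k))) := by
  rw [← Toep_sum_uw hK, tf]
  apply Finset.sum_congr rfl
  intro k _
  rw [← Toep_sum_uw hK, Finset.mul_sum]
  apply Finset.sum_congr rfl
  intro l _
  ring

/-- sum of a shifted function -/
theorem Toep_shift {a : ℤ → ℝ} {A K : ℕ} (ha : ∀ k, ¬ k.natAbs ≤ A → a k = 0) (m : ℤ)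
    (hm : m.natAbs + A ≤ K) (g : ℤ → ℝ) :
    ∑ k ∈ Finset.Icc (-(K : ℤ)) (K : ℤ), a (k - m) * g k =
      ∑ k ∈ Finset.Icc (-(A : ℤ)) (A : ℤ), a k * g (k + m) := by
  have h1 : ∑ k ∈ Finset.Icc (-(A : ℤ)) (A : ℤ), a k * g (k + m) =
      ∑ k ∈ Finset.Icc (-(A : ℤ) + m) ((A : ℤ) + m), a (k - m) * g k := by
    refine Finset.sum_nbij' (fun k => k + m) (fun k => k - m) ?_ ?_ ?_ ?_ ?_
    · intro n hn; rw [Finset.mem_Icc] at hn ⊢; constructor <;> omega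
    · intro n hn; rw [Finset.mem_Icc] at hn ⊢; constructor <;> omega
    · intro n _; ring
    · intro n _; ring
    · intro n _
      have : n + m - m = n := by ring
      simp only [this]
  rw [h1]
  symm
  apply Finset.sum_subset
  · intro k hk
    rw [Finset.mem_Icc] at hk ⊢
    constructor <;> omega
  · intro k _ hk
    rw [Finset.mem_Icc] at hk
    rw [ha (k - m) (by omega), zero_mul]

/-- correlations of a vector -/
def Toep_G (ρ : ℤ → ℝ) (A : ℕ) (p : ℤ → ℝ) (m : ℤ) : ℝ :=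
  ∑ k ∈ Finset.Icc (-(A : ℤ)) (A : ℤ), ∑ l ∈ Finset.Icc (-(A : ℤ)) (A : ℤ), p k * p l * ρ (m + (l - k))

theorem Toep_G_le {ρ : ℤ → ℝ} (hpos : ∀ (K : ℕ) (a : ℤ → ℝ), 0 ≤ tf ρ K a) {A : ℕ} {p : ℤ → ℝ}
    (hp : ∀ k, ¬ k.natAbs ≤ A → p k = 0) (m : ℤ) :
    Toep_G ρ A p m + Toep_G ρ A p (-m) ≤ 2 * Toep_G ρ A p 0 := by
  set K := m.natAbs + A with hKdef
  have hp0 : ∀ g : ℤ → ℝ, ∑ k ∈ Finset.Icc (-(K : ℤ)) (K : ℤ), p k * g k =
      ∑ k ∈ Finset.Icc (-(A : ℤ)) (A : ℤ), p k * g k := by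
    intro g
    have := Toep_shift hp 0 (K := K) (by simp [hKdef]) g
    simpa using this
  have hpm : ∀ g : ℤ → ℝ, ∑ k ∈ Finset.Icc (-(K : ℤ)) (K : ℤ), p (k - m) * g k =
      ∑ k ∈ Finset.Icc (-(A : ℤ)) (A : ℤ), p k * g (k + m) := fun g => Toep_shift hp m le_rfl g
  have h := hpos K (fun k => p k - p (k - m))
  have e00 : ∑ k ∈ Finset.Icc (-(K : ℤ)) (K : ℤ), ∑ l ∈ Finset.Icc (-(K : ℤ)) (K : ℤ),
      p k * p l * ρ (l - k) = Toep_G ρ A p 0 := by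
    have : ∀ k : ℤ, ∑ l ∈ Finset.Icc (-(K : ℤ)) (K : ℤ), p k * p l * ρ (l - k) =
        p k * ∑ l ∈ Finset.Icc (-(A : ℤ)) (A : ℤ), p l * ρ (l - k) := by
      intro k
      rw [← hp0, Finset.mul_sum]
      exact Finset.sum_congr rfl fun l _ => by ring
    simp only [this]
    rw [hp0, Toep_G]
    refine Finset.sum_congr rfl fun k _ => ?_
    rw [Finset.mul_sum]
    exact Finset.sum_congr rfl fun l _ => by rw [zero_add]; ring
  have e01 : ∑ k ∈ Finset.Icc (-(K : ℤ)) (K : ℤ), ∑ l ∈ Finset.Icc (-(K : ℤ)) (K : ℤ),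
      p k * p (l - m) * ρ (l - k) = Toep_G ρ A p m := by
    have : ∀ k : ℤ, ∑ l ∈ Finset.Icc (-(K : ℤ)) (K : ℤ), p k * p (l - m) * ρ (l - k) =
        p k * ∑ l ∈ Finset.Icc (-(A : ℤ)) (A : ℤ), p l * ρ (l + m - k) := by
      intro k
      rw [← hpm (fun l => ρ (l - k)), Finset.mul_sum]
      exact Finset.sum_congr rfl fun l _ => by ring
    simp only [this]
    rw [hp0, Toep_G]
    refine Finset.sum_congr rfl fun k _ => ?_
    rw [Finset.mul_sum]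
    refine Finset.sum_congr rfl fun l _ => ?_
    rw [show l + m - k = m + (l - k) by ring]; ring
  have e10 : ∑ k ∈ Finset.Icc (-(K : ℤ)) (K : ℤ), ∑ l ∈ Finset.Icc (-(K : ℤ)) (K : ℤ),
      p (k - m) * p l * ρ (l - k) = Toep_G ρ A p (-m) := by
    have : ∀ k : ℤ, ∑ l ∈ Finset.Icc (-(K : ℤ)) (K : ℤ), p (k - m) * p l * ρ (l - k) =
        p (k - m) * ∑ l ∈ Finset.Icc (-(A : ℤ)) (A : ℤ), p l * ρ (l - k) := by
      intro k
      rw [← hp0, Finset.mul_sum]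
      exact Finset.sum_congr rfl fun l _ => by ring
    simp only [this]
    rw [hpm, Toep_G]
    refine Finset.sum_congr rfl fun k _ => ?_
    rw [Finset.mul_sum]
    refine Finset.sum_congr rfl fun l _ => ?_
    rw [show l - (k + m) = -m + (l - k) by ring]; ring
  have e11 : ∑ k ∈ Finset.Icc (-(K : ℤ)) (K : ℤ), ∑ l ∈ Finset.Icc (-(K : ℤ)) (K : ℤ),
      p (k - m) * p (l - m) * ρ (l - k) = Toep_G ρ A p 0 := by
    have : ∀ k : ℤ, ∑ l ∈ Finset.Icc (-(K : ℤ)) (K : ℤ), p (k - m) * p (l - m) * ρ (l - k) =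
        p (k - m) * ∑ l ∈ Finset.Icc (-(A : ℤ)) (A : ℤ), p l * ρ (l + m - k) := by
      intro k
      rw [← hpm (fun l => ρ (l - k)), Finset.mul_sum]
      exact Finset.sum_congr rfl fun l _ => by ring
    simp only [this]
    rw [hpm, Toep_G]
    refine Finset.sum_congr rfl fun k _ => ?_
    rw [Finset.mul_sum]
    refine Finset.sum_congr rfl fun l _ => ?_
    rw [show l + m - (k + m) = 0 + (l - k) by ring]; ring
  have e : tf ρ K (fun k => p k - p (k - m)) =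
      Toep_G ρ A p 0 - Toep_G ρ A p m - Toep_G ρ A p (-m) + Toep_G ρ A p 0 := by
    have e2 : Toep_G ρ A p 0 - Toep_G ρ A p m - Toep_G ρ A p (-m) + Toep_G ρ A p 0 =
        (∑ k ∈ Finset.Icc (-(K : ℤ)) (K : ℤ), ∑ l ∈ Finset.Icc (-(K : ℤ)) (K : ℤ),
          p k * p l * ρ (l - k)) -
        (∑ k ∈ Finset.Icc (-(K : ℤ)) (K : ℤ), ∑ l ∈ Finset.Icc (-(K : ℤ)) (K : ℤ),
          p k * p (l - m) * ρ (l - k)) -
        (∑ k ∈ Finset.Icc (-(K : ℤ)) (K : ℤ), ∑ l ∈ Finset.Icc (-(K : ℤ)) (K : ℤ),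
          p (k - m) * p l * ρ (l - k)) +
        (∑ k ∈ Finset.Icc (-(K : ℤ)) (K : ℤ), ∑ l ∈ Finset.Icc (-(K : ℤ)) (K : ℤ),
          p (k - m) * p (l - m) * ρ (l - k)) := by
      rw [e00, e01, e10, e11]
    rw [e2, tf, ← Finset.sum_sub_distrib, ← Finset.sum_sub_distrib, ← Finset.sum_add_distrib]
    refine Finset.sum_congr rfl fun k _ => ?_
    rw [← Finset.sum_sub_distrib, ← Finset.sum_sub_distrib, ← Finset.sum_add_distrib]
    exact Finset.sum_congr rfl fun l _ => by ring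
  rw [e] at h
  linarith

theorem Toep_G_zero (ρ : ℤ → ℝ) (A : ℕ) (p : ℤ → ℝ) : Toep_G ρ A p 0 = tf ρ A p := by
  rw [Toep_G, tf]
  exact Finset.sum_congr rfl fun k _ => Finset.sum_congr rfl fun l _ => by rw [zero_add]

theorem Toep_av_comm (N : ℕ) (f : ℤ → ℤ → ℝ) :
    av N (fun s => av N (fun t => f s t)) = av N (fun s => av N (fun t => f t s)) := by
  simp only [av_eq_real, Finset.mul_sum]
  rw [Finset.sum_comm]

theorem Toep_avG_le {ρ : ℤ → ℝ} (hpos : ∀ (K : ℕ) (a : ℤ → ℝ), 0 ≤ tf ρ K a) {A : ℕ} {p : ℤ → ℝ}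
    (hp : ∀ k, ¬ k.natAbs ≤ A → p k = 0) (N : ℕ) :
    av N (fun s => av N (fun t => Toep_G ρ A p (t - s))) ≤ tf ρ A p := by
  rw [← Toep_G_zero]
  have h1 : av N (fun s => av N (fun t => Toep_G ρ A p (t - s) + Toep_G ρ A p (-(t - s)))) ≤
      2 * Toep_G ρ A p 0 :=
    av_le fun s _ => av_le fun t _ => Toep_G_le hpos hp (t - s)
  have h2 : av N (fun s => av N (fun t => Toep_G ρ A p (t - s) + Toep_G ρ A p (-(t - s)))) =
      av N (fun s => av N (fun t => Toep_G ρ A p (t - s))) +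
        av N (fun s => av N (fun t => Toep_G ρ A p (t - s))) := by
    simp only [av_add]
    congr 1
    rw [Toep_av_comm]
    simp only [neg_sub]
  linarith

theorem Toep_G_near {ρ : ℤ → ℝ} (hb : ∀ k, |ρ k| ≤ 1) {A : ℕ} {p : ℤ → ℝ} (h0 : ∀ k, 0 ≤ p k)
    (h1 : ∑ k ∈ Finset.Icc (-(A : ℤ)) (A : ℤ), p k = 1) (N : ℕ) (s : ℤ) :
    av N (fun t => ρ (t - s)) - 4 * A / (2 * (N : ℝ) + 1) ≤ av N (fun t => Toep_G ρ A p (t - s)) := by
  have e1 : av N (fun t => Toep_G ρ A p (t - s)) =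
      ∑ k ∈ Finset.Icc (-(A : ℤ)) (A : ℤ), ∑ l ∈ Finset.Icc (-(A : ℤ)) (A : ℤ),
        p k * p l * av N (fun t => ρ (t + (l - k) - s)) := by
    simp only [Toep_G]
    rw [av_sum]
    refine Finset.sum_congr rfl fun k _ => ?_
    rw [av_sum]
    refine Finset.sum_congr rfl fun l _ => ?_
    rw [← smul_eq_mul (p k * p l), ← av_smul]
    congr 1
    ext t
    rw [smul_eq_mul, show t - s + (l - k) = t + (l - k) - s by ring]
  have e2 : av N (fun t => ρ (t - s)) - 4 * A / (2 * (N : ℝ) + 1) =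
      ∑ k ∈ Finset.Icc (-(A : ℤ)) (A : ℤ), ∑ l ∈ Finset.Icc (-(A : ℤ)) (A : ℤ),
        p k * p l * (av N (fun t => ρ (t - s)) - 4 * A / (2 * (N : ℝ) + 1)) := by
    have : ∀ c : ℝ, ∑ k ∈ Finset.Icc (-(A : ℤ)) (A : ℤ), ∑ l ∈ Finset.Icc (-(A : ℤ)) (A : ℤ),
        p k * p l * c = c := by
      intro c
      calc _ = ∑ k ∈ Finset.Icc (-(A : ℤ)) (A : ℤ), p k * c := by
            refine Finset.sum_congr rfl fun k _ => ?_
            rw [← Finset.sum_mul, ← Finset.mul_sum, h1, mul_one]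
        _ = c := by rw [← Finset.sum_mul, h1, one_mul]
    rw [this]
  rw [e1, e2]
  refine Finset.sum_le_sum fun k hk => Finset.sum_le_sum fun l hl => ?_
  refine mul_le_mul_of_nonneg_left ?_ (mul_nonneg (h0 k) (h0 l))
  have h := norm_av_shift_sub N (l - k) (a := fun t => ρ (t - s)) (C := 1)
    (fun n => by rw [Real.norm_eq_abs]; exact hb _)
  rw [Real.norm_eq_abs] at h
  have h' := (abs_le.1 h).1
  have hlk : |((l - k : ℤ) : ℝ)| ≤ 2 * A := by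
    rw [Finset.mem_Icc] at hk hl
    have : |l - k| ≤ 2 * (A : ℤ) := by rw [abs_le]; constructor <;> omega
    have h2 : ((|l - k| : ℤ) : ℝ) ≤ ((2 * (A : ℤ) : ℤ) : ℝ) := by exact_mod_cast this
    rw [Int.cast_abs] at h2
    push_cast at h2 ⊢
    exact h2
  have h3 : 2 * |((l - k : ℤ) : ℝ)| * 1 / (2 * (N : ℝ) + 1) ≤ 4 * A / (2 * (N : ℝ) + 1) := by
    apply div_le_div_of_nonneg_right _ (av_pos N).le
    linarith
  linarith

/-- averages are almost minimal -/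
theorem Toep_claim {ρ : ℤ → ℝ} (hb : ∀ k, |ρ k| ≤ 1) (hpos : ∀ (K : ℕ) (a : ℤ → ℝ), 0 ≤ tf ρ K a)
    {A : ℕ} {p : ℤ → ℝ} (hp : ∀ k, ¬ k.natAbs ≤ A → p k = 0) (h0 : ∀ k, 0 ≤ p k)
    (h1 : ∑ k ∈ Finset.Icc (-(A : ℤ)) (A : ℤ), p k = 1) {N K : ℕ} (hK : N ≤ K) :
    tf ρ K (uw N) ≤ tf ρ A p + 4 * A / (2 * (N : ℝ) + 1) := by
  rw [Toep_uw hK]
  have h2 : av N (fun s => av N (fun t => ρ (t - s)) - 4 * A / (2 * (N : ℝ) + 1)) ≤
      av N (fun s => av N (fun t => Toep_G ρ A p (t - s))) :=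
    av_mono fun s _ => Toep_G_near hb h0 h1 N s
  rw [av_sub, av_const] at h2
  have h3 := Toep_avG_le hpos hp N
  linarith

theorem Toep_uw_nonneg (N : ℕ) (k : ℤ) : 0 ≤ uw N k := by
  rw [uw]; split_ifs
  · positivity
  · exact le_rfl

theorem Toep_uw_supp {N K : ℕ} (hK : N ≤ K) {k : ℤ} (hk : ¬ k.natAbs ≤ K) : uw N k = 0 := by
  rw [uw, if_neg (by omega)]

theorem Toep_uw_sum {N K : ℕ} (hK : N ≤ K) :
    ∑ k ∈ Finset.Icc (-(K : ℤ)) (K : ℤ), uw N k = 1 := by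
  have := Toep_sum_uw hK (fun _ => (1 : ℝ))
  rw [av_const] at this
  simpa using this

theorem toep (ρ : ℤ → ℝ) (hb : ∀ k, |ρ k| ≤ 1) (hpos : ∀ (K : ℕ) (a : ℤ → ℝ), 0 ≤ tf ρ K a)
    {ε : ℝ} (hε : 0 < ε) :
    ∃ H₀ : ℕ, ∀ H H' K : ℕ, H₀ ≤ H → H₀ ≤ H' → H ≤ K → H' ≤ K →
      tf ρ K (fun k => uw H k - uw H' k) ≤ ε := by
  set d := ⨅ N : ℕ, tf ρ N (uw N) with hd
  have hbd : BddBelow (Set.range fun N : ℕ => tf ρ N (uw N)) :=
    ⟨0, by rintro _ ⟨N, rfl⟩; exact hpos N _⟩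
  have hKK : ∀ {N K : ℕ}, N ≤ K → tf ρ K (uw N) = tf ρ N (uw N) := by
    intro N K hK
    rw [Toep_uw hK, Toep_uw le_rfl]
  -- the infimum is a lower bound for probability vectors
  have hlow : ∀ (A : ℕ) (p : ℤ → ℝ), (∀ k, ¬ k.natAbs ≤ A → p k = 0) → (∀ k, 0 ≤ p k) →
      (∑ k ∈ Finset.Icc (-(A : ℤ)) (A : ℤ), p k = 1) → d ≤ tf ρ A p := by
    intro A p hp h0 h1
    apply le_of_forall_pos_le_add
    intro η hη
    obtain ⟨N, hN⟩ := exists_nat_gt (4 * (A : ℝ) / η)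
    have h2 := Toep_claim hb hpos hp h0 h1 (le_refl N)
    have h3 : 4 * (A : ℝ) / (2 * (N : ℝ) + 1) ≤ η := by
      rw [div_le_iff₀ (av_pos N)]
      rw [div_lt_iff₀ hη] at hN
      have : 0 ≤ (N : ℝ) * η := by positivity
      nlinarith
    exact (ciInf_le hbd N).trans (by linarith)
  obtain ⟨A, hA⟩ : ∃ A : ℕ, tf ρ A (uw A) < d + ε / 8 := by
    apply exists_lt_of_ciInf_lt
    rw [← hd]; linarith
  obtain ⟨H₀, hH₀⟩ := exists_nat_gt (4 * (A : ℝ) / (ε / 8))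
  have hup : ∀ H : ℕ, H₀ ≤ H → tf ρ H (uw H) ≤ d + ε / 4 := by
    intro H hH
    have h2 := Toep_claim hb hpos (A := A) (p := uw A) (fun k hk => Toep_uw_supp le_rfl hk)
      (Toep_uw_nonneg A) (Toep_uw_sum le_rfl) (le_refl H)
    have h3 : 4 * (A : ℝ) / (2 * (H : ℝ) + 1) ≤ ε / 8 := by
      rw [div_le_iff₀ (av_pos H)]
      rw [div_lt_iff₀ (by linarith)] at hH₀
      have h4 : (H₀ : ℝ) ≤ H := by exact_mod_cast hH
      have h5 : (H₀ : ℝ) * (ε / 8) ≤ H * (ε / 8) := mul_le_mul_of_nonneg_right h4 (by linarith)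
      have h6 : 0 ≤ (H : ℝ) * (ε / 8) := by positivity
      nlinarith
    linarith
  refine ⟨H₀, fun H H' K hH hH' hHK hHK' => ?_⟩
  have hq := hlow K (fun k => (1 / 2) * (uw H k + uw H' k))
    (fun k hk => by rw [Toep_uw_supp hHK hk, Toep_uw_supp hHK' hk]; ring)
    (fun k => by have := Toep_uw_nonneg H k; have := Toep_uw_nonneg H' k; positivity)
    (by rw [← Finset.mul_sum, Finset.sum_add_distrib, Toep_uw_sum hHK, Toep_uw_sum hHK']; norm_num)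
  have e : tf ρ K (fun k => uw H k - uw H' k) = 2 * tf ρ K (uw H) + 2 * tf ρ K (uw H') -
      4 * tf ρ K (fun k => (1 / 2) * (uw H k + uw H' k)) := by
    simp only [tf, Finset.mul_sum]
    rw [← Finset.sum_add_distrib, ← Finset.sum_sub_distrib]
    refine Finset.sum_congr rfl fun k _ => ?_
    rw [← Finset.sum_add_distrib, ← Finset.sum_sub_distrib]
    exact Finset.sum_congr rfl fun l _ => by ring
  rw [e, hKK hHK, hKK hHK']
  have := hup H hH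
  have := hup H' hH'
  linarith

theorem tf_uw_le (ρ : ℤ → ℝ) (h0 : ∀ k, 0 ≤ ρ k) {N K : ℕ} (hK : N ≤ K) :
    tf ρ K (uw N) ≤ 2 * av (2 * N) ρ := by
  rw [Toep_uw hK]
  apply av_le
  intro k hk
  rw [Finset.mem_Icc] at hk
  have h1 : ∑ l ∈ Finset.Icc (-(N : ℤ)) (N : ℤ), ρ (l - k) =
      ∑ l ∈ Finset.Icc (-(N : ℤ) - k) ((N : ℤ) - k), ρ l := by
    refine Finset.sum_nbij' (fun n => n - k) (fun n => n + k) ?_ ?_ ?_ ?_ ?_
    · intro n hn; rw [Finset.mem_Icc] at hn ⊢; constructor <;> omega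
    · intro n hn; rw [Finset.mem_Icc] at hn ⊢; constructor <;> omega
    · intro n _; ring
    · intro n _; ring
    · intro n _; rfl
  have h2 : ∑ l ∈ Finset.Icc (-(N : ℤ) - k) ((N : ℤ) - k), ρ l ≤
      ∑ l ∈ Finset.Icc (-((2 * N : ℕ) : ℤ)) ((2 * N : ℕ) : ℤ), ρ l := by
    apply Finset.sum_le_sum_of_subset_of_nonneg
    · intro n hn
      rw [Finset.mem_Icc] at hn ⊢
      push_cast
      constructor <;> omega
    · intro n _ _; exact h0 n
  rw [av_eq_real, av_eq_real, h1]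
  have h3 : 0 ≤ ∑ l ∈ Finset.Icc (-((2 * N : ℕ) : ℤ)) ((2 * N : ℕ) : ℤ), ρ l :=
    Finset.sum_nonneg fun n _ => h0 n
  calc _ ≤ (2 * (N : ℝ) + 1)⁻¹ *
        ∑ l ∈ Finset.Icc (-((2 * N : ℕ) : ℤ)) ((2 * N : ℕ) : ℤ), ρ l :=
      mul_le_mul_of_nonneg_left h2 (by positivity)
    _ ≤ (2 * (2 * ((2 * N : ℕ) : ℝ) + 1)⁻¹) *
        ∑ l ∈ Finset.Icc (-((2 * N : ℕ) : ℤ)) ((2 * N : ℕ) : ℤ), ρ l := by
      apply mul_le_mul_of_nonneg_right _ h3
      rw [← div_eq_mul_inv, inv_eq_one_div, div_le_div_iff₀ (av_pos N) (by positivity)]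
      push_cast
      have : (0 : ℝ) ≤ N := Nat.cast_nonneg N
      linarith
    _ = _ := by ring

end Pool.DRT
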