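import Pool.Agent.DRT.IntB1
import Pool.Agent.DRT.Toep

set_option autoImplicit false

/-!
# The mean over `r` of the integrals is small

PROOF.  For `k : ℤ` the limit `γ k = lim_R av R (fun r => ∫ q_k(T^r y) conj q_k(S^r y) dμ)` exists: the averages
`av R (q_k(T^r y) conj q_k(S^r y)) = AN S T (conj q_k) q_k R y` converge a.e. by `Good.cv` and are bounded by one
(dominated convergence).  Put `ρ k = Re γ k`, `|ρ k| ≤ 1`.
POSITIVITY of `tf ρ K a`: for every `ε` take `c` with `Gram m μ S q (2K) ε c`; for all `k, l ∈ [-K, K]`: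
`∫ q_{l-k}(T^r y) conj q_{l-k}(S^r y) = ∫ q_{l-k}(S^k T^r y) conj q_{l-k}(S^k S^r y)` (substitute `y ↦ S^k y`; commutation), and
`q_{l-k} ∘ S^k` is `P_{k,l} = ∑_j c_{k,j} conj c_{l,j}` up to `ε` in `L¹`, and
`∑ a_k a_l P_{k,l}(A) conj P_{k,l}(B) = ‖∑_k a_k tens (c_k(A)) (c_k(B))‖² ≥ 0`.  So the average over `r` of
`∑ a_k a_l Re ∫ ...` is `≥ - 2 ε (∑ |a|)²`; let `R → ∞`, then `ε → 0`.
`toep` with tolerance `τ` (small) gives `H₀`.  `L₀`: `4H₀/(2L₀+1) ≤ η/4`.  Given `L₀ ≤ L ≤ M`: `H ≥ H₀` with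
`4M/(2H+1) ≤ η/4`; `M' = M + H`; `δ` small.  By `intGG` for each `r`, then average over `|r| ≤ R`:
`av R √√(x_r) ≤ √√(av R x_r)` for `x_r = Re ∫ DD + 16 δ ≥ 0` (`re_DD`; concavity of the square root, or Cauchy-Schwarz twice)
and `av R (Re ∫ DD S T q H₀ H r) → ∑ α_k α_l ρ(l-k) = tf ρ H (uw H₀ - uw H) ≤ τ`, because
`∫ q_{l-k}(S^k T^r y) conj q_{l-k}(S^k S^r y) = ∫ q_{l-k}(T^r y) conj q_{l-k}(S^r y)` as above.  So for large `R` the
average is at most `η/2 + 18 √√(2τ + 16δ) + 2(2M+1)√(8δ) ≤ η`.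
-/

open MeasureTheory Filter Topology
open scoped ComplexConjugate NNReal ENNReal

noncomputable section

namespace Pool.DRT

variable {X : Type*} {m : MeasurableSpace X} [mX : MeasurableSpace X] {μ : Measure X}
  [IsProbabilityMeasure μ] {S T : Equiv.Perm X}

/-- the correlations of the kernel -/
def IntB2_g (μ : Measure X) (S T : Equiv.Perm X) (q : ℤ → X → ℂ) (k r : ℤ) : ℂ :=
  ∫ y, q k ((T ^ r) y) * conj (q k ((S ^ r) y)) ∂μ

omit [IsProbabilityMeasure μ] in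
theorem IntB2_meas (hS : MP μ S) (hT : MP μ T) {q : ℤ → X → ℂ} (hqm : ∀ k, Measurable (q k))
    (k r j : ℤ) : Measurable fun y => q k ((S ^ j) ((T ^ r) y)) * conj (q k ((S ^ j) ((S ^ r) y))) := by
  have h1 : Measurable fun y => q k ((S ^ j) ((T ^ r) y)) :=
    (hqm k).comp ((hS.measurable j).comp (hT.measurable r))
  have h2 : Measurable fun y => q k ((S ^ j) ((S ^ r) y)) :=
    (hqm k).comp ((hS.measurable j).comp (hS.measurable r))
  exact h1.mul (Complex.continuous_conj.measurable.comp h2)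

theorem IntB2_int (hS : MP μ S) (hT : MP μ T) {q : ℤ → X → ℂ} (hqm : ∀ k, Measurable (q k))
    (hqb : ∀ k x, ‖q k x‖ ≤ 1) (k r j : ℤ) :
    Integrable (fun y => q k ((S ^ j) ((T ^ r) y)) * conj (q k ((S ^ j) ((S ^ r) y)))) μ := by
  refine Integrable.of_bound (IntB2_meas hS hT hqm k r j).aestronglyMeasurable 1
    (Eventually.of_forall fun y => ?_)
  rw [norm_mul, RCLike.norm_conj]
  exact mul_le_one₀ (hqb _ _) (norm_nonneg _) (hqb _ _)

theorem IntB2_int0 (hS : MP μ S) (hT : MP μ T) {q : ℤ → X → ℂ} (hqm : ∀ k, Measurable (q k))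
    (hqb : ∀ k x, ‖q k x‖ ≤ 1) (k r : ℤ) :
    Integrable (fun y => q k ((T ^ r) y) * conj (q k ((S ^ r) y))) μ := by
  simpa using IntB2_int hS hT hqm hqb k r 0

omit [IsProbabilityMeasure μ] in
/-- invariance under the shift -/
theorem IntB2_shift (hS : MP μ S) (hT : MP μ T) (hST : Commute S T) {q : ℤ → X → ℂ}
    (hqm : ∀ k, Measurable (q k)) (k r j : ℤ) :
    ∫ y, q k ((S ^ j) ((T ^ r) y)) * conj (q k ((S ^ j) ((S ^ r) y))) ∂μ = IntB2_g μ S T q k r := by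
  have hm : Measurable fun y => q k ((T ^ r) y) * conj (q k ((S ^ r) y)) := by
    simpa using IntB2_meas hS hT hqm k r 0
  have h := integral_map (μ := μ) (φ := (S ^ j : Equiv.Perm X)) (hS.measurable j).aemeasurable
    (f := fun y => q k ((T ^ r) y) * conj (q k ((S ^ r) y))) hm.aestronglyMeasurable
  rw [(hS.zpow j).map_eq] at h
  rw [IntB2_g, h]
  refine integral_congr_ae (Eventually.of_forall fun y => ?_)
  simp only
  rw [comm_apply hST j r y, ← zpow_add_apply, ← zpow_add_apply, add_comm j r]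

theorem IntB2_conv (hS : MP μ S) (hT : MP μ T) (hG : Good m μ S T) {q : ℤ → X → ℂ}
    (hqm : ∀ k, Measurable[m] (q k)) (hqb : ∀ k x, ‖q k x‖ ≤ 1) (k : ℤ) :
    ∃ γ : ℂ, Tendsto (fun R => av R (IntB2_g μ S T q k)) atTop (𝓝 γ) := by
  classical
  have hqm' : ∀ k, Measurable (q k) := fun k => (hqm k).mono hG.le le_rfl
  have hcv := hG.cv (fun x => conj (q k x)) (q k)
    (Complex.continuous_conj.measurable.comp (hqm k)) (hqm k)
    (fun x => by rw [RCLike.norm_conj]; exact hqb k x) (hqb k)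
  let l : X → ℂ := fun x => if h : CV (fun N => AN S T (fun x => conj (q k x)) (q k) N x)
    then h.choose else 0
  have hl : ∀ᵐ x ∂μ, Tendsto (fun N => AN S T (fun x => conj (q k x)) (q k) N x) atTop
      (𝓝 (l x)) := by
    filter_upwards [hcv] with x hx
    simp only [l, dif_pos hx]
    exact hx.choose_spec
  have hAN : ∀ N x, AN S T (fun x => conj (q k x)) (q k) N x =
      av N fun r => q k ((T ^ r) x) * conj (q k ((S ^ r) x)) := fun N x => by
    rw [AN]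
    exact av_congr fun n _ => mul_comm _ _
  have hm0 : ∀ r : ℤ, Measurable fun y => q k ((T ^ r) y) * conj (q k ((S ^ r) y)) := fun r => by
    simpa using IntB2_meas hS hT hqm' k r 0
  refine ⟨∫ x, l x ∂μ, ?_⟩
  have h := tendsto_integral_of_dominated_convergence (μ := μ)
    (F := fun N x => AN S T (fun x => conj (q k x)) (q k) N x) (f := l) (fun _ => (1 : ℝ)) ?_
    (integrable_const _) ?_ hl
  · refine h.congr fun N => ?_
    simp only [hAN]
    unfold av IntB2_g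
    rw [integral_smul, integral_finsetSum]
    exact fun r _ => IntB2_int0 hS hT hqm' hqb k r
  · intro N
    refine Measurable.aestronglyMeasurable ?_
    simp only [hAN]
    unfold av
    exact (Finset.measurable_sum _ fun r _ => hm0 r).const_smul _
  · intro N
    refine Eventually.of_forall fun x => ?_
    simp only [hAN]
    refine norm_av_le_of_le fun r _ => ?_
    rw [norm_mul, RCLike.norm_conj]
    exact mul_le_one₀ (hqb _ _) (norm_nonneg _) (hqb _ _)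


theorem IntB2_g_le {q : ℤ → X → ℂ} (hqb : ∀ k x, ‖q k x‖ ≤ 1) (k r : ℤ) :
    ‖IntB2_g μ S T q k r‖ ≤ 1 := by
  have h := norm_integral_le_of_norm_le_const (μ := μ) (C := 1)
    (f := fun y => q k ((T ^ r) y) * conj (q k ((S ^ r) y))) (Eventually.of_forall fun y => by
      rw [norm_mul, RCLike.norm_conj]
      exact mul_le_one₀ (hqb _ _) (norm_nonneg _) (hqb _ _))
  rw [IntB2_g]
  simpa using h

/-- positivity of the quadratic form -/
theorem IntB2_sq {ι : Type} [Fintype ι] (s : Finset ℤ) (a : ℤ → ℝ) (u v : ℤ → ι → ℂ) :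
    0 ≤ (∑ k ∈ s, ∑ l ∈ s, ((a k * a l : ℝ) : ℂ) *
      ((∑ j, u k j * conj (u l j)) * conj (∑ j, v k j * conj (v l j)))).re := by
  have h : ∑ k ∈ s, ∑ l ∈ s, ((a k * a l : ℝ) : ℂ) *
      ((∑ j, u k j * conj (u l j)) * conj (∑ j, v k j * conj (v l j))) =
      ∑ j : ι, ∑ i : ι, (∑ k ∈ s, (a k : ℂ) * (u k j * conj (v k i))) *
        conj (∑ k ∈ s, (a k : ℂ) * (u k j * conj (v k i))) := by
    have e1 : ∀ j i : ι, (∑ k ∈ s, (a k : ℂ) * (u k j * conj (v k i))) *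
        conj (∑ k ∈ s, (a k : ℂ) * (u k j * conj (v k i))) =
        ∑ k ∈ s, ∑ l ∈ s, ((a k * a l : ℝ) : ℂ) *
          ((u k j * conj (u l j)) * conj (v k i * conj (v l i))) := by
      intro j i
      rw [map_sum, Finset.sum_mul_sum]
      refine Finset.sum_congr rfl fun k _ => Finset.sum_congr rfl fun l _ => ?_
      simp only [map_mul, Complex.conj_conj, Complex.conj_ofReal]
      push_cast
      ring
    simp only [e1]
    have e2 : ∀ k l : ℤ, ((a k * a l : ℝ) : ℂ) *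
      ((∑ j, u k j * conj (u l j)) * conj (∑ j, v k j * conj (v l j))) =
      ∑ j : ι, ∑ i : ι, ((a k * a l : ℝ) : ℂ) *
          ((u k j * conj (u l j)) * conj (v k i * conj (v l i))) := by
      intro k l
      rw [map_sum, Finset.sum_mul_sum, Finset.mul_sum]
      simp only [Finset.mul_sum]
    simp only [e2]
    calc _ = ∑ k ∈ s, ∑ j : ι, ∑ l ∈ s, ∑ i : ι, ((a k * a l : ℝ) : ℂ) *
          ((u k j * conj (u l j)) * conj (v k i * conj (v l i))) :=
          Finset.sum_congr rfl fun k _ => Finset.sum_comm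
      _ = ∑ j : ι, ∑ k ∈ s, ∑ l ∈ s, ∑ i : ι, ((a k * a l : ℝ) : ℂ) *
          ((u k j * conj (u l j)) * conj (v k i * conj (v l i))) := Finset.sum_comm
      _ = ∑ j : ι, ∑ k ∈ s, ∑ i : ι, ∑ l ∈ s, ((a k * a l : ℝ) : ℂ) *
          ((u k j * conj (u l j)) * conj (v k i * conj (v l i))) :=
          Finset.sum_congr rfl fun j _ => Finset.sum_congr rfl fun k _ => Finset.sum_comm
      _ = _ := Finset.sum_congr rfl fun j _ => Finset.sum_comm
  rw [h, Complex.re_sum]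
  refine Finset.sum_nonneg fun j _ => ?_
  rw [Complex.re_sum]
  refine Finset.sum_nonneg fun i _ => ?_
  rw [Complex.mul_conj, Complex.ofReal_re]
  exact Complex.normSq_nonneg _

theorem IntB2_cs {ι : Type} [Fintype ι] {u v : ι → ℂ} (hu : ∑ j, ‖u j‖ ^ 2 ≤ 1)
    (hv : ∑ j, ‖v j‖ ^ 2 ≤ 1) : ‖∑ j, u j * conj (v j)‖ ≤ 1 := by
  calc ‖∑ j, u j * conj (v j)‖ ≤ ∑ j, ‖u j * conj (v j)‖ := norm_sum_le _ _
    _ ≤ ∑ j, (‖u j‖ ^ 2 + ‖v j‖ ^ 2) / 2 := Finset.sum_le_sum fun j _ => by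
        rw [norm_mul, RCLike.norm_conj]
        nlinarith [sq_nonneg (‖u j‖ - ‖v j‖)]
    _ = ((∑ j, ‖u j‖ ^ 2) + ∑ j, ‖v j‖ ^ 2) / 2 := by
        rw [← Finset.sum_div, Finset.sum_add_distrib]
    _ ≤ 1 := by linarith

theorem IntB2_diff {p1 p2 q1 q2 : ℂ} (hp2 : ‖p2‖ ≤ 1) (hq1 : ‖q1‖ ≤ 1) :
    ‖p1 * conj p2 - q1 * conj q2‖ ≤ ‖p1 - q1‖ + ‖p2 - q2‖ := by
  have e : p1 * conj p2 - q1 * conj q2 = (p1 - q1) * conj p2 + q1 * conj (p2 - q2) := by
    rw [map_sub]; ring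
  rw [e]
  refine (norm_add_le _ _).trans (add_le_add ?_ ?_)
  · rw [norm_mul, RCLike.norm_conj]
    exact mul_le_of_le_one_right (norm_nonneg _) hp2
  · rw [norm_mul, RCLike.norm_conj]
    exact mul_le_of_le_one_left (norm_nonneg _) hq1

/-- lower bound of the form for one `r` -/
theorem IntB2_low (hm : m ≤ mX) (hS : MP μ S) (hT : MP μ T) (hST : Commute S T) {q : ℤ → X → ℂ}
    (hqm : ∀ k, Measurable (q k)) (hqb : ∀ k x, ‖q k x‖ ≤ 1) (K : ℕ) {ε : ℝ} {ι : Type}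
    [Fintype ι] {c : ℤ → ι → X → ℂ} (hc : Gram m μ S q K ε c) (a : ℤ → ℝ) (r : ℤ) :
    -(2 * ε * ∑ k ∈ Finset.Icc (-(K : ℤ)) (K : ℤ), ∑ l ∈ Finset.Icc (-(K : ℤ)) (K : ℤ),
      |a k * a l|) ≤
      ∑ k ∈ Finset.Icc (-(K : ℤ)) (K : ℤ), ∑ l ∈ Finset.Icc (-(K : ℤ)) (K : ℤ),
        a k * a l * (IntB2_g μ S T q (l - k) r).re := by
  set s := Finset.Icc (-(K : ℤ)) (K : ℤ) with hs
  set P : ℤ → ℤ → X → ℂ := fun k l x => ∑ j, c k j x * conj (c l j x) with hP
  set E : ℤ → ℤ → X → ℝ := fun k l x => ‖P k l x - q (l - k) ((S ^ k) x)‖ with hE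
  have hPm : ∀ k l, Measurable (P k l) := fun k l =>
    Finset.measurable_sum _ fun j _ => ((hc.meas k j).mono hm le_rfl).mul
      (Complex.continuous_conj.measurable.comp ((hc.meas l j).mono hm le_rfl))
  have hEm : ∀ k l, Measurable (E k l) := fun k l =>
    ((hPm k l).sub ((hqm _).comp (hS.measurable k))).norm
  have hPb : ∀ k l x, ‖P k l x‖ ≤ 1 := fun k l x => IntB2_cs (hc.bd k x) (hc.bd l x)
  have hEb : ∀ k l x, ‖E k l x‖ ≤ 2 := fun k l x => by
    rw [hE, norm_norm]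
    refine (norm_sub_le _ _).trans ?_
    have := hPb k l x
    have := hqb (l - k) ((S ^ k) x)
    linarith
  have hEi : ∀ k l, Integrable (E k l) μ := fun k l =>
    Integrable.of_bound (hEm k l).aestronglyMeasurable 2 (Eventually.of_forall (hEb k l))
  have hEc : ∀ (R : Equiv.Perm X), MeasurePreserving R μ μ → ∀ k ∈ s, ∀ l ∈ s,
      Integrable (fun y => E k l (R y)) μ ∧ ∫ y, E k l (R y) ∂μ ≤ ε := by
    intro R hR k hk l hl
    refine ⟨hR.integrable_comp_of_integrable (hEi k l), ?_⟩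
    have h := integral_map (μ := μ) (φ := R) hR.measurable.aemeasurable
      (f := E k l) (hEm k l).aestronglyMeasurable
    rw [hR.map_eq] at h
    rw [← h]
    exact hc.close k hk l hl
  -- pointwise inequality
  have hpt : ∀ y, -(∑ k ∈ s, ∑ l ∈ s, |a k * a l| * (E k l ((T ^ r) y) + E k l ((S ^ r) y))) ≤
      (∑ k ∈ s, ∑ l ∈ s, ((a k * a l : ℝ) : ℂ) *
        (q (l - k) ((S ^ k) ((T ^ r) y)) * conj (q (l - k) ((S ^ k) ((S ^ r) y))))).re := by
    intro y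
    have h0 := IntB2_sq s a (fun k j => c k j ((T ^ r) y)) (fun k j => c k j ((S ^ r) y))
    have h1 : ‖(∑ k ∈ s, ∑ l ∈ s, ((a k * a l : ℝ) : ℂ) *
        (P k l ((T ^ r) y) * conj (P k l ((S ^ r) y)))) -
        (∑ k ∈ s, ∑ l ∈ s, ((a k * a l : ℝ) : ℂ) *
        (q (l - k) ((S ^ k) ((T ^ r) y)) * conj (q (l - k) ((S ^ k) ((S ^ r) y)))))‖ ≤
        ∑ k ∈ s, ∑ l ∈ s, |a k * a l| * (E k l ((T ^ r) y) + E k l ((S ^ r) y)) := by
      rw [← Finset.sum_sub_distrib]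
      refine (norm_sum_le _ _).trans (Finset.sum_le_sum fun k _ => ?_)
      rw [← Finset.sum_sub_distrib]
      refine (norm_sum_le _ _).trans (Finset.sum_le_sum fun l _ => ?_)
      rw [← mul_sub, norm_mul, Complex.norm_real, Real.norm_eq_abs]
      exact mul_le_mul_of_nonneg_left (IntB2_diff (hPb _ _ _) (hqb _ _)) (abs_nonneg _)
    have h2 := (abs_le.1 ((Complex.abs_re_le_norm _).trans h1)).2
    rw [Complex.sub_re] at h2
    have h3 : 0 ≤ (∑ k ∈ s, ∑ l ∈ s, ((a k * a l : ℝ) : ℂ) *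
        (P k l ((T ^ r) y) * conj (P k l ((S ^ r) y)))).re := h0
    linarith
  -- integrate
  have hWi : Integrable (fun y => ∑ k ∈ s, ∑ l ∈ s, ((a k * a l : ℝ) : ℂ) *
        (q (l - k) ((S ^ k) ((T ^ r) y)) * conj (q (l - k) ((S ^ k) ((S ^ r) y))))) μ :=
    integrable_finsetSum _ fun k _ => integrable_finsetSum _ fun l _ =>
      (IntB2_int hS hT hqm hqb (l - k) r k).const_mul _
  have hW : ∫ y, ∑ k ∈ s, ∑ l ∈ s, ((a k * a l : ℝ) : ℂ) *
        (q (l - k) ((S ^ k) ((T ^ r) y)) * conj (q (l - k) ((S ^ k) ((S ^ r) y)))) ∂μ =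
      ∑ k ∈ s, ∑ l ∈ s, ((a k * a l : ℝ) : ℂ) * IntB2_g μ S T q (l - k) r := by
    rw [integral_finsetSum]
    · refine Finset.sum_congr rfl fun k _ => ?_
      rw [integral_finsetSum]
      · refine Finset.sum_congr rfl fun l _ => ?_
        rw [integral_const_mul, IntB2_shift hS hT hST hqm]
      · exact fun l _ => (IntB2_int hS hT hqm hqb (l - k) r k).const_mul _
    · exact fun k _ => integrable_finsetSum _ fun l _ =>
        (IntB2_int hS hT hqm hqb (l - k) r k).const_mul _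
  have hRi : Integrable (fun y => -(∑ k ∈ s, ∑ l ∈ s,
      |a k * a l| * (E k l ((T ^ r) y) + E k l ((S ^ r) y)))) μ :=
    (integrable_finsetSum _ fun k hk => integrable_finsetSum _ fun l hl =>
      (((hEc _ (hT.zpow r) k hk l hl).1).add ((hEc _ (hS.zpow r) k hk l hl).1)).const_mul _).neg
  have hint := integral_mono hRi hWi.re hpt
  have hre : ∫ y, (∑ k ∈ s, ∑ l ∈ s, ((a k * a l : ℝ) : ℂ) *
        (q (l - k) ((S ^ k) ((T ^ r) y)) * conj (q (l - k) ((S ^ k) ((S ^ r) y))))).re ∂μ =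
      (∑ k ∈ s, ∑ l ∈ s, ((a k * a l : ℝ) : ℂ) * IntB2_g μ S T q (l - k) r).re := by
    rw [← hW]
    exact integral_re hWi
  have hint' : ∫ y, -(∑ k ∈ s, ∑ l ∈ s,
      |a k * a l| * (E k l ((T ^ r) y) + E k l ((S ^ r) y))) ∂μ ≤
      (∑ k ∈ s, ∑ l ∈ s, ((a k * a l : ℝ) : ℂ) * IntB2_g μ S T q (l - k) r).re := by
    rw [← hre]; exact hint
  have hE2 : ∫ y, (∑ k ∈ s, ∑ l ∈ s,
      |a k * a l| * (E k l ((T ^ r) y) + E k l ((S ^ r) y))) ∂μ ≤
      2 * ε * ∑ k ∈ s, ∑ l ∈ s, |a k * a l| := by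
    rw [integral_finsetSum]
    · rw [Finset.mul_sum]
      refine Finset.sum_le_sum fun k hk => ?_
      rw [integral_finsetSum]
      · rw [Finset.mul_sum]
        refine Finset.sum_le_sum fun l hl => ?_
        obtain ⟨i1, e1⟩ := hEc _ (hT.zpow r) k hk l hl
        obtain ⟨i2, e2⟩ := hEc _ (hS.zpow r) k hk l hl
        rw [integral_const_mul, integral_add i1 i2, mul_comm (2 * ε)]
        refine mul_le_mul_of_nonneg_left ?_ (abs_nonneg _)
        linarith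
      · exact fun l hl => ((hEc _ (hT.zpow r) k hk l hl).1.add
          (hEc _ (hS.zpow r) k hk l hl).1).const_mul _
    · exact fun k hk => integrable_finsetSum _ fun l hl => ((hEc _ (hT.zpow r) k hk l hl).1.add
          (hEc _ (hS.zpow r) k hk l hl).1).const_mul _
  rw [integral_neg] at hint'
  have hfin : (∑ k ∈ s, ∑ l ∈ s, ((a k * a l : ℝ) : ℂ) * IntB2_g μ S T q (l - k) r).re =
      ∑ k ∈ s, ∑ l ∈ s, a k * a l * (IntB2_g μ S T q (l - k) r).re := by
    rw [Complex.re_sum]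
    refine Finset.sum_congr rfl fun k _ => ?_
    rw [Complex.re_sum]
    refine Finset.sum_congr rfl fun l _ => ?_
    rw [Complex.re_ofReal_mul]
  rw [hfin] at hint'
  linarith

theorem IntB2_W (hS : MP μ S) (hT : MP μ T) (hST : Commute S T) {q : ℤ → X → ℂ}
    (hqm : ∀ k, Measurable (q k)) (hqb : ∀ k x, ‖q k x‖ ≤ 1) (K : ℕ) (a : ℤ → ℝ) (r : ℤ) :
    (∫ y, ∑ k ∈ Finset.Icc (-(K : ℤ)) (K : ℤ), ∑ l ∈ Finset.Icc (-(K : ℤ)) (K : ℤ),
        ((a k * a l : ℝ) : ℂ) *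
        (q (l - k) ((S ^ k) ((T ^ r) y)) * conj (q (l - k) ((S ^ k) ((S ^ r) y)))) ∂μ).re =
      ∑ k ∈ Finset.Icc (-(K : ℤ)) (K : ℤ), ∑ l ∈ Finset.Icc (-(K : ℤ)) (K : ℤ),
        a k * a l * (IntB2_g μ S T q (l - k) r).re := by
  rw [integral_finsetSum]
  · rw [Complex.re_sum]
    refine Finset.sum_congr rfl fun k _ => ?_
    rw [integral_finsetSum]
    · rw [Complex.re_sum]
      refine Finset.sum_congr rfl fun l _ => ?_
      rw [integral_const_mul, IntB2_shift hS hT hST hqm, Complex.re_ofReal_mul]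
    · exact fun l _ => (IntB2_int hS hT hqm hqb (l - k) r k).const_mul _
  · exact fun k _ => integrable_finsetSum _ fun l _ =>
      (IntB2_int hS hT hqm hqb (l - k) r k).const_mul _

theorem IntB2_tend {G : ℤ → ℤ → ℝ} {ρ : ℤ → ℝ}
    (h : ∀ k, Tendsto (fun R => av R fun r => G k r) atTop (𝓝 (ρ k))) (K : ℕ) (a : ℤ → ℝ) :
    Tendsto (fun R => av R fun r => ∑ k ∈ Finset.Icc (-(K : ℤ)) (K : ℤ),
      ∑ l ∈ Finset.Icc (-(K : ℤ)) (K : ℤ), a k * a l * G (l - k) r) atTop (𝓝 (tf ρ K a)) := by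
  have e : ∀ R : ℕ, (av R fun r => ∑ k ∈ Finset.Icc (-(K : ℤ)) (K : ℤ),
      ∑ l ∈ Finset.Icc (-(K : ℤ)) (K : ℤ), a k * a l * G (l - k) r) =
      ∑ k ∈ Finset.Icc (-(K : ℤ)) (K : ℤ),
      ∑ l ∈ Finset.Icc (-(K : ℤ)) (K : ℤ), a k * a l * av R fun r => G (l - k) r := by
    intro R
    rw [av_sum]
    refine Finset.sum_congr rfl fun k _ => ?_
    rw [av_sum]
    refine Finset.sum_congr rfl fun l _ => ?_
    have := av_smul R (a k * a l) (fun r => G (l - k) r)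
    simpa only [smul_eq_mul] using this
  simp only [e]
  unfold tf
  exact tendsto_finsetSum _ fun k _ => tendsto_finsetSum _ fun l _ =>
    (h (l - k)).const_mul (a k * a l)

/-- positivity of the Toeplitz form -/
theorem IntB2_pos (hS : MP μ S) (hT : MP μ T) (hST : Commute S T) (hG : Good m μ S T)
    {q : ℤ → X → ℂ} (hqm : ∀ k, Measurable[m] (q k)) (hqb : ∀ k x, ‖q k x‖ ≤ 1)
    (hq : ∀ (M : ℕ) (ε : ℝ), 0 < ε → ∃ (ι : Type) (_ : Fintype ι) (c : ℤ → ι → X → ℂ),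
      Gram m μ S q M ε c) {ρ : ℤ → ℝ}
    (h : ∀ k, Tendsto (fun R => av R fun r => (IntB2_g μ S T q k r).re) atTop (𝓝 (ρ k)))
    (K : ℕ) (a : ℤ → ℝ) : 0 ≤ tf ρ K a := by
  set C := ∑ k ∈ Finset.Icc (-(K : ℤ)) (K : ℤ), ∑ l ∈ Finset.Icc (-(K : ℤ)) (K : ℤ),
      |a k * a l| with hC
  have hC0 : 0 ≤ C := Finset.sum_nonneg fun k _ => Finset.sum_nonneg fun l _ => abs_nonneg _
  refine le_of_forall_pos_le_add fun e he => ?_
  have hε : 0 < e / (2 * C + 1) := by positivity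
  obtain ⟨ι, _, c, hc⟩ := hq K _ hε
  have hlow := fun r => IntB2_low hG.le hS hT hST
    (fun k => (hqm k).mono hG.le le_rfl) hqb K hc a r
  have h1 := IntB2_tend h K a
  have h2 : -(2 * (e / (2 * C + 1)) * C) ≤ tf ρ K a := by
    refine ge_of_tendsto' h1 fun R => ?_
    calc -(2 * (e / (2 * C + 1)) * C) = av R (fun _ => -(2 * (e / (2 * C + 1)) * C)) :=
          (av_const R _).symm
      _ ≤ _ := av_mono fun r _ => hlow r
  have h3 : 2 * (e / (2 * C + 1)) * C ≤ e := by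
    rw [mul_assoc, div_mul_eq_mul_div, ← mul_div_assoc, div_le_iff₀ (by positivity)]
    nlinarith
  linarith

/-- Jensen for the square root -/
theorem IntB2_sqrt (R : ℕ) {x : ℤ → ℝ} (hx : ∀ r, 0 ≤ x r) :
    (av R fun r => √(x r)) ≤ √(av R x) := by
  set t := av R fun r => √(x r) with ht
  have h1 : 0 ≤ av R fun r => (√(x r) - t) ^ 2 := av_nonneg fun r _ => sq_nonneg _
  have h2 : (av R fun r => (√(x r) - t) ^ 2) = av R x - t ^ 2 := by
    have e : (fun r => (√(x r) - t) ^ 2) = fun r => (x r - (2 * t) • √(x r)) + t ^ 2 := by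
      funext r
      rw [smul_eq_mul]
      nlinarith [Real.sq_sqrt (hx r)]
    rw [e, av_add, av_sub, av_smul, av_const, smul_eq_mul, ← ht]
    ring
  rw [h2] at h1
  exact Real.le_sqrt_of_sq_le (by linarith)

theorem limG (hS : MP μ S) (hT : MP μ T) (hST : Commute S T) (hG : Good m μ S T) {q : ℤ → X → ℂ}
    (hqm : ∀ k, Measurable[m] (q k)) (hqb : ∀ k x, ‖q k x‖ ≤ 1)
    (hq : ∀ (M : ℕ) (ε : ℝ), 0 < ε → ∃ (ι : Type) (_ : Fintype ι) (c : ℤ → ι → X → ℂ),
      Gram m μ S q M ε c) {η : ℝ} (hη : 0 < η) :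
    ∃ L₀ : ℕ, ∀ L M : ℕ, L₀ ≤ L → L ≤ M → ∃ (M' : ℕ) (δ : ℝ), M ≤ M' ∧ 0 < δ ∧
      ∀ (ι : Type) [Fintype ι] (c : ℤ → ι → X → ℂ), Gram m μ S q M' δ c →
        ∀ᶠ R in atTop, (av R fun r =>
          ∫ y, GG L M (fun n j => c n j ((T ^ r) y)) (fun n j => c n j ((S ^ r) y)) ∂μ) ≤ η := by
  have hqm' : ∀ k, Measurable (q k) := fun k => (hqm k).mono hG.le le_rfl
  choose γ hγ using fun k => IntB2_conv hS hT hG hqm hqb k
  have hρ : ∀ k, Tendsto (fun R => av R fun r => (IntB2_g μ S T q k r).re) atTop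
      (𝓝 (γ k).re) := fun k => by
    have := (Complex.continuous_re.tendsto _).comp (hγ k)
    refine this.congr fun R => ?_
    simp only [Function.comp]
    exact re_av R _
  have hρb : ∀ k, |(γ k).re| ≤ 1 := fun k => by
    refine le_of_tendsto' ((hρ k).abs) fun R => ?_
    rw [← Real.norm_eq_abs]
    refine norm_av_le_of_le fun r _ => ?_
    rw [Real.norm_eq_abs]
    exact (Complex.abs_re_le_norm _).trans (IntB2_g_le hqb k r)
  set ρ : ℤ → ℝ := fun k => (γ k).re with hρd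
  have hpos := IntB2_pos hS hT hST hG hqm hqb hq hρ
  set τ : ℝ := (η / 72) ^ 4 / 4 with hτ
  have hτ0 : 0 < τ := by positivity
  obtain ⟨H₀, hH₀⟩ := toep ρ hρb hpos hτ0
  obtain ⟨L₀, hL₀⟩ := exists_nat_ge (16 * H₀ / η)
  refine ⟨L₀, fun L M hL hLM => ?_⟩
  obtain ⟨H₁, hH₁⟩ := exists_nat_ge (16 * M / η)
  set H := max H₀ H₁ with hH
  set δ : ℝ := min ((η / 72) ^ 4 / 32) ((η / (8 * (2 * M + 1))) ^ 2 / 8) with hδ
  have hδ0 : 0 < δ := by
    rw [hδ]
    exact lt_min (by positivity) (by positivity)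
  refine ⟨M + H, δ, Nat.le_add_right _ _, hδ0, ?_⟩
  intro ι _ c hc
  have hHH : H₀ ≤ H := le_max_left _ _
  have hI := fun r => intGG hG.le hS hT hST hqm' hqb hLM hHH le_rfl hδ0.le hc r
  have hD := fun r => re_DD hG.le hS hT hqm' hqb hHH (Nat.le_add_left H M) hδ0.le hc r
  have b1 : 4 * (H₀ : ℝ) / (2 * L + 1) ≤ η / 4 := by
    rw [div_le_iff₀ (by positivity)]
    rw [div_le_iff₀ hη] at hL₀
    have : (L₀ : ℝ) ≤ L := by exact_mod_cast hL
    nlinarith
  have b2 : 4 * (M : ℝ) / (2 * H + 1) ≤ η / 4 := by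
    rw [div_le_iff₀ (by positivity)]
    rw [div_le_iff₀ hη] at hH₁
    have : (H₁ : ℝ) ≤ H := by exact_mod_cast le_max_right _ _
    nlinarith
  have b4 : 2 * (2 * (M : ℝ) + 1) * √(8 * δ) ≤ η / 4 := by
    have h1 : 8 * δ ≤ (η / (8 * (2 * M + 1))) ^ 2 := by
      have := min_le_right ((η / 72) ^ 4 / 32) ((η / (8 * (2 * (M : ℝ) + 1))) ^ 2 / 8)
      rw [← hδ] at this
      linarith
    have h2 : √(8 * δ) ≤ η / (8 * (2 * M + 1)) := by
      rw [← Real.sqrt_sq (show 0 ≤ η / (8 * (2 * (M : ℝ) + 1)) by positivity)]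
      exact Real.sqrt_le_sqrt h1
    calc 2 * (2 * (M : ℝ) + 1) * √(8 * δ) ≤ 2 * (2 * (M : ℝ) + 1) * (η / (8 * (2 * M + 1))) :=
          mul_le_mul_of_nonneg_left h2 (by positivity)
      _ = η / 4 := by field_simp; ring
  have hδ1 : 16 * δ ≤ (η / 72) ^ 4 / 2 := by
    have := min_le_left ((η / 72) ^ 4 / 32) ((η / (8 * (2 * (M : ℝ) + 1))) ^ 2 / 8)
    rw [← hδ] at this
    linarith
  -- the limit of the main term
  have hDD : ∀ r, (∫ y, DD S T q H₀ H r y ∂μ).re =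
      ∑ k ∈ Finset.Icc (-(H : ℤ)) (H : ℤ), ∑ l ∈ Finset.Icc (-(H : ℤ)) (H : ℤ),
        (uw H₀ k - uw H k) * (uw H₀ l - uw H l) * (IntB2_g μ S T q (l - k) r).re := fun r => by
    unfold DD
    exact IntB2_W hS hT hST hqm' hqb H (fun k => uw H₀ k - uw H k) r
  have hlim : Tendsto (fun R => av R fun r => (∫ y, DD S T q H₀ H r y ∂μ).re) atTop
      (𝓝 (tf ρ H (fun k => uw H₀ k - uw H k))) := by
    simp only [hDD]
    exact IntB2_tend hρ H (fun k => uw H₀ k - uw H k)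
  have htau := hH₀ H₀ H H le_rfl hHH hHH le_rfl
  have hev : ∀ᶠ R in atTop, (av R fun r => (∫ y, DD S T q H₀ H r y ∂μ).re) < 2 * τ :=
    hlim.eventually_lt_const (by linarith)
  filter_upwards [hev] with R hR
  have hx : ∀ r, 0 ≤ (∫ y, DD S T q H₀ H r y ∂μ).re + 16 * δ := fun r => by
    have := hD r
    linarith
  have hJ : (av R fun r => √√((∫ y, DD S T q H₀ H r y ∂μ).re + 16 * δ)) ≤ η / 72 := by
    refine (IntB2_sqrt R fun r => Real.sqrt_nonneg _).trans ?_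
    have h1 := IntB2_sqrt R hx
    have h2 : (av R fun r => (∫ y, DD S T q H₀ H r y ∂μ).re + 16 * δ) ≤ (η / 72) ^ 4 := by
      rw [av_add, av_const]
      rw [hτ] at hR
      linarith
    have h3 : √(av R fun r => (∫ y, DD S T q H₀ H r y ∂μ).re + 16 * δ) ≤ (η / 72) ^ 2 := by
      rw [← Real.sqrt_sq (show 0 ≤ (η / 72) ^ 2 by positivity)]
      refine Real.sqrt_le_sqrt (h2.trans (le_of_eq ?_))
      ring
    rw [← Real.sqrt_sq (show 0 ≤ η / 72 by positivity)]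
    exact Real.sqrt_le_sqrt (h1.trans h3)
  calc (av R fun r => ∫ y, GG L M (fun n j => c n j ((T ^ r) y))
        (fun n j => c n j ((S ^ r) y)) ∂μ)
      ≤ av R fun r => ((4 * (H₀ : ℝ) / (2 * L + 1) + 4 * M / (2 * H + 1)) +
        (18 : ℝ) • √√((∫ y, DD S T q H₀ H r y ∂μ).re + 16 * δ)) +
          2 * (2 * M + 1) * √(8 * δ) := av_mono fun r _ => by
        rw [smul_eq_mul]; exact hI r
    _ = ((4 * (H₀ : ℝ) / (2 * L + 1) + 4 * M / (2 * H + 1)) +
        18 * av R fun r => √√((∫ y, DD S T q H₀ H r y ∂μ).re + 16 * δ)) +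
          2 * (2 * M + 1) * √(8 * δ) := by
        rw [av_add, av_add, av_smul, av_const, av_const, smul_eq_mul]
    _ ≤ η := by linarith

end Pool.DRT
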