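import Pool.Agent.DRT.Defs

set_option autoImplicit false

/-!
# Adjoint functions: pairing and square bound

PROOFS. `adf_pair`: expand the finite sum; for each `n`, substitute `x = T^n z`
(`(hT.zpow n).integral_comp'` or `integral_map`; note `(T^(-n)) ((T^n) z) = z`):
`∫ B.indicator (wt w N n) (T^{-n} x) g x = ∫ B.indicator (wt w N n) z * g(T^n z)`.  Then sum under the
integral; for `z ∈ B`, as `N z ≤ M`, `∑_{|n| ≤ M} wt w N n z * g(T^n z) = av (N z) (...)`.
`adf_sq`: `‖adf x‖ ≤ U x := ∑_{|n| ≤ M} v n (T^{-n} x)`, `v n z = if |n| ≤ N z then 1/(2 N z + 1) else 0`.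
`U x ^ 2 = ∑_{n,n'} v n (T^{-n} x) v n' (T^{-n'} x)
   ≤ 2 ∑_{n,n'} [N(T^{-n'} x) ≤ N(T^{-n} x)] v n (T^{-n} x) v n' (T^{-n'} x)`
(symmetry).  Integrate, put `x = T^n z`, `d = n - n'`: the integral is at most
`2 ∫ ∑_n ∑_{n'} [N(T^{n-n'} z) ≤ N z] v n z v n' (T^{n-n'} z) dμ(z)`.  Fix `z` and `d`, `N = N z`,
`N' = N(T^d z) ≤ N`: the sum over `n` (`n' = n - d`) is at most
`(2N'+1)/((2N+1)(2N'+1)) = 1/(2N+1)`, and it is zero unless `|d| ≤ N + N' ≤ 2N`; there are `4N+1` such
`d`, total at most `(4N+1)/(2N+1) ≤ 2`.  So `∫ U ^ 2 ≤ 4`.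
-/

open MeasureTheory Filter Topology
open scoped ComplexConjugate NNReal ENNReal

noncomputable section

namespace Pool.DRT

variable {X : Type*} [MeasurableSpace X] {μ : Measure X} [IsProbabilityMeasure μ]
  {T : Equiv.Perm X} {w : ℤ → X → ℂ} {B : Set X} {N : X → ℕ} {M : ℕ}

theorem LemA1_wt_measurable (hw : ∀ n, Measurable (w n)) (hN : Measurable N) (n : ℤ) :
    Measurable (wt w N n) := by
  unfold wt
  refine Measurable.ite (measurableSet_le measurable_const hN) ?_ measurable_const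
  have h1 : Measurable fun z => (2 * (N z : ℝ) + 1)⁻¹ := by
    have : Measurable fun z => (N z : ℝ) := measurable_from_nat.comp hN
    exact ((measurable_const.mul this).add measurable_const).inv
  exact h1.smul (hw n)

/-- the size of the weights -/
def LemA1_v (N : X → ℕ) (n : ℤ) (z : X) : ℝ :=
  if n.natAbs ≤ N z then (2 * (N z : ℝ) + 1)⁻¹ else 0

theorem LemA1_v_nonneg (N : X → ℕ) (n : ℤ) (z : X) : 0 ≤ LemA1_v N n z := by
  unfold LemA1_v
  split_ifs
  · positivity
  · exact le_rfl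

theorem LemA1_v_le_one (N : X → ℕ) (n : ℤ) (z : X) : LemA1_v N n z ≤ 1 := by
  unfold LemA1_v
  split_ifs
  · apply inv_le_one_of_one_le₀
    have : (0 : ℝ) ≤ N z := Nat.cast_nonneg _
    linarith
  · exact zero_le_one

theorem LemA1_v_measurable (hN : Measurable N) (n : ℤ) : Measurable (LemA1_v N n) := by
  unfold LemA1_v
  refine Measurable.ite (measurableSet_le measurable_const hN) ?_ measurable_const
  have : Measurable fun z => (N z : ℝ) := measurable_from_nat.comp hN
  exact ((measurable_const.mul this).add measurable_const).inv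

theorem LemA1_wt_le (hb : ∀ n x, ‖w n x‖ ≤ 1) (N : X → ℕ) (n : ℤ) (z : X) :
    ‖wt w N n z‖ ≤ LemA1_v N n z := by
  unfold wt LemA1_v
  split_ifs
  · rw [norm_smul, Real.norm_of_nonneg (by positivity)]
    exact mul_le_of_le_one_right (by positivity) (hb n z)
  · simp

theorem LemA1_ind_le (hb : ∀ n x, ‖w n x‖ ≤ 1) (B : Set X) (N : X → ℕ) (n : ℤ) (z : X) :
    ‖B.indicator (wt w N n) z‖ ≤ LemA1_v N n z :=
  (norm_indicator_le_norm_self _ _).trans (LemA1_wt_le hb N n z)

theorem adf_measurable (hT : MP μ T) (hw : ∀ n, Measurable (w n)) (hB : MeasurableSet B)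
    (hN : Measurable N) (M : ℕ) : Measurable (adf T w B N M) := by
  unfold adf
  refine Finset.measurable_sum _ fun n _ => ?_
  exact ((LemA1_wt_measurable hw hN n).indicator hB).comp (hT.measurable (-n))

theorem adf_bound (T : Equiv.Perm X) (hb : ∀ n x, ‖w n x‖ ≤ 1) (B : Set X) (N : X → ℕ) (M : ℕ)
    (x : X) : ‖adf T w B N M x‖ ≤ 2 * M + 1 := by
  unfold adf
  calc _ ≤ ∑ n ∈ Finset.Icc (-(M : ℤ)) (M : ℤ), ‖B.indicator (wt w N n) ((T ^ (-n)) x)‖ :=
        norm_sum_le _ _
    _ ≤ ∑ n ∈ Finset.Icc (-(M : ℤ)) (M : ℤ), (1 : ℝ) :=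
        Finset.sum_le_sum fun n _ => (LemA1_ind_le hb B N n _).trans (LemA1_v_le_one N n _)
    _ = 2 * M + 1 := by
        rw [Finset.sum_const, card_Icc]
        simp

theorem LemA1_comp {E : Type*} [NormedAddCommGroup E] [NormedSpace ℝ E] (hT : MP μ T) (n : ℤ)
    {F : X → E} (hF : AEStronglyMeasurable F μ) :
    ∫ x, F x ∂μ = ∫ z, F ((T ^ n) z) ∂μ := by
  have h := (hT.zpow n).map_eq
  have h2 : AEStronglyMeasurable F (Measure.map (T ^ n : Equiv.Perm X) μ) := by rw [h]; exact hF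
  have h3 := integral_map (hT.measurable n).aemeasurable h2
  rw [h] at h3
  exact h3

theorem LemA1_zz (T : Equiv.Perm X) (n : ℤ) (z : X) : (T ^ (-n)) ((T ^ n) z) = z := by
  rw [← zpow_add_apply, neg_add_cancel, zpow_zero]
  rfl

theorem adf_pair (hT : MP μ T) (hw : ∀ n, Measurable (w n)) (hb : ∀ n x, ‖w n x‖ ≤ 1)
    (hB : MeasurableSet B) (hN : Measurable N) (hNM : ∀ x, N x ≤ M) {g : X → ℂ}
    (hg : Measurable g) {C : ℝ} (hgC : ∀ x, ‖g x‖ ≤ C) :
    ∫ x, adf T w B N M x * g x ∂μ =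
      ∫ z in B, av (N z) (fun n => w n z * g ((T ^ n) z)) ∂μ := by
  classical
  have hm1 : ∀ n : ℤ, Measurable fun x => B.indicator (wt w N n) ((T ^ (-n)) x) * g x := fun n =>
    (((LemA1_wt_measurable hw hN n).indicator hB).comp (hT.measurable (-n))).mul hg
  have hm2 : ∀ n : ℤ, Measurable fun z => B.indicator (wt w N n) z * g ((T ^ n) z) := fun n =>
    ((LemA1_wt_measurable hw hN n).indicator hB).mul (hg.comp (hT.measurable n))
  have hi1 : ∀ n : ℤ, Integrable (fun x => B.indicator (wt w N n) ((T ^ (-n)) x) * g x) μ := by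
    intro n
    refine Integrable.of_bound (hm1 n).aestronglyMeasurable (1 * C) (ae_of_all _ fun x => ?_)
    rw [norm_mul]
    exact mul_le_mul ((LemA1_ind_le hb B N n _).trans (LemA1_v_le_one N n _)) (hgC x)
      (norm_nonneg _) zero_le_one
  have hi2 : ∀ n : ℤ, Integrable (fun z => B.indicator (wt w N n) z * g ((T ^ n) z)) μ := by
    intro n
    refine Integrable.of_bound (hm2 n).aestronglyMeasurable (1 * C) (ae_of_all _ fun x => ?_)
    rw [norm_mul]
    exact mul_le_mul ((LemA1_ind_le hb B N n _).trans (LemA1_v_le_one N n _)) (hgC _)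
      (norm_nonneg _) zero_le_one
  have h1 : ∀ x, adf T w B N M x * g x =
      ∑ n ∈ Finset.Icc (-(M : ℤ)) (M : ℤ), B.indicator (wt w N n) ((T ^ (-n)) x) * g x := by
    intro x
    unfold adf
    rw [Finset.sum_mul]
  simp only [h1]
  rw [integral_finsetSum _ fun n _ => hi1 n]
  have h2 : ∀ n : ℤ, ∫ x, B.indicator (wt w N n) ((T ^ (-n)) x) * g x ∂μ =
      ∫ z, B.indicator (wt w N n) z * g ((T ^ n) z) ∂μ := by
    intro n
    rw [LemA1_comp hT n (hm1 n).aestronglyMeasurable]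
    simp only [LemA1_zz]
  simp only [h2]
  rw [← integral_finsetSum _ fun n _ => hi2 n, ← integral_indicator hB]
  congr 1
  ext z
  by_cases hz : z ∈ B
  · rw [Set.indicator_of_mem hz]
    simp only [Set.indicator_of_mem hz]
    unfold av wt
    rw [Finset.smul_sum]
    have hsub : Finset.Icc (-(N z : ℤ)) (N z : ℤ) ⊆ Finset.Icc (-(M : ℤ)) (M : ℤ) := by
      intro n hn
      have := hNM z
      rw [Finset.mem_Icc] at hn ⊢
      constructor <;> omega
    symm
    rw [← Finset.sum_subset_zero_on_sdiff hsub]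
    · intro n hn
      rw [Finset.mem_sdiff, Finset.mem_Icc, Finset.mem_Icc] at hn
      have : ¬ n.natAbs ≤ N z := by omega
      rw [if_neg this, zero_mul]
    · intro n hn
      rw [Finset.mem_Icc] at hn
      have : n.natAbs ≤ N z := by omega
      rw [if_pos this, smul_mul_assoc]
  · rw [Set.indicator_of_notMem hz]
    simp only [Set.indicator_of_notMem hz, zero_mul, Finset.sum_const_zero]

/-- counting pairs of intervals -/
theorem LemA1_count (A M : ℕ) (a : ℤ → ℕ) :
    ∑ n ∈ Finset.Icc (-(M : ℤ)) (M : ℤ), ∑ n' ∈ Finset.Icc (-(M : ℤ)) (M : ℤ),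
      (if a (n - n') ≤ A then (if n.natAbs ≤ A then (2 * (A : ℝ) + 1)⁻¹ else 0) *
        (if n'.natAbs ≤ a (n - n') then (2 * (a (n - n') : ℝ) + 1)⁻¹ else 0) else 0) ≤ 2 := by
  classical
  set h : ℤ → ℤ → ℝ := fun d n' => if a d ≤ A then (2 * (A : ℝ) + 1)⁻¹ *
    (if n'.natAbs ≤ a d then (2 * (a d : ℝ) + 1)⁻¹ else 0) else 0 with hh
  have hnn : ∀ d n', 0 ≤ h d n' := by
    intro d n'
    rw [hh]
    dsimp only
    split_ifs <;> positivity
  have hh0 : ∀ d n', A < n'.natAbs → h d n' = 0 := by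
    intro d n' hlt
    rw [hh]
    dsimp only
    by_cases h1 : a d ≤ A
    · rw [if_pos h1, if_neg (by omega), mul_zero]
    · rw [if_neg h1]
  have hsumd : ∀ d, ∑ n' ∈ Finset.Icc (-(A : ℤ)) (A : ℤ), h d n' ≤ (2 * (A : ℝ) + 1)⁻¹ := by
    intro d
    by_cases h1 : a d ≤ A
    · have h2 : ∀ n', h d n' = (2 * (A : ℝ) + 1)⁻¹ *
          (if n'.natAbs ≤ a d then (2 * (a d : ℝ) + 1)⁻¹ else 0) := by
        intro n'
        rw [hh]
        dsimp only
        rw [if_pos h1]
      simp only [h2]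
      rw [← Finset.mul_sum]
      refine mul_le_of_le_one_right (by positivity) ?_
      rw [← Finset.sum_filter, Finset.sum_const, nsmul_eq_mul]
      have h3 : (Finset.Icc (-(A : ℤ)) (A : ℤ)).filter (fun n' => n'.natAbs ≤ a d) =
          Finset.Icc (-(a d : ℤ)) (a d : ℤ) := by
        ext n'
        rw [Finset.mem_filter, Finset.mem_Icc, Finset.mem_Icc]
        constructor
        · rintro ⟨_, h⟩
          constructor <;> omega
        · rintro ⟨h, h'⟩
          refine ⟨⟨by omega, by omega⟩, by omega⟩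
      rw [h3, card_Icc]
      push_cast
      rw [mul_inv_cancel₀ (by positivity)]
    · have h2 : ∀ n', h d n' = 0 := by
        intro n'
        rw [hh]
        dsimp only
        rw [if_neg h1]
      simp only [h2, Finset.sum_const_zero]
      positivity
  have hterm : ∀ n n' : ℤ, (if a (n - n') ≤ A then
      (if n.natAbs ≤ A then (2 * (A : ℝ) + 1)⁻¹ else 0) *
        (if n'.natAbs ≤ a (n - n') then (2 * (a (n - n') : ℝ) + 1)⁻¹ else 0) else 0) =
      if n.natAbs ≤ A then h (n - n') n' else 0 := by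
    intro n n'
    rw [hh]
    dsimp only
    by_cases h1 : n.natAbs ≤ A
    · simp only [if_pos h1]
    · simp only [if_neg h1, zero_mul, ite_self]
  simp only [hterm]
  have hbound : ∀ n' : ℤ, ∑ n ∈ Finset.Icc (-(M : ℤ)) (M : ℤ),
      (if n.natAbs ≤ A then h (n - n') n' else 0) ≤
      ∑ d ∈ Finset.Icc (-(2 * A : ℤ)) (2 * A : ℤ), h d n' := by
    intro n'
    by_cases h1 : n'.natAbs ≤ A
    · rw [← Finset.sum_filter]
      have h2 : ∑ n ∈ (Finset.Icc (-(M : ℤ)) (M : ℤ)).filter (fun n => n.natAbs ≤ A),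
          h (n - n') n' = ∑ d ∈ ((Finset.Icc (-(M : ℤ)) (M : ℤ)).filter
            (fun n => n.natAbs ≤ A)).image (fun n => n - n'), h d n' := by
        rw [Finset.sum_image]
        intro x _ y _ hxy
        simpa using hxy
      rw [h2]
      refine Finset.sum_le_sum_of_subset_of_nonneg ?_ fun d _ _ => hnn d n'
      intro d hd
      rw [Finset.mem_image] at hd
      obtain ⟨n, hn, rfl⟩ := hd
      rw [Finset.mem_filter] at hn
      rw [Finset.mem_Icc]
      constructor <;> omega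
    · have h2 : ∀ d, h d n' = 0 := fun d => hh0 d n' (by omega)
      simp only [h2, ite_self, Finset.sum_const_zero, le_refl]
  calc ∑ n ∈ Finset.Icc (-(M : ℤ)) (M : ℤ), ∑ n' ∈ Finset.Icc (-(M : ℤ)) (M : ℤ),
        (if n.natAbs ≤ A then h (n - n') n' else 0)
      = ∑ n' ∈ Finset.Icc (-(M : ℤ)) (M : ℤ), ∑ n ∈ Finset.Icc (-(M : ℤ)) (M : ℤ),
        (if n.natAbs ≤ A then h (n - n') n' else 0) := Finset.sum_comm
    _ ≤ ∑ n' ∈ Finset.Icc (-(M : ℤ)) (M : ℤ),
        ∑ d ∈ Finset.Icc (-(2 * A : ℤ)) (2 * A : ℤ), h d n' :=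
        Finset.sum_le_sum fun n' _ => hbound n'
    _ = ∑ d ∈ Finset.Icc (-(2 * A : ℤ)) (2 * A : ℤ),
        ∑ n' ∈ Finset.Icc (-(M : ℤ)) (M : ℤ), h d n' := Finset.sum_comm
    _ ≤ ∑ d ∈ Finset.Icc (-(2 * A : ℤ)) (2 * A : ℤ), (2 * (A : ℝ) + 1)⁻¹ := by
        refine Finset.sum_le_sum fun d _ => ?_
        refine le_trans ?_ (hsumd d)
        have h4 : ∑ n' ∈ Finset.Icc (-(M : ℤ)) (M : ℤ), h d n' =
            ∑ n' ∈ (Finset.Icc (-(M : ℤ)) (M : ℤ)).filter (fun n' => n'.natAbs ≤ A), h d n' := by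
          rw [Finset.sum_filter]
          refine Finset.sum_congr rfl fun n' _ => ?_
          by_cases h5 : n'.natAbs ≤ A
          · rw [if_pos h5]
          · rw [if_neg h5, hh0 d n' (by omega)]
        rw [h4]
        refine Finset.sum_le_sum_of_subset_of_nonneg ?_ fun n' _ _ => hnn d n'
        intro n' hn'
        rw [Finset.mem_filter] at hn'
        rw [Finset.mem_Icc]
        constructor <;> omega
    _ = (4 * (A : ℝ) + 1) * (2 * (A : ℝ) + 1)⁻¹ := by
        rw [Finset.sum_const, Int.card_Icc, nsmul_eq_mul]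
        congr 1
        have : ((2 * A : ℤ) + 1 - -(2 * A : ℤ)).toNat = 4 * A + 1 := by omega
        rw [this]
        push_cast
        ring
    _ ≤ 2 := by
        rw [← div_eq_mul_inv, div_le_iff₀ (by positivity)]
        have : (0 : ℝ) ≤ A := Nat.cast_nonneg _
        linarith

theorem adf_sq (hT : MP μ T) (hw : ∀ n, Measurable (w n)) (hb : ∀ n x, ‖w n x‖ ≤ 1)
    (hB : MeasurableSet B) (hN : Measurable N) (hNM : ∀ x, N x ≤ M) :
    ∫ x, ‖adf T w B N M x‖ ^ 2 ∂μ ≤ 4 := by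
  classical
  set I : Finset ℤ := Finset.Icc (-(M : ℤ)) (M : ℤ) with hI
  set G : ℤ → ℤ → X → ℝ := fun n n' x =>
    if N ((T ^ (-n')) x) ≤ N ((T ^ (-n)) x) then
      LemA1_v N n ((T ^ (-n)) x) * LemA1_v N n' ((T ^ (-n')) x) else 0 with hG
  have hGm : ∀ n n', Measurable (G n n') := by
    intro n n'
    rw [hG]
    dsimp only
    refine Measurable.ite (measurableSet_le (hN.comp (hT.measurable _))
      (hN.comp (hT.measurable _))) ?_ measurable_const
    exact ((LemA1_v_measurable hN n).comp (hT.measurable _)).mul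
      ((LemA1_v_measurable hN n').comp (hT.measurable _))
  have hG0 : ∀ n n' x, 0 ≤ G n n' x := by
    intro n n' x
    rw [hG]
    dsimp only
    split_ifs
    · exact mul_nonneg (LemA1_v_nonneg _ _ _) (LemA1_v_nonneg _ _ _)
    · exact le_rfl
  have hG1 : ∀ n n' x, G n n' x ≤ 1 := by
    intro n n' x
    rw [hG]
    dsimp only
    split_ifs
    · exact mul_le_one₀ (LemA1_v_le_one _ _ _) (LemA1_v_nonneg _ _ _) (LemA1_v_le_one _ _ _)
    · exact zero_le_one
  have hGi : ∀ n n', Integrable (G n n') μ := by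
    intro n n'
    refine Integrable.of_bound (hGm n n').aestronglyMeasurable 1 (ae_of_all _ fun x => ?_)
    rw [Real.norm_of_nonneg (hG0 n n' x)]
    exact hG1 n n' x
  have hpt : ∀ x, ‖adf T w B N M x‖ ^ 2 ≤ 2 * ∑ n ∈ I, ∑ n' ∈ I, G n n' x := by
    intro x
    have h1 : ‖adf T w B N M x‖ ≤ ∑ n ∈ I, LemA1_v N n ((T ^ (-n)) x) := by
      unfold adf
      exact (norm_sum_le _ _).trans (Finset.sum_le_sum fun n _ => LemA1_ind_le hb B N n _)
    have h2 : ‖adf T w B N M x‖ ^ 2 ≤ (∑ n ∈ I, LemA1_v N n ((T ^ (-n)) x)) ^ 2 :=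
      pow_le_pow_left₀ (norm_nonneg _) h1 2
    refine h2.trans ?_
    rw [sq, Finset.sum_mul_sum]
    have h3 : ∑ n ∈ I, ∑ n' ∈ I, LemA1_v N n ((T ^ (-n)) x) * LemA1_v N n' ((T ^ (-n')) x) ≤
        ∑ n ∈ I, ∑ n' ∈ I, (G n n' x + G n' n x) := by
      refine Finset.sum_le_sum fun n _ => Finset.sum_le_sum fun n' _ => ?_
      rcases le_total (N ((T ^ (-n')) x)) (N ((T ^ (-n)) x)) with h | h
      · have : G n n' x = LemA1_v N n ((T ^ (-n)) x) * LemA1_v N n' ((T ^ (-n')) x) := by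
          rw [hG]
          dsimp only
          rw [if_pos h]
        rw [this]
        linarith [hG0 n' n x]
      · have : G n' n x = LemA1_v N n' ((T ^ (-n')) x) * LemA1_v N n ((T ^ (-n)) x) := by
          rw [hG]
          dsimp only
          rw [if_pos h]
        rw [this, mul_comm (LemA1_v N n' ((T ^ (-n')) x))]
        linarith [hG0 n n' x]
    refine h3.trans (le_of_eq ?_)
    simp only [Finset.sum_add_distrib]
    rw [Finset.sum_comm (f := fun n n' => G n' n x)]
    ring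
  have hsi : Integrable (fun x => ∑ n ∈ I, ∑ n' ∈ I, G n n' x) μ :=
    integrable_finset_sum _ fun n _ => integrable_finset_sum _ fun n' _ => hGi n n'
  have hint : ∫ x, ‖adf T w B N M x‖ ^ 2 ∂μ ≤ ∫ x, 2 * ∑ n ∈ I, ∑ n' ∈ I, G n n' x ∂μ := by
    refine integral_mono_of_nonneg (ae_of_all _ fun x => by positivity) (hsi.const_mul 2)
      (ae_of_all _ hpt)
  refine hint.trans ?_
  rw [integral_const_mul]
  have hsum : ∫ x, ∑ n ∈ I, ∑ n' ∈ I, G n n' x ∂μ =
      ∫ z, ∑ n ∈ I, ∑ n' ∈ I, G n n' ((T ^ n) z) ∂μ := by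
    rw [integral_finsetSum _ fun n _ => integrable_finset_sum _ fun n' _ => hGi n n']
    have hci : ∀ n n', Integrable (fun z => G n n' ((T ^ n) z)) μ := by
      intro n n'
      refine Integrable.of_bound ((hGm n n').comp (hT.measurable n)).aestronglyMeasurable 1
        (ae_of_all _ fun x => ?_)
      rw [Real.norm_of_nonneg (hG0 n n' _)]
      exact hG1 n n' _
    rw [integral_finsetSum _ fun n _ => integrable_finset_sum _ fun n' _ => hci n n']
    refine Finset.sum_congr rfl fun n _ => ?_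
    exact LemA1_comp hT n (Finset.measurable_sum _ fun n' _ => hGm n n').aestronglyMeasurable
  rw [hsum]
  have hle : ∫ z, ∑ n ∈ I, ∑ n' ∈ I, G n n' ((T ^ n) z) ∂μ ≤ ∫ _z, (2 : ℝ) ∂μ := by
    refine integral_mono_of_nonneg (ae_of_all _ fun x =>
      Finset.sum_nonneg fun n _ => Finset.sum_nonneg fun n' _ => hG0 n n' _) (integrable_const _)
      (ae_of_all _ fun z => ?_)
    have hkey := LemA1_count (N z) M (fun d => N ((T ^ d) z))
    refine le_trans (le_of_eq ?_) hkey
    refine Finset.sum_congr rfl fun n _ => Finset.sum_congr rfl fun n' _ => ?_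
    have h1 : (T ^ (-n')) ((T ^ n) z) = (T ^ (n - n')) z := by
      rw [← zpow_add_apply]
      congr 2
      ring
    rw [hG]
    dsimp only
    rw [LemA1_zz, h1]
    rfl
  have h2 : ∫ _z, (2 : ℝ) ∂μ = 2 := by simp
  rw [h2] at hle
  linarith

end Pool.DRT
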