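import Pool.Agent.DRT.LemA1

set_option autoImplicit false

/-!
# Cross terms of adjoint functions

PROOF. Let `u = adf T w B₁ P M₁ - adf T w B₁ Q M₁`, `v = adf T w B₂ N M₂`.  `conj v = adf T (conj w) B₂ N M₂`, so by
`adf_pair` (applied with the weights `conj w`, the function `u`, bounded by `2 (2 M₁ + 1)`)
`∫ u conj v = ∫_{y ∈ B₂} av (N y) (fun s => conj (w s y) * u (T^s y))`.  Fix `y ∈ B₂`, `N = N y ≥ L₂`.
With `b n z = 1_{B₁}(z) (wt w P n z - wt w Q n z)` we have `u (T^s y) = ∑_{|n| ≤ M₁} b n (T^{s-n} y)`, so with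
`r = s - n`
`∑_{|s| ≤ N} conj (w s y) u (T^s y) = ∑_{|n| ≤ M₁} ∑_{r : |r+n| ≤ N} b n (T^r y) conj (w (n+r) y)`.
Compare with `∑_{|n| ≤ M₁} ∑_{|r| ≤ N} ...`: for each `n` the two ranges of `r` differ only in `r` with
`N - M₁ < |r| ≤ N + M₁`; for each such `r`, `∑_n ‖b n (T^r y)‖ ≤ 2`, and there are at most `4 M₁` such `r`;
the error is at most `8 M₁`.  The second sum is
`∑_{|r| ≤ N} 1_{B₁}(T^r y) (KN T w (P z) r y - KN T w (Q z) r y)`, `z = T^r y` (`P z, Q z ≤ M₁`), and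
`‖KN (P z) - KN (Q z)‖ ≤ 2 kap T w L₁ M₁ r y` (`le_mx`), so it is at most `(2N+1) 2 kb T w L₁ M₁ N y ≤ (2N+1) 2 ε`.
Divide by `2N+1`: at most `2ε + 8M₁/(2N+1) ≤ 2ε + 4M₁/L₂`.  Integrate over `B₂`.
-/

open MeasureTheory Filter Topology
open scoped ComplexConjugate NNReal ENNReal

noncomputable section

namespace Pool.DRT

section LemA2

variable {X : Type*} {T : Equiv.Perm X} {w : ℤ → X → ℂ}

/-- a sum with normalised weights is an average -/
theorem LemA2_sum_wt {P : X → ℕ} {M : ℕ} {z : X} (hP : P z ≤ M) (c : ℤ → ℂ) :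
    ∑ n ∈ Finset.Icc (-(M : ℤ)) (M : ℤ), wt w P n z * c n =
      av (P z) (fun n => w n z * c n) := by
  unfold wt av
  rw [Finset.smul_sum]
  have hsub : Finset.Icc (-(P z : ℤ)) (P z : ℤ) ⊆ Finset.Icc (-(M : ℤ)) (M : ℤ) := by
    apply Finset.Icc_subset_Icc <;> omega
  rw [← Finset.sum_subset hsub]
  · apply Finset.sum_congr rfl
    intro n hn
    rw [Finset.mem_Icc] at hn
    rw [if_pos (by omega), smul_mul_assoc]
  · intro n _ hn
    rw [Finset.mem_Icc] at hn
    rw [if_neg (by omega), zero_mul]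

/-- the normalised weights have total mass at most one -/
theorem LemA2_norm_wt (hb : ∀ n x, ‖w n x‖ ≤ 1) {P : X → ℕ} {M : ℕ} {z : X} (hP : P z ≤ M) :
    ∑ n ∈ Finset.Icc (-(M : ℤ)) (M : ℤ), ‖wt w P n z‖ ≤ 1 := by
  have hsub : Finset.Icc (-(P z : ℤ)) (P z : ℤ) ⊆ Finset.Icc (-(M : ℤ)) (M : ℤ) := by
    apply Finset.Icc_subset_Icc <;> omega
  rw [← Finset.sum_subset hsub]
  · calc ∑ n ∈ Finset.Icc (-(P z : ℤ)) (P z : ℤ), ‖wt w P n z‖
        ≤ ∑ n ∈ Finset.Icc (-(P z : ℤ)) (P z : ℤ), (2 * (P z : ℝ) + 1)⁻¹ := by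
          apply Finset.sum_le_sum
          intro n _
          have hpos : (0 : ℝ) ≤ (2 * (P z : ℝ) + 1)⁻¹ := by positivity
          unfold wt
          split_ifs
          · rw [norm_smul, Real.norm_of_nonneg hpos]
            calc _ ≤ (2 * (P z : ℝ) + 1)⁻¹ * 1 := mul_le_mul_of_nonneg_left (hb n z) hpos
              _ = _ := mul_one _
          · rw [norm_zero]; exact hpos
      _ = 1 := by
          rw [Finset.sum_const, card_Icc, nsmul_eq_mul]
          push_cast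
          exact mul_inv_cancel₀ (av_pos _).ne'
  · intro n _ hn
    rw [Finset.mem_Icc] at hn
    unfold wt
    rw [if_neg (by omega), norm_zero]

/-- comparison of a double sum over two families of ranges -/
theorem LemA2_ranges (N M : ℕ) (f : ℤ → ℤ → ℂ)
    (hf : ∀ r, ∑ n ∈ Finset.Icc (-(M : ℤ)) (M : ℤ), ‖f n r‖ ≤ 2) :
    ‖∑ n ∈ Finset.Icc (-(M : ℤ)) (M : ℤ), ∑ s ∈ Finset.Icc (-(N : ℤ)) (N : ℤ), f n (s - n) -
      ∑ n ∈ Finset.Icc (-(M : ℤ)) (M : ℤ), ∑ r ∈ Finset.Icc (-(N : ℤ)) (N : ℤ), f n r‖ ≤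
      8 * M := by
  classical
  set I : Finset ℤ := Finset.Icc (-((N : ℤ) + M)) ((N : ℤ) + M) with hI
  set J : Finset ℤ := I \ Finset.Icc (-((N : ℤ) - M)) ((N : ℤ) - M) with hJ
  have h1 : ∀ n ∈ Finset.Icc (-(M : ℤ)) (M : ℤ),
      ∑ s ∈ Finset.Icc (-(N : ℤ)) (N : ℤ), f n (s - n) =
        ∑ r ∈ I, if (r + n).natAbs ≤ N then f n r else 0 := by
    intro n hn
    rw [Finset.mem_Icc] at hn
    rw [← Finset.sum_filter]
    refine Finset.sum_nbij' (fun s => s - n) (fun r => r + n) ?_ ?_ ?_ ?_ ?_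
    · intro s hs
      rw [Finset.mem_Icc] at hs
      rw [Finset.mem_filter, hI, Finset.mem_Icc]
      refine ⟨⟨?_, ?_⟩, ?_⟩ <;> omega
    · intro r hr
      rw [Finset.mem_filter, hI, Finset.mem_Icc] at hr
      rw [Finset.mem_Icc]
      constructor <;> omega
    · intro s _; ring
    · intro r _; ring
    · intro s _; rfl
  have h2 : ∀ n ∈ Finset.Icc (-(M : ℤ)) (M : ℤ),
      ∑ r ∈ Finset.Icc (-(N : ℤ)) (N : ℤ), f n r =
        ∑ r ∈ I, if r.natAbs ≤ N then f n r else 0 := by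
    intro n _
    rw [← Finset.sum_filter]
    apply Finset.sum_congr _ (fun _ _ => rfl)
    ext r
    rw [Finset.mem_filter, hI, Finset.mem_Icc, Finset.mem_Icc]
    constructor
    · intro h; refine ⟨⟨?_, ?_⟩, ?_⟩ <;> omega
    · rintro ⟨_, h⟩; constructor <;> omega
  rw [Finset.sum_congr rfl h1, Finset.sum_congr rfl h2, ← Finset.sum_sub_distrib]
  have h3 : ∑ n ∈ Finset.Icc (-(M : ℤ)) (M : ℤ),
      ((∑ r ∈ I, if (r + n).natAbs ≤ N then f n r else 0) -
        ∑ r ∈ I, if r.natAbs ≤ N then f n r else 0) =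
      ∑ r ∈ J, ∑ n ∈ Finset.Icc (-(M : ℤ)) (M : ℤ),
        ((if (r + n).natAbs ≤ N then f n r else 0) - if r.natAbs ≤ N then f n r else 0) := by
    rw [Finset.sum_comm (s := J)]
    apply Finset.sum_congr rfl
    intro n hn
    rw [Finset.mem_Icc] at hn
    rw [← Finset.sum_sub_distrib]
    symm
    apply Finset.sum_subset Finset.sdiff_subset
    intro r hr hr'
    have hr2 : r ∈ Finset.Icc (-((N : ℤ) - M)) ((N : ℤ) - M) := by
      by_contra hcon
      exact hr' (Finset.mem_sdiff.2 ⟨hr, hcon⟩)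
    rw [Finset.mem_Icc] at hr2
    rw [if_pos (by omega), if_pos (by omega), sub_self]
  rw [h3]
  calc _ ≤ ∑ r ∈ J, ‖∑ n ∈ Finset.Icc (-(M : ℤ)) (M : ℤ),
        ((if (r + n).natAbs ≤ N then f n r else 0) - if r.natAbs ≤ N then f n r else 0)‖ :=
        norm_sum_le _ _
    _ ≤ ∑ r ∈ J, (2 : ℝ) := by
        apply Finset.sum_le_sum
        intro r _
        refine (norm_sum_le _ _).trans (le_trans ?_ (hf r))
        apply Finset.sum_le_sum
        intro n _
        split_ifs <;> simp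
    _ = J.card * 2 := by rw [Finset.sum_const, nsmul_eq_mul]
    _ ≤ (4 * M : ℕ) * 2 := by
        apply mul_le_mul_of_nonneg_right _ zero_le_two
        apply Nat.cast_le.2
        rw [hJ, hI]
        rcases le_or_gt M N with hMN | hMN
        · rw [Finset.card_sdiff_of_subset, Int.card_Icc, Int.card_Icc]
          · omega
          · apply Finset.Icc_subset_Icc <;> omega
        · calc _ ≤ (Finset.Icc (-((N : ℤ) + M)) ((N : ℤ) + M)).card :=
                Finset.card_le_card Finset.sdiff_subset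
            _ ≤ _ := by rw [Int.card_Icc]; omega
    _ = 8 * M := by push_cast; ring

/-- the pointwise bound -/
theorem LemA2_pt (hb : ∀ n x, ‖w n x‖ ≤ 1) (B : Set X) {P Q : X → ℕ} {L M N : ℕ}
    (hP : ∀ x, L ≤ P x ∧ P x ≤ M) (hQ : ∀ x, L ≤ Q x ∧ Q x ≤ M) {K : ℕ} (hK : 0 < K)
    (hKN : K ≤ N) {ε : ℝ} {y : X} (hk : kb T w L M N y ≤ ε) :
    ‖av N (fun s => conj (w s y) * (adf T w B P M ((T ^ s) y) - adf T w B Q M ((T ^ s) y)))‖ ≤
      2 * ε + 4 * M / K := by
  classical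
  set b : ℤ → X → ℂ := fun n z => B.indicator (wt w P n) z - B.indicator (wt w Q n) z with hbdef
  set f : ℤ → ℤ → ℂ := fun n r => conj (w (r + n) y) * b n ((T ^ r) y) with hfdef
  -- the sum as a double sum
  have e1 : ∀ s : ℤ, conj (w s y) * (adf T w B P M ((T ^ s) y) - adf T w B Q M ((T ^ s) y)) =
      ∑ n ∈ Finset.Icc (-(M : ℤ)) (M : ℤ), f n (s - n) := by
    intro s
    unfold adf
    rw [← Finset.sum_sub_distrib, Finset.mul_sum]
    apply Finset.sum_congr rfl
    intro n _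
    have e2 : (T ^ (-n)) ((T ^ s) y) = (T ^ (s - n)) y := by
      rw [← zpow_add_apply]; congr 2; ring
    rw [e2, hfdef]
    simp only [hbdef]
    rw [sub_add_cancel]
  -- bound on the coefficients
  have hf : ∀ r, ∑ n ∈ Finset.Icc (-(M : ℤ)) (M : ℤ), ‖f n r‖ ≤ 2 := by
    intro r
    set z := (T ^ r) y with hz
    calc ∑ n ∈ Finset.Icc (-(M : ℤ)) (M : ℤ), ‖f n r‖
        ≤ ∑ n ∈ Finset.Icc (-(M : ℤ)) (M : ℤ), (‖wt w P n z‖ + ‖wt w Q n z‖) := by
          apply Finset.sum_le_sum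
          intro n _
          simp only [hfdef, hbdef]
          rw [norm_mul, RCLike.norm_conj, ← hz]
          have h1 : ‖B.indicator (wt w P n) z - B.indicator (wt w Q n) z‖ ≤
              ‖wt w P n z‖ + ‖wt w Q n z‖ := by
            by_cases hzB : z ∈ B
            · rw [Set.indicator_of_mem hzB, Set.indicator_of_mem hzB]
              exact norm_sub_le _ _
            · rw [Set.indicator_of_notMem hzB, Set.indicator_of_notMem hzB, sub_zero, norm_zero]
              positivity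
          calc _ ≤ 1 * (‖wt w P n z‖ + ‖wt w Q n z‖) :=
                mul_le_mul (hb _ _) h1 (norm_nonneg _) zero_le_one
            _ = _ := one_mul _
      _ ≤ 1 + 1 := by
          rw [Finset.sum_add_distrib]
          exact add_le_add (LemA2_norm_wt hb (hP z).2) (LemA2_norm_wt hb (hQ z).2)
      _ = 2 := by norm_num
  -- the main term
  have hmain : ‖∑ n ∈ Finset.Icc (-(M : ℤ)) (M : ℤ), ∑ r ∈ Finset.Icc (-(N : ℤ)) (N : ℤ),
      f n r‖ ≤ (2 * (N : ℝ) + 1) * (2 * ε) := by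
    rw [Finset.sum_comm]
    calc _ ≤ ∑ r ∈ Finset.Icc (-(N : ℤ)) (N : ℤ),
          ‖∑ n ∈ Finset.Icc (-(M : ℤ)) (M : ℤ), f n r‖ := norm_sum_le _ _
      _ ≤ ∑ r ∈ Finset.Icc (-(N : ℤ)) (N : ℤ), 2 * kap T w L M r y := by
          apply Finset.sum_le_sum
          intro r _
          set z := (T ^ r) y with hz
          have hkap0 : 0 ≤ kap T w L M r y := mx_nonneg _ _ _
          by_cases hzB : z ∈ B
          · have e3 : ∑ n ∈ Finset.Icc (-(M : ℤ)) (M : ℤ), f n r =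
                KN T w (P z) r y - KN T w (Q z) r y := by
              unfold KN
              rw [← hz, ← LemA2_sum_wt (w := w) (P := P) (hP z).2 (fun n => conj (w (n + r) y)),
                ← LemA2_sum_wt (w := w) (P := Q) (hQ z).2 (fun n => conj (w (n + r) y)),
                ← Finset.sum_sub_distrib]
              apply Finset.sum_congr rfl
              intro n _
              simp only [hfdef, hbdef]
              rw [← hz, Set.indicator_of_mem hzB, Set.indicator_of_mem hzB, add_comm r n]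
              ring
            rw [e3]
            have e4 : KN T w (P z) r y - KN T w (Q z) r y =
                (KN T w (P z) r y - KN T w L r y) - (KN T w (Q z) r y - KN T w L r y) := by ring
            rw [e4]
            have h5 : ‖KN T w (P z) r y - KN T w L r y‖ ≤ kap T w L M r y :=
              le_mx (a := fun N => ‖KN T w N r y - KN T w L r y‖) (hP z).1 (hP z).2
            have h6 : ‖KN T w (Q z) r y - KN T w L r y‖ ≤ kap T w L M r y :=
              le_mx (a := fun N => ‖KN T w N r y - KN T w L r y‖) (hQ z).1 (hQ z).2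
            calc _ ≤ _ := norm_sub_le _ _
              _ ≤ kap T w L M r y + kap T w L M r y := add_le_add h5 h6
              _ = _ := by ring
          · have e3 : ∑ n ∈ Finset.Icc (-(M : ℤ)) (M : ℤ), f n r = 0 := by
              apply Finset.sum_eq_zero
              intro n _
              simp only [hfdef, hbdef]
              rw [← hz, Set.indicator_of_notMem hzB, Set.indicator_of_notMem hzB, sub_zero,
                mul_zero]
            rw [e3, norm_zero]
            positivity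
      _ = (2 * (N : ℝ) + 1) * (2 * kb T w L M N y) := by
          unfold kb
          rw [av_eq_real, ← Finset.mul_sum]
          field_simp
      _ ≤ (2 * (N : ℝ) + 1) * (2 * ε) := by
          apply mul_le_mul_of_nonneg_left _ (av_pos N).le
          linarith
  -- conclusion
  have e5 : av N (fun s => conj (w s y) *
      (adf T w B P M ((T ^ s) y) - adf T w B Q M ((T ^ s) y))) =
      (2 * (N : ℝ) + 1)⁻¹ • ∑ n ∈ Finset.Icc (-(M : ℤ)) (M : ℤ),
        ∑ s ∈ Finset.Icc (-(N : ℤ)) (N : ℤ), f n (s - n) := by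
    unfold av
    rw [Finset.sum_comm]
    congr 1
    exact Finset.sum_congr rfl fun s _ => e1 s
  rw [e5, norm_smul, Real.norm_of_nonneg (by positivity : (0 : ℝ) ≤ (2 * (N : ℝ) + 1)⁻¹)]
  have h7 := LemA2_ranges N M f hf
  have h8 : ‖∑ n ∈ Finset.Icc (-(M : ℤ)) (M : ℤ), ∑ s ∈ Finset.Icc (-(N : ℤ)) (N : ℤ),
      f n (s - n)‖ ≤ 8 * M + (2 * (N : ℝ) + 1) * (2 * ε) := by
    have h9 := norm_add_le (∑ n ∈ Finset.Icc (-(M : ℤ)) (M : ℤ),
      ∑ s ∈ Finset.Icc (-(N : ℤ)) (N : ℤ), f n (s - n) -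
      ∑ n ∈ Finset.Icc (-(M : ℤ)) (M : ℤ), ∑ r ∈ Finset.Icc (-(N : ℤ)) (N : ℤ), f n r)
      (∑ n ∈ Finset.Icc (-(M : ℤ)) (M : ℤ), ∑ r ∈ Finset.Icc (-(N : ℤ)) (N : ℤ), f n r)
    rw [sub_add_cancel] at h9
    linarith
  have hpos := av_pos N
  have hKpos : (0 : ℝ) < K := by exact_mod_cast hK
  calc (2 * (N : ℝ) + 1)⁻¹ * ‖_‖ ≤ (2 * (N : ℝ) + 1)⁻¹ *
        (8 * M + (2 * (N : ℝ) + 1) * (2 * ε)) :=
        mul_le_mul_of_nonneg_left h8 (by positivity)
    _ = 2 * ε + 8 * M / (2 * (N : ℝ) + 1) := by field_simp; ring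
    _ ≤ 2 * ε + 4 * M / K := by
        have h10 : (8 * M : ℝ) / (2 * (N : ℝ) + 1) ≤ 4 * M / K := by
          rw [div_le_div_iff₀ hpos hKpos]
          have h11 : (K : ℝ) ≤ N := by exact_mod_cast hKN
          have h12 : (0 : ℝ) ≤ M := Nat.cast_nonneg M
          nlinarith
        linarith

end LemA2

variable {X : Type*} [MeasurableSpace X] {μ : Measure X} [IsProbabilityMeasure μ]
  {T : Equiv.Perm X} {w : ℤ → X → ℂ}

theorem cross (hT : MP μ T) (hw : ∀ n, Measurable (w n)) (hb : ∀ n x, ‖w n x‖ ≤ 1)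
    {B₁ B₂ : Set X} (hB₁ : MeasurableSet B₁) (hB₂ : MeasurableSet B₂) {P Q N : X → ℕ}
    (hPm : Measurable P) (hQm : Measurable Q) (hNm : Measurable N) {L₁ M₁ L₂ M₂ : ℕ}
    (hP : ∀ x, L₁ ≤ P x ∧ P x ≤ M₁) (hQ : ∀ x, L₁ ≤ Q x ∧ Q x ≤ M₁)
    (hN : ∀ x, L₂ ≤ N x ∧ N x ≤ M₂) (hL₂ : 0 < L₂) {ε : ℝ} (hε : 0 ≤ ε)
    (hk : ∀ y ∈ B₂, ∀ R, L₂ ≤ R → kb T w L₁ M₁ R y ≤ ε) :
    ‖∫ x, (adf T w B₁ P M₁ x - adf T w B₁ Q M₁ x) * conj (adf T w B₂ N M₂ x) ∂μ‖ ≤
      2 * ε + 4 * M₁ / L₂ := by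
  have hconj : ∀ x, conj (adf T w B₂ N M₂ x) = adf T (fun n x => conj (w n x)) B₂ N M₂ x := by
    intro x
    unfold adf
    rw [map_sum]
    apply Finset.sum_congr rfl
    intro n _
    by_cases h : (T ^ (-n)) x ∈ B₂
    · rw [Set.indicator_of_mem h, Set.indicator_of_mem h]
      unfold wt
      split_ifs
      · rw [Complex.real_smul, Complex.real_smul, map_mul, Complex.conj_ofReal]
      · rw [map_zero]
    · rw [Set.indicator_of_notMem h, Set.indicator_of_notMem h, map_zero]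
  have e1 : ∀ x, (adf T w B₁ P M₁ x - adf T w B₁ Q M₁ x) * conj (adf T w B₂ N M₂ x) =
      adf T (fun n x => conj (w n x)) B₂ N M₂ x *
        (adf T w B₁ P M₁ x - adf T w B₁ Q M₁ x) := by
    intro x
    rw [hconj, mul_comm]
  have hw' : ∀ n, Measurable (fun x => conj (w n x)) := fun n =>
    Complex.continuous_conj.measurable.comp (hw n)
  have hb' : ∀ n x, ‖conj (w n x)‖ ≤ 1 := by
    intro n x
    rw [RCLike.norm_conj]
    exact hb n x
  have hu : Measurable fun x => adf T w B₁ P M₁ x - adf T w B₁ Q M₁ x :=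
    (adf_measurable hT hw hB₁ hPm M₁).sub (adf_measurable hT hw hB₁ hQm M₁)
  have huC : ∀ x, ‖adf T w B₁ P M₁ x - adf T w B₁ Q M₁ x‖ ≤
      (2 * (M₁ : ℝ) + 1) + (2 * M₁ + 1) := fun x =>
    (norm_sub_le _ _).trans (add_le_add (adf_bound T hb B₁ P M₁ x) (adf_bound T hb B₁ Q M₁ x))
  simp only [e1]
  rw [adf_pair hT hw' hb' hB₂ hNm (fun x => (hN x).2) hu huC]
  have hC : (0 : ℝ) ≤ 2 * ε + 4 * M₁ / L₂ := by positivity
  refine (norm_setIntegral_le_of_norm_le_const (measure_lt_top μ B₂) (C := 2 * ε + 4 * M₁ / L₂)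
    ?_).trans ?_
  · intro y hy
    exact LemA2_pt hb B₁ hP hQ hL₂ (hN y).1 (hk y hy (N y) (hN y).1)
  · calc _ ≤ (2 * ε + 4 * M₁ / L₂) * 1 := mul_le_mul_of_nonneg_left measureReal_le_one hC
      _ = _ := mul_one _

end Pool.DRT
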