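import Pool.Agent.DRT.LemA2

set_option autoImplicit false

/-!
# The weight lemma (Lemma A)

PROOF. Let `a N x = av N (fun n => w n x * g (T^n x))`, `‖a N x‖ ≤ 1`.  By `tendsto_of_no_upcrossings`
(for the real and the imaginary part; replace `g` by `-i g`), it is enough to show: for rationals
`β < α` and `g` bounded by one, the set
`B = {x | ∃ᶠ N, (a N x).re < β ∧ ∃ᶠ N, α < (a N x).re}` (two separate frequently) is null.
Suppose `b = μ.real B > 0`, put `κ = (α - β) b / 2 > 0`, choose `J` and then `ε > 0` (below).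
INDUCTION on `j ≤ J`: there are a measurable bounded `s : X → ℂ`, a measurable set `E` with
`μ.real E ≤ 2 j ε` and `L* : ℕ` such that
 (i) `j κ ≤ (∫ s g).re`,
 (ii) `∫ ‖s‖^2 ≤ 16 j + 24 ε j^2`,
 (iii) for all `M ≥ L ≥ L*`, measurable `B' ⊆ Eᶜ`, measurable `N` with values in `[L, M]`:
      `‖∫ s conj (adf T w B' N M)‖ ≤ 6 j ε`.
`j = 0`: `s = 0`, `E = ∅`.  Step: let `L₀` be given by (C) for `ε`, `L ≥ max (L*, L₀, 1)`.  For `M → ∞` the sets
`B ∩ Eᶜ ∩ {∃ N ∈ [L,M], a N < β and ∃ N ∈ [L,M], a N > α}` increase to `B ∩ Eᶜ`, so for some `M ≥ L` this set,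
called `B'`, has measure `≥ μ.real B - μ.real E - b/4 ≥ b/2` (if `2 J ε ≤ b/4`).  Let `P x`, `Q x` be the least
`N ∈ [L, M]` with `a N > α` resp. `a N < β` (and `L` outside `B'`), `u = adf T w B' P M - adf T w B' Q M`.
By `adf_pair`: `(∫ u g).re = ∫_{B'} (a_P - a_Q).re ≥ (α - β) μ.real B' ≥ κ`.  `∫ ‖u‖^2 ≤ 2 (4 + 4) = 16`
(`adf_sq`).  By (iii) `‖∫ s conj u‖ ≤ 12 j ε`, so
`∫ ‖s + u‖^2 ≤ 16 j + 24 ε j^2 + 24 j ε + 16 ≤ 16 (j+1) + 24 ε (j+1)^2`.
New `E' = E ∪ {y | ∃ R ≥ R₀, kb T w L M R y > ε}` where `R₀` is chosen such that the last set has measure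
`≤ 2 ε` (by (C) the decreasing intersection over `R₀` has measure `≤ ε`; continuity from above).  New
`L*' ≥ max (L*, R₀, 1)` with `4 M / L*' ≤ ε`, ... : by `cross`, for `L₂ ≥ L*'` and `B₂ ⊆ E'ᶜ`:
`‖∫ u conj (adf T w B₂ N M₂)‖ ≤ 2 ε + 4 M / L₂ ≤ 6 ε`.
END: `j = J`: `J κ ≤ (∫ s g).re ≤ (∫ ‖s‖^2)^(1/2)`, so `J^2 κ^2 ≤ 16 J + 24 ε J^2`: false if `J > 32/κ^2` and
`24 ε ≤ κ^2/2`.
-/

open MeasureTheory Filter Topology
open scoped ComplexConjugate NNReal ENNReal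

noncomputable section

namespace Pool.DRT

variable {X : Type*} [MeasurableSpace X] {μ : Measure X} [IsProbabilityMeasure μ]
  {T : Equiv.Perm X} {w : ℤ → X → ℂ}

/-! ### measurability -/

omit [IsProbabilityMeasure μ] in
theorem LemA3_av_meas (hT : MP μ T) (hw : ∀ n, Measurable (w n)) {g : X → ℂ} (hg : Measurable g)
    (N : ℕ) : Measurable fun x => av N fun n => w n x * g ((T ^ n) x) := by
  unfold av
  exact (Finset.measurable_sum _ fun n _ => (hw n).mul (hg.comp (hT.measurable n))).const_smul _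

omit [IsProbabilityMeasure μ] in
theorem LemA3_KN_meas (hT : MP μ T) (hw : ∀ n, Measurable (w n)) (N : ℕ) (r : ℤ) :
    Measurable fun y => KN T w N r y := by
  have h : ∀ n : ℤ, Measurable fun y => w n ((T ^ r) y) * conj (w (n + r) y) := fun n =>
    ((hw n).comp (hT.measurable r)).mul (Complex.continuous_conj.measurable.comp (hw (n + r)))
  have h2 : Measurable fun y => ∑ n ∈ Finset.Icc (-(N : ℤ)) (N : ℤ),
      w n ((T ^ r) y) * conj (w (n + r) y) :=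
    Finset.measurable_sum (f := fun (n : ℤ) (y : X) => w n ((T ^ r) y) * conj (w (n + r) y)) _
      fun n _ => h n
  exact h2.const_smul ((2 * (N : ℝ) + 1)⁻¹)

omit [IsProbabilityMeasure μ] in
theorem LemA3_kb_meas (hT : MP μ T) (hw : ∀ n, Measurable (w n)) (L M R : ℕ) :
    Measurable fun y => kb T w L M R y := by
  have h : ∀ r : ℤ, Measurable fun y => kap T w L M r y := fun r =>
    measurable_mx L M fun N => ((LemA3_KN_meas hT hw N r).sub (LemA3_KN_meas hT hw L r)).norm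
  have h2 : Measurable fun y => ∑ r ∈ Finset.Icc (-(R : ℤ)) (R : ℤ), kap T w L M r y :=
    Finset.measurable_fun_sum (f := fun (r : ℤ) (y : X) => kap T w L M r y) _ fun r _ => h r
  exact h2.const_smul ((2 * (R : ℝ) + 1)⁻¹)

theorem LemA3_av_bd (hb : ∀ n x, ‖w n x‖ ≤ 1) {g : X → ℂ} (hg1 : Bd g) (N : ℕ) (x : X) :
    ‖av N fun n => w n x * g ((T ^ n) x)‖ ≤ 1 := by
  refine norm_av_le_of_le fun n _ => ?_
  rw [norm_mul]
  exact mul_le_one₀ (hb n x) (norm_nonneg _) (hg1 _)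

omit [IsProbabilityMeasure μ] in
theorem LemA3_freq_meas {p : ℕ → X → Prop} (h : ∀ N, MeasurableSet {x | p N x}) :
    MeasurableSet {x | ∃ᶠ N in atTop, p N x} := by
  have : {x | ∃ᶠ N in atTop, p N x} = ⋂ n : ℕ, ⋃ N : ℕ, ⋃ (_ : n ≤ N), {x | p N x} := by
    ext x
    simp only [Set.mem_setOf_eq, frequently_atTop, Set.mem_iInter, Set.mem_iUnion, exists_prop]
  rw [this]
  exact MeasurableSet.iInter fun n => MeasurableSet.iUnion fun N => MeasurableSet.iUnion fun _ => h N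

/-- a measurable choice of a scale in `[L, M]` with the property `p`, on the set `D` -/
theorem LemA3_choice {p : ℕ → X → Prop} (h : ∀ N, MeasurableSet {x | p N x}) {D : Set X}
    (hD : MeasurableSet D) {L M : ℕ} (hLM : L ≤ M)
    (hp : ∀ x ∈ D, ∃ N, L ≤ N ∧ N ≤ M ∧ p N x) :
    ∃ P : X → ℕ, Measurable P ∧ (∀ x, L ≤ P x ∧ P x ≤ M) ∧ ∀ x ∈ D, p (P x) x := by
  classical
  let q : X → ℕ → Prop := fun x N => (x ∈ D ∧ (L ≤ N ∧ N ≤ M) ∧ p N x) ∨ (x ∉ D ∧ N = L)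
  have hq : ∀ x, ∃ N, q x N := by
    intro x
    by_cases hx : x ∈ D
    · obtain ⟨N, h1, h2, h3⟩ := hp x hx
      exact ⟨N, Or.inl ⟨hx, ⟨h1, h2⟩, h3⟩⟩
    · exact ⟨L, Or.inr ⟨hx, rfl⟩⟩
  have hspec : ∀ x, q x (Nat.find (hq x)) := fun x => Nat.find_spec (hq x)
  refine ⟨fun x => Nat.find (hq x), measurable_find hq fun k => ?_, fun x => ?_, fun x hx => ?_⟩
  · have h1 : {x | q x k} = (D ∩ ({x | L ≤ k ∧ k ≤ M} ∩ {x | p k x})) ∪ (Dᶜ ∩ {x | k = L}) := by
      ext x; rfl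
    rw [h1]
    exact (hD.inter ((MeasurableSet.const _).inter (h k))).union
      (hD.compl.inter (MeasurableSet.const _))
  · rcases hspec x with ⟨_, h1, _⟩ | ⟨_, h1⟩
    · exact h1
    · show L ≤ Nat.find (hq x) ∧ Nat.find (hq x) ≤ M
      rw [h1]; exact ⟨le_rfl, hLM⟩
  · rcases hspec x with ⟨_, _, h1⟩ | ⟨h1, _⟩
    · exact h1
    · exact absurd hx h1

/-- a bounded measurable function is integrable -/
theorem LemA3_int {f : X → ℂ} (hf : Measurable f) {C : ℝ} (hC : ∀ x, ‖f x‖ ≤ C) :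
    Integrable f μ :=
  Integrable.of_bound hf.aestronglyMeasurable C (Eventually.of_forall hC)

theorem LemA3_int' {f : X → ℝ} (hf : Measurable f) {C : ℝ} (hC : ∀ x, ‖f x‖ ≤ C) :
    Integrable f μ :=
  Integrable.of_bound hf.aestronglyMeasurable C (Eventually.of_forall hC)

/-- the square of the norm of a sum -/
theorem LemA3_sq {s u : X → ℂ} (hs : Measurable s) (hu : Measurable u) {C D : ℝ}
    (hsC : ∀ x, ‖s x‖ ≤ C) (huD : ∀ x, ‖u x‖ ≤ D) :
    ∫ x, ‖s x + u x‖ ^ 2 ∂μ ≤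
      ∫ x, ‖s x‖ ^ 2 ∂μ + 2 * ‖∫ x, s x * conj (u x) ∂μ‖ + ∫ x, ‖u x‖ ^ 2 ∂μ := by
  have hm : Measurable fun x => s x * conj (u x) :=
    hs.mul (Complex.continuous_conj.measurable.comp hu)
  have hmb : ∀ x, ‖s x * conj (u x)‖ ≤ C * D := fun x => by
    rw [norm_mul, RCLike.norm_conj]
    exact mul_le_mul (hsC x) (huD x) (norm_nonneg _) ((norm_nonneg _).trans (hsC x))
  have hi := LemA3_int (μ := μ) hm hmb
  have h1 : ∀ x, ‖s x + u x‖ ^ 2 = ‖s x‖ ^ 2 + 2 * (s x * conj (u x)).re + ‖u x‖ ^ 2 := by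
    intro x
    rw [Complex.sq_norm, Complex.sq_norm, Complex.sq_norm, Complex.normSq_add]
    ring
  have hsq : ∀ {f : X → ℂ} {C : ℝ}, Measurable f → (∀ x, ‖f x‖ ≤ C) →
      Integrable (fun x => ‖f x‖ ^ 2) μ := by
    intro f C hf hC
    refine LemA3_int' (hf.norm.pow_const 2) (C := C ^ 2) fun x => ?_
    rw [norm_pow, norm_norm]
    exact pow_le_pow_left₀ (norm_nonneg _) (hC x) 2
  have hre : Integrable (fun x => 2 * (s x * conj (u x)).re) μ := hi.re.const_mul 2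
  have hA : Integrable (fun x => ‖s x‖ ^ 2 + 2 * (s x * conj (u x)).re) μ := (hsq hs hsC).add hre
  simp only [h1]
  rw [integral_add hA (hsq hu huD), integral_add (hsq hs hsC) hre, integral_const_mul]
  have h2 : ∫ x, (s x * conj (u x)).re ∂μ = (∫ x, s x * conj (u x) ∂μ).re := integral_re hi
  rw [h2]
  have h3 := Complex.re_le_norm (∫ x, s x * conj (u x) ∂μ)
  linarith

/-- choice of the scales -/
theorem LemA3_scales {a : ℕ → X → ℂ} (ha : ∀ N, Measurable (a N)) {α β : ℝ}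
    {E : Set X} (hE : MeasurableSet E) (L : ℕ) {b : ℝ} (hb : 0 < b)
    (hB : b ≤ μ.real {x | (∃ᶠ N in atTop, (a N x).re < β) ∧ ∃ᶠ N in atTop, α < (a N x).re})
    (hEb : μ.real E ≤ b / 4) :
    ∃ (M : ℕ) (B' : Set X) (P Q : X → ℕ), L ≤ M ∧ MeasurableSet B' ∧ B' ⊆ Eᶜ ∧ Measurable P ∧
      Measurable Q ∧ (∀ x, L ≤ P x ∧ P x ≤ M) ∧ (∀ x, L ≤ Q x ∧ Q x ≤ M) ∧
      (∀ x ∈ B', α < (a (P x) x).re) ∧ (∀ x ∈ B', (a (Q x) x).re < β) ∧ b / 2 ≤ μ.real B' := by
  classical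
  set B := {x | (∃ᶠ N in atTop, (a N x).re < β) ∧ ∃ᶠ N in atTop, α < (a N x).re} with hBdef
  have hlow : ∀ N, MeasurableSet {x | (a N x).re < β} := fun N =>
    measurableSet_lt (Complex.measurable_re.comp (ha N)) measurable_const
  have hup : ∀ N, MeasurableSet {x | α < (a N x).re} := fun N =>
    measurableSet_lt measurable_const (Complex.measurable_re.comp (ha N))
  have hBm : MeasurableSet B := (LemA3_freq_meas hlow).inter (LemA3_freq_meas hup)
  let D : ℕ → Set X := fun M => (B ∩ Eᶜ) ∩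
    ((⋃ N : ℕ, ⋃ (_ : L ≤ N ∧ N ≤ M), {x | (a N x).re < β}) ∩
      (⋃ N : ℕ, ⋃ (_ : L ≤ N ∧ N ≤ M), {x | α < (a N x).re}))
  have hDm : ∀ M, MeasurableSet (D M) := fun M =>
    (hBm.inter hE.compl).inter
      ((MeasurableSet.iUnion fun N => MeasurableSet.iUnion fun _ => hlow N).inter
        (MeasurableSet.iUnion fun N => MeasurableSet.iUnion fun _ => hup N))
  have hDx : ∀ M x, x ∈ D M ↔ (x ∈ B ∧ x ∉ E) ∧ (∃ N, (L ≤ N ∧ N ≤ M) ∧ (a N x).re < β) ∧
      ∃ N, (L ≤ N ∧ N ≤ M) ∧ α < (a N x).re := by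
    intro M x
    simp only [D, Set.mem_inter_iff, Set.mem_iUnion, Set.mem_setOf_eq, exists_prop,
      Set.mem_compl_iff]
  have hmono : Monotone D := by
    intro M M' h x hx
    rw [hDx] at hx ⊢
    obtain ⟨h1, ⟨N, ⟨h2, h3⟩, h4⟩, ⟨N', ⟨h5, h6⟩, h7⟩⟩ := hx
    exact ⟨h1, ⟨N, ⟨h2, h3.trans h⟩, h4⟩, ⟨N', ⟨h5, h6.trans h⟩, h7⟩⟩
  have hU : ⋃ M, D M = B ∩ Eᶜ := by
    ext x
    rw [Set.mem_iUnion]
    constructor
    · rintro ⟨M, hM⟩
      exact ((hDx M x).1 hM).1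
    · intro hx
      obtain ⟨N, h1, h2⟩ := frequently_atTop.1 hx.1.1 L
      obtain ⟨N', h1', h2'⟩ := frequently_atTop.1 hx.1.2 L
      exact ⟨max N N', (hDx _ x).2 ⟨hx, ⟨N, ⟨h1, le_max_left _ _⟩, h2⟩,
        ⟨N', ⟨h1', le_max_right _ _⟩, h2'⟩⟩⟩
  have hT1 : Tendsto (fun M => μ.real (D M)) atTop (𝓝 (μ.real (B ∩ Eᶜ))) := by
    have h := tendsto_measure_iUnion_atTop (μ := μ) hmono
    rw [hU] at h
    exact (ENNReal.tendsto_toReal (measure_ne_top μ _)).comp h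
  have hBE : b / 2 < μ.real (B ∩ Eᶜ) := by
    have h1 : μ.real B ≤ μ.real (B ∩ Eᶜ) + μ.real E := by
      refine (measureReal_mono (μ := μ) (s₂ := (B ∩ Eᶜ) ∪ E) ?_).trans (measureReal_union_le _ _)
      intro x hx
      by_cases h : x ∈ E
      · exact Or.inr h
      · exact Or.inl ⟨hx, h⟩
    linarith
  obtain ⟨M, hM1, hM2⟩ := ((hT1.eventually (lt_mem_nhds hBE)).and (eventually_ge_atTop L)).exists
  obtain ⟨Q, hQm, hQ1, hQ2⟩ := LemA3_choice hlow (hDm M) hM2 (fun x hx => by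
    obtain ⟨_, ⟨N, ⟨h2, h3⟩, h4⟩, _⟩ := (hDx M x).1 hx
    exact ⟨N, h2, h3, h4⟩)
  obtain ⟨P, hPm, hP1, hP2⟩ := LemA3_choice hup (hDm M) hM2 (fun x hx => by
    obtain ⟨_, _, ⟨N, ⟨h2, h3⟩, h4⟩⟩ := (hDx M x).1 hx
    exact ⟨N, h2, h3, h4⟩)
  exact ⟨M, D M, P, Q, hM2, hDm M, fun x hx => ((hDx M x).1 hx).1.2, hPm, hQm, hP1, hQ1, hP2, hQ2,
    hM1.le⟩

/-- the exceptional set of condition (C), with a uniform bound for the scale -/
theorem LemA3_bad (hT : MP μ T) (hw : ∀ n, Measurable (w n)) {L M : ℕ} {ε : ℝ} (hε : 0 < ε)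
    (h : μ {y | ¬ ∀ᶠ R in atTop, kb T w L M R y ≤ ε} ≤ ENNReal.ofReal ε) :
    ∃ (F : Set X) (R₀ : ℕ), MeasurableSet F ∧ μ.real F ≤ 2 * ε ∧
      ∀ y, y ∉ F → ∀ R, R₀ ≤ R → kb T w L M R y ≤ ε := by
  let F : ℕ → Set X := fun R₀ => ⋃ R : ℕ, ⋃ (_ : R₀ ≤ R), {y | ε < kb T w L M R y}
  have hFm : ∀ R₀, MeasurableSet (F R₀) := fun R₀ =>
    MeasurableSet.iUnion fun R => MeasurableSet.iUnion fun _ =>
      measurableSet_lt measurable_const (LemA3_kb_meas hT hw L M R)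
  have hFx : ∀ R₀ y, y ∈ F R₀ ↔ ∃ R, R₀ ≤ R ∧ ε < kb T w L M R y := by
    intro R₀ y
    simp only [F, Set.mem_iUnion, Set.mem_setOf_eq, exists_prop]
  have hanti : Antitone F := by
    intro R₀ R₁ h y hy
    rw [hFx] at hy ⊢
    obtain ⟨R, h1, h2⟩ := hy
    exact ⟨R, h.trans h1, h2⟩
  have hI : ⋂ R₀, F R₀ = {y | ¬ ∀ᶠ R in atTop, kb T w L M R y ≤ ε} := by
    ext y
    rw [Set.mem_iInter, Set.mem_setOf_eq, eventually_atTop]
    push Not
    exact forall_congr' fun R₀ => hFx R₀ y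
  have hT1 := tendsto_measure_iInter_atTop (μ := μ) (fun R₀ => (hFm R₀).nullMeasurableSet) hanti
    ⟨0, measure_ne_top μ _⟩
  rw [hI] at hT1
  have hlt : μ {y | ¬ ∀ᶠ R in atTop, kb T w L M R y ≤ ε} < ENNReal.ofReal (2 * ε) :=
    h.trans_lt ((ENNReal.ofReal_lt_ofReal_iff (by linarith)).2 (by linarith))
  obtain ⟨R₀, hR₀⟩ := (hT1.eventually (gt_mem_nhds hlt)).exists
  refine ⟨F R₀, R₀, hFm R₀, ?_, fun y hy R hR => ?_⟩
  · exact ENNReal.toReal_le_of_le_ofReal (by linarith) (le_of_lt hR₀)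
  · by_contra hcon
    exact hy ((hFx R₀ y).2 ⟨R, hR, not_le.1 hcon⟩)

/-- the state of the induction -/
def LemA3_st (μ : Measure X) (T : Equiv.Perm X) (w : ℤ → X → ℂ) (g : X → ℂ) (κ ε : ℝ)
    (j : ℕ) : Prop :=
  ∃ (s : X → ℂ) (E : Set X) (L' : ℕ) (C : ℝ), Measurable s ∧ (∀ x, ‖s x‖ ≤ C) ∧
    MeasurableSet E ∧ μ.real E ≤ 2 * j * ε ∧ j * κ ≤ (∫ x, s x * g x ∂μ).re ∧
    ∫ x, ‖s x‖ ^ 2 ∂μ ≤ 16 * j + 24 * ε * j ^ 2 ∧
    ∀ (L M : ℕ) (B' : Set X) (N : X → ℕ), L' ≤ L → L ≤ M → MeasurableSet B' → B' ⊆ Eᶜ →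
      Measurable N → (∀ x, L ≤ N x ∧ N x ≤ M) →
      ‖∫ x, s x * conj (adf T w B' N M x) ∂μ‖ ≤ 6 * j * ε

theorem LemA3_zero (μ : Measure X) [IsProbabilityMeasure μ] (T : Equiv.Perm X)
    (w : ℤ → X → ℂ) (g : X → ℂ) (κ ε : ℝ) : LemA3_st μ T w g κ ε 0 := by
  refine ⟨fun _ => 0, ∅, 0, 0, measurable_const, fun x => by simp, MeasurableSet.empty, by simp,
    by simp, by simp, fun L M B' N _ _ _ _ _ _ => by simp⟩

/-- the average at a measurable scale is measurable -/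
theorem LemA3_comp {a : ℕ → X → ℂ} (ha : ∀ N, Measurable (a N)) {P : X → ℕ}
    (hP : Measurable P) : Measurable fun x => a (P x) x := by
  have h : Measurable fun p : ℕ × X => a p.1 p.2 := measurable_from_prod_countable_right ha
  exact h.comp (hP.prodMk measurable_id)

/-- the main term of the new function -/
theorem LemA3_main (hT : MP μ T) (hw : ∀ n, Measurable (w n)) (hb : ∀ n x, ‖w n x‖ ≤ 1)
    {g : X → ℂ} (hg : Measurable g) (hg1 : Bd g) {α β b : ℝ} (hab : β < α) {B' : Set X}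
    (hB' : MeasurableSet B') {P Q : X → ℕ} (hPm : Measurable P) (hQm : Measurable Q) {M : ℕ}
    (hP : ∀ x, P x ≤ M) (hQ : ∀ x, Q x ≤ M)
    (hP2 : ∀ x ∈ B', α < (av (P x) fun n => w n x * g ((T ^ n) x)).re)
    (hQ2 : ∀ x ∈ B', (av (Q x) fun n => w n x * g ((T ^ n) x)).re < β)
    (hbB : b / 2 ≤ μ.real B') :
    (α - β) * b / 2 ≤ (∫ x, (adf T w B' P M x - adf T w B' Q M x) * g x ∂μ).re := by
  have hadf : ∀ {R : X → ℕ}, Measurable R →
      Integrable (fun x => adf T w B' R M x * g x) μ := by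
    intro R hR
    refine LemA3_int ((adf_measurable hT hw hB' hR M).mul hg) (C := 2 * M + 1) fun x => ?_
    rw [norm_mul]
    have h1 := adf_bound T hb B' R M x
    have h2 := hg1 x
    calc ‖adf T w B' R M x‖ * ‖g x‖ ≤ (2 * M + 1) * 1 :=
          mul_le_mul h1 h2 (norm_nonneg _) (by positivity)
      _ = 2 * M + 1 := mul_one _
  have hav : ∀ {R : X → ℕ}, Measurable R →
      IntegrableOn (fun x => av (R x) fun n => w n x * g ((T ^ n) x)) B' μ := by
    intro R hR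
    refine (LemA3_int (C := 1) (LemA3_comp (a := fun N x => av N fun n => w n x * g ((T ^ n) x))
      (fun N => LemA3_av_meas hT hw hg N) hR) fun x => ?_).integrableOn
    exact LemA3_av_bd hb hg1 (R x) x
  have h1 : ∫ x, (adf T w B' P M x - adf T w B' Q M x) * g x ∂μ =
      ∫ x in B', ((av (P x) fun n => w n x * g ((T ^ n) x)) -
        av (Q x) fun n => w n x * g ((T ^ n) x)) ∂μ := by
    simp only [sub_mul]
    rw [integral_sub (hadf hPm) (hadf hQm), adf_pair hT hw hb hB' hPm hP hg hg1,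
      adf_pair hT hw hb hB' hQm hQ hg hg1, integral_sub (hav hPm) (hav hQm)]
  have hi : IntegrableOn (fun x => (av (P x) fun n => w n x * g ((T ^ n) x)) -
        av (Q x) fun n => w n x * g ((T ^ n) x)) B' μ := (hav hPm).sub (hav hQm)
  have h2 : (∫ x in B', ((av (P x) fun n => w n x * g ((T ^ n) x)) -
        av (Q x) fun n => w n x * g ((T ^ n) x)) ∂μ).re =
      ∫ x in B', ((av (P x) fun n => w n x * g ((T ^ n) x)) -
        av (Q x) fun n => w n x * g ((T ^ n) x)).re ∂μ := (integral_re hi).symm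
  rw [h1, h2]
  have h3 : (α - β) * μ.real B' ≤ ∫ x in B', ((av (P x) fun n => w n x * g ((T ^ n) x)) -
        av (Q x) fun n => w n x * g ((T ^ n) x)).re ∂μ := by
    refine setIntegral_ge_of_const_le_real hB' (measure_ne_top μ _) (fun x hx => ?_) hi.re
    rw [Complex.sub_re]
    have := hP2 x hx
    have := hQ2 x hx
    linarith
  have h4 : (α - β) * (b / 2) ≤ (α - β) * μ.real B' :=
    mul_le_mul_of_nonneg_left hbB (by linarith)
  linarith

/-- the square of the new function -/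
theorem LemA3_usq (hT : MP μ T) (hw : ∀ n, Measurable (w n)) (hb : ∀ n x, ‖w n x‖ ≤ 1)
    {B' : Set X} (hB' : MeasurableSet B') {P Q : X → ℕ} (hPm : Measurable P) (hQm : Measurable Q)
    {M : ℕ} (hP : ∀ x, P x ≤ M) (hQ : ∀ x, Q x ≤ M) :
    ∫ x, ‖adf T w B' P M x - adf T w B' Q M x‖ ^ 2 ∂μ ≤ 16 := by
  have hsq : ∀ {R : X → ℕ}, Measurable R →
      Integrable (fun x => ‖adf T w B' R M x‖ ^ 2) μ := by
    intro R hR
    refine LemA3_int' ((adf_measurable hT hw hB' hR M).norm.pow_const 2)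
      (C := (2 * M + 1) ^ 2) fun x => ?_
    rw [norm_pow, norm_norm]
    exact pow_le_pow_left₀ (norm_nonneg _) (adf_bound T hb B' R M x) 2
  have hle : ∀ x, ‖adf T w B' P M x - adf T w B' Q M x‖ ^ 2 ≤
      2 * ‖adf T w B' P M x‖ ^ 2 + 2 * ‖adf T w B' Q M x‖ ^ 2 := by
    intro x
    have h1 := norm_sub_le (adf T w B' P M x) (adf T w B' Q M x)
    have h2 := pow_le_pow_left₀ (norm_nonneg _) h1 2
    nlinarith [sq_nonneg (‖adf T w B' P M x‖ - ‖adf T w B' Q M x‖)]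
  have hint : Integrable (fun x => 2 * ‖adf T w B' P M x‖ ^ 2 + 2 * ‖adf T w B' Q M x‖ ^ 2) μ :=
    ((hsq hPm).const_mul 2).add ((hsq hQm).const_mul 2)
  calc ∫ x, ‖adf T w B' P M x - adf T w B' Q M x‖ ^ 2 ∂μ
      ≤ ∫ x, (2 * ‖adf T w B' P M x‖ ^ 2 + 2 * ‖adf T w B' Q M x‖ ^ 2) ∂μ :=
        integral_mono_of_nonneg (Eventually.of_forall fun x => by positivity) hint
          (Eventually.of_forall hle)
    _ = 2 * ∫ x, ‖adf T w B' P M x‖ ^ 2 ∂μ + 2 * ∫ x, ‖adf T w B' Q M x‖ ^ 2 ∂μ := by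
        rw [integral_add ((hsq hPm).const_mul 2) ((hsq hQm).const_mul 2), integral_const_mul,
          integral_const_mul]
    _ ≤ 16 := by
        have h1 := adf_sq hT hw hb hB' hPm hP
        have h2 := adf_sq hT hw hb hB' hQm hQ
        linarith

/-- the step of the induction -/
theorem LemA3_step (hT : MP μ T) (hw : ∀ n, Measurable (w n)) (hb : ∀ n x, ‖w n x‖ ≤ 1)
    (hC : CondC μ T w) {g : X → ℂ} (hg : Measurable g) (hg1 : Bd g) {α β b ε : ℝ} (hab : β < α)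
    (hb0 : 0 < b) (hε : 0 < ε)
    (hB : b ≤ μ.real {x | (∃ᶠ N in atTop, (av N fun n => w n x * g ((T ^ n) x)).re < β) ∧
      ∃ᶠ N in atTop, α < (av N fun n => w n x * g ((T ^ n) x)).re})
    {j : ℕ} (hj : 2 * j * ε ≤ b / 4) (h : LemA3_st μ T w g ((α - β) * b / 2) ε j) :
    LemA3_st μ T w g ((α - β) * b / 2) ε (j + 1) := by
  obtain ⟨s, E, L', C, hs, hsC, hE, hEj, hmain, hsq, hcr⟩ := h
  obtain ⟨L₀, hL₀⟩ := hC ε hε
  set L : ℕ := max L' (max L₀ 1) with hL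
  have hLL' : L' ≤ L := le_max_left _ _
  have hLL₀ : L₀ ≤ L := (le_max_left _ _).trans (le_max_right _ _)
  obtain ⟨M, B', P, Q, hLM, hB', hB'E, hPm, hQm, hP, hQ, hP2, hQ2, hbB⟩ :=
    LemA3_scales (μ := μ) (a := fun N x => av N fun n => w n x * g ((T ^ n) x))
      (fun N => LemA3_av_meas hT hw hg N) (α := α) (β := β) hE L hb0 hB (hEj.trans hj)
  obtain ⟨F, R₀, hF, hFε, hFk⟩ := LemA3_bad hT hw hε (hL₀ L M hLL₀ hLM)
  have hPM : ∀ x, P x ≤ M := fun x => (hP x).2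
  have hQM : ∀ x, Q x ≤ M := fun x => (hQ x).2
  have hum : Measurable fun x => adf T w B' P M x - adf T w B' Q M x :=
    (adf_measurable hT hw hB' hPm M).sub (adf_measurable hT hw hB' hQm M)
  have hub : ∀ x, ‖adf T w B' P M x - adf T w B' Q M x‖ ≤ 2 * (2 * M + 1) := fun x =>
    (norm_sub_le _ _).trans (by
      have h1 := adf_bound T hb B' P M x
      have h2 := adf_bound T hb B' Q M x
      linarith)
  have hC0 : 0 ≤ C ∨ IsEmpty X := by
    rcases isEmpty_or_nonempty X with h | ⟨⟨x⟩⟩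
    · exact Or.inr h
    · exact Or.inl ((norm_nonneg _).trans (hsC x))
  have hmulint : ∀ {f v : X → ℂ} {c d : ℝ}, Measurable f → Measurable v → (∀ x, ‖f x‖ ≤ c) →
      (∀ x, ‖v x‖ ≤ d) → Integrable (fun x => f x * v x) μ := by
    intro f v c d hf hv hfc hvd
    refine LemA3_int (hf.mul hv) (C := c * d) fun x => ?_
    rw [norm_mul]
    exact mul_le_mul (hfc x) (hvd x) (norm_nonneg _) ((norm_nonneg _).trans (hfc x))
  have hconjm : ∀ {v : X → ℂ}, Measurable v → Measurable fun x => conj (v x) := fun hv =>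
    Complex.continuous_conj.measurable.comp hv
  refine ⟨fun x => s x + (adf T w B' P M x - adf T w B' Q M x), E ∪ F,
    max L' (max R₀ (max 1 ⌈4 * M / ε⌉₊)), C + 2 * (2 * M + 1), hs.add hum,
    fun x => (norm_add_le _ _).trans (add_le_add (hsC x) (hub x)), hE.union hF, ?_, ?_, ?_, ?_⟩
  · have h1 := measureReal_union_le (μ := μ) E F
    push_cast
    linarith
  · have h1 : ∫ x, (s x + (adf T w B' P M x - adf T w B' Q M x)) * g x ∂μ =
        ∫ x, s x * g x ∂μ + ∫ x, (adf T w B' P M x - adf T w B' Q M x) * g x ∂μ := by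
      simp only [add_mul]
      exact integral_add (hmulint hs hg hsC hg1) (hmulint hum hg hub hg1)
    rw [h1, Complex.add_re]
    have h2 := LemA3_main hT hw hb hg hg1 hab hB' hPm hQm hPM hQM hP2 hQ2 hbB
    push_cast
    linarith
  · have h1 := LemA3_sq (μ := μ) hs hum hsC hub
    have h2 := LemA3_usq hT hw hb hB' hPm hQm hPM hQM
    have h3 : ‖∫ x, s x * conj (adf T w B' P M x - adf T w B' Q M x) ∂μ‖ ≤ 12 * j * ε := by
      have h4 : ∫ x, s x * conj (adf T w B' P M x - adf T w B' Q M x) ∂μ =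
          ∫ x, s x * conj (adf T w B' P M x) ∂μ - ∫ x, s x * conj (adf T w B' Q M x) ∂μ := by
        simp only [map_sub, mul_sub]
        exact integral_sub
          (hmulint hs (hconjm (adf_measurable hT hw hB' hPm M)) hsC
            (fun x => by rw [RCLike.norm_conj]; exact adf_bound T hb B' P M x))
          (hmulint hs (hconjm (adf_measurable hT hw hB' hQm M)) hsC
            (fun x => by rw [RCLike.norm_conj]; exact adf_bound T hb B' Q M x))
      rw [h4]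
      have h5 := hcr L M B' P hLL' hLM hB' hB'E hPm hP
      have h6 := hcr L M B' Q hLL' hLM hB' hB'E hQm hQ
      have h7 := norm_sub_le (∫ x, s x * conj (adf T w B' P M x) ∂μ)
        (∫ x, s x * conj (adf T w B' Q M x) ∂μ)
      linarith
    push_cast
    nlinarith [h1, h2, h3, hsq, mul_nonneg hε.le (Nat.cast_nonneg (α := ℝ) j)]
  · intro L₂ M₂ B₂ N hL₂ hLM₂ hB₂ hB₂E hN hNb
    have hL₂' : L' ≤ L₂ := (le_max_left _ _).trans hL₂
    have hL₂R : R₀ ≤ L₂ := ((le_max_left _ _).trans (le_max_right _ _)).trans hL₂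
    have hL₂1 : 1 ≤ L₂ :=
      (((le_max_left _ _).trans (le_max_right _ _)).trans (le_max_right _ _)).trans hL₂
    have hL₂c : ⌈4 * M / ε⌉₊ ≤ L₂ :=
      (((le_max_right _ _).trans (le_max_right _ _)).trans (le_max_right _ _)).trans hL₂
    have h1 : ‖∫ x, s x * conj (adf T w B₂ N M₂ x) ∂μ‖ ≤ 6 * j * ε :=
      hcr L₂ M₂ B₂ N hL₂' hLM₂ hB₂ (fun x hx hxE => hB₂E hx (Or.inl hxE)) hN hNb
    have h2 := cross hT hw hb hB' hB₂ hPm hQm hN hP hQ hNb hL₂1 hε.le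
      (fun y hy R hR => hFk y (fun hyF => hB₂E hy (Or.inr hyF)) R (hL₂R.trans hR))
    have h3 : 4 * (M : ℝ) / L₂ ≤ ε := by
      have h4 : 4 * (M : ℝ) / ε ≤ L₂ := (Nat.le_ceil _).trans (Nat.cast_le.2 hL₂c)
      have h5 : (0 : ℝ) < L₂ := by exact_mod_cast hL₂1
      rw [div_le_iff₀ hε] at h4
      rw [div_le_iff₀ h5]
      linarith
    have h6 : ∫ x, (s x + (adf T w B' P M x - adf T w B' Q M x)) * conj (adf T w B₂ N M₂ x) ∂μ =
        ∫ x, s x * conj (adf T w B₂ N M₂ x) ∂μ +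
          ∫ x, (adf T w B' P M x - adf T w B' Q M x) * conj (adf T w B₂ N M₂ x) ∂μ := by
      simp only [add_mul]
      exact integral_add
        (hmulint hs (hconjm (adf_measurable hT hw hB₂ hN M₂)) hsC
          (fun x => by rw [RCLike.norm_conj]; exact adf_bound T hb B₂ N M₂ x))
        (hmulint hum (hconjm (adf_measurable hT hw hB₂ hN M₂)) hub
          (fun x => by rw [RCLike.norm_conj]; exact adf_bound T hb B₂ N M₂ x))
    rw [h6]
    have h7 := norm_add_le (∫ x, s x * conj (adf T w B₂ N M₂ x) ∂μ)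
      (∫ x, (adf T w B' P M x - adf T w B' Q M x) * conj (adf T w B₂ N M₂ x) ∂μ)
    push_cast
    linarith

/-- the end of the induction -/
theorem LemA3_end {g : X → ℂ} (hg : Measurable g) (hg1 : Bd g) {κ ε : ℝ} (hκ : 0 < κ)
    (hεκ : 96 * ε ≤ κ ^ 2) {J : ℕ} (hJ : 32 < κ ^ 2 * J) (h : LemA3_st μ T w g κ ε J) : False := by
  obtain ⟨s, E, L', C, hs, hsC, _, _, hmain, hsq, _⟩ := h
  have hJ0 : (0 : ℝ) < J := by
    by_contra hcon
    have h1 : (J : ℝ) ≤ 0 := not_lt.1 hcon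
    nlinarith [sq_nonneg κ]
  set c : ℝ := J * κ with hc
  have hc0 : 0 < c := mul_pos hJ0 hκ
  have hi1 : Integrable (fun x => ‖s x‖) μ :=
    LemA3_int' hs.norm (C := C) fun x => by rw [norm_norm]; exact hsC x
  have hi2 : Integrable (fun x => ‖s x‖ ^ 2) μ :=
    LemA3_int' (hs.norm.pow_const 2) (C := C ^ 2) fun x => by
      rw [norm_pow, norm_norm]
      exact pow_le_pow_left₀ (norm_nonneg _) (hsC x) 2
  have h1 : c ≤ ∫ x, ‖s x‖ ∂μ := by
    calc c ≤ (∫ x, s x * g x ∂μ).re := hmain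
      _ ≤ ‖∫ x, s x * g x ∂μ‖ := Complex.re_le_norm _
      _ ≤ ∫ x, ‖s x * g x‖ ∂μ := norm_integral_le_integral_norm _
      _ ≤ ∫ x, ‖s x‖ ∂μ := by
        refine integral_mono_of_nonneg (Eventually.of_forall fun x => norm_nonneg _) hi1
          (Eventually.of_forall fun x => ?_)
        show ‖s x * g x‖ ≤ ‖s x‖
        rw [norm_mul]
        exact mul_le_of_le_one_right (norm_nonneg _) (hg1 x)
  have h2 : 2 * c * ∫ x, ‖s x‖ ∂μ ≤ ∫ x, ‖s x‖ ^ 2 ∂μ + c ^ 2 := by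
    calc 2 * c * ∫ x, ‖s x‖ ∂μ = ∫ x, 2 * c * ‖s x‖ ∂μ := (integral_const_mul _ _).symm
      _ ≤ ∫ x, (‖s x‖ ^ 2 + c ^ 2) ∂μ := by
        refine integral_mono (hi1.const_mul _) (hi2.add (integrable_const _)) fun x => ?_
        show 2 * c * ‖s x‖ ≤ ‖s x‖ ^ 2 + c ^ 2
        nlinarith [sq_nonneg (‖s x‖ - c)]
      _ = ∫ x, ‖s x‖ ^ 2 ∂μ + c ^ 2 := by
        rw [integral_add hi2 (integrable_const _), integral_const, probReal_univ, one_smul]
  have h3 : c ^ 2 ≤ ∫ x, ‖s x‖ ^ 2 ∂μ := by nlinarith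
  have h4 : (J : ℝ) ^ 2 * κ ^ 2 ≤ 16 * J + 24 * ε * J ^ 2 := by
    have : c ^ 2 = (J : ℝ) ^ 2 * κ ^ 2 := by rw [hc]; ring
    linarith
  have h5 : 24 * ε * (J : ℝ) ^ 2 ≤ κ ^ 2 / 4 * (J : ℝ) ^ 2 :=
    mul_le_mul_of_nonneg_right (by linarith) (sq_nonneg _)
  nlinarith

/-- there are no upcrossings, almost everywhere -/
theorem LemA3_key (hT : MP μ T) (hw : ∀ n, Measurable (w n)) (hb : ∀ n x, ‖w n x‖ ≤ 1)
    (hC : CondC μ T w) {g : X → ℂ} (hg : Measurable g) (hg1 : Bd g) {α β : ℝ} (hab : β < α) :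
    μ {x | (∃ᶠ N in atTop, (av N fun n => w n x * g ((T ^ n) x)).re < β) ∧
      ∃ᶠ N in atTop, α < (av N fun n => w n x * g ((T ^ n) x)).re} = 0 := by
  by_contra hne
  set B := {x | (∃ᶠ N in atTop, (av N fun n => w n x * g ((T ^ n) x)).re < β) ∧
      ∃ᶠ N in atTop, α < (av N fun n => w n x * g ((T ^ n) x)).re} with hBdef
  set b : ℝ := μ.real B with hbdef
  have hb0 : 0 < b := ENNReal.toReal_pos hne (measure_ne_top μ _)
  set κ : ℝ := (α - β) * b / 2 with hκdef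
  have hκ : 0 < κ := by
    have : 0 < α - β := by linarith
    positivity
  obtain ⟨J, hJ⟩ := exists_nat_gt (32 / κ ^ 2)
  have hκ2 : 0 < κ ^ 2 := by positivity
  have hJ' : 32 < κ ^ 2 * J := by
    rw [div_lt_iff₀ hκ2] at hJ
    linarith
  have hJ0 : (0 : ℝ) < J := lt_trans (by positivity) hJ
  set ε : ℝ := min (κ ^ 2 / 96) (b / (8 * J)) with hεdef
  have hε : 0 < ε := lt_min (by positivity) (by positivity)
  have hε1 : 96 * ε ≤ κ ^ 2 := by
    have := min_le_left (κ ^ 2 / 96) (b / (8 * J))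
    rw [← hεdef] at this
    linarith
  have hε2 : 2 * J * ε ≤ b / 4 := by
    have := min_le_right (κ ^ 2 / 96) (b / (8 * J))
    rw [← hεdef, le_div_iff₀ (by positivity)] at this
    linarith
  have hall : ∀ j : ℕ, j ≤ J → LemA3_st μ T w g κ ε j := by
    intro j
    induction j with
    | zero => intro _; exact LemA3_zero μ T w g κ ε
    | succ j ih =>
      intro hj
      refine LemA3_step hT hw hb hC hg hg1 hab hb0 hε le_rfl ?_ (ih (Nat.le_of_succ_le hj))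
      have h1 : (j : ℝ) ≤ J := Nat.cast_le.2 (Nat.le_of_succ_le hj)
      have h2 : 2 * (j : ℝ) * ε ≤ 2 * J * ε := by
        have := mul_le_mul_of_nonneg_right h1 hε.le
        linarith
      exact h2.trans hε2
  exact LemA3_end hg hg1 hκ hε1 hJ' (hall J le_rfl)

/-- the real parts converge -/
theorem LemA3_re (hT : MP μ T) (hw : ∀ n, Measurable (w n)) (hb : ∀ n x, ‖w n x‖ ≤ 1)
    (hC : CondC μ T w) {g : X → ℂ} (hg : Measurable g) (hg1 : Bd g) :
    ∀ᵐ x ∂μ, CV fun N => (av N fun n => w n x * g ((T ^ n) x)).re := by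
  have h1 : ∀ᵐ x ∂μ, ∀ p : ℚ × ℚ, (p.1 : ℝ) < p.2 →
      ¬ ((∃ᶠ N in atTop, (av N fun n => w n x * g ((T ^ n) x)).re < p.1) ∧
        ∃ᶠ N in atTop, (p.2 : ℝ) < (av N fun n => w n x * g ((T ^ n) x)).re) := by
    rw [ae_all_iff]
    intro p
    by_cases hp : (p.1 : ℝ) < p.2
    · have h := LemA3_key hT hw hb hC hg hg1 hp
      rw [← compl_mem_ae_iff] at h
      filter_upwards [h] with x hx _
      exact hx
    · exact Eventually.of_forall fun x h => absurd h hp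
  filter_upwards [h1] with x hx
  have hbd : ∀ N : ℕ, |(av N fun n => w n x * g ((T ^ n) x)).re| ≤ 1 := fun N =>
    (Complex.abs_re_le_norm _).trans (LemA3_av_bd hb hg1 N x)
  refine tendsto_of_no_upcrossings Rat.denseRange_cast ?_ ?_ ?_
  · rintro _ ⟨p, rfl⟩ _ ⟨q, rfl⟩ hpq
    exact hx (p, q) hpq
  · exact isBoundedUnder_of ⟨1, fun N => (abs_le.1 (hbd N)).2⟩
  · exact isBoundedUnder_of ⟨-1, fun N => (abs_le.1 (hbd N)).1⟩

theorem lemA (hT : MP μ T) (hw : ∀ n, Measurable (w n)) (hb : ∀ n x, ‖w n x‖ ≤ 1)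
    (hC : CondC μ T w) {g : X → ℂ} (hg : Measurable g) (hg1 : Bd g) :
    ∀ᵐ x ∂μ, CV fun N => av N fun n => w n x * g ((T ^ n) x) := by
  have h1 := LemA3_re hT hw hb hC hg hg1
  have h2 := LemA3_re hT hw hb hC (g := fun x => -Complex.I * g x) (hg.const_mul _)
    (fun x => by
      show ‖-Complex.I * g x‖ ≤ 1
      rw [norm_mul, norm_neg, Complex.norm_I, one_mul]
      exact hg1 x)
  filter_upwards [h1, h2] with x ⟨l₁, hl₁⟩ ⟨l₂, hl₂⟩
  refine ⟨(l₁ : ℂ) + l₂ * Complex.I, ?_⟩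
  have h3 : ∀ N : ℕ, (av N fun n => w n x * (-Complex.I * g ((T ^ n) x))).re =
      (av N fun n => w n x * g ((T ^ n) x)).im := by
    intro N
    have h4 : (fun n : ℤ => w n x * (-Complex.I * g ((T ^ n) x))) =
        fun n : ℤ => -Complex.I * (w n x * g ((T ^ n) x)) := by
      funext n; ring
    rw [h4, av_mul_left]
    simp
  simp only [h3] at hl₂
  have h5 : ∀ N : ℕ, (av N fun n => w n x * g ((T ^ n) x)) =
      (((av N fun n => w n x * g ((T ^ n) x)).re : ℝ) : ℂ) +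
        (((av N fun n => w n x * g ((T ^ n) x)).im : ℝ) : ℂ) * Complex.I := fun N =>
    (Complex.re_add_im _).symm
  have h6 : Tendsto (fun N : ℕ => (((av N fun n => w n x * g ((T ^ n) x)).re : ℝ) : ℂ) +
        (((av N fun n => w n x * g ((T ^ n) x)).im : ℝ) : ℂ) * Complex.I) atTop
      (𝓝 ((l₁ : ℂ) + l₂ * Complex.I)) :=
    ((Complex.continuous_ofReal.tendsto _).comp hl₁).add
      (((Complex.continuous_ofReal.tendsto _).comp hl₂).mul tendsto_const_nhds)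
  refine h6.congr fun N => ?_
  exact (h5 N).symm

end Pool.DRT
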