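import Pool.Agent.DRT.Defs

set_option autoImplicit false

/-!
# Averages of continuous functions of `c(T^r y)` and `c(S^r y)`

PROOF. Let `K = Metric.closedBall (0 : ι → ℂ) 1` (sup norm; compact), all values `c i x` lie in it.  Let
`W` be the set of `Φ ∈ C(K × K, ℂ)` such that for a.e. `y` the averages
`av R (fun r => Φ (c(T^r y), c(S^r y)))` converge.  `W` is closed under sums and scalar multiples, and closed in
the uniform norm (if `‖Φ - Φ'‖ ≤ ε` the averages differ by at most `ε`: Cauchy criterion; use a countable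
sequence of approximations for the exceptional sets).  It contains the pure tensors
`Φ(z, z') = φ(z) ψ(z')`, `φ, ψ ∈ C(K, ℂ)`: `φ ∘ c` and `ψ ∘ c` are `m`-measurable and bounded, so after
dividing by the bounds this is `Good.cv` (for the pair `f = ψ ∘ c`, `g = φ ∘ c`, because
`AN S T f g R y = av R (f(S^r y) g(T^r y))`).  The linear span of the pure tensors is a star subalgebra of
`C(K × K, ℂ)` which separates points, so it is dense
(`ContinuousMap.starSubalgebra_topologicalClosure_eq_top_of_separatesPoints`), hence `W` is everything.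
Apply this to `G` restricted to `K × K` and take real parts.
-/

open MeasureTheory Filter Topology
open scoped ComplexConjugate NNReal ENNReal

noncomputable section

namespace Pool.DRT

variable {X : Type*} {m : MeasurableSpace X} [mX : MeasurableSpace X] {μ : Measure X}
  [IsProbabilityMeasure μ] {S T : Equiv.Perm X}

/-- the sequence of averages of `Φ` along the two orbits -/
def SW_u {K : Type*} [TopologicalSpace K] (S T : Equiv.Perm X) (pt : X → K) (Φ : C(K × K, ℂ))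
    (R : ℕ) (y : X) : ℂ :=
  av R fun r => Φ (pt ((T ^ r) y), pt ((S ^ r) y))

omit mX in
theorem SW_diff {K : Type*} [TopologicalSpace K] [CompactSpace K] (S T : Equiv.Perm X) (pt : X → K)
    (Φ Ψ : C(K × K, ℂ)) (R : ℕ) (y : X) :
    ‖SW_u S T pt Φ R y - SW_u S T pt Ψ R y‖ ≤ ‖Φ - Ψ‖ := by
  unfold SW_u
  rw [← av_sub]
  apply norm_av_le_of_le
  intro n _
  have := (Φ - Ψ).norm_coe_le_norm (pt ((T ^ n) y), pt ((S ^ n) y))
  simpa using this

theorem SW_cv_add {u v : ℕ → ℂ} (hu : CV u) (hv : CV v) : CV fun n => u n + v n := by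
  obtain ⟨a, ha⟩ := hu
  obtain ⟨b, hb⟩ := hv
  exact ⟨a + b, ha.add hb⟩

theorem SW_cv_mul (c : ℂ) {u : ℕ → ℂ} (hu : CV u) : CV fun n => c * u n := by
  obtain ⟨a, ha⟩ := hu
  exact ⟨c * a, ha.const_mul c⟩

omit [IsProbabilityMeasure μ] in
/-- pure tensors -/
theorem SW_pure (hG : Good m μ S T) {K : Type*} [TopologicalSpace K] [CompactSpace K]
    [MeasurableSpace K] [BorelSpace K] {pt : X → K} (hpt : Measurable[m] pt) (φ ψ : C(K, ℂ))
    (Φ : C(K × K, ℂ)) (hΦ : ∀ p, Φ p = φ p.1 * ψ p.2) :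
    ∀ᵐ y ∂μ, CV fun R => SW_u S T pt Φ R y := by
  have hφ : (0 : ℝ) < ‖φ‖ + 1 := by positivity
  have hψ : (0 : ℝ) < ‖ψ‖ + 1 := by positivity
  have hm : ∀ χ : C(K, ℂ), Measurable[m] fun x => χ (pt x) / ((‖χ‖ + 1 : ℝ) : ℂ) := by
    intro χ
    exact (χ.continuous.measurable.comp hpt).div_const _
  have hbd : ∀ χ : C(K, ℂ), Bd fun x => χ (pt x) / ((‖χ‖ + 1 : ℝ) : ℂ) := by
    intro χ x
    have h0 : (0 : ℝ) < ‖χ‖ + 1 := by positivity
    show ‖χ (pt x) / ((‖χ‖ + 1 : ℝ) : ℂ)‖ ≤ 1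
    rw [norm_div, Complex.norm_real, Real.norm_of_nonneg h0.le, div_le_one h0]
    have := χ.norm_coe_le_norm (pt x)
    linarith
  filter_upwards [hG.cv _ _ (hm ψ) (hm φ) (hbd ψ) (hbd φ)] with y hy
  have h1 : (fun R => SW_u S T pt Φ R y) = fun R => (((‖ψ‖ + 1 : ℝ) : ℂ) * ((‖φ‖ + 1 : ℝ) : ℂ)) *
      AN S T (fun x => ψ (pt x) / ((‖ψ‖ + 1 : ℝ) : ℂ)) (fun x => φ (pt x) / ((‖φ‖ + 1 : ℝ) : ℂ))
        R y := by
    funext R
    unfold SW_u AN
    rw [← av_mul_left]
    congr 1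
    funext r
    rw [hΦ]
    have e1 : ((‖φ‖ + 1 : ℝ) : ℂ) ≠ 0 := by exact_mod_cast hφ.ne'
    have e2 : ((‖ψ‖ + 1 : ℝ) : ℂ) ≠ 0 := by exact_mod_cast hψ.ne'
    field_simp
  rw [h1]
  exact SW_cv_mul _ hy

/-- the submonoid of pure tensors -/
def SW_mon (K : Type*) [TopologicalSpace K] : Submonoid C(K × K, ℂ) where
  carrier := {Φ | ∃ φ ψ : C(K, ℂ), ∀ p, Φ p = φ p.1 * ψ p.2}
  one_mem' := ⟨1, 1, fun p => by simp⟩
  mul_mem' := by
    rintro Φ Ψ ⟨a, b, h⟩ ⟨a', b', h'⟩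
    refine ⟨a * a', b * b', fun p => ?_⟩
    simp only [ContinuousMap.mul_apply, h, h']
    ring

theorem SW_star (K : Type*) [TopologicalSpace K] :
    ((SW_mon K : Set C(K × K, ℂ)) ∪ star (SW_mon K : Set C(K × K, ℂ))) = (SW_mon K : Set _) := by
  apply Set.union_eq_self_of_subset_right
  intro Φ hΦ
  rw [Set.mem_star] at hΦ
  obtain ⟨φ, ψ, h⟩ := hΦ
  refine ⟨star φ, star ψ, fun p => ?_⟩
  have := h p
  rw [ContinuousMap.star_apply] at this
  rw [ContinuousMap.star_apply, ContinuousMap.star_apply, ← star_star (Φ p), this, star_mul']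

omit [IsProbabilityMeasure μ] in
theorem SW_alg (hG : Good m μ S T) {K : Type*} [TopologicalSpace K] [CompactSpace K]
    [MeasurableSpace K] [BorelSpace K] {pt : X → K} (hpt : Measurable[m] pt)
    {Φ : C(K × K, ℂ)} (hΦ : Φ ∈ StarAlgebra.adjoin ℂ (SW_mon K : Set C(K × K, ℂ))) :
    ∀ᵐ y ∂μ, CV fun R => SW_u S T pt Φ R y := by
  have h1 : Φ ∈ Algebra.adjoin ℂ (SW_mon K : Set C(K × K, ℂ)) := by
    have h2 : Φ ∈ (StarAlgebra.adjoin ℂ (SW_mon K : Set C(K × K, ℂ))).toSubalgebra := hΦ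
    rw [StarAlgebra.adjoin_toSubalgebra, SW_star] at h2
    exact h2
  have h2 : Φ ∈ Submodule.span ℂ (SW_mon K : Set C(K × K, ℂ)) := by
    rw [← Subalgebra.mem_toSubmodule, Algebra.adjoin_eq_span, Submonoid.closure_eq] at h1
    exact h1
  clear hΦ h1
  induction h2 using Submodule.span_induction with
  | mem Ψ h =>
    obtain ⟨φ, ψ, h⟩ := h
    exact SW_pure hG hpt φ ψ Ψ h
  | zero =>
    filter_upwards with y
    refine ⟨0, ?_⟩
    have : (fun R => SW_u S T pt (0 : C(K × K, ℂ)) R y) = fun _ => 0 := by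
      funext R
      unfold SW_u
      simp [av_zero]
    rw [this]
    exact tendsto_const_nhds
  | add Φ Ψ _ _ h1 h2 =>
    filter_upwards [h1, h2] with y h1 h2
    have : (fun R => SW_u S T pt (Φ + Ψ) R y) =
        fun R => SW_u S T pt Φ R y + SW_u S T pt Ψ R y := by
      funext R
      unfold SW_u
      rw [← av_add]
      rfl
    rw [this]
    exact SW_cv_add h1 h2
  | smul c Φ _ h1 =>
    filter_upwards [h1] with y h1
    have : (fun R => SW_u S T pt (c • Φ) R y) = fun R => c * SW_u S T pt Φ R y := by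
      funext R
      unfold SW_u
      rw [← av_mul_left]
      rfl
    rw [this]
    exact SW_cv_mul c h1

theorem SW_sep (K : Type*) [MetricSpace K] [CompactSpace K] :
    (StarAlgebra.adjoin ℂ (SW_mon K : Set C(K × K, ℂ))).SeparatesPoints := by
  intro p q hpq
  rcases p with ⟨p1, p2⟩
  rcases q with ⟨q1, q2⟩
  by_cases h1 : p1 = q1
  · have h2 : p2 ≠ q2 := by
      intro h2
      exact hpq (by rw [h1, h2])
    refine ⟨fun z => ((dist z.2 q2 : ℝ) : ℂ), ⟨⟨fun z => ((dist z.2 q2 : ℝ) : ℂ), by fun_prop⟩,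
      ?_, rfl⟩, ?_⟩
    · apply StarAlgebra.subset_adjoin
      refine ⟨1, ⟨fun z => ((dist z q2 : ℝ) : ℂ), by fun_prop⟩, fun z => ?_⟩
      simp
    · simpa using h2
  · refine ⟨fun z => ((dist z.1 q1 : ℝ) : ℂ), ⟨⟨fun z => ((dist z.1 q1 : ℝ) : ℂ), by fun_prop⟩,
      ?_, rfl⟩, ?_⟩
    · apply StarAlgebra.subset_adjoin
      refine ⟨⟨fun z => ((dist z q1 : ℝ) : ℂ), by fun_prop⟩, 1, fun z => ?_⟩
      simp
    · simpa using h1

omit [IsProbabilityMeasure μ] in
theorem SW_all (hG : Good m μ S T) {K : Type*} [MetricSpace K] [CompactSpace K]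
    [MeasurableSpace K] [BorelSpace K] {pt : X → K} (hpt : Measurable[m] pt) (Φ : C(K × K, ℂ)) :
    ∀ᵐ y ∂μ, CV fun R => SW_u S T pt Φ R y := by
  have htop := ContinuousMap.starSubalgebra_topologicalClosure_eq_top_of_separatesPoints _
    (SW_sep K)
  have hcl : Φ ∈ closure (StarAlgebra.adjoin ℂ (SW_mon K : Set C(K × K, ℂ)) : Set C(K × K, ℂ)) := by
    have h1 : Φ ∈ (StarAlgebra.adjoin ℂ (SW_mon K : Set C(K × K, ℂ))).topologicalClosure := by
      rw [htop]; trivial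
    exact h1
  rw [Metric.mem_closure_iff] at hcl
  have hcl' : ∀ k : ℕ, ∃ Ψ ∈ (StarAlgebra.adjoin ℂ (SW_mon K : Set C(K × K, ℂ)) : Set C(K × K, ℂ)),
      dist Φ Ψ < 1 / ((k : ℝ) + 1) := fun k => hcl _ (by positivity)
  choose Ψ hΨ hd using hcl'
  have hae : ∀ᵐ y ∂μ, ∀ k, CV fun R => SW_u S T pt (Ψ k) R y :=
    ae_all_iff.2 fun k => SW_alg hG hpt (hΨ k)
  filter_upwards [hae] with y hy
  apply cauchySeq_tendsto_of_complete
  rw [Metric.cauchySeq_iff']
  intro ε hε
  obtain ⟨k, hk⟩ := exists_nat_one_div_lt (show 0 < ε / 3 by positivity)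
  obtain ⟨l, hl⟩ := hy k
  have hC := hl.cauchySeq
  rw [Metric.cauchySeq_iff'] at hC
  obtain ⟨N, hN⟩ := hC (ε / 3) (by positivity)
  refine ⟨N, fun n hn => ?_⟩
  have hb : ∀ R, dist (SW_u S T pt Φ R y) (SW_u S T pt (Ψ k) R y) < ε / 3 := by
    intro R
    rw [dist_eq_norm]
    refine (SW_diff S T pt Φ (Ψ k) R y).trans_lt ?_
    rw [← dist_eq_norm]
    exact (hd k).trans hk
  calc dist (SW_u S T pt Φ n y) (SW_u S T pt Φ N y)
      ≤ dist (SW_u S T pt Φ n y) (SW_u S T pt (Ψ k) n y) +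
        dist (SW_u S T pt (Ψ k) n y) (SW_u S T pt (Ψ k) N y) +
        dist (SW_u S T pt (Ψ k) N y) (SW_u S T pt Φ N y) := dist_triangle4 _ _ _ _
    _ < ε / 3 + ε / 3 + ε / 3 := by
        have h1 := hb n
        have h2 := hN n hn
        have h3 := hb N
        rw [dist_comm] at h3
        linarith
    _ = ε := by ring

theorem sw (hG : Good m μ S T) {ι : Type} [Fintype ι] {c : ι → X → ℂ}
    (hc : ∀ i, Measurable[m] (c i)) (hb : ∀ i x, ‖c i x‖ ≤ 1)
    {G : (ι → ℂ) → (ι → ℂ) → ℝ}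
    (hGc : Continuous fun p : (ι → ℂ) × (ι → ℂ) => G p.1 p.2) :
    ∀ᵐ y ∂μ, CV fun R => av R fun r => G (fun i => c i ((T ^ r) y)) (fun i => c i ((S ^ r) y)) := by
  have hmem : ∀ x, (fun i => c i x) ∈ Metric.closedBall (0 : ι → ℂ) 1 := by
    intro x
    rw [mem_closedBall_zero_iff, pi_norm_le_iff_of_nonneg zero_le_one]
    intro i
    exact hb i x
  have : CompactSpace (Metric.closedBall (0 : ι → ℂ) 1) :=
    isCompact_iff_compactSpace.1 (isCompact_closedBall _ _)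
  let pt : X → Metric.closedBall (0 : ι → ℂ) 1 := fun x => ⟨fun i => c i x, hmem x⟩
  have hpt : Measurable[m] pt := by
    exact @Measurable.subtype_mk X (ι → ℂ) m _ _ _ (@measurable_pi_iff X ι _ m _ _ |>.2 hc) hmem
  let Φ : C(Metric.closedBall (0 : ι → ℂ) 1 × Metric.closedBall (0 : ι → ℂ) 1, ℂ) :=
    ⟨fun p => ((G p.1.1 p.2.1 : ℝ) : ℂ), by
      apply Complex.continuous_ofReal.comp
      exact hGc.comp ((continuous_subtype_val.comp continuous_fst).prodMk
        (continuous_subtype_val.comp continuous_snd))⟩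
  filter_upwards [SW_all hG hpt Φ] with y hy
  obtain ⟨l, hl⟩ := hy
  refine ⟨l.re, ?_⟩
  have h1 : (fun R => av R fun r => G (fun i => c i ((T ^ r) y)) (fun i => c i ((S ^ r) y))) =
      fun R => (SW_u S T pt Φ R y).re := by
    funext R
    unfold SW_u
    rw [re_av]
    rfl
  rw [h1]
  exact (Complex.continuous_re.tendsto l).comp hl

end Pool.DRT
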