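import Pool.Agent.DRT.IntB2
import Pool.Agent.DRT.SW
import Pool.Agent.DRT.LemA3

set_option autoImplicit false

/-!
# Lemma B: relatively compact functions give good weights

PROOF of `lemB`. Let `q` be the kernel of `f` (`Cpt.ker`).  Given `ε > 0` apply `limG` with `η = ε²/16`: `L₀`.  Let
`L₀ ≤ L ≤ M`; we get `M' ≥ M`, `δ`; lower `δ` further such that `√δ (2M+1) ≤ small` (`Gram` and the
approximation are monotone in `δ`), and take `F`, `c` from `Cpt.ker` for `M'`, `δ` (replace `δ` by the minimum).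
By `red`, `kb T w L M R y ≤ av R (fun r => GG (T^r y) (S^r y)) + av R (fun r => 2 ∑_{|n| ≤ M} (e_n(T^r y) + e_n(S^r y)))`
with `e_n x = ‖f(S^n x) - ∑ F_j x c_{n,j} x‖`, `∫ e_n ≤ √δ` (Cauchy-Schwarz, `∫ e_n² ≤ δ`).
First part: by `sw` (index set: pairs `(n, j)` with `|n| ≤ M`, `GG L M` only uses these `n`; it is continuous by
`continuous_mx`; `‖c n j x‖ ≤ 1` from `Gram.bd`) it converges a.e. to some `l y ≥ 0`; `GG ≤ 2`; by dominated convergence
`∫ l = lim av R (∫ GG) ≤ η`.  If `l y < ε/2` then eventually the average is `≤ ε/2`; and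
`μ {l ≥ ε/2} ≤ 2η/ε = ε/8` (Markov).  Second part: `limsup2` for `T` and for `S` with `φ = 2 ∑_{|n| ≤ M} e_n`, `t = ε/4`:
exceptional sets of measure `≤ 4 · 2(2M+1)√δ / (ε/4) ≤ ε/8`.  (`w_n = f ∘ S^n`.)
`lemB'` is `lemA` with `lemB`.
-/

open MeasureTheory Filter Topology
open scoped ComplexConjugate NNReal ENNReal

noncomputable section

namespace Pool.DRT

variable {X : Type*} {m : MeasurableSpace X} [mX : MeasurableSpace X] {μ : Measure X}
  [IsProbabilityMeasure μ] {S T : Equiv.Perm X} {f : X → ℂ}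

/-! ### auxiliary facts -/

omit [IsProbabilityMeasure μ] in
private theorem LemB_gram_mono {q : ℤ → X → ℂ} {M : ℕ} {δ δ' : ℝ} (hδ : δ' ≤ δ) {ι : Type}
    [Fintype ι] {c : ℤ → ι → X → ℂ} (h : Gram m μ S q M δ' c) : Gram m μ S q M δ c :=
  ⟨h.meas, h.bd, fun n hn n' hn' => (h.close n hn n' hn').trans hδ⟩

private theorem LemB_mx_congr {L M : ℕ} {a b : ℕ → ℝ} (h : ∀ N, L ≤ N → N ≤ M → a N = b N) :
    mx L M a = mx L M b :=
  le_antisymm (mx_mono fun N h1 h2 => (h N h1 h2).le) (mx_mono fun N h1 h2 => (h N h1 h2).ge)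

/-- extension by zero of a finite table -/
private def LemB_ext {ι : Type} (M : ℕ)
    (a : (Finset.Icc (-(M : ℤ)) (M : ℤ) : Finset ℤ) × ι → ℂ) (n : ℤ) (j : ι) : ℂ :=
  if h : n ∈ Finset.Icc (-(M : ℤ)) (M : ℤ) then a (⟨n, h⟩, j) else 0

private theorem LemB_ext_cont {ι : Type} (M : ℕ) (n : ℤ) (j : ι) :
    Continuous fun a : (Finset.Icc (-(M : ℤ)) (M : ℤ) : Finset ℤ) × ι → ℂ =>
      LemB_ext M a n j := by
  unfold LemB_ext
  by_cases h : n ∈ Finset.Icc (-(M : ℤ)) (M : ℤ)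
  · simp only [h, dif_pos]
    exact continuous_apply _
  · simp only [h, dif_neg, not_false_iff]
    exact continuous_const

private theorem LemB_GG_cont {ι : Type} [Fintype ι] (L M : ℕ) :
    Continuous fun p : ((Finset.Icc (-(M : ℤ)) (M : ℤ) : Finset ℤ) × ι → ℂ) ×
      ((Finset.Icc (-(M : ℤ)) (M : ℤ) : Finset ℤ) × ι → ℂ) =>
      GG L M (LemB_ext M p.1) (LemB_ext M p.2) := by
  have h1 : ∀ n : ℤ, Continuous fun p : ((Finset.Icc (-(M : ℤ)) (M : ℤ) : Finset ℤ) × ι → ℂ) ×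
      ((Finset.Icc (-(M : ℤ)) (M : ℤ) : Finset ℤ) × ι → ℂ) =>
      tens (LemB_ext M p.1 n) (LemB_ext M p.2 n) := by
    intro n
    unfold tens
    refine (PiLp.continuous_toLp 2 _).comp (continuous_pi fun i => ?_)
    exact ((LemB_ext_cont M n i.1).comp continuous_fst).mul
      (Complex.continuous_conj.comp ((LemB_ext_cont M n i.2).comp continuous_snd))
  have h2 : ∀ N : ℕ, Continuous fun p : ((Finset.Icc (-(M : ℤ)) (M : ℤ) : Finset ℤ) × ι → ℂ) ×
      ((Finset.Icc (-(M : ℤ)) (M : ℤ) : Finset ℤ) × ι → ℂ) =>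
      av N fun n => tens (LemB_ext M p.1 n) (LemB_ext M p.2 n) := by
    intro N
    unfold av
    have h3 := continuous_finsetSum (Finset.Icc (-(N : ℤ)) (N : ℤ)) fun n _ => h1 n
    exact h3.const_smul ((2 * (N : ℝ) + 1)⁻¹)
  unfold GG
  exact continuous_mx L M fun N => ((h2 N).sub (h2 L)).norm

private theorem LemB_GG_eq {ι : Type} [Fintype ι] {L M : ℕ} (hLM : L ≤ M) (u v : ℤ → ι → ℂ) :
    GG L M u v = GG L M (LemB_ext M fun i => u i.1 i.2) (LemB_ext M fun i => v i.1 i.2) := by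
  have h1 : ∀ (w : ℤ → ι → ℂ) (n : ℤ), n ∈ Finset.Icc (-(M : ℤ)) (M : ℤ) →
      LemB_ext M (fun i => w i.1 i.2) n = w n := by
    intro w n hn
    funext j
    unfold LemB_ext
    rw [dif_pos hn]
  have h2 : ∀ N : ℕ, N ≤ M → (av N fun n => tens (u n) (v n)) =
      av N fun n => tens (LemB_ext M (fun i => u i.1 i.2) n) (LemB_ext M (fun i => v i.1 i.2) n) := by
    intro N hN
    refine av_congr fun n hn => ?_
    have hn' : n ∈ Finset.Icc (-(M : ℤ)) (M : ℤ) := by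
      rw [Finset.mem_Icc] at hn ⊢
      constructor <;> omega
    rw [h1 u n hn', h1 v n hn']
  unfold GG
  refine LemB_mx_congr fun N _ hN => ?_
  rw [h2 N hN, h2 L hLM]

private theorem LemB_GG_le {ι : Type} [Fintype ι] (L M : ℕ) {u v : ℤ → ι → ℂ}
    (hu : ∀ n, ∑ j, ‖u n j‖ ^ 2 ≤ 1) (hv : ∀ n, ∑ j, ‖v n j‖ ^ 2 ≤ 1) : GG L M u v ≤ 2 := by
  unfold GG
  refine mx_le (by norm_num) fun N _ _ => ?_
  have h1 : ∀ N : ℕ, ‖av N fun n => tens (u n) (v n)‖ ≤ 1 := fun N =>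
    norm_av_le_of_le fun n _ => norm_tens_le (hu n) (hv n)
  calc _ ≤ _ := norm_sub_le _ _
    _ ≤ 1 + 1 := add_le_add (h1 N) (h1 L)
    _ = 2 := by norm_num

private theorem LemB_GG_nonneg {ι : Type} [Fintype ι] (L M : ℕ) (u v : ℤ → ι → ℂ) :
    0 ≤ GG L M u v := mx_nonneg _ _ _

private theorem LemB_int_le_sqrt {e : X → ℝ} (he : Measurable e) (h0 : ∀ x, 0 ≤ e x) {C : ℝ}
    (hb : ∀ x, e x ≤ C) {δ : ℝ} (h : ∫ x, e x ^ 2 ∂μ ≤ δ) : ∫ x, e x ∂μ ≤ √δ := by
  have hC : 0 ≤ C ∨ IsEmpty X := by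
    by_cases hX : IsEmpty X
    · exact Or.inr hX
    · rw [not_isEmpty_iff] at hX
      obtain ⟨x⟩ := hX
      exact Or.inl ((h0 x).trans (hb x))
  have hi : Integrable e μ := by
    refine Integrable.of_bound he.aestronglyMeasurable C (Eventually.of_forall fun x => ?_)
    rw [Real.norm_of_nonneg (h0 x)]
    exact hb x
  have hi2 : Integrable (fun x => e x ^ 2) μ := by
    refine Integrable.of_bound (he.pow_const 2).aestronglyMeasurable (C ^ 2)
      (Eventually.of_forall fun x => ?_)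
    rw [Real.norm_of_nonneg (sq_nonneg _)]
    exact pow_le_pow_left₀ (h0 x) (hb x) 2
  have h1 : (∫ x, e x ∂μ) ^ 2 ≤ ∫ x, e x ^ 2 ∂μ := by
    have h2 : 0 ≤ ∫ x, (e x - ∫ z, e z ∂μ) ^ 2 ∂μ := integral_nonneg fun x => sq_nonneg _
    have h3 : ∀ x, (e x - ∫ z, e z ∂μ) ^ 2 =
        e x ^ 2 - (2 * ∫ z, e z ∂μ) * e x + (∫ z, e z ∂μ) ^ 2 := fun x => by ring
    simp_rw [h3] at h2
    have h4 : ∫ x, (e x ^ 2 - (2 * ∫ z, e z ∂μ) * e x + (∫ z, e z ∂μ) ^ 2) ∂μ =
        ∫ x, e x ^ 2 ∂μ - (2 * ∫ z, e z ∂μ) * ∫ x, e x ∂μ + (∫ z, e z ∂μ) ^ 2 := by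
      have h5 : Integrable (fun x => (2 * ∫ z, e z ∂μ) * e x) μ := hi.const_mul _
      have h6 : Integrable (fun x => e x ^ 2 - (2 * ∫ z, e z ∂μ) * e x) μ := hi2.sub h5
      rw [integral_add h6 (integrable_const _), integral_sub hi2 h5, integral_const_mul,
        integral_const]
      simp only [probReal_univ, one_smul]
    rw [h4] at h2
    nlinarith
  exact Real.le_sqrt_of_sq_le (h1.trans h)

theorem lemB (hS : MP μ S) (hT : MP μ T) (hST : Commute S T) (hG : Good m μ S T)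
    (hf : Cpt m μ S f) : CondC μ T fun n x => f ((S ^ n) x) := by
  obtain ⟨hfm, hfb, q, hqm, hqb, hker⟩ := hf
  have hm := hG.le
  intro ε hε
  have hη : 0 < ε ^ 2 / 16 := by positivity
  obtain ⟨L₀, hL₀⟩ := limG hS hT hST hG hqm hqb (fun M ε hε => by
    obtain ⟨ι, hι, F, c, _, _, hc, _⟩ := hker M ε hε
    exact ⟨ι, hι, c, hc⟩) hη
  refine ⟨L₀, fun L M hL hLM => ?_⟩
  obtain ⟨M', δ, hM', hδ, hGr⟩ := hL₀ L M hL hLM
  -- the accuracy
  set δ₁ : ℝ := (ε ^ 2 / (128 * (2 * (M : ℝ) + 1))) ^ 2 with hδ₁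
  have hMpos : (0 : ℝ) < 2 * (M : ℝ) + 1 := by positivity
  have hδ₁0 : 0 < δ₁ := by positivity
  obtain ⟨ι, hι, F, c, hFm, hFb, hc, hap⟩ := hker M' (min δ δ₁) (lt_min hδ hδ₁0)
  have hgr := hGr ι c (LemB_gram_mono (min_le_left _ _) hc)
  have hcm : ∀ n j, Measurable (c n j) := fun n j => (hc.meas n j).mono hm le_rfl
  -- the errors
  set e : ℤ → X → ℝ := fun n x => ‖f ((S ^ n) x) - ∑ j, F j x * c n j x‖ with he
  have hem : ∀ n, Measurable (e n) := by
    intro n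
    refine Measurable.norm ?_
    exact (hfm.comp (hS.measurable n)).sub
      (Finset.measurable_sum _ fun j _ => (hFm j).mul (hcm n j))
  have he0 : ∀ n x, 0 ≤ e n x := fun n x => norm_nonneg _
  have hFc : ∀ n x, ‖∑ j, F j x * c n j x‖ ≤ 1 := by
    intro n x
    calc ‖∑ j, F j x * c n j x‖ ≤ ∑ j, ‖F j x‖ * ‖c n j x‖ := by
          refine (norm_sum_le _ _).trans (Finset.sum_le_sum fun j _ => (norm_mul_le _ _))
      _ ≤ ∑ j, (‖F j x‖ ^ 2 + ‖c n j x‖ ^ 2) / 2 := by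
          refine Finset.sum_le_sum fun j _ => ?_
          nlinarith [sq_nonneg (‖F j x‖ - ‖c n j x‖)]
      _ = (∑ j, ‖F j x‖ ^ 2 + ∑ j, ‖c n j x‖ ^ 2) / 2 := by
          rw [← Finset.sum_add_distrib, Finset.sum_div]
      _ ≤ (1 + 1) / 2 := by
          have := hFb x
          have := hc.bd n x
          linarith
      _ = 1 := by norm_num
  have heb : ∀ n x, e n x ≤ 2 := by
    intro n x
    calc e n x ≤ ‖f ((S ^ n) x)‖ + ‖∑ j, F j x * c n j x‖ := norm_sub_le _ _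
      _ ≤ 1 + 1 := add_le_add (hfb _) (hFc n x)
      _ = 2 := by norm_num
  have hei : ∀ n, Integrable (e n) μ := by
    intro n
    refine Integrable.of_bound (hem n).aestronglyMeasurable 2 (Eventually.of_forall fun x => ?_)
    rw [Real.norm_of_nonneg (he0 n x)]
    exact heb n x
  have hint : ∀ n ∈ Finset.Icc (-(M : ℤ)) (M : ℤ), ∫ x, e n x ∂μ ≤
      ε ^ 2 / (128 * (2 * (M : ℝ) + 1)) := by
    intro n hn
    have hn' : n ∈ Finset.Icc (-(M' : ℤ)) (M' : ℤ) := by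
      rw [Finset.mem_Icc] at hn ⊢
      constructor <;> omega
    have h1 : ∫ x, e n x ^ 2 ∂μ ≤ δ₁ := (hap n hn').trans (min_le_right _ _)
    have h2 := LemB_int_le_sqrt (hem n) (he0 n) (heb n) h1
    rwa [hδ₁, Real.sqrt_sq (by positivity)] at h2
  set φ : X → ℝ := fun x => 2 * ∑ n ∈ Finset.Icc (-(M : ℤ)) (M : ℤ), e n x with hφ
  have hφ0 : ∀ x, 0 ≤ φ x := fun x =>
    mul_nonneg (by norm_num) (Finset.sum_nonneg fun n _ => he0 n x)
  have hφi : Integrable φ μ := (integrable_finsetSum _ fun n _ => hei n).const_mul 2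
  have hφint : ∫ x, φ x ∂μ ≤ ε ^ 2 / 64 := by
    calc ∫ x, φ x ∂μ = 2 * ∑ n ∈ Finset.Icc (-(M : ℤ)) (M : ℤ), ∫ x, e n x ∂μ := by
          rw [hφ, integral_const_mul, integral_finsetSum _ fun n _ => hei n]
      _ ≤ 2 * ∑ n ∈ Finset.Icc (-(M : ℤ)) (M : ℤ), ε ^ 2 / (128 * (2 * (M : ℝ) + 1)) := by
          refine mul_le_mul_of_nonneg_left (Finset.sum_le_sum hint) (by norm_num)
      _ = ε ^ 2 / 64 := by
          rw [Finset.sum_const, card_Icc, nsmul_eq_mul]
          push_cast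
          field_simp
          ring
  -- the main part
  set g : ℤ → X → ℝ := fun r y =>
    GG L M (fun n j => c n j ((T ^ r) y)) (fun n j => c n j ((S ^ r) y)) with hg
  have hg0 : ∀ r y, 0 ≤ g r y := fun r y => LemB_GG_nonneg _ _ _ _
  have hg2 : ∀ r y, g r y ≤ 2 := fun r y =>
    LemB_GG_le L M (fun n => hc.bd n _) (fun n => hc.bd n _)
  set cc : (Finset.Icc (-(M : ℤ)) (M : ℤ) : Finset ℤ) × ι → X → ℂ := fun i => c i.1 i.2 with hcc
  have hgeq : ∀ r y, g r y = GG L M (LemB_ext M fun i => cc i ((T ^ r) y))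
      (LemB_ext M fun i => cc i ((S ^ r) y)) := fun r y => LemB_GG_eq hLM _ _
  have hgm : ∀ r, Measurable (g r) := by
    intro r
    have h1 : Measurable fun y => ((fun i => cc i ((T ^ r) y), fun i => cc i ((S ^ r) y)) :
        ((Finset.Icc (-(M : ℤ)) (M : ℤ) : Finset ℤ) × ι → ℂ) ×
        ((Finset.Icc (-(M : ℤ)) (M : ℤ) : Finset ℤ) × ι → ℂ)) := by
      refine Measurable.prodMk ?_ ?_
      · exact measurable_pi_lambda _ fun i => (hcm _ _).comp (hT.measurable r)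
      · exact measurable_pi_lambda _ fun i => (hcm _ _).comp (hS.measurable r)
    have h2 := (LemB_GG_cont (ι := ι) L M).measurable.comp h1
    have h3 : g r = (fun p : ((Finset.Icc (-(M : ℤ)) (M : ℤ) : Finset ℤ) × ι → ℂ) ×
      ((Finset.Icc (-(M : ℤ)) (M : ℤ) : Finset ℤ) × ι → ℂ) =>
      GG L M (LemB_ext M p.1) (LemB_ext M p.2)) ∘ (fun y => ((fun i => cc i ((T ^ r) y),
        fun i => cc i ((S ^ r) y)) : ((Finset.Icc (-(M : ℤ)) (M : ℤ) : Finset ℤ) × ι → ℂ) ×
        ((Finset.Icc (-(M : ℤ)) (M : ℤ) : Finset ℤ) × ι → ℂ))) := by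
      funext y
      exact hgeq r y
    rw [h3]
    exact h2
  have hgi : ∀ r, Integrable (g r) μ := by
    intro r
    refine Integrable.of_bound (hgm r).aestronglyMeasurable 2 (Eventually.of_forall fun x => ?_)
    rw [Real.norm_of_nonneg (hg0 r x)]
    exact hg2 r x
  have hcv : ∀ᵐ y ∂μ, CV fun R => av R fun r => g r y := by
    have hb : ∀ i x, ‖cc i x‖ ≤ 1 := by
      intro i x
      have h1 : ‖c i.1 i.2 x‖ ^ 2 ≤ 1 :=
        (Finset.single_le_sum (f := fun j => ‖c i.1 j x‖ ^ 2) (fun j _ => sq_nonneg _)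
          (Finset.mem_univ i.2)).trans (hc.bd i.1 x)
      have h2 : (0 : ℝ) ≤ ‖c i.1 i.2 x‖ := norm_nonneg _
      change ‖c i.1 i.2 x‖ ≤ 1
      nlinarith
    have h1 := sw (c := cc) hG (fun i => hc.meas _ _) hb
      (G := fun a b => GG L M (LemB_ext M a) (LemB_ext M b)) (LemB_GG_cont L M)
    filter_upwards [h1] with y hy
    simpa only [← hgeq] using hy
  set GR : ℕ → X → ℝ := fun R y => av R fun r => g r y with hGR
  have hGR0 : ∀ R y, 0 ≤ GR R y := fun R y => av_nonneg fun r _ => hg0 r y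
  have hGRi : ∀ R, Integrable (GR R) μ := by
    intro R
    simp only [hGR, av_eq_real]
    exact (integrable_finsetSum _ fun r _ => hgi r).const_mul _
  have hGRm : ∀ R, Measurable (GR R) := by
    intro R
    simp only [hGR, av_eq_real]
    exact (Finset.measurable_sum _ fun r _ => hgm r).const_mul _
  have hGRint : ∀ R, ∫ y, GR R y ∂μ = av R fun r => ∫ y, g r y ∂μ := by
    intro R
    simp only [hGR, av_eq_real]
    rw [integral_const_mul, integral_finsetSum _ fun r _ => hgi r]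
  set li : X → ℝ≥0∞ := fun y => liminf (fun R => ENNReal.ofReal (GR R y)) atTop with hli
  have hliint : ∫⁻ y, li y ∂μ ≤ ENNReal.ofReal (ε ^ 2 / 16) := by
    refine (lintegral_liminf_le fun R => (hGRm R).ennreal_ofReal).trans ?_
    refine liminf_le_of_frequently_le' ?_
    refine Eventually.frequently ?_
    filter_upwards [hgr] with R hR
    rw [← ofReal_integral_eq_lintegral_ofReal (hGRi R) (Eventually.of_forall fun y => hGR0 R y)]
    refine ENNReal.ofReal_le_ofReal ?_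
    rw [hGRint R]
    exact hR
  have hlim : Measurable li := Measurable.liminf fun R => (hGRm R).ennreal_ofReal
  have hmark : μ {y | ENNReal.ofReal (ε / 2) ≤ li y} ≤ ENNReal.ofReal (ε / 8) := by
    have h1 := mul_meas_ge_le_lintegral₀ (μ := μ) hlim.aemeasurable (ENNReal.ofReal (ε / 2))
    have h2 : ENNReal.ofReal (ε / 2) * μ {y | ENNReal.ofReal (ε / 2) ≤ li y} ≤
        ENNReal.ofReal (ε / 2) * ENNReal.ofReal (ε / 8) := by
      refine (h1.trans hliint).trans (le_of_eq ?_)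
      rw [← ENNReal.ofReal_mul (by positivity)]
      congr 1
      ring
    have h3 : ENNReal.ofReal (ε / 2) ≠ 0 := by
      rw [Ne, ENNReal.ofReal_eq_zero, not_le]; positivity
    exact (ENNReal.mul_le_mul_iff_right h3 ENNReal.ofReal_ne_top).1 h2
  -- assembling
  have hsub : {y | ¬ ∀ᶠ R in atTop, kb T (fun n x => f ((S ^ n) x)) L M R y ≤ ε} ⊆
      (({y | ENNReal.ofReal (ε / 2) ≤ li y} ∪ {y | ¬ CV fun R => GR R y}) ∪
      {x | ¬ ∀ᶠ R in atTop, (av R fun r => φ ((T ^ r) x)) ≤ ε / 4}) ∪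
      {x | ¬ ∀ᶠ R in atTop, (av R fun r => φ ((S ^ r) x)) ≤ ε / 4} := by
    intro y hy
    by_contra hcon
    simp only [Set.mem_union, not_or, Set.mem_ofPred_eq, not_not, not_le] at hcon
    obtain ⟨⟨⟨h1, h2⟩, h3⟩, h4⟩ := hcon
    apply hy
    obtain ⟨l, hl⟩ := h2
    have h5 : li y = ENNReal.ofReal l :=
      ((ENNReal.continuous_ofReal.tendsto l).comp hl).liminf_eq
    rw [h5] at h1
    have h6 : l < ε / 2 := by
      by_contra h7
      exact absurd h1 (not_lt.2 (ENNReal.ofReal_le_ofReal (not_lt.1 h7)))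
    filter_upwards [h3, h4, hl.eventually (gt_mem_nhds h6)] with R h7 h8 h9
    have h10 : kb T (fun n x => f ((S ^ n) x)) L M R y ≤
        av R fun r => g r y + (φ ((T ^ r) y) + φ ((S ^ r) y)) := by
      refine av_mono fun r _ => ?_
      refine (red (F := F) (c := c) hfb hFb hc.bd hLM r y).trans (le_of_eq ?_)
      rw [Finset.sum_add_distrib, mul_add]
    rw [av_add, av_add] at h10
    have h11 : GR R y < ε / 2 := h9
    simp only [hGR] at h11
    linarith
  refine (measure_mono hsub).trans ?_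
  refine (measure_union_le _ _).trans ?_
  refine (add_le_add ((measure_union_le _ _).trans (add_le_add ((measure_union_le _ _).trans
    (add_le_add hmark (le_of_eq hcv))) (limsup2 hT hφi hφ0 (by positivity : 0 < ε / 4))))
    (limsup2 hS hφi hφ0 (by positivity : 0 < ε / 4))).trans ?_
  have h12 : 4 * (∫ x, φ x ∂μ) / (ε / 4) ≤ ε / 4 := by
    rw [div_le_iff₀ (by positivity)]
    nlinarith
  rw [add_zero]
  refine (add_le_add (add_le_add le_rfl (ENNReal.ofReal_le_ofReal h12))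
    (ENNReal.ofReal_le_ofReal h12)).trans ?_
  rw [← ENNReal.ofReal_add (by positivity) (by positivity),
    ← ENNReal.ofReal_add (by positivity) (by positivity)]
  refine ENNReal.ofReal_le_ofReal ?_
  linarith

theorem lemB' (hS : MP μ S) (hT : MP μ T) (hST : Commute S T) (hG : Good m μ S T)
    (hf : Cpt m μ S f) {g : X → ℂ} (hg : Measurable g) (hgb : Bd g) :
    ∀ᵐ x ∂μ, CV fun N => AN S T f g N x := by
  have h := lemA (w := fun n x => f ((S ^ n) x)) hT (fun n => hf.meas.comp (hS.measurable n))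
    (fun n x => hf.bd _) (lemB hS hT hST hG hf) hg hgb
  exact h

end Pool.DRT
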