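import Pool.Agent.DRT.PSD
import Pool.Agent.DRT.Toep

set_option autoImplicit false

/-!
# Existence of the limit of `hC m μ S f g J`

PROOFS. `ta_shift`: `f_j conj f_l = (f conj f_{l-j}) ∘ S^j`, `ce_comp`, and `S^j` preserves `μ`.
`hC_diff`: `hC J - hC J' = ∑_{|j| ≤ K} (uw J j - uw J' j) f_j ce(conj f_j g)` for `J, J' ≤ K`; `psd_ineq` and `ta_shift`.
`hC_sq`: the same with `uw J`.  `ta_pos`: `psd_ineq` with `f_j = f ∘ S^j` (any `g`, e.g. `g = 0`): the left side is
nonnegative.  `|ta k| ≤ 1`.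
`exists_lim`: by `toep`, `hC J` is Cauchy in `L²(μ)`; it has a limit `h'` (completeness of `Lp 2`, or
Riesz-Fischer), `‖hC J x‖ ≤ 1`, so `‖h'‖ ≤ 1` a.e. (a subsequence converges a.e.); take a measurable
representative and put it equal to `0` where its norm is `> 1`.
-/

open MeasureTheory Filter Topology
open scoped ComplexConjugate NNReal ENNReal

noncomputable section

namespace Pool.DRT

variable {X : Type*} {m : MeasurableSpace X} [mX : MeasurableSpace X] {μ : Measure X}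
  [IsProbabilityMeasure μ] {S : Equiv.Perm X} {f g : X → ℂ}

omit [IsProbabilityMeasure μ] in
theorem hC_bd (hb : Bd f) (J : ℕ) (x : X) : ‖hC m μ S f g J x‖ ≤ 1 := by
  unfold hC
  refine norm_av_le_of_le fun j _ => ?_
  rw [norm_mul]
  exact mul_le_one₀ (hb _) (norm_nonneg _) (ce_bd _ _)

theorem hC_meas (hm : m ≤ mX) (hS : MP μ S) (hf : Measurable f) (J : ℕ) :
    Measurable (hC m μ S f g J) := by
  have h1 : ∀ j ∈ Finset.Icc (-(J : ℤ)) (J : ℤ), Measurable fun x =>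
      f ((S ^ j) x) * ce m μ (fun z => conj (f ((S ^ j) z)) * g z) x := fun j _ =>
    (hf.comp (hS.measurable j)).mul ((ce_meas _).mono hm le_rfl)
  exact (Finset.measurable_fun_sum _ h1).const_smul ((2 * (J : ℝ) + 1)⁻¹)

theorem ta_shift (hm : m ≤ mX) (hS : MP μ S) (hI : Inv m S) (hf : Measurable f) (hb : Bd f)
    (j l : ℤ) :
    ∫ x, ‖ce m μ (fun z => f ((S ^ j) z) * conj (f ((S ^ l) z))) x‖ ^ 2 ∂μ =
      ta m μ S f (l - j) := by
  set F : X → ℂ := fun z => f z * conj (f ((S ^ (l - j)) z)) with hF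
  have hFm : Measurable F :=
    hf.mul (Complex.continuous_conj.measurable.comp (hf.comp (hS.measurable _)))
  have hFb : Bd F := by
    intro x
    rw [hF]
    simp only [norm_mul, RCLike.norm_conj]
    exact mul_le_one₀ (hb _) (norm_nonneg _) (hb _)
  have h1 : (fun z => f ((S ^ j) z) * conj (f ((S ^ l) z))) = fun x => F ((S ^ j) x) := by
    funext z
    simp only [hF]
    rw [← zpow_add_apply, sub_add_cancel]
  have h2 := ce_comp hm hS hI hFm hFb j
  rw [h1]
  have h3 : ∫ x, ‖ce m μ (fun x => F ((S ^ j) x)) x‖ ^ 2 ∂μ =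
      ∫ x, ‖ce m μ F ((S ^ j) x)‖ ^ 2 ∂μ := by
    apply integral_congr_ae
    filter_upwards [h2] with x hx
    rw [hx]
  rw [h3]
  have h4 : Measurable fun x => ‖ce m μ F x‖ ^ 2 :=
    (((ce_meas F).mono hm le_rfl).norm).pow_const 2
  have h5 := integral_map (μ := μ) (hS.measurable j).aemeasurable
    (f := fun x => ‖ce m μ F x‖ ^ 2) h4.aestronglyMeasurable
  rw [(hS.zpow j).map_eq] at h5
  rw [← h5]
  rfl

private lemma LemC1_psd (hm : m ≤ mX) (hS : MP μ S) (hI : Inv m S) (hf : Measurable f)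
    (hb : Bd f) (hg : Measurable g) (hgb : Bd g) (K : ℕ) (a : ℤ → ℝ) :
    ∫ x, ‖∑ j ∈ Finset.Icc (-(K : ℤ)) (K : ℤ), (a j : ℂ) *
      (f ((S ^ j) x) * ce m μ (fun z => conj (f ((S ^ j) z)) * g z) x)‖ ^ 2 ∂μ ≤
      tf (ta m μ S f) K a := by
  have h1 := psd_ineq (μ := μ) hm (Finset.Icc (-(K : ℤ)) (K : ℤ)) a (f := fun j x => f ((S ^ j) x))
    (fun j => hf.comp (hS.measurable j)) (fun j x => hb _) hg hgb
  refine h1.trans (le_of_eq ?_)
  unfold tf
  refine Finset.sum_congr rfl fun j _ => Finset.sum_congr rfl fun l _ => ?_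
  rw [ta_shift hm hS hI hf hb j l]

theorem ta_pos (hm : m ≤ mX) (hS : MP μ S) (hI : Inv m S) (hf : Measurable f) (hb : Bd f)
    (K : ℕ) (a : ℤ → ℝ) : 0 ≤ tf (ta m μ S f) K a := by
  refine le_trans (integral_nonneg fun x => by positivity)
    (LemC1_psd hm hS hI hf hb (g := fun _ => 0) measurable_const (fun x => by simp) K a)

private lemma LemC1_av (J K : ℕ) (hJ : J ≤ K) (b : ℤ → ℂ) :
    av J b = ∑ j ∈ Finset.Icc (-(K : ℤ)) (K : ℤ), (uw J j : ℂ) * b j := by
  rw [av_eq, Finset.mul_sum]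
  have hsub : Finset.Icc (-(J : ℤ)) (J : ℤ) ⊆ Finset.Icc (-(K : ℤ)) (K : ℤ) := by
    intro n hn
    rw [Finset.mem_Icc] at hn ⊢
    constructor <;> omega
  rw [← Finset.sum_subset hsub (f := fun j => (uw J j : ℂ) * b j)]
  · refine Finset.sum_congr rfl fun n hn => ?_
    rw [Finset.mem_Icc] at hn
    have h1 : n.natAbs ≤ J := by omega
    unfold uw
    rw [if_pos h1]
    push_cast
    rfl
  · intro n _ hn
    have h1 : ¬ n.natAbs ≤ J := by
      intro h
      exact hn (Finset.mem_Icc.2 ⟨by omega, by omega⟩)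
    unfold uw
    rw [if_neg h1]
    simp

theorem hC_diff (hm : m ≤ mX) (hS : MP μ S) (hI : Inv m S) (hf : Measurable f) (hb : Bd f)
    (hg : Measurable g) (hgb : Bd g) {J J' K : ℕ} (hJ : J ≤ K) (hJ' : J' ≤ K) :
    ∫ x, ‖hC m μ S f g J x - hC m μ S f g J' x‖ ^ 2 ∂μ ≤
      tf (ta m μ S f) K fun k => uw J k - uw J' k := by
  refine le_trans (le_of_eq ?_)
    (LemC1_psd hm hS hI hf hb hg hgb K fun k => uw J k - uw J' k)
  apply integral_congr_ae
  filter_upwards with x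
  congr 2
  unfold hC
  rw [LemC1_av J K hJ, LemC1_av J' K hJ', ← Finset.sum_sub_distrib]
  refine Finset.sum_congr rfl fun j _ => ?_
  push_cast
  ring

theorem hC_sq (hm : m ≤ mX) (hS : MP μ S) (hI : Inv m S) (hf : Measurable f) (hb : Bd f)
    (hg : Measurable g) (hgb : Bd g) (J : ℕ) :
    ∫ x, ‖hC m μ S f g J x‖ ^ 2 ∂μ ≤ tf (ta m μ S f) J (uw J) := by
  refine le_trans (le_of_eq ?_) (LemC1_psd hm hS hI hf hb hg hgb J (uw J))
  apply integral_congr_ae
  filter_upwards with x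
  congr 2
  unfold hC
  rw [LemC1_av J J le_rfl]

private lemma LemC1_norm_sq (u : Lp ℂ 2 μ) : ‖u‖ ^ 2 = ∫ x, ‖u x‖ ^ 2 ∂μ := by
  have h := L2.inner_def (𝕜 := ℂ) u u
  rw [inner_self_eq_norm_sq_to_K] at h
  have h2 : ∫ a, (inner ℂ (u a) (u a) : ℂ) ∂μ = ((∫ x, ‖u x‖ ^ 2 ∂μ : ℝ) : ℂ) := by
    rw [← integral_complex_ofReal]
    refine integral_congr_ae (Filter.Eventually.of_forall fun x => ?_)
    simp only [inner_self_eq_norm_sq_to_K]
    push_cast
    rfl
  rw [h2] at h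
  exact Complex.ofReal_injective (by rw [Complex.ofReal_pow]; exact h)

private lemma LemC1_ta_le (k : ℤ) : |ta m μ S f k| ≤ 1 := by
  unfold ta
  have h := norm_integral_le_of_norm_le_const (μ := μ) (C := 1)
    (f := fun x => ‖ce m μ (fun z => f z * conj (f ((S ^ k) z))) x‖ ^ 2)
    (Filter.Eventually.of_forall fun x => by
      rw [Real.norm_of_nonneg (by positivity)]
      exact pow_le_one₀ (norm_nonneg _) (ce_bd _ _))
  simpa using h

theorem exists_lim (hm : m ≤ mX) (hS : MP μ S) (hI : Inv m S) (hf : Measurable f) (hb : Bd f)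
    (hg : Measurable g) (hgb : Bd g) :
    ∃ h : X → ℂ, Measurable h ∧ Bd h ∧
      Tendsto (fun J => ∫ x, ‖hC m μ S f g J x - h x‖ ^ 2 ∂μ) atTop (𝓝 0) := by
  have hmem : ∀ J, MemLp (hC m μ S f g J) 2 μ := fun J =>
    MemLp.of_bound (hC_meas hm hS hf J).aestronglyMeasurable 1
      (Filter.Eventually.of_forall fun x => hC_bd hb J x)
  set u : ℕ → Lp ℂ 2 μ := fun J => (hmem J).toLp with hu
  have hae : ∀ J, (u J : X → ℂ) =ᵐ[μ] hC m μ S f g J := fun J => (hmem J).coeFn_toLp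
  have hdiff : ∀ J J', ‖u J - u J'‖ ^ 2 = ∫ x, ‖hC m μ S f g J x - hC m μ S f g J' x‖ ^ 2 ∂μ := by
    intro J J'
    rw [LemC1_norm_sq]
    apply integral_congr_ae
    filter_upwards [Lp.coeFn_sub (u J) (u J'), hae J, hae J'] with x h1 h2 h3
    rw [h1, Pi.sub_apply, h2, h3]
  have hC : CauchySeq u := by
    rw [Metric.cauchySeq_iff]
    intro ε hε
    obtain ⟨H₀, hH⟩ := toep (ta m μ S f) (fun k => LemC1_ta_le k)
      (fun K a => ta_pos hm hS hI hf hb K a) (ε := (ε / 2) ^ 2) (by positivity)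
    refine ⟨H₀, fun J hJ J' hJ' => ?_⟩
    rw [dist_eq_norm]
    have h1 := hH J J' (max J J') hJ hJ' (le_max_left _ _) (le_max_right _ _)
    have h2 := hC_diff hm hS hI hf hb hg hgb (le_max_left J J') (le_max_right J J')
    rw [← hdiff] at h2
    have h3 : ‖u J - u J'‖ ≤ ε / 2 :=
      (sq_le_sq₀ (norm_nonneg _) (by positivity)).1 (h2.trans h1)
    linarith
  obtain ⟨v, hv⟩ := cauchySeq_tendsto_of_complete hC
  have hvm : Measurable (v : X → ℂ) := (Lp.stronglyMeasurable v).measurable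
  have hvb : ∀ᵐ x ∂μ, ‖v x‖ ≤ 1 := by
    obtain ⟨ns, _, hns⟩ := (tendstoInMeasure_of_tendsto_Lp hv).exists_seq_tendsto_ae
    filter_upwards [hns, ae_all_iff.2 hae] with x h1 h2
    refine le_of_tendsto h1.norm (Filter.Eventually.of_forall fun i => ?_)
    show ‖u (ns i) x‖ ≤ 1
    rw [h2 (ns i)]
    exact hC_bd hb _ x
  refine ⟨fun x => if ‖v x‖ ≤ 1 then v x else 0, ?_, ?_, ?_⟩
  · exact Measurable.ite (measurableSet_le hvm.norm measurable_const) hvm measurable_const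
  · intro x
    by_cases h : ‖v x‖ ≤ 1
    · simp only [h, if_true]
    · simp only [h, if_false, norm_zero, zero_le_one]
  · have h1 : ∀ J, ∫ x, ‖Pool.DRT.hC m μ S f g J x - (if ‖v x‖ ≤ 1 then v x else 0)‖ ^ 2 ∂μ =
        ‖u J - v‖ ^ 2 := by
      intro J
      rw [LemC1_norm_sq]
      apply integral_congr_ae
      filter_upwards [Lp.coeFn_sub (u J) v, hae J, hvb] with x h1 h2 h3
      rw [h1, Pi.sub_apply, h2, if_pos h3]
    simp only [h1]
    have h2 := (tendsto_iff_norm_sub_tendsto_zero.1 hv).pow 2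
    simpa using h2

end Pool.DRT
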