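import Pool.Agent.DRT.LemC1

set_option autoImplicit false

/-!
# The limit for `g = f` is relatively compact

PROOF. Let `h` be the limit of `hC m μ S f f J` (`exists_lim`).  Write `f_n = f ∘ S^n`.
SHIFT: for each `n`, `hC m μ S f f_n J → h ∘ S^n` in `L²`: `hC m μ S f f J (S^n x) = av J (f_{j+n}(x) ce(conj f_j f)(S^n x))`
`= av J (f_{j+n} ce(conj f_{j+n} f_n))` a.e. (`ce_comp`), which is `hC m μ S f f_n J` with the index shifted by `n`; the
difference is at most `2|n|/(2J+1)` (`norm_av_shift_sub`).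
KERNEL: `q k = ce (fun x => h x * conj (f_k x))`, `m`-measurable and bounded by one.
APPROXIMATION for `(M, ε)`: take `J` large, index set `ι = {j // |j| ≤ J}` (the subtype of `Finset.Icc (-J) J`),
`F j = f_j / √(2J+1)`, `c n j = ce(conj f_j f_n)/√(2J+1)`.  Then `∑ |F_j|² ≤ 1`, `∑ |c_{n,j}|² ≤ 1` everywhere (`ce_bd`),
`∑_j F_j c_{n,j} = hC m μ S f f_n J → h ∘ S^n` in `L²` for the finitely many `|n| ≤ M`.
`∑_j c_{n,j} conj c_{n',j} = av J (ce(conj f_j f_n) conj ce(conj f_j f_n')) = av J (ce(conj f_j f_n) ce(f_j conj f_n'))`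
`= av J (ce( f_j ce(conj f_j f_n) conj f_n' )) = ce( hC m μ S f f_n J * conj f_n' )` a.e. (`ce_conj`, `ce_mul`, `ce_av`), which tends in
`L²`, so in `L¹`, to `ce( (h ∘ S^n) conj f_n' ) = q (n'-n) ∘ S^n` (`ce_sub_l2`, `ce_comp`).
-/

open MeasureTheory Filter Topology
open scoped ComplexConjugate NNReal ENNReal

noncomputable section

namespace Pool.DRT

variable {X : Type*} {m : MeasurableSpace X} [mX : MeasurableSpace X] {μ : Measure X}
  [IsProbabilityMeasure μ] {S : Equiv.Perm X} {f g : X → ℂ}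

omit mX in
/-- products of functions bounded by one -/
theorem LemC2_bd_mul {u v : X → ℂ} (hu : Bd u) (hv : Bd v) : Bd fun x => u x * v x := by
  intro x
  rw [norm_mul]
  calc ‖u x‖ * ‖v x‖ ≤ 1 * 1 := mul_le_mul (hu x) (hv x) (norm_nonneg _) zero_le_one
    _ = 1 := one_mul 1

omit mX in
theorem LemC2_bd_conj {u : X → ℂ} (hu : Bd u) : Bd fun x => conj (u x) := by
  intro x
  rw [RCLike.norm_conj]
  exact hu x

theorem LemC2_meas_conj {u : X → ℂ} (hu : Measurable u) : Measurable fun x => conj (u x) :=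
  Complex.continuous_conj.measurable.comp hu

/-- bounded measurable functions have integrable squares of differences -/
theorem LemC2_int {u v : X → ℂ} (hu : Measurable u) (hv : Measurable v) (hub : Bd u)
    (hvb : Bd v) : Integrable (fun x => ‖u x - v x‖ ^ 2) μ := by
  refine Integrable.of_bound ((hu.sub hv).norm.pow_const 2).aestronglyMeasurable 4
    (Eventually.of_forall fun x => ?_)
  have h1 : ‖u x - v x‖ ≤ 2 := (norm_sub_le _ _).trans (by linarith [hub x, hvb x])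
  rw [Real.norm_of_nonneg (by positivity)]
  nlinarith [norm_nonneg (u x - v x)]

theorem LemC2_int1 {u v : X → ℂ} (hu : Measurable u) (hv : Measurable v) (hub : Bd u)
    (hvb : Bd v) : Integrable (fun x => ‖u x - v x‖) μ := by
  refine Integrable.of_bound ((hu.sub hv).norm).aestronglyMeasurable 2
    (Eventually.of_forall fun x => ?_)
  have h1 : ‖u x - v x‖ ≤ 2 := (norm_sub_le _ _).trans (by linarith [hub x, hvb x])
  rw [Real.norm_of_nonneg (by positivity)]
  exact h1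

/-- the `L¹` norm is at most the `L²` norm -/
theorem LemC2_l1_l2 {u v : X → ℂ} (hu : Measurable u) (hv : Measurable v) (hub : Bd u)
    (hvb : Bd v) : (∫ x, ‖u x - v x‖ ∂μ) ^ 2 ≤ ∫ x, ‖u x - v x‖ ^ 2 ∂μ := by
  have h1 := LemC2_int1 (μ := μ) hu hv hub hvb
  have h2 := LemC2_int (μ := μ) hu hv hub hvb
  set c : ℝ := ∫ x, ‖u x - v x‖ ∂μ with hc
  have h3 : 0 ≤ ∫ x, (‖u x - v x‖ - c) ^ 2 ∂μ := integral_nonneg fun x => by positivity
  have h4 : ∫ x, (‖u x - v x‖ - c) ^ 2 ∂μ = ∫ x, ‖u x - v x‖ ^ 2 ∂μ - 2 * c * c + c ^ 2 := by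
    have h5 : (fun x => (‖u x - v x‖ - c) ^ 2) =
        fun x => (‖u x - v x‖ ^ 2 - (2 * c) * ‖u x - v x‖) + c ^ 2 := by
      ext x; ring
    have h6 : Integrable (fun x => (2 * c) * ‖u x - v x‖) μ := h1.const_mul _
    have h7 : Integrable (fun x => ‖u x - v x‖ ^ 2 - (2 * c) * ‖u x - v x‖) μ := h2.sub h6
    have h8 : ∫ _ : X, c ^ 2 ∂μ = c ^ 2 := by
      rw [integral_const]; simp
    rw [h5, integral_add h7 (integrable_const _), integral_sub h2 h6, integral_const_mul, ← hc, h8]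
  rw [h4] at h3
  nlinarith

/-- the shift of the averages -/
theorem LemC2_shift_ae (hm : m ≤ mX) (hS : MP μ S) (hI : Inv m S) (hf : Measurable f) (hb : Bd f)
    (n : ℤ) (J : ℕ) :
    ∀ᵐ x ∂μ, ‖hC m μ S f f J ((S ^ n) x) - hC m μ S f (fun z => f ((S ^ n) z)) J x‖ ≤
      2 * |(n : ℝ)| * 1 / (2 * (J : ℝ) + 1) := by
  have hfm : ∀ k : ℤ, Measurable fun z => f ((S ^ k) z) := fun k => hf.comp (hS.measurable k)
  have hfb : ∀ k : ℤ, Bd fun z => f ((S ^ k) z) := fun k x => hb _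
  have h1 : ∀ᵐ x ∂μ, ∀ j : ℤ,
      ce m μ (fun z => conj (f ((S ^ (j + n)) z)) * f ((S ^ n) z)) x =
        ce m μ (fun z => conj (f ((S ^ j) z)) * f z) ((S ^ n) x) := by
    rw [ae_all_iff]
    intro j
    have h2 := ce_comp (m := m) (μ := μ) (S := S)
      (f := fun z => conj (f ((S ^ j) z)) * f z) hm hS hI
      ((LemC2_meas_conj (hfm j)).mul hf) (LemC2_bd_mul (LemC2_bd_conj (hfb j)) hb) n
    have h3 : (fun z => conj (f ((S ^ (j + n)) z)) * f ((S ^ n) z)) =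
        fun z => (fun z => conj (f ((S ^ j) z)) * f z) ((S ^ n) z) := by
      ext z; simp only [zpow_add_apply]
    rw [h3]
    exact h2
  filter_upwards [h1] with x hx
  have h4 : hC m μ S f f J ((S ^ n) x) =
      av J fun j => (fun j => f ((S ^ j) x) *
        ce m μ (fun z => conj (f ((S ^ j) z)) * f ((S ^ n) z)) x) (j + n) := by
    unfold hC
    apply av_congr
    intro j _
    show _ = f ((S ^ (j + n)) x) *
        ce m μ (fun z => conj (f ((S ^ (j + n)) z)) * f ((S ^ n) z)) x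
    rw [hx j, zpow_add_apply]
  rw [h4]
  exact norm_av_shift_sub J n
    (a := fun j => f ((S ^ j) x) *
        ce m μ (fun z => conj (f ((S ^ j) z)) * f ((S ^ n) z)) x)
    fun j => LemC2_bd_mul (hfb j) (ce_bd _) x

theorem LemC2_shift (hm : m ≤ mX) (hS : MP μ S) (hI : Inv m S) (hf : Measurable f) (hb : Bd f)
    {h : X → ℂ} (hh : Measurable h) (hhb : Bd h)
    (hlim : Tendsto (fun J => ∫ x, ‖hC m μ S f f J x - h x‖ ^ 2 ∂μ) atTop (𝓝 0)) (n : ℤ) :
    Tendsto (fun J => ∫ x, ‖hC m μ S f (fun z => f ((S ^ n) z)) J x - h ((S ^ n) x)‖ ^ 2 ∂μ)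
      atTop (𝓝 0) := by
  have hmp := hS.zpow n
  have hb1 : ∀ J : ℕ, ∫ x, ‖hC m μ S f (fun z => f ((S ^ n) z)) J x - h ((S ^ n) x)‖ ^ 2 ∂μ ≤
      2 * (2 * |(n : ℝ)| * 1 / (2 * (J : ℝ) + 1)) ^ 2 +
        2 * ∫ x, ‖hC m μ S f f J x - h x‖ ^ 2 ∂μ := by
    intro J
    have hi1 : Integrable (fun x => ‖hC m μ S f f J x - h x‖ ^ 2) μ :=
      LemC2_int (hC_meas hm hS hf J) hh (hC_bd hb J) hhb
    have hi2 : Integrable (fun x => ‖hC m μ S f f J ((S ^ n) x) - h ((S ^ n) x)‖ ^ 2) μ :=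
      hmp.integrable_comp_of_integrable hi1
    have hi3 : Integrable (fun x =>
        ‖hC m μ S f (fun z => f ((S ^ n) z)) J x - h ((S ^ n) x)‖ ^ 2) μ :=
      LemC2_int (hC_meas hm hS hf J) (hh.comp (hS.measurable n)) (hC_bd hb J) fun x => hhb _
    have he : ∫ x, ‖hC m μ S f f J ((S ^ n) x) - h ((S ^ n) x)‖ ^ 2 ∂μ =
        ∫ x, ‖hC m μ S f f J x - h x‖ ^ 2 ∂μ := by
      have hm1 : AEStronglyMeasurable (fun x => ‖hC m μ S f f J x - h x‖ ^ 2)
          (Measure.map (S ^ n : Equiv.Perm X) μ) := by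
        rw [hmp.map_eq]; exact hi1.aestronglyMeasurable
      have h6 := integral_map (μ := μ) hmp.measurable.aemeasurable hm1
      rw [hmp.map_eq] at h6
      exact h6.symm
    rw [← he, ← integral_const_mul]
    have hc : (2 * (2 * |(n : ℝ)| * 1 / (2 * (J : ℝ) + 1)) ^ 2 : ℝ) =
        ∫ x : X, 2 * (2 * |(n : ℝ)| * 1 / (2 * (J : ℝ) + 1)) ^ 2 ∂μ := by
      rw [integral_const]; simp
    rw [hc, ← integral_add (integrable_const _) (hi2.const_mul _)]
    apply integral_mono_ae hi3 ((integrable_const _).add (hi2.const_mul _))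
    filter_upwards [LemC2_shift_ae hm hS hI hf hb n J] with x hx
    set A := hC m μ S f f J ((S ^ n) x)
    set B := hC m μ S f (fun z => f ((S ^ n) z)) J x
    set D := h ((S ^ n) x)
    set δ := 2 * |(n : ℝ)| * 1 / (2 * (J : ℝ) + 1)
    have h7 : ‖B - D‖ ≤ ‖A - B‖ + ‖A - D‖ := by
      calc ‖B - D‖ = ‖-(A - B) + (A - D)‖ := by congr 1; ring
        _ ≤ ‖-(A - B)‖ + ‖A - D‖ := norm_add_le _ _
        _ = _ := by rw [norm_neg]
    have h8 : ‖B - D‖ ≤ δ + ‖A - D‖ := h7.trans (by linarith)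
    have h9 : ‖B - D‖ ^ 2 ≤ (δ + ‖A - D‖) ^ 2 := pow_le_pow_left₀ (norm_nonneg _) h8 2
    calc ‖B - D‖ ^ 2 ≤ (δ + ‖A - D‖) ^ 2 := h9
      _ ≤ 2 * δ ^ 2 + 2 * ‖A - D‖ ^ 2 := by nlinarith [sq_nonneg (δ - ‖A - D‖)]
  have hl1 : Tendsto (fun J : ℕ => 2 * |(n : ℝ)| * 1 / (2 * (J : ℝ) + 1)) atTop (𝓝 0) := by
    apply Tendsto.div_atTop tendsto_const_nhds
    apply tendsto_atTop_add_const_right
    exact Tendsto.const_mul_atTop (by norm_num) tendsto_natCast_atTop_atTop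
  have hl2 : Tendsto (fun J : ℕ => 2 * (2 * |(n : ℝ)| * 1 / (2 * (J : ℝ) + 1)) ^ 2 +
        2 * ∫ x, ‖hC m μ S f f J x - h x‖ ^ 2 ∂μ) atTop (𝓝 0) := by
    have := ((hl1.pow 2).const_mul 2).add (hlim.const_mul 2)
    simpa using this
  exact squeeze_zero (fun J => integral_nonneg fun x => by positivity) hb1 hl2

/-- the Gram matrix of the coefficients -/
theorem LemC2_gram (hm : m ≤ mX) (hS : MP μ S) (hf : Measurable f) (hb : Bd f)
    (n n' : ℤ) (J : ℕ) :
    (fun x => av J fun j => ce m μ (fun z => conj (f ((S ^ j) z)) * f ((S ^ n) z)) x *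
        conj (ce m μ (fun z => conj (f ((S ^ j) z)) * f ((S ^ n') z)) x)) =ᵐ[μ]
      ce m μ (fun x => hC m μ S f (fun z => f ((S ^ n) z)) J x * conj (f ((S ^ n') x))) := by
  have hfm : ∀ k : ℤ, Measurable fun z => f ((S ^ k) z) := fun k => hf.comp (hS.measurable k)
  have hfb : ∀ k : ℤ, Bd fun z => f ((S ^ k) z) := fun k x => hb _
  set a : ℤ → X → ℂ := fun j => ce m μ (fun z => conj (f ((S ^ j) z)) * f ((S ^ n) z)) with ha
  have ham : ∀ j, Measurable[m] (a j) := fun j => ce_meas _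
  have ham' : ∀ j, Measurable (a j) := fun j => (ham j).mono hm le_rfl
  have hab : ∀ j, Bd (a j) := fun j => ce_bd _
  have h1 : ∀ᵐ x ∂μ, ∀ j : ℤ,
      a j x * conj (ce m μ (fun z => conj (f ((S ^ j) z)) * f ((S ^ n') z)) x) =
        ce m μ (fun z => a j z * (f ((S ^ j) z) * conj (f ((S ^ n') z)))) x := by
    rw [ae_all_iff]
    intro j
    have h2 := ce_conj (m := m) (μ := μ) (f := fun z => conj (f ((S ^ j) z)) * f ((S ^ n') z)) hm
      ((LemC2_meas_conj (hfm j)).mul (hfm n')) (LemC2_bd_mul (LemC2_bd_conj (hfb j)) (hfb n'))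
    have h3 := ce_mul (m := m) (μ := μ) (a := a j)
      (f := fun z => f ((S ^ j) z) * conj (f ((S ^ n') z))) hm (ham j) (hab j)
      ((hfm j).mul (LemC2_meas_conj (hfm n'))) (LemC2_bd_mul (hfb j) (LemC2_bd_conj (hfb n')))
    have h4 : (fun x => conj ((fun z => conj (f ((S ^ j) z)) * f ((S ^ n') z)) x)) =
        fun z => f ((S ^ j) z) * conj (f ((S ^ n') z)) := by
      ext z; simp
    rw [h4] at h2
    filter_upwards [h2, h3] with x hx2 hx3
    rw [hx3, hx2]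
  have h5 := ce_av (m := m) (μ := μ) (F := fun j z => a j z * (f ((S ^ j) z) * conj (f ((S ^ n') z))))
    hm (fun j => (ham' j).mul ((hfm j).mul (LemC2_meas_conj (hfm n'))))
    (fun j => LemC2_bd_mul (hab j) (LemC2_bd_mul (hfb j) (LemC2_bd_conj (hfb n')))) J
  have h6 : (fun x => hC m μ S f (fun z => f ((S ^ n) z)) J x * conj (f ((S ^ n') x))) =
      fun x => av J fun j => a j x * (f ((S ^ j) x) * conj (f ((S ^ n') x))) := by
    ext x
    unfold hC
    rw [← av_mul_right]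
    apply av_congr
    intro j _
    simp only [ha]
    ring
  rw [h6]
  filter_upwards [h1, h5] with x hx1 hx5
  rw [hx5]
  apply av_congr
  intro j _
  exact hx1 j

theorem cptC (hm : m ≤ mX) (hS : MP μ S) (hI : Inv m S) (hf : Measurable f) (hb : Bd f) :
    ∃ h : X → ℂ, Cpt m μ S h ∧
      Tendsto (fun J => ∫ x, ‖hC m μ S f f J x - h x‖ ^ 2 ∂μ) atTop (𝓝 0) := by
  obtain ⟨h, hh, hhb, hlim⟩ := exists_lim (g := f) hm hS hI hf hb hf hb
  have hfm : ∀ k : ℤ, Measurable fun z => f ((S ^ k) z) := fun k => hf.comp (hS.measurable k)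
  have hfb : ∀ k : ℤ, Bd fun z => f ((S ^ k) z) := fun k x => hb _
  have hhm : ∀ k : ℤ, Measurable fun z => h ((S ^ k) z) := fun k => hh.comp (hS.measurable k)
  have hhbn : ∀ k : ℤ, Bd fun z => h ((S ^ k) z) := fun k x => hhb _
  refine ⟨h, ⟨hh, hhb, fun k => ce m μ fun x => h x * conj (f ((S ^ k) x)), fun k => ce_meas _,
    fun k => ce_bd _, ?_⟩, hlim⟩
  intro M ε hε
  have hε2 : 0 < min ε (ε ^ 2) := lt_min hε (by positivity)
  have hev : ∀ᶠ J in atTop, ∀ n ∈ Finset.Icc (-(M : ℤ)) M,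
      ∫ x, ‖hC m μ S f (fun z => f ((S ^ n) z)) J x - h ((S ^ n) x)‖ ^ 2 ∂μ < min ε (ε ^ 2) := by
    rw [Filter.eventually_all_finset]
    intro n _
    exact (LemC2_shift hm hS hI hf hb hh hhb hlim n).eventually_lt_const hε2
  obtain ⟨J, hJ⟩ := hev.exists
  have hpos : (0 : ℝ) < 2 * (J : ℝ) + 1 := av_pos J
  set s : ℝ := (Real.sqrt (2 * (J : ℝ) + 1))⁻¹ with hs
  have hs0 : 0 ≤ s := by positivity
  have hss : s * s = (2 * (J : ℝ) + 1)⁻¹ := by
    rw [hs, ← mul_inv, Real.mul_self_sqrt hpos.le]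
  have hsc : (s : ℂ) * (s : ℂ) = (2 * (J : ℂ) + 1)⁻¹ := by
    rw [← Complex.ofReal_mul, hss]; push_cast; rfl
  -- squares of normalised bounded families
  have hsum : ∀ G : ℤ → ℂ, (∀ j, ‖G j‖ ≤ 1) →
      ∑ j : (Finset.Icc (-(J : ℤ)) (J : ℤ)), ‖G j * (s : ℂ)‖ ^ 2 ≤ 1 := by
    intro G hG
    rw [Finset.sum_coe_sort (Finset.Icc (-(J : ℤ)) (J : ℤ)) (fun j => ‖G j * (s : ℂ)‖ ^ 2)]
    calc ∑ j ∈ Finset.Icc (-(J : ℤ)) (J : ℤ), ‖G j * (s : ℂ)‖ ^ 2
        ≤ ∑ j ∈ Finset.Icc (-(J : ℤ)) (J : ℤ), (2 * (J : ℝ) + 1)⁻¹ := by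
          apply Finset.sum_le_sum
          intro j _
          rw [norm_mul, Complex.norm_real, Real.norm_of_nonneg hs0, mul_pow, sq s, hss]
          have h1 : ‖G j‖ ^ 2 ≤ 1 := pow_le_one₀ (norm_nonneg _) (hG j)
          have h2 : (0 : ℝ) ≤ (2 * (J : ℝ) + 1)⁻¹ := by positivity
          nlinarith
      _ = 1 := by
          rw [Finset.sum_const, card_Icc, nsmul_eq_mul]
          push_cast
          exact mul_inv_cancel₀ hpos.ne'
  -- sums of products
  have hprod : ∀ G H : ℤ → ℂ,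
      ∑ j : (Finset.Icc (-(J : ℤ)) (J : ℤ)), (G j * (s : ℂ)) * (H j * (s : ℂ)) =
        av J fun j => G j * H j := by
    intro G H
    rw [Finset.sum_coe_sort (Finset.Icc (-(J : ℤ)) (J : ℤ))
      (fun j => (G j * (s : ℂ)) * (H j * (s : ℂ))), av_eq, Finset.mul_sum]
    apply Finset.sum_congr rfl
    intro j _
    rw [← hsc]
    ring
  refine ⟨(Finset.Icc (-(J : ℤ)) (J : ℤ)), inferInstance,
    fun j x => f ((S ^ (j : ℤ)) x) * (s : ℂ),
    fun n j x => ce m μ (fun z => conj (f ((S ^ (j : ℤ)) z)) * f ((S ^ n) z)) x * (s : ℂ),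
    fun j => (hfm j).mul_const _, fun x => hsum (fun j => f ((S ^ j) x)) fun j => hb _,
    ⟨?_, ?_, ?_⟩, ?_⟩
  · intro n j
    exact (ce_meas _).mul_const _
  · intro n x
    exact hsum (fun j => ce m μ (fun z => conj (f ((S ^ j) z)) * f ((S ^ n) z)) x)
      fun j => ce_bd _ x
  · intro n hn n' _
    set u : X → ℂ := fun x => hC m μ S f (fun z => f ((S ^ n) z)) J x * conj (f ((S ^ n') x))
      with hu
    set v : X → ℂ := fun x => h ((S ^ n) x) * conj (f ((S ^ n') x)) with hv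
    have hum : Measurable u := (hC_meas hm hS hf J).mul (LemC2_meas_conj (hfm n'))
    have hub : Bd u := LemC2_bd_mul (hC_bd hb J) (LemC2_bd_conj (hfb n'))
    have hvm : Measurable v := (hhm n).mul (LemC2_meas_conj (hfm n'))
    have hvb : Bd v := LemC2_bd_mul (hhbn n) (LemC2_bd_conj (hfb n'))
    have hq : ce m μ v =ᵐ[μ]
        fun x => ce m μ (fun x => h x * conj (f ((S ^ (n' - n)) x))) ((S ^ n) x) := by
      have h1 := ce_comp (m := m) (μ := μ) (S := S)
        (f := fun x => h x * conj (f ((S ^ (n' - n)) x))) hm hS hI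
        (hh.mul (LemC2_meas_conj (hfm _))) (LemC2_bd_mul hhb (LemC2_bd_conj (hfb _))) n
      have h2 : v = fun x => (fun x => h x * conj (f ((S ^ (n' - n)) x))) ((S ^ n) x) := by
        ext x
        simp only [hv]
        rw [← zpow_add_apply, sub_add_cancel]
      rw [h2]
      exact h1
    have hg := LemC2_gram (m := m) hm hS hf hb n n' J
    have hsq : (∫ x, ‖ce m μ u x - ce m μ v x‖ ∂μ) ^ 2 ≤ ε ^ 2 := by
      calc (∫ x, ‖ce m μ u x - ce m μ v x‖ ∂μ) ^ 2
          ≤ ∫ x, ‖ce m μ u x - ce m μ v x‖ ^ 2 ∂μ :=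
            LemC2_l1_l2 ((ce_meas u).mono hm le_rfl) ((ce_meas v).mono hm le_rfl) (ce_bd u)
              (ce_bd v)
        _ ≤ ∫ x, ‖u x - v x‖ ^ 2 ∂μ := ce_sub_l2 hm hum hub hvm hvb
        _ ≤ ∫ x, ‖hC m μ S f (fun z => f ((S ^ n) z)) J x - h ((S ^ n) x)‖ ^ 2 ∂μ := by
            apply integral_mono (LemC2_int hum hvm hub hvb)
              (LemC2_int (hC_meas hm hS hf J) (hhm n) (hC_bd hb J) (hhbn n))
            intro x
            simp only [hu, hv]
            rw [← sub_mul, norm_mul, mul_pow]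
            have h1 : ‖conj (f ((S ^ n') x))‖ ^ 2 ≤ 1 :=
              pow_le_one₀ (norm_nonneg _) (LemC2_bd_conj (hfb n') x)
            exact mul_le_of_le_one_right (by positivity) h1
        _ ≤ ε ^ 2 := ((hJ n hn).le).trans (min_le_right _ _)
    have hle : ∫ x, ‖ce m μ u x - ce m μ v x‖ ∂μ ≤ ε :=
      le_of_sq_le_sq hsq hε.le
    refine le_trans (le_of_eq ?_) hle
    apply integral_congr_ae
    filter_upwards [hq, hg] with x hx1 hx2
    rw [hx1, ← hx2]
    congr 2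
    have h3 := hprod (fun j => ce m μ (fun z => conj (f ((S ^ j) z)) * f ((S ^ n) z)) x)
      (fun j => conj (ce m μ (fun z => conj (f ((S ^ j) z)) * f ((S ^ n') z)) x))
    rw [← h3]
    apply Finset.sum_congr rfl
    intro j _
    rw [map_mul, Complex.conj_ofReal]
  · intro n hn
    have h1 : ∀ x, (∑ j : (Finset.Icc (-(J : ℤ)) (J : ℤ)), (f ((S ^ (j : ℤ)) x) * (s : ℂ)) *
        (ce m μ (fun z => conj (f ((S ^ (j : ℤ)) z)) * f ((S ^ n) z)) x * (s : ℂ))) =
        hC m μ S f (fun z => f ((S ^ n) z)) J x := by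
      intro x
      exact hprod (fun j => f ((S ^ j) x))
        (fun j => ce m μ (fun z => conj (f ((S ^ j) z)) * f ((S ^ n) z)) x)
    simp only [h1]
    have h2 : ∀ x, ‖h ((S ^ n) x) - hC m μ S f (fun z => f ((S ^ n) z)) J x‖ =
        ‖hC m μ S f (fun z => f ((S ^ n) z)) J x - h ((S ^ n) x)‖ := fun x => norm_sub_rev _ _
    simp only [h2]
    exact ((hJ n hn).le).trans (min_le_left _ _)

end Pool.DRT
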