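import Pool.Agent.DRT.LemC2

set_option autoImplicit false

/-!
# Relative weak mixing over a factor which contains all relatively compact functions

PROOF of `relmix`.  Let `h` be given by `cptC`; it is `m`-measurable by `hmax`.  `ce h = h` a.e. (`ce_self`), and
`ce h = lim ce (hC m μ S f f J)` in `L²` (`ce_sub_l2`); `ce(hC J) = av J (ce(f_j ce(conj f_j f))) = av J (ce(f_j) ce(conj f_j f)) = 0`
a.e. because `ce(f_j) = ce(f) ∘ S^j = 0` (`hf0`, `ce_ae`, `ce_comp`, `ce_mul`, `ce_av`).  So `h = 0` a.e. and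
`∫ ‖hC m μ S f f J‖² → 0`.  Then `∫ hC m μ S f f J * conj f = av J (∫ f_j conj f ce(conj f_j f)) = av J (∫ |ce(f conj f_j)|²) = av J (ta m μ S f)`
(`integral_mul_ce`, `ce_conj`), so `av J (ta m μ S f) → 0` (`|∫ u conj f| ≤ (∫ |u|²)^{1/2}`).
For general `g`: `∫ ‖E(f_n g|m)‖² = ∫ ce(f_n g) conj ce(f_n g) = ∫ f_n g conj ce(f_n g)`, and with `g' = conj g`,
`conj ce(f_n g) = ce(conj f_n g')`, so the average over `|n| ≤ N` is `∫ g * hC m μ S f g' N ≤ (∫ ‖hC m μ S f g' N‖²)^{1/2}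
≤ (tf (ta) N (uw N))^{1/2} ≤ (2 av (2N) (ta))^{1/2} → 0` (`hC_sq`, `tf_uw_le`).
(`μ[f|m] =ᵐ 0` is used through `ce_ae`.)
-/

open MeasureTheory Filter Topology
open scoped ComplexConjugate NNReal ENNReal

noncomputable section

namespace Pool.DRT

set_option linter.unusedSectionVars false

variable {X : Type*} {m : MeasurableSpace X} [mX : MeasurableSpace X] {μ : Measure X}
  [IsProbabilityMeasure μ] {S : Equiv.Perm X} {f g : X → ℂ}

theorem LemC3_int {u : X → ℂ} (hu : Measurable u) (hub : Bd u) : Integrable u μ :=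
  Integrable.of_bound hu.aestronglyMeasurable 1 (Eventually.of_forall hub)

theorem LemC3_int_sq {u : X → ℂ} (hu : Measurable u) (hub : Bd u) :
    Integrable (fun x => ‖u x‖ ^ 2) μ := by
  refine Integrable.of_bound (hu.norm.pow_const 2).aestronglyMeasurable 1
    (Eventually.of_forall fun x => ?_)
  rw [Real.norm_of_nonneg (by positivity)]
  exact pow_le_one₀ (norm_nonneg _) (hub x)

theorem LemC3_cs {u : X → ℂ} (hu : Measurable u) (hub : Bd u) :
    ∫ x, ‖u x‖ ∂μ ≤ Real.sqrt (∫ x, ‖u x‖ ^ 2 ∂μ) := by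
  set c : ℝ := ∫ x, ‖u x‖ ∂μ with hc
  have h1 : Integrable (fun x => ‖u x‖) μ := (LemC3_int hu hub).norm
  have h2 := LemC3_int_sq (μ := μ) hu hub
  have h3 : 0 ≤ ∫ x, (‖u x‖ - c) ^ 2 ∂μ := integral_nonneg fun x => sq_nonneg _
  have h4 : ∫ x, (‖u x‖ - c) ^ 2 ∂μ = (∫ x, ‖u x‖ ^ 2 ∂μ) - c ^ 2 := by
    have : (fun x => (‖u x‖ - c) ^ 2) = fun x => (‖u x‖ ^ 2 - 2 * c * ‖u x‖) + c ^ 2 := by
      funext x; ring
    have e1 := integral_add (μ := μ) (f := fun x => ‖u x‖ ^ 2 - 2 * c * ‖u x‖)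
      (g := fun _ => c ^ 2) (h2.sub (h1.const_mul _)) (integrable_const _)
    have e2 := integral_sub (μ := μ) (f := fun x => ‖u x‖ ^ 2) (g := fun x => 2 * c * ‖u x‖) h2
      (h1.const_mul _)
    have e3 : ∫ x, 2 * c * ‖u x‖ ∂μ = 2 * c * c := by rw [integral_const_mul]
    have e4 : ∫ _x : X, c ^ 2 ∂μ = c ^ 2 := by simp
    rw [this, e1, e2, e3, e4]
    ring
  apply Real.le_sqrt_of_sq_le
  linarith

theorem LemC3_conj_bd {u : X → ℂ} (hub : Bd u) : Bd fun x => conj (u x) := fun x => by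
  rw [RCLike.norm_conj]; exact hub x

theorem LemC3_mul_bd {u v : X → ℂ} (hub : Bd u) (hvb : Bd v) : Bd fun x => u x * v x := fun x => by
  rw [norm_mul]; exact mul_le_one₀ (hub x) (norm_nonneg _) (hvb x)

theorem LemC3_comp_bd {u : X → ℂ} (hub : Bd u) (n : ℤ) : Bd fun x => u ((S ^ n) x) := fun _ => hub _

theorem LemC3_conj_meas {u : X → ℂ} (hu : Measurable u) : Measurable fun x => conj (u x) :=
  Complex.continuous_conj.measurable.comp hu

/-- the integral of the average is the average of the integrals -/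
theorem LemC3_integral_av {F : ℤ → X → ℂ} (hF : ∀ j, Integrable (F j) μ) (J : ℕ) :
    ∫ x, av J (fun j => F j x) ∂μ = av J fun j => ∫ x, F j x ∂μ := by
  unfold av
  rw [integral_smul, integral_finsetSum _ fun j _ => hF j]

/-- `∫ ‖ce u‖²` through the product -/
theorem LemC3_sq (hm : m ≤ mX) {u : X → ℂ} (hu : Measurable u) (hub : Bd u) :
    ∫ x, u x * ce m μ (fun z => conj (u z)) x ∂μ = ((∫ x, ‖ce m μ u x‖ ^ 2 ∂μ : ℝ) : ℂ) := by
  have h1 : ∫ x, u x * ce m μ (fun z => conj (u z)) x ∂μ =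
      ∫ x, ce m μ (fun z => conj (u z)) x * u x ∂μ := by
    congr 1; funext x; ring
  rw [h1, ← integral_mul_ce hm (ce_meas _) (ce_bd _) hu hub, ← integral_complex_ofReal]
  apply integral_congr_ae
  filter_upwards [ce_conj hm hu hub] with x hx
  rw [hx]
  rw [mul_comm, Complex.mul_conj, Complex.normSq_eq_norm_sq]

theorem LemC3_term (hm : m ≤ mX) (hS : MP μ S) (hf : Measurable f) (hb : Bd f)
    (hg : Measurable g) (hgb : Bd g) (n : ℤ) :
    ∫ x, g x * (f ((S ^ n) x) * ce m μ (fun z => conj (f ((S ^ n) z)) * conj (g z)) x) ∂μ =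
      ((∫ x, ‖ce m μ (fun z => f ((S ^ n) z) * g z) x‖ ^ 2 ∂μ : ℝ) : ℂ) := by
  have hu : Measurable fun z => f ((S ^ n) z) * g z := (hf.comp (hS.measurable n)).mul hg
  have hub : Bd fun z => f ((S ^ n) z) * g z := LemC3_mul_bd (LemC3_comp_bd hb n) hgb
  rw [← LemC3_sq hm hu hub]
  congr 1; funext x
  simp only [map_mul]
  ring

/-- the average of the terms -/
theorem LemC3_pair (hm : m ≤ mX) (hS : MP μ S) (hf : Measurable f) (hb : Bd f)
    (hg : Measurable g) (hgb : Bd g) (N : ℕ) :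
    ∫ x, g x * hC m μ S f (fun z => conj (g z)) N x ∂μ =
      ((av N fun n => ∫ x, ‖ce m μ (fun z => f ((S ^ n) z) * g z) x‖ ^ 2 ∂μ : ℝ) : ℂ) := by
  have h1 : ∀ x, g x * hC m μ S f (fun z => conj (g z)) N x =
      av N fun n => g x * (f ((S ^ n) x) *
        ce m μ (fun z => conj (f ((S ^ n) z)) * conj (g z)) x) := by
    intro x
    unfold hC
    rw [av_mul_left]
  have h2 : ∀ n : ℤ, Integrable (fun x => g x * (f ((S ^ n) x) *
      ce m μ (fun z => conj (f ((S ^ n) z)) * conj (g z)) x)) μ := by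
    intro n
    apply LemC3_int
    · exact hg.mul ((hf.comp (hS.measurable n)).mul ((ce_meas _).mono hm le_rfl))
    · exact LemC3_mul_bd hgb (LemC3_mul_bd (LemC3_comp_bd hb n) (ce_bd _))
  calc ∫ x, g x * hC m μ S f (fun z => conj (g z)) N x ∂μ
      = ∫ x, (av N fun n => g x * (f ((S ^ n) x) *
        ce m μ (fun z => conj (f ((S ^ n) z)) * conj (g z)) x)) ∂μ := by
        congr 1; funext x; exact h1 x
    _ = av N fun n => ∫ x, g x * (f ((S ^ n) x) *
        ce m μ (fun z => conj (f ((S ^ n) z)) * conj (g z)) x) ∂μ := LemC3_integral_av h2 N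
    _ = av N fun n => ((∫ x, ‖ce m μ (fun z => f ((S ^ n) z) * g z) x‖ ^ 2 ∂μ : ℝ) : ℂ) :=
        av_congr fun n _ => LemC3_term hm hS hf hb hg hgb n
    _ = _ := by
        rw [av_eq, av_eq_real]
        push_cast
        rfl

theorem LemC3_pair_le (hm : m ≤ mX) (hS : MP μ S) (hf : Measurable f) (hb : Bd f)
    (hg : Measurable g) (hgb : Bd g) (N : ℕ) :
    (av N fun n => ∫ x, ‖ce m μ (fun z => f ((S ^ n) z) * g z) x‖ ^ 2 ∂μ) ≤
      Real.sqrt (∫ x, ‖hC m μ S f (fun z => conj (g z)) N x‖ ^ 2 ∂μ) := by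
  have hH : Measurable (hC m μ S f (fun z => conj (g z)) N) := hC_meas hm hS hf N
  have hHb : Bd (hC m μ S f (fun z => conj (g z)) N) := fun x => hC_bd hb N x
  have h1 := LemC3_pair (μ := μ) hm hS hf hb hg hgb N
  have h2 : (av N fun n => ∫ x, ‖ce m μ (fun z => f ((S ^ n) z) * g z) x‖ ^ 2 ∂μ) ≤
      ‖∫ x, g x * hC m μ S f (fun z => conj (g z)) N x ∂μ‖ := by
    rw [h1]
    exact (le_abs_self _).trans (by rw [Complex.norm_real, Real.norm_eq_abs])
  refine h2.trans ((norm_integral_le_integral_norm _).trans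
    (le_trans ?_ (LemC3_cs (μ := μ) hH hHb)))
  apply integral_mono_of_nonneg (Eventually.of_forall fun x => norm_nonneg _)
    (LemC3_int hH hHb).norm
  refine Eventually.of_forall fun x => ?_
  show ‖g x * hC m μ S f (fun z => conj (g z)) N x‖ ≤ ‖hC m μ S f (fun z => conj (g z)) N x‖
  rw [norm_mul]
  exact mul_le_of_le_one_left (norm_nonneg _) (hgb x)

/-- the conditional expectation of `hC` vanishes -/
theorem LemC3_ce_hC (hm : m ≤ mX) (hS : MP μ S) (hI : Inv m S) (hf : Measurable f) (hb : Bd f)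
    (hf0 : μ[f | m] =ᵐ[μ] 0) (J : ℕ) : ce m μ (hC m μ S f f J) =ᵐ[μ] 0 := by
  have hF : ∀ j : ℤ, Measurable fun x => f ((S ^ j) x) *
      ce m μ (fun z => conj (f ((S ^ j) z)) * f z) x := fun j =>
    (hf.comp (hS.measurable j)).mul ((ce_meas _).mono hm le_rfl)
  have hFb : ∀ j : ℤ, Bd fun x => f ((S ^ j) x) *
      ce m μ (fun z => conj (f ((S ^ j) z)) * f z) x := fun j =>
    LemC3_mul_bd (LemC3_comp_bd hb j) (ce_bd _)
  have h1 := ce_av (μ := μ) hm hF hFb J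
  have h0 : ce m μ f =ᵐ[μ] 0 := (ce_ae hm hf hb).trans hf0
  have h2 : ∀ j : ℤ, ce m μ (fun x => f ((S ^ j) x) *
      ce m μ (fun z => conj (f ((S ^ j) z)) * f z) x) =ᵐ[μ] 0 := by
    intro j
    have e : (fun x => f ((S ^ j) x) * ce m μ (fun z => conj (f ((S ^ j) z)) * f z) x) =
        fun x => ce m μ (fun z => conj (f ((S ^ j) z)) * f z) x * f ((S ^ j) x) := by
      funext x; ring
    rw [e]
    have h3 := ce_mul (μ := μ) hm (ce_meas (m := m) (μ := μ) fun z => conj (f ((S ^ j) z)) * f z)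
      (ce_bd _) (hf.comp (hS.measurable j)) (LemC3_comp_bd hb j)
    have h4 := ce_comp (μ := μ) hm hS hI hf hb j
    have h5 : (fun x => ce m μ f ((S ^ j) x)) =ᵐ[μ] 0 :=
      (hS.zpow j).quasiMeasurePreserving.ae h0
    filter_upwards [h3, h4, h5] with x hx3 hx4 hx5
    have hx3' : ce m μ (fun x => ce m μ (fun z => conj (f ((S ^ j) z)) * f z) x * f ((S ^ j) x)) x =
        ce m μ (fun z => conj (f ((S ^ j) z)) * f z) x * ce m μ (fun x => f ((S ^ j) x)) x := hx3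
    rw [hx3', hx4, hx5]
    simp
  have h3 : ∀ᵐ x ∂μ, ∀ j : ℤ, ce m μ (fun x => f ((S ^ j) x) *
      ce m μ (fun z => conj (f ((S ^ j) z)) * f z) x) x = 0 := ae_all_iff.2 h2
  filter_upwards [h1, h3] with x hx1 hx3
  have hx1' : ce m μ (hC m μ S f f J) x = av J fun j => ce m μ (fun x => f ((S ^ j) x) *
      ce m μ (fun z => conj (f ((S ^ j) z)) * f z) x) x := hx1
  rw [hx1']
  calc _ = av J fun _ => (0 : ℂ) := av_congr fun j _ => hx3 j
    _ = 0 := av_zero J
    _ = _ := rfl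

/-- the norm of `hC m μ S f f J` tends to zero -/
theorem LemC3_hC_tendsto (hm : m ≤ mX) (hS : MP μ S) (hI : Inv m S) (hf : Measurable f)
    (hb : Bd f)
    (hmax : ∀ h : X → ℂ, Cpt m μ S h →
      Tendsto (fun J => ∫ x, ‖hC m μ S f f J x - h x‖ ^ 2 ∂μ) atTop (𝓝 0) →
      ce m μ h =ᵐ[μ] h)
    (hf0 : μ[f | m] =ᵐ[μ] 0) :
    Tendsto (fun J => ∫ x, ‖hC m μ S f f J x‖ ^ 2 ∂μ) atTop (𝓝 0) := by
  obtain ⟨h, hc, hlim⟩ := cptC (μ := μ) hm hS hI hf hb
  have hh := hmax h hc hlim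
  have hhb := hc.bd
  have hHm : ∀ J, Measurable (hC m μ S f f J) := fun J => hC_meas hm hS hf J
  have hHb : ∀ J, Bd (hC m μ S f f J) := fun J x => hC_bd hb J x
  have h1 : ∀ J, ∫ x, ‖h x‖ ^ 2 ∂μ ≤ ∫ x, ‖hC m μ S f f J x - h x‖ ^ 2 ∂μ := by
    intro J
    have e1 : ∫ x, ‖h x‖ ^ 2 ∂μ = ∫ x, ‖ce m μ (hC m μ S f f J) x - ce m μ h x‖ ^ 2 ∂μ := by
      apply integral_congr_ae
      filter_upwards [hh, LemC3_ce_hC (μ := μ) hm hS hI hf hb hf0 J]
        with x hx1 hx2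
      rw [hx1, hx2]
      simp
    rw [e1]
    exact ce_sub_l2 hm (hHm J) (hHb J) hc.meas hhb
  have h2 : ∫ x, ‖h x‖ ^ 2 ∂μ ≤ 0 := ge_of_tendsto' hlim h1
  have hsub : ∀ J, Integrable (fun x => ‖hC m μ S f f J x - h x‖ ^ 2) μ := by
    intro J
    refine Integrable.of_bound (((hHm J).sub hc.meas).norm.pow_const 2).aestronglyMeasurable 4
      (Eventually.of_forall fun x => ?_)
    rw [Real.norm_of_nonneg (by positivity)]
    have h3 : ‖hC m μ S f f J x - h x‖ ≤ 2 := by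
      have := norm_sub_le (hC m μ S f f J x) (h x)
      linarith [hHb J x, hhb x]
    nlinarith [norm_nonneg (hC m μ S f f J x - h x)]
  have h3 : ∀ J, ∫ x, ‖hC m μ S f f J x‖ ^ 2 ∂μ ≤
      2 * ∫ x, ‖hC m μ S f f J x - h x‖ ^ 2 ∂μ := by
    intro J
    have h4 : ∫ x, ‖hC m μ S f f J x‖ ^ 2 ∂μ ≤
        ∫ x, (2 * ‖hC m μ S f f J x - h x‖ ^ 2 + 2 * ‖h x‖ ^ 2) ∂μ := by
      apply integral_mono (LemC3_int_sq (hHm J) (hHb J))
        (((hsub J).const_mul 2).add ((LemC3_int_sq hc.meas hhb).const_mul 2))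
      intro x
      show ‖hC m μ S f f J x‖ ^ 2 ≤ 2 * ‖hC m μ S f f J x - h x‖ ^ 2 + 2 * ‖h x‖ ^ 2
      have h5 : ‖hC m μ S f f J x‖ ≤ ‖hC m μ S f f J x - h x‖ + ‖h x‖ := by
        have := norm_add_le (hC m μ S f f J x - h x) (h x)
        rwa [sub_add_cancel] at this
      nlinarith [norm_nonneg (hC m μ S f f J x), norm_nonneg (hC m μ S f f J x - h x),
        norm_nonneg (h x), sq_nonneg (‖hC m μ S f f J x - h x‖ - ‖h x‖)]
    rw [integral_add ((hsub J).const_mul 2) ((LemC3_int_sq hc.meas hhb).const_mul 2),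
      integral_const_mul, integral_const_mul] at h4
    linarith
  refine squeeze_zero (fun J => integral_nonneg fun x => by positivity) h3 ?_
  simpa using hlim.const_mul 2

theorem LemC3_ta_nonneg (k : ℤ) : 0 ≤ ta m μ S f k := integral_nonneg fun x => by positivity

/-- the averages of `ta` tend to zero -/
theorem LemC3_ta_tendsto (hm : m ≤ mX) (hS : MP μ S) (hI : Inv m S) (hf : Measurable f)
    (hb : Bd f)
    (hmax : ∀ h : X → ℂ, Cpt m μ S h →
      Tendsto (fun J => ∫ x, ‖hC m μ S f f J x - h x‖ ^ 2 ∂μ) atTop (𝓝 0) →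
      ce m μ h =ᵐ[μ] h)
    (hf0 : μ[f | m] =ᵐ[μ] 0) :
    Tendsto (fun J => av J (ta m μ S f)) atTop (𝓝 0) := by
  have h1 := LemC3_hC_tendsto (μ := μ) hm hS hI hf hb hmax hf0
  have h2 : ∀ J, av J (ta m μ S f) ≤ Real.sqrt (∫ x, ‖hC m μ S f f J x‖ ^ 2 ∂μ) := by
    intro J
    have h3 := LemC3_pair_le (μ := μ) hm hS hf hb (LemC3_conj_meas hf) (LemC3_conj_bd hb) J
    have e1 : (fun z => conj ((fun x => conj (f x)) z)) = f := by
      funext z; simp
    rw [e1] at h3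
    refine le_trans (le_of_eq ?_) h3
    apply av_congr
    intro n _
    unfold ta
    have hu : Measurable fun z => f ((S ^ n) z) * conj (f z) :=
      (hf.comp (hS.measurable n)).mul (LemC3_conj_meas hf)
    have hub : Bd fun z => f ((S ^ n) z) * conj (f z) :=
      LemC3_mul_bd (LemC3_comp_bd hb n) (LemC3_conj_bd hb)
    have h4 := ce_conj (μ := μ) hm hu hub
    have e2 : (fun x => conj ((fun z => f ((S ^ n) z) * conj (f z)) x)) =
        fun z => f z * conj (f ((S ^ n) z)) := by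
      funext z; simp [mul_comm]
    rw [e2] at h4
    apply integral_congr_ae
    filter_upwards [h4] with x hx
    rw [hx, RCLike.norm_conj]
  refine squeeze_zero (fun J => av_nonneg fun n _ => LemC3_ta_nonneg n) h2 ?_
  have := (Real.continuous_sqrt.tendsto 0).comp h1
  rw [Real.sqrt_zero] at this
  exact this

theorem relmix' (hm : m ≤ mX) (hS : MP μ S) (hI : Inv m S) (hf : Measurable f) (hb : Bd f)
    (hg : Measurable g) (hgb : Bd g)
    (hmax : ∀ h : X → ℂ, Cpt m μ S h →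
      Tendsto (fun J => ∫ x, ‖hC m μ S f f J x - h x‖ ^ 2 ∂μ) atTop (𝓝 0) →
      ce m μ h =ᵐ[μ] h)
    (hf0 : μ[f | m] =ᵐ[μ] 0) :
    Tendsto (fun N => av N fun n => ∫ x, ‖(μ[fun z => f ((S ^ n) z) * g z | m]) x‖ ^ 2 ∂μ)
      atTop (𝓝 0) := by
  have h1 := LemC3_ta_tendsto (μ := μ) hm hS hI hf hb hmax hf0
  have h2 : ∀ N, (av N fun n => ∫ x, ‖(μ[fun z => f ((S ^ n) z) * g z | m]) x‖ ^ 2 ∂μ) =
      av N fun n => ∫ x, ‖ce m μ (fun z => f ((S ^ n) z) * g z) x‖ ^ 2 ∂μ := by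
    intro N
    apply av_congr
    intro n _
    apply integral_congr_ae
    have hu : Measurable fun z => f ((S ^ n) z) * g z := (hf.comp (hS.measurable n)).mul hg
    have hub : Bd fun z => f ((S ^ n) z) * g z := LemC3_mul_bd (LemC3_comp_bd hb n) hgb
    filter_upwards [ce_ae (μ := μ) hm hu hub] with x hx
    rw [hx]
  have h3 : ∀ N, (av N fun n => ∫ x, ‖(μ[fun z => f ((S ^ n) z) * g z | m]) x‖ ^ 2 ∂μ) ≤
      Real.sqrt (2 * av (2 * N) (ta m μ S f)) := by
    intro N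
    rw [h2]
    refine (LemC3_pair_le hm hS hf hb hg hgb N).trans (Real.sqrt_le_sqrt ?_)
    exact (hC_sq hm hS hI hf hb (LemC3_conj_meas hg) (LemC3_conj_bd hgb) N).trans
      (tf_uw_le _ (fun k => LemC3_ta_nonneg k) le_rfl)
  refine squeeze_zero (fun N => av_nonneg fun n _ => integral_nonneg fun x => by positivity) h3 ?_
  have h4 : Tendsto (fun N : ℕ => av (2 * N) (ta m μ S f)) atTop (𝓝 0) :=
    h1.comp (tendsto_id.const_mul_atTop' (by norm_num : (0 : ℕ) < 2))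
  have h5 : Tendsto (fun N : ℕ => 2 * av (2 * N) (ta m μ S f)) atTop (𝓝 0) := by
    simpa using h4.const_mul 2
  have := (Real.continuous_sqrt.tendsto 0).comp h5
  rw [Real.sqrt_zero] at this
  exact this

theorem relmix (hm : m ≤ mX) (hS : MP μ S) (hI : Inv m S)
    (hmax : ∀ h : X → ℂ, Cpt m μ S h → Measurable[m] h) (hf : Measurable f) (hb : Bd f)
    (hg : Measurable g) (hgb : Bd g) (hf0 : μ[f | m] =ᵐ[μ] 0) :
    Tendsto (fun N => av N fun n => ∫ x, ‖(μ[fun z => f ((S ^ n) z) * g z | m]) x‖ ^ 2 ∂μ)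
      atTop (𝓝 0) :=
  relmix' hm hS hI hf hb hg hgb (fun h hc _ => ce_self hm (hmax h hc) hc.bd) hf0

end Pool.DRT
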