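import Pool.Agent.DRT.CondE

set_option autoImplicit false

/-!
# The Schur product inequality for conditional Gram matrices

PROOF.  Let `G_{jl} = ce(f_j conj f_l)`, `v_j = ce(conj f_j g)` (all `m`-measurable, bounded).  For a.e. `x`:
(1) `G(x)` is positive semidefinite: for each vector `t` with coordinates in a countable dense set (`ℚ + iℚ`),
`∑ conj t_j t_l G_{jl} = E(|∑ conj t_j f_j|² | m) ≥ 0` a.e., then all `t` by continuity; it is Hermitian by `ce_conj`.
(2) `conj G(x) - v v*` (entries `conj G_{jl} - v_j conj v_l`) is positive semidefinite: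
`∑ conj t_j t_l conj G_{jl} = E(|∑ conj t_j conj f_j|² | m)` and `|∑ conj t_j v_j|² = |E(g ∑ conj t_j conj f_j | m)|²
≤ E(|∑ conj t_j conj f_j|² | m)` by the conditional Cauchy-Schwarz (Jensen) inequality and `|g| ≤ 1`.  (Proof of the
latter: for every constant `s ∈ ℚ + iℚ`, `E(|F - s|²|m) ≥ 0` gives `2 Re(conj s E F) ≤ E|F|² + |s|²` a.e., all `s` by
continuity, then `s = E F(x)`: `|E F|² ≤ E(|F|²|m)`.)
By the Schur product theorem (`Matrix.PosSemidef.hadamard`) `∑ a_j a_l G_{jl} (conj G_{jl} - v_j conj v_l) ≥ 0` a.e.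
Integrate: `∑ a_j a_l ∫ |G_{jl}|² ≥ ∫ ∑ a_j a_l G_{jl} v_j conj v_l`, and (as `v_j conj v_l` is `m`-measurable)
`∫ G_{jl} v_j conj v_l = ∫ f_j conj f_l v_j conj v_l` (`integral_mul_ce`), so the last integral is `∫ |∑ a_j f_j v_j|²`.
-/

open MeasureTheory Filter Topology
open scoped ComplexConjugate NNReal ENNReal

noncomputable section

namespace Pool.DRT

variable {X : Type*} {m : MeasurableSpace X} [mX : MeasurableSpace X] {μ : Measure X}
  [IsProbabilityMeasure μ]

/-- pairs `(A, v)` such that `A - v v*` is positive semidefinite: a closed convex set -/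
def PSD_K (ι : Type*) [Fintype ι] : Set ((ι → ι → ℂ) × (ι → ℂ)) :=
  {p | ∀ t : ι → ℂ, ‖∑ j, t j * p.2 j‖ ^ 2 ≤ (∑ j, ∑ l, t j * conj (t l) * p.1 j l).re}

theorem PSD_K_closed (ι : Type*) [Fintype ι] : IsClosed (PSD_K ι) := by
  have h : PSD_K ι = ⋂ t : ι → ℂ, {p : (ι → ι → ℂ) × (ι → ℂ) |
      ‖∑ j, t j * p.2 j‖ ^ 2 ≤ (∑ j, ∑ l, t j * conj (t l) * p.1 j l).re} := by
    ext p
    simp only [Set.mem_iInter]
    exact Iff.rfl
  rw [h]
  refine isClosed_iInter fun t => isClosed_le ?_ ?_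
  · fun_prop
  · fun_prop

theorem PSD_K_convex (ι : Type*) [Fintype ι] : Convex ℝ (PSD_K ι) := by
  intro p hp q hq a b ha hb hab t
  have h1 := hp t
  have h2 := hq t
  have e1 : ∑ j, t j * (a • p + b • q).2 j =
      (a : ℂ) * ∑ j, t j * p.2 j + (b : ℂ) * ∑ j, t j * q.2 j := by
    rw [Finset.mul_sum, Finset.mul_sum, ← Finset.sum_add_distrib]
    refine Finset.sum_congr rfl fun j _ => ?_
    simp only [Prod.snd_add, Prod.smul_snd, Pi.add_apply, Pi.smul_apply, Complex.real_smul]
    ring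
  have e2 : ∑ j, ∑ l, t j * conj (t l) * (a • p + b • q).1 j l =
      (a : ℂ) * (∑ j, ∑ l, t j * conj (t l) * p.1 j l) +
        (b : ℂ) * ∑ j, ∑ l, t j * conj (t l) * q.1 j l := by
    rw [Finset.mul_sum, Finset.mul_sum, ← Finset.sum_add_distrib]
    refine Finset.sum_congr rfl fun j _ => ?_
    rw [Finset.mul_sum, Finset.mul_sum, ← Finset.sum_add_distrib]
    refine Finset.sum_congr rfl fun l _ => ?_
    simp only [Prod.fst_add, Prod.smul_fst, Pi.add_apply, Pi.smul_apply, Complex.real_smul]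
    ring
  rw [e1, e2, Complex.add_re, Complex.re_ofReal_mul, Complex.re_ofReal_mul]
  have h3 : ‖(a : ℂ) * ∑ j, t j * p.2 j + (b : ℂ) * ∑ j, t j * q.2 j‖ ≤
      a * ‖∑ j, t j * p.2 j‖ + b * ‖∑ j, t j * q.2 j‖ := by
    refine (norm_add_le _ _).trans (le_of_eq ?_)
    rw [norm_mul, norm_mul, Complex.norm_real, Complex.norm_real, Real.norm_of_nonneg ha,
      Real.norm_of_nonneg hb]
  have h4 : ∀ u v : ℝ, (a * u + b * v) ^ 2 ≤ a * u ^ 2 + b * v ^ 2 := by
    intro u v
    have hb' : b = 1 - a := by linarith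
    subst hb'
    nlinarith [mul_nonneg (mul_nonneg ha hb) (sq_nonneg (u - v))]
  have h5 := pow_le_pow_left₀ (norm_nonneg _) h3 2
  have h6 := h4 ‖∑ j, t j * p.2 j‖ ‖∑ j, t j * q.2 j‖
  have h7 := mul_le_mul_of_nonneg_left h1 ha
  have h8 := mul_le_mul_of_nonneg_left h2 hb
  linarith

/-- the Schur product inequality for one point of the set `PSD_K` -/
theorem PSD_schur {ι : Type*} [Fintype ι] (a : ι → ℝ) (G : ι → ι → ℂ) (v : ι → ℂ)
    (hG : ∀ j l, G j l = conj (G l j)) (hK : (((fun j l => G l j), v) : (ι → ι → ℂ) × (ι → ℂ)) ∈ PSD_K ι) :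
    (∑ j, ∑ l, (a j : ℂ) * (a l : ℂ) * (G j l * (v j * conj (v l)))).re ≤
      ∑ j, ∑ l, a j * a l * ‖G j l‖ ^ 2 := by
  classical
  open scoped ComplexOrder Matrix in
  have hK' : ∀ t : ι → ℂ, ‖∑ j, t j * v j‖ ^ 2 ≤
      (∑ j, ∑ l, t j * conj (t l) * G l j).re := hK
  let A : Matrix ι ι ℂ := Matrix.of fun j l => G j l
  let B : Matrix ι ι ℂ := Matrix.of fun j l => G l j - v j * conj (v l)
  have hA1 : A.IsHermitian := by
    ext j l
    simp only [A, Matrix.conjTranspose_apply, Matrix.of_apply]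
    exact (hG j l).symm
  have hB1 : B.IsHermitian := by
    ext j l
    simp only [B, Matrix.conjTranspose_apply, Matrix.of_apply]
    show conj (G j l - v l * conj (v j)) = G l j - v j * conj (v l)
    rw [map_sub, map_mul, Complex.conj_conj, ← hG l j]
    ring
  have hA : A.PosSemidef := by
    refine Matrix.PosSemidef.of_dotProduct_mulVec_nonneg hA1 fun t => ?_
    have him := hA1.im_star_dotProduct_mulVec_self t
    have hre : 0 ≤ (dotProduct (star t) (A.mulVec t)).re := by
      have h1 := hK' t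
      have h2 : dotProduct (star t) (A.mulVec t) = ∑ j, ∑ l, t j * conj (t l) * G l j := by
        simp only [dotProduct, Matrix.mulVec, A, Matrix.of_apply, Pi.star_apply, Finset.mul_sum]
        rw [Finset.sum_comm]
        refine Finset.sum_congr rfl fun j _ => Finset.sum_congr rfl fun l _ => ?_
        show conj (t l) * (G l j * t j) = _
        ring
      rw [h2]
      exact (sq_nonneg _).trans h1
    rw [Complex.nonneg_iff]
    exact ⟨hre, him.symm⟩
  have hB : B.PosSemidef := by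
    refine Matrix.PosSemidef.of_dotProduct_mulVec_nonneg hB1 fun t => ?_
    have him := hB1.im_star_dotProduct_mulVec_self t
    have hre : 0 ≤ (dotProduct (star t) (B.mulVec t)).re := by
      have h1 := hK' (fun j => conj (t j))
      have h2 : dotProduct (star t) (B.mulVec t) =
          ∑ j, ∑ l, conj (t j) * conj (conj (t l)) * G l j -
            (∑ j, conj (t j) * v j) * conj (∑ j, conj (t j) * v j) := by
        rw [map_sum, Finset.sum_mul_sum, ← Finset.sum_sub_distrib]
        simp only [dotProduct, Matrix.mulVec, B, Matrix.of_apply, Pi.star_apply, Finset.mul_sum]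
        refine Finset.sum_congr rfl fun j _ => ?_
        rw [← Finset.sum_sub_distrib]
        refine Finset.sum_congr rfl fun l _ => ?_
        show conj (t j) * ((G l j - v j * conj (v l)) * t l) = _
        rw [map_mul, Complex.conj_conj]
        ring
      rw [h2, Complex.sub_re, Complex.mul_conj, Complex.ofReal_re, Complex.normSq_eq_norm_sq]
      linarith
    rw [Complex.nonneg_iff]
    exact ⟨hre, him.symm⟩
  have hAB := (hA.hadamard hB).dotProduct_mulVec_nonneg (fun j => (a j : ℂ))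
  rw [Complex.nonneg_iff] at hAB
  have h3 : dotProduct (star fun j => (a j : ℂ)) ((Matrix.hadamard A B).mulVec fun j => (a j : ℂ)) =
      (∑ j, ∑ l, ((a j * a l * ‖G j l‖ ^ 2 : ℝ) : ℂ)) -
        ∑ j, ∑ l, (a j : ℂ) * (a l : ℂ) * (G j l * (v j * conj (v l))) := by
    rw [← Finset.sum_sub_distrib]
    simp only [dotProduct, Matrix.mulVec, Matrix.hadamard_apply, A, B, Matrix.of_apply,
      Pi.star_apply, Finset.mul_sum]
    refine Finset.sum_congr rfl fun j _ => ?_
    rw [← Finset.sum_sub_distrib]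
    refine Finset.sum_congr rfl fun l _ => ?_
    have h4 : G l j = conj (G j l) := hG l j
    have h5 : ((a j * a l * ‖G j l‖ ^ 2 : ℝ) : ℂ) = (a j : ℂ) * (a l : ℂ) * (G j l * conj (G j l)) := by
      rw [Complex.mul_conj, Complex.normSq_eq_norm_sq]
      push_cast
      ring
    rw [h5, h4]
    show conj (a j : ℂ) * (G j l * (conj (G j l) - v j * conj (v l)) * (a l : ℂ)) = _
    rw [Complex.conj_ofReal]
    ring
  have h6 := hAB.1
  rw [h3, Complex.sub_re] at h6
  have h7 : (∑ j, ∑ l, ((a j * a l * ‖G j l‖ ^ 2 : ℝ) : ℂ)).re =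
      ∑ j, ∑ l, a j * a l * ‖G j l‖ ^ 2 := by
    rw [Complex.re_sum]
    refine Finset.sum_congr rfl fun j _ => ?_
    rw [Complex.re_sum]
    refine Finset.sum_congr rfl fun l _ => ?_
    rw [Complex.ofReal_re]
  rw [h7] at h6
  linarith

theorem PSD_fin (hm : m ≤ mX) {ι : Type*} [Fintype ι] (a : ι → ℝ) {f : ι → X → ℂ}
    (hf : ∀ j, Measurable (f j)) (hb : ∀ j, Bd (f j)) {g : X → ℂ} (hg : Measurable g)
    (hgb : Bd g) :
    ∫ x, ‖∑ j, (a j : ℂ) * (f j x * ce m μ (fun z => conj (f j z) * g z) x)‖ ^ 2 ∂μ ≤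
      ∑ j, ∑ l, a j * a l *
        ∫ x, ‖ce m μ (fun z => f j z * conj (f l z)) x‖ ^ 2 ∂μ := by
  classical
  have hcm : ∀ j, Measurable fun x => conj (f j x) := fun j =>
    Complex.continuous_conj.measurable.comp (hf j)
  have hcb : ∀ j, Bd fun x => conj (f j x) := fun j x => by
    rw [Complex.norm_conj]; exact hb j x
  have hmulb : ∀ p q : X → ℂ, Bd p → Bd q → Bd fun x => p x * q x := fun p q hp hq x => by
    rw [norm_mul]; exact mul_le_one₀ (hp x) (norm_nonneg _) (hq x)
  obtain ⟨G, hGdef⟩ : ∃ G : ι → ι → X → ℂ,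
      G = fun j l => ce m μ (fun z => f j z * conj (f l z)) := ⟨_, rfl⟩
  obtain ⟨v, hvdef⟩ : ∃ v : ι → X → ℂ, v = fun j => ce m μ (fun z => conj (f j z) * g z) :=
    ⟨_, rfl⟩
  have hG : ∀ j l, ce m μ (fun z => f j z * conj (f l z)) = G j l := fun j l => by rw [hGdef]
  have hv : ∀ j, ce m μ (fun z => conj (f j z) * g z) = v j := fun j => by rw [hvdef]
  have hGm : ∀ j l, Measurable[m] (G j l) := fun j l => by rw [← hG]; exact ce_meas _
  have hvm : ∀ j, Measurable[m] (v j) := fun j => by rw [← hv]; exact ce_meas _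
  have hGb : ∀ j l, Bd (G j l) := fun j l => by rw [← hG]; exact ce_bd _
  have hvb : ∀ j, Bd (v j) := fun j => by rw [← hv]; exact ce_bd _
  have hGm' : ∀ j l, Measurable (G j l) := fun j l => (hGm j l).mono hm le_rfl
  have hvm' : ∀ j, Measurable (v j) := fun j => (hvm j).mono hm le_rfl
  simp only [hG, hv]
  -- the vector valued function
  let F : X → (ι → ι → ℂ) × (ι → ℂ) := fun x =>
    (fun j l => conj (f j x) * f l x, fun j => conj (f j x) * g x)
  have hFm : Measurable F := by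
    refine Measurable.prodMk ?_ ?_
    · exact measurable_pi_iff.2 fun j => measurable_pi_iff.2 fun l => (hcm j).mul (hf l)
    · exact measurable_pi_iff.2 fun j => (hcm j).mul hg
  have hFi : Integrable F μ := by
    refine Integrable.of_bound hFm.aestronglyMeasurable 1 (ae_of_all _ fun x => ?_)
    rw [Prod.norm_def]
    refine max_le ?_ ?_
    · refine (pi_norm_le_iff_of_nonneg zero_le_one).2 fun j => ?_
      refine (pi_norm_le_iff_of_nonneg zero_le_one).2 fun l => ?_
      exact hmulb _ _ (hcb j) (hb l) x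
    · refine (pi_norm_le_iff_of_nonneg zero_le_one).2 fun j => ?_
      exact hmulb _ _ (hcb j) hgb x
  have hFK : ∀ᵐ x ∂μ, F x ∈ PSD_K ι := by
    refine ae_of_all _ fun x => ?_
    intro t
    show ‖∑ j, t j * (conj (f j x) * g x)‖ ^ 2 ≤
      (∑ j, ∑ l, t j * conj (t l) * (conj (f j x) * f l x)).re
    have e1 : ∑ j, t j * (conj (f j x) * g x) = (∑ j, t j * conj (f j x)) * g x := by
      rw [Finset.sum_mul]
      exact Finset.sum_congr rfl fun j _ => by ring
    have e2 : ∑ j, ∑ l, t j * conj (t l) * (conj (f j x) * f l x) =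
        (∑ j, t j * conj (f j x)) * conj (∑ j, t j * conj (f j x)) := by
      rw [map_sum, Finset.sum_mul_sum]
      refine Finset.sum_congr rfl fun j _ => Finset.sum_congr rfl fun l _ => ?_
      rw [map_mul, Complex.conj_conj]
      ring
    rw [e1, e2, Complex.mul_conj, Complex.ofReal_re, Complex.normSq_eq_norm_sq, norm_mul, mul_pow]
    have h1 : ‖g x‖ ^ 2 ≤ 1 := pow_le_one₀ (norm_nonneg _) (hgb x)
    exact mul_le_of_le_one_right (sq_nonneg _) h1
  have hK := (PSD_K_convex ι).condExp_mem hm hFi (PSD_K_closed ι) hFK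
  have hE1 : ∀ j l, ∀ᵐ x ∂μ, ((μ[F | m]) x).1 j l = G l j x := by
    intro j l
    let T : ((ι → ι → ℂ) × (ι → ℂ)) →L[ℝ] ℂ :=
      (ContinuousLinearMap.proj (R := ℝ) (φ := fun _ : ι => ℂ) l).comp
        ((ContinuousLinearMap.proj (R := ℝ) (φ := fun _ : ι => ι → ℂ) j).comp
          (ContinuousLinearMap.fst ℝ (ι → ι → ℂ) (ι → ℂ)))
    have h1 := T.comp_condExp_comm (m := m) hFi
    have h2 := ce_ae (μ := μ) hm (f := fun z => f l z * conj (f j z)) ((hf l).mul (hcm j))
      (hmulb _ _ (hb l) (hcb j))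
    have h3 : (T ∘ F) = fun z => f l z * conj (f j z) := by
      funext z
      show conj (f j z) * f l z = _
      ring
    rw [h3] at h1
    rw [hG] at h2
    filter_upwards [h1, h2] with x h1 h2
    rw [h2, ← h1]
    rfl
  have hE2 : ∀ j, ∀ᵐ x ∂μ, ((μ[F | m]) x).2 j = v j x := by
    intro j
    let T : ((ι → ι → ℂ) × (ι → ℂ)) →L[ℝ] ℂ :=
      (ContinuousLinearMap.proj (R := ℝ) (φ := fun _ : ι => ℂ) j).comp
        (ContinuousLinearMap.snd ℝ (ι → ι → ℂ) (ι → ℂ))
    have h1 := T.comp_condExp_comm (m := m) hFi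
    have h2 := ce_ae (μ := μ) hm (f := fun z => conj (f j z) * g z) ((hcm j).mul hg)
      (hmulb _ _ (hcb j) hgb)
    have h3 : (T ∘ F) = fun z => conj (f j z) * g z := by
      funext z
      rfl
    rw [h3] at h1
    rw [hv] at h2
    filter_upwards [h1, h2] with x h1 h2
    rw [h2, ← h1]
    rfl
  have hH : ∀ j l, ∀ᵐ x ∂μ, G j l x = conj (G l j x) := by
    intro j l
    have h1 := ce_conj (μ := μ) hm (f := fun z => f l z * conj (f j z)) ((hf l).mul (hcm j))
      (hmulb _ _ (hb l) (hcb j))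
    have h2 : (fun x => conj (f l x * conj (f j x))) = fun z => f j z * conj (f l z) := by
      funext z
      rw [map_mul, Complex.conj_conj, mul_comm]
    rw [h2, hG, hG] at h1
    exact h1
  -- the pointwise inequality
  have hpt : ∀ᵐ x ∂μ, (∑ j, ∑ l, (a j : ℂ) * (a l : ℂ) *
      (G j l x * (v j x * conj (v l x)))).re ≤ ∑ j, ∑ l, a j * a l * ‖G j l x‖ ^ 2 := by
    filter_upwards [hK, ae_all_iff.2 fun j => ae_all_iff.2 fun l => hE1 j l,
      ae_all_iff.2 fun j => hE2 j, ae_all_iff.2 fun j => ae_all_iff.2 fun l => hH j l]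
      with x h1 h2 h3 h4
    refine PSD_schur a (fun j l => G j l x) (fun j => v j x) h4 ?_
    have h5 : (μ[F | m]) x = ((fun j l => G l j x), fun j => v j x) := by
      refine Prod.ext ?_ ?_
      · funext j l
        exact h2 j l
      · funext j
        exact h3 j
    rw [← h5]
    exact h1
  -- integrability
  have hint : ∀ p : X → ℂ, Measurable p → Bd p → Integrable p μ := fun p hp hpb =>
    Integrable.of_bound hp.aestronglyMeasurable 1 (ae_of_all _ hpb)
  have hcvb : ∀ j, Bd fun x => conj (v j x) := fun j x => by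
    rw [Complex.norm_conj]; exact hvb j x
  have hcvm : ∀ j, Measurable[m] fun x => conj (v j x) := fun j =>
    Complex.continuous_conj.measurable.comp (hvm j)
  have hcvm' : ∀ j, Measurable fun x => conj (v j x) := fun j => (hcvm j).mono hm le_rfl
  have hi1 : ∀ j l, Integrable (fun x => (a j : ℂ) * (a l : ℂ) *
      (G j l x * (v j x * conj (v l x)))) μ := fun j l =>
    (hint _ ((hGm' j l).mul ((hvm' j).mul (hcvm' l)))
      (hmulb _ _ (hGb j l) (hmulb _ _ (hvb j) (hcvb l)))).const_mul _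
  have hi2 : ∀ j l, Integrable (fun x => a j * a l * ‖G j l x‖ ^ 2) μ := fun j l => by
    refine Integrable.const_mul ?_ _
    refine Integrable.of_bound ((hGm' j l).norm.pow_const 2).aestronglyMeasurable 1
      (ae_of_all _ fun x => ?_)
    rw [Real.norm_of_nonneg (by positivity)]
    exact pow_le_one₀ (norm_nonneg _) (hGb j l x)
  have hi3 : ∀ j l, Integrable (fun x => (a j : ℂ) * (a l : ℂ) *
      (v j x * conj (v l x) * (f j x * conj (f l x)))) μ := fun j l =>
    (hint _ (((hvm' j).mul (hcvm' l)).mul ((hf j).mul (hcm l)))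
      (hmulb _ _ (hmulb _ _ (hvb j) (hcvb l)) (hmulb _ _ (hb j) (hcb l)))).const_mul _
  have hI := integral_mono_ae
    (f := fun x => (∑ j, ∑ l, (a j : ℂ) * (a l : ℂ) * (G j l x * (v j x * conj (v l x)))).re)
    (g := fun x => ∑ j, ∑ l, a j * a l * ‖G j l x‖ ^ 2) (μ := μ)
    ((integrable_finsetSum _ fun j _ => integrable_finsetSum _ fun l _ => hi1 j l).re)
    (integrable_finsetSum _ fun j _ => integrable_finsetSum _ fun l _ => hi2 j l) hpt
  have hR : ∫ x, ∑ j, ∑ l, a j * a l * ‖G j l x‖ ^ 2 ∂μ =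
      ∑ j, ∑ l, a j * a l * ∫ x, ‖G j l x‖ ^ 2 ∂μ := by
    rw [integral_finsetSum _ fun j _ => integrable_finsetSum _ fun l _ => hi2 j l]
    refine Finset.sum_congr rfl fun j _ => ?_
    rw [integral_finsetSum _ fun l _ => hi2 j l]
    refine Finset.sum_congr rfl fun l _ => ?_
    rw [integral_const_mul]
  have hL1 : ∫ x, (∑ j, ∑ l, (a j : ℂ) * (a l : ℂ) *
      (G j l x * (v j x * conj (v l x)))).re ∂μ =
      (∑ j, ∑ l, (a j : ℂ) * (a l : ℂ) *
        ∫ x, G j l x * (v j x * conj (v l x)) ∂μ).re := by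
    have h1 := integral_re
      (integrable_finsetSum (μ := μ) Finset.univ fun j _ =>
        integrable_finsetSum Finset.univ fun l _ => hi1 j l)
    refine h1.trans ?_
    refine congrArg Complex.re ?_
    rw [integral_finsetSum _ fun j _ => integrable_finsetSum _ fun l _ => hi1 j l]
    refine Finset.sum_congr rfl fun j _ => ?_
    rw [integral_finsetSum _ fun l _ => hi1 j l]
    refine Finset.sum_congr rfl fun l _ => ?_
    rw [integral_const_mul]
  have hswap : ∀ j l, ∫ x, G j l x * (v j x * conj (v l x)) ∂μ =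
      ∫ x, v j x * conj (v l x) * (f j x * conj (f l x)) ∂μ := by
    intro j l
    have h1 := integral_mul_ce (μ := μ) hm (a := fun x => v j x * conj (v l x))
      (f := fun z => f j z * conj (f l z)) ((hvm j).mul (hcvm l))
      (hmulb _ _ (hvb j) (hcvb l)) ((hf j).mul (hcm l)) (hmulb _ _ (hb j) (hcb l))
    rw [hG] at h1
    rw [← h1]
    refine integral_congr_ae (ae_of_all _ fun x => ?_)
    show G j l x * (v j x * conj (v l x)) = v j x * conj (v l x) * G j l x
    ring
  have hL2 : ∫ x, ‖∑ j, (a j : ℂ) * (f j x * v j x)‖ ^ 2 ∂μ =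
      (∑ j, ∑ l, (a j : ℂ) * (a l : ℂ) *
        ∫ x, v j x * conj (v l x) * (f j x * conj (f l x)) ∂μ).re := by
    have e1 : ∀ x, ‖∑ j, (a j : ℂ) * (f j x * v j x)‖ ^ 2 =
        (∑ j, ∑ l, (a j : ℂ) * (a l : ℂ) *
          (v j x * conj (v l x) * (f j x * conj (f l x)))).re := by
      intro x
      have e2 : ∑ j, ∑ l, (a j : ℂ) * (a l : ℂ) *
          (v j x * conj (v l x) * (f j x * conj (f l x))) =
          (∑ j, (a j : ℂ) * (f j x * v j x)) * conj (∑ j, (a j : ℂ) * (f j x * v j x)) := by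
        rw [map_sum, Finset.sum_mul_sum]
        refine Finset.sum_congr rfl fun j _ => Finset.sum_congr rfl fun l _ => ?_
        rw [map_mul, map_mul, Complex.conj_ofReal]
        ring
      rw [e2, Complex.mul_conj, Complex.ofReal_re, Complex.normSq_eq_norm_sq]
    rw [integral_congr_ae (ae_of_all _ e1)]
    have h1 := integral_re
      (integrable_finsetSum (μ := μ) Finset.univ fun j _ =>
        integrable_finsetSum Finset.univ fun l _ => hi3 j l)
    refine h1.trans ?_
    refine congrArg Complex.re ?_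
    rw [integral_finsetSum _ fun j _ => integrable_finsetSum _ fun l _ => hi3 j l]
    refine Finset.sum_congr rfl fun j _ => ?_
    rw [integral_finsetSum _ fun l _ => hi3 j l]
    refine Finset.sum_congr rfl fun l _ => ?_
    rw [integral_const_mul]
  rw [hL2, ← hR]
  refine le_trans (le_of_eq ?_) hI
  rw [hL1]
  congr 1
  refine Finset.sum_congr rfl fun j _ => Finset.sum_congr rfl fun l _ => ?_
  rw [hswap j l]

theorem psd_ineq (hm : m ≤ mX) {κ : Type*} (s : Finset κ) (a : κ → ℝ) {f : κ → X → ℂ}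
    (hf : ∀ j, Measurable (f j)) (hb : ∀ j, Bd (f j)) {g : X → ℂ} (hg : Measurable g)
    (hgb : Bd g) :
    ∫ x, ‖∑ j ∈ s, (a j : ℂ) * (f j x * ce m μ (fun z => conj (f j z) * g z) x)‖ ^ 2 ∂μ ≤
      ∑ j ∈ s, ∑ l ∈ s, a j * a l *
        ∫ x, ‖ce m μ (fun z => f j z * conj (f l z)) x‖ ^ 2 ∂μ := by
  have h := PSD_fin (μ := μ) hm (ι := s) (fun j => a j) (f := fun j => f j)
    (fun j => hf j) (fun j => hb j) hg hgb
  have e1 : ∀ x, ∑ j : s, (a j : ℂ) * (f j x * ce m μ (fun z => conj (f j z) * g z) x) =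
      ∑ j ∈ s, (a j : ℂ) * (f j x * ce m μ (fun z => conj (f j z) * g z) x) := fun x =>
    Finset.sum_coe_sort s fun j =>
      (a j : ℂ) * (f j x * ce m μ (fun z => conj (f j z) * g z) x)
  have e2 : ∑ j : s, ∑ l : s, a j * a l *
        ∫ x, ‖ce m μ (fun z => f j z * conj (f l z)) x‖ ^ 2 ∂μ =
      ∑ j ∈ s, ∑ l ∈ s, a j * a l *
        ∫ x, ‖ce m μ (fun z => f j z * conj (f l z)) x‖ ^ 2 ∂μ := by
    rw [← Finset.sum_coe_sort s]
    refine Finset.sum_congr rfl fun j _ => ?_
    exact Finset.sum_coe_sort s fun l => a j * a l *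
        ∫ x, ‖ce m μ (fun z => f j z * conj (f l z)) x‖ ^ 2 ∂μ
  simp only [e1] at h
  rw [e2] at h
  exact h

end Pool.DRT
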