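import Pool.Agent.DRT.Defs

set_option autoImplicit false

/-!
# Deterministic inequalities for Lemma B

PROOFS. `norm_tens`: `‖tens u v‖² = (∑ |u|²)(∑ |v|²)` (`EuclideanSpace.norm_eq`, `Finset.sum_product`,
`Finset.sum_mul_sum`).
`red`: here `w n x = f (S^n x)`, so with `a = T^r y`, `b = S^r y` (`S^(n+r) y = S^n b`)
`KN T w N r y = av N (f(S^n a) conj f(S^n b))`.  Put `h n x = ∑ F_j x c_{n,j} x`, `‖h n x‖ ≤ 1` (Cauchy-Schwarz),
`e n x = ‖f(S^n x) - h n x‖`: `‖f(S^n a) conj f(S^n b) - h n a conj (h n b)‖ ≤ e n a + e n b`, and an average over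
`|n| ≤ N`, `N ≤ M` of a nonnegative sequence is at most its sum over `|n| ≤ M`.  So
`‖KN N - KN L‖ ≤ ‖av N (h conj h) - av L (h conj h)‖ + 2 ∑_{|n| ≤ M} (e n a + e n b)`, and
`av N (h n a conj (h n b)) = ∑_{j,l} F_j a conj (F_l b) av N (c_{n,j} a conj (c_{n,l} b))`, so the difference of the
averages is at most `‖av N tens - av L tens‖` by Cauchy-Schwarz and `∑_{j,l} |F_j a|²|F_l b|² ≤ 1`.
`three`: `z' n = av H₀ (fun k => ζ(n+k))`, `z'' n = av H (fun k => ζ(n+k))`.  `av N ζ - av N z' = av_{|k| ≤ H₀}`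
`(av N ζ - av N ζ(·+k))` (exchange the two averages), norm at most `2H₀/(2N+1)` by `norm_av_shift_sub`.
`‖z'' n - z'' 0‖ ≤ 2|n|/(2H+1) ≤ 2M/(2H+1)` by `norm_av_shift_sub` (with the roles `N := H`, `k := n`).  So
`‖av N ζ - z'' 0‖ ≤ 2H₀/(2L+1) + 2M/(2H+1) + av N ‖z' - z''‖` for `L ≤ N ≤ M`; twice this bounds the difference.
`tens_sq`: `av H (fun k => t k) = ∑_{|k| ≤ K} uw H k • t k` for `H ≤ K`; expand the square of the norm in the inner
product space (or coordinatewise).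
-/

open MeasureTheory Filter Topology
open scoped ComplexConjugate NNReal ENNReal

noncomputable section

namespace Pool.DRT

variable {X : Type*} {S T : Equiv.Perm X}

theorem RedB_inner {ι : Type} [Fintype ι] (u v u' v' : ι → ℂ) :
    inner ℂ (tens u v) (tens u' v') =
      (∑ j, u' j * conj (u j)) * conj (∑ j, v' j * conj (v j)) := by
  rw [PiLp.inner_apply, map_sum, Finset.sum_mul_sum, Fintype.sum_prod_type]
  refine Finset.sum_congr rfl fun i _ => Finset.sum_congr rfl fun j _ => ?_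
  change (u' i * conj (v' j)) * conj (u i * conj (v j)) = _
  simp only [map_mul, Complex.conj_conj]
  ring

theorem norm_tens {ι : Type} [Fintype ι] (u v : ι → ℂ) :
    ‖tens u v‖ ^ 2 = (∑ j, ‖u j‖ ^ 2) * ∑ j, ‖v j‖ ^ 2 := by
  rw [EuclideanSpace.norm_sq_eq, Fintype.sum_prod_type, Finset.sum_mul_sum]
  refine Finset.sum_congr rfl fun i _ => Finset.sum_congr rfl fun j _ => ?_
  change ‖u i * conj (v j)‖ ^ 2 = _
  rw [norm_mul, RCLike.norm_conj, mul_pow]

theorem norm_tens_le {ι : Type} [Fintype ι] {u v : ι → ℂ} (hu : ∑ j, ‖u j‖ ^ 2 ≤ 1)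
    (hv : ∑ j, ‖v j‖ ^ 2 ≤ 1) : ‖tens u v‖ ≤ 1 := by
  have h : ‖tens u v‖ ^ 2 ≤ 1 := by
    rw [norm_tens]
    exact mul_le_one₀ hu (Finset.sum_nonneg fun _ _ => by positivity) hv
  exact (sq_le_one_iff₀ (norm_nonneg _)).1 h

theorem RedB_cs {ι : Type} [Fintype ι] {F c : ι → ℂ} (hF : ∑ j, ‖F j‖ ^ 2 ≤ 1)
    (hc : ∑ j, ‖c j‖ ^ 2 ≤ 1) : ‖∑ j, F j * c j‖ ≤ 1 := by
  have h1 : ‖∑ j, F j * c j‖ ≤ ∑ j, ‖F j‖ * ‖c j‖ := by
    refine (norm_sum_le _ _).trans (le_of_eq ?_)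
    exact Finset.sum_congr rfl fun j _ => norm_mul _ _
  have h2 : (∑ j, ‖F j‖ * ‖c j‖) ^ 2 ≤ 1 := by
    refine (Finset.sum_mul_sq_le_sq_mul_sq _ _ _).trans ?_
    exact mul_le_one₀ hF (Finset.sum_nonneg fun _ _ => by positivity) hc
  exact h1.trans ((sq_le_one_iff₀ (Finset.sum_nonneg fun _ _ => by positivity)).1 h2)

/-- averages commute with continuous linear functionals (here: the inner product) -/
theorem RedB_inner_av {ι : Type} [Fintype ι] (Φ : EuclideanSpace ℂ ι) (N : ℕ)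
    (a : ℤ → EuclideanSpace ℂ ι) : inner ℂ Φ (av N a) = av N fun n => inner ℂ Φ (a n) := by
  unfold av
  rw [inner_smul_right_eq_smul, inner_sum]

theorem RedB_av_le_sum {N M : ℕ} (hNM : N ≤ M) {e : ℤ → ℝ} (he : ∀ n, 0 ≤ e n) :
    av N e ≤ ∑ n ∈ Finset.Icc (-(M : ℤ)) (M : ℤ), e n := by
  have h1 : ∑ n ∈ Finset.Icc (-(N : ℤ)) (N : ℤ), e n ≤
      ∑ n ∈ Finset.Icc (-(M : ℤ)) (M : ℤ), e n := by
    refine Finset.sum_le_sum_of_subset_of_nonneg ?_ fun _ _ _ => he _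
    exact Finset.Icc_subset_Icc (by omega) (by omega)
  have h0 : 0 ≤ ∑ n ∈ Finset.Icc (-(N : ℤ)) (N : ℤ), e n := Finset.sum_nonneg fun _ _ => he _
  rw [av_eq_real]
  have h2 : (2 * (N : ℝ) + 1)⁻¹ ≤ 1 := inv_le_one_of_one_le₀ (by
    have : (0 : ℝ) ≤ N := Nat.cast_nonneg N
    linarith)
  calc _ ≤ 1 * ∑ n ∈ Finset.Icc (-(N : ℤ)) (N : ℤ), e n := mul_le_mul_of_nonneg_right h2 h0
    _ ≤ _ := by rw [one_mul]; exact h1

theorem red {ι : Type} [Fintype ι] {f : X → ℂ} (hf : Bd f) {F : ι → X → ℂ} {c : ℤ → ι → X → ℂ}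
    (hF : ∀ x, ∑ j, ‖F j x‖ ^ 2 ≤ 1) (hc : ∀ n x, ∑ j, ‖c n j x‖ ^ 2 ≤ 1) {L M : ℕ} (hLM : L ≤ M)
    (r : ℤ) (y : X) :
    kap T (fun n x => f ((S ^ n) x)) L M r y ≤
      GG L M (fun n j => c n j ((T ^ r) y)) (fun n j => c n j ((S ^ r) y)) +
      2 * ∑ n ∈ Finset.Icc (-(M : ℤ)) (M : ℤ),
        (‖f ((S ^ n) ((T ^ r) y)) - ∑ j, F j ((T ^ r) y) * c n j ((T ^ r) y)‖ +
          ‖f ((S ^ n) ((S ^ r) y)) - ∑ j, F j ((S ^ r) y) * c n j ((S ^ r) y)‖) := by
  have hs : ∀ n : ℤ, (S ^ (n + r)) y = (S ^ n) ((S ^ r) y) := fun n => zpow_add_apply n r y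
  generalize hα : (T ^ r) y = α
  generalize hβ : (S ^ r) y = β
  rw [hβ] at hs
  set h : ℤ → X → ℂ := fun n x => ∑ j, F j x * c n j x with hh
  have hh1 : ∀ n x, ‖h n x‖ ≤ 1 := fun n x => RedB_cs (hF x) (hc n x)
  set e : ℤ → ℝ := fun n => ‖f ((S ^ n) α) - h n α‖ + ‖f ((S ^ n) β) - h n β‖ with he
  have he0 : ∀ n, 0 ≤ e n := fun n => by rw [he]; positivity
  have hK : ∀ N, KN T (fun n x => f ((S ^ n) x)) N r y =
      av N fun n => f ((S ^ n) α) * conj (f ((S ^ n) β)) := by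
    intro N
    unfold KN
    simp only [hα, hs]
  have hA : ∀ N, N ≤ M → ‖KN T (fun n x => f ((S ^ n) x)) N r y -
      av N (fun n => h n α * conj (h n β))‖ ≤ ∑ n ∈ Finset.Icc (-(M : ℤ)) (M : ℤ), e n := by
    intro N hN
    rw [hK, ← av_sub]
    refine (norm_av_le _ _).trans (le_trans (av_mono fun n _ => ?_) (RedB_av_le_sum hN he0))
    have e1 : f ((S ^ n) α) * conj (f ((S ^ n) β)) - h n α * conj (h n β) =
        (f ((S ^ n) α) - h n α) * conj (f ((S ^ n) β)) +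
          h n α * conj (f ((S ^ n) β) - h n β) := by
      rw [map_sub]; ring
    rw [e1]
    refine (norm_add_le _ _).trans ?_
    rw [norm_mul, norm_mul, RCLike.norm_conj, RCLike.norm_conj]
    refine add_le_add (mul_le_of_le_one_right (norm_nonneg _) (hf _))
      (mul_le_of_le_one_left (norm_nonneg _) (hh1 _ _))
  set Φ : EuclideanSpace ℂ (ι × ι) := tens (fun j => conj (F j α)) (fun j => conj (F j β)) with hΦ
  have hΦ1 : ‖Φ‖ ≤ 1 := by
    refine norm_tens_le ?_ ?_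
    · simpa only [RCLike.norm_conj] using hF α
    · simpa only [RCLike.norm_conj] using hF β
  have hΦ2 : ∀ n, inner ℂ Φ (tens (fun j => c n j α) (fun j => c n j β)) =
      h n α * conj (h n β) := by
    intro n
    rw [hΦ, RedB_inner]
    simp only [Complex.conj_conj, hh, mul_comm]
  have hB : ∀ N, av N (fun n => h n α * conj (h n β)) =
      inner ℂ Φ (av N fun n => tens (fun j => c n j α) (fun j => c n j β)) := by
    intro N
    rw [RedB_inner_av]
    simp only [hΦ2]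
  have hC : ∀ N, ‖av N (fun n => h n α * conj (h n β)) - av L (fun n => h n α * conj (h n β))‖ ≤
      ‖(av N fun n => tens (fun j => c n j α) (fun j => c n j β)) -
        av L fun n => tens (fun j => c n j α) (fun j => c n j β)‖ := by
    intro N
    rw [hB, hB, ← inner_sub_right]
    exact (norm_inner_le_norm _ _).trans (mul_le_of_le_one_left (norm_nonneg _) hΦ1)
  have hS0 : 0 ≤ ∑ n ∈ Finset.Icc (-(M : ℤ)) (M : ℤ), e n := Finset.sum_nonneg fun n _ => he0 n
  unfold kap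
  refine mx_le (add_nonneg (mx_nonneg _ _ _) (by linarith)) fun N hL hM => ?_
  have h1 := hA N hM
  have h2 := hA L hLM
  have h3 := hC N
  have h4 : ‖(av N fun n => tens (fun j => c n j α) (fun j => c n j β)) -
        av L fun n => tens (fun j => c n j α) (fun j => c n j β)‖ ≤
      GG L M (fun n j => c n j α) (fun n j => c n j β) :=
    le_mx (a := fun N => ‖(av N fun n => tens (fun j => c n j α) (fun j => c n j β)) -
        av L fun n => tens (fun j => c n j α) (fun j => c n j β)‖) hL hM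
  generalize KN T (fun n x => f ((S ^ n) x)) N r y = p at *
  generalize KN T (fun n x => f ((S ^ n) x)) L r y = q at *
  generalize av N (fun n => h n α * conj (h n β)) = p' at *
  generalize av L (fun n => h n α * conj (h n β)) = q' at *
  have h5 : ‖p - q‖ ≤ ‖p - p'‖ + ‖p' - q'‖ + ‖q - q'‖ := by
    have e2 : p - q = (p - p') + (p' - q') - (q - q') := by ring
    rw [e2]
    exact (norm_sub_le _ _).trans (add_le_add_left (norm_add_le _ _) _)
  linarith

theorem RedB_av_comm {E : Type*} [AddCommGroup E] [Module ℝ E] (N H : ℕ) (a : ℤ → ℤ → E) :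
    (av N fun n => av H fun k => a n k) = av H fun k => av N fun n => a n k := by
  unfold av
  rw [← Finset.smul_sum, ← Finset.smul_sum, Finset.sum_comm, smul_comm]

theorem three {E : Type*} [NormedAddCommGroup E] [NormedSpace ℝ E] {ζ : ℤ → E}
    (h : ∀ n, ‖ζ n‖ ≤ 1) (H₀ H : ℕ) {L M : ℕ} (hLM : L ≤ M) :
    mx L M (fun N => ‖av N ζ - av L ζ‖) ≤ 4 * H₀ / (2 * L + 1) + 4 * M / (2 * H + 1) +
      2 * mx L M (fun N => av N fun n =>
        ‖(av H₀ fun k => ζ (n + k)) - av H fun k => ζ (n + k)‖) := by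
  have hm : ∀ N : ℕ, L ≤ N → N ≤ M → ‖av N ζ - av H ζ‖ ≤ 2 * H₀ / (2 * L + 1) + 2 * M / (2 * H + 1) +
      mx L M (fun N => av N fun n =>
        ‖(av H₀ fun k => ζ (n + k)) - av H fun k => ζ (n + k)‖) := by
    intro N hN1 hN2
    have h1 : ‖av N ζ - av N fun n => av H₀ fun k => ζ (n + k)‖ ≤ 2 * H₀ / (2 * L + 1) := by
      rw [RedB_av_comm]
      have e1 : av N ζ = av H₀ fun _ => av N ζ := (av_const _ _).symm
      rw [e1, ← av_sub]
      refine norm_av_le_of_le fun k hk => ?_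
      rw [norm_sub_rev]
      refine (norm_av_shift_sub N k h).trans ?_
      rw [Finset.mem_Icc] at hk
      have hk' : |(k : ℝ)| ≤ H₀ := by
        rw [abs_le]
        constructor
        · exact_mod_cast hk.1
        · exact_mod_cast hk.2
      have hNL : (L : ℝ) ≤ N := by exact_mod_cast hN1
      have hL0 : (0 : ℝ) ≤ L := Nat.cast_nonneg _
      rw [mul_one]
      gcongr
    have h2 : ‖(av N fun n => av H₀ fun k => ζ (n + k)) - av N fun n => av H fun k => ζ (n + k)‖ ≤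
        mx L M (fun N => av N fun n =>
          ‖(av H₀ fun k => ζ (n + k)) - av H fun k => ζ (n + k)‖) := by
      rw [← av_sub]
      refine (norm_av_le _ _).trans ?_
      exact le_mx (a := fun N => av N fun n =>
          ‖(av H₀ fun k => ζ (n + k)) - av H fun k => ζ (n + k)‖) hN1 hN2
    have h3 : ‖(av N fun n => av H fun k => ζ (n + k)) - av H ζ‖ ≤ 2 * M / (2 * H + 1) := by
      have e1 : av H ζ = av N fun _ => av H ζ := (av_const _ _).symm
      rw [e1, ← av_sub]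
      refine norm_av_le_of_le fun n hn => ?_
      have e2 : (av H fun k => ζ (n + k)) = av H fun k => ζ (k + n) := by
        simp only [add_comm]
      rw [e2]
      refine (norm_av_shift_sub H n h).trans ?_
      rw [Finset.mem_Icc] at hn
      have hn' : |(n : ℝ)| ≤ N := by
        rw [abs_le]
        constructor
        · exact_mod_cast hn.1
        · exact_mod_cast hn.2
      have hNM : (N : ℝ) ≤ M := by exact_mod_cast hN2
      rw [mul_one]
      gcongr
      exact hn'.trans hNM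
    have e3 : av N ζ - av H ζ = (av N ζ - av N fun n => av H₀ fun k => ζ (n + k)) +
        ((av N fun n => av H₀ fun k => ζ (n + k)) - av N fun n => av H fun k => ζ (n + k)) +
        ((av N fun n => av H fun k => ζ (n + k)) - av H ζ) := by abel
    rw [e3]
    refine (norm_add₃_le).trans ?_
    linarith
  refine mx_le ?_ fun N hN1 hN2 => ?_
  · have := mx_nonneg L M (fun N => av N fun n =>
        ‖(av H₀ fun k => ζ (n + k)) - av H fun k => ζ (n + k)‖)
    positivity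
  · have h1 := hm N hN1 hN2
    have h2 := hm L le_rfl hLM
    have e3 : av N ζ - av L ζ = (av N ζ - av H ζ) - (av L ζ - av H ζ) := by abel
    rw [e3]
    refine (norm_sub_le _ _).trans ((add_le_add h1 h2).trans (le_of_eq ?_))
    ring

theorem RedB_av_uw {E : Type*} [AddCommGroup E] [Module ℝ E] {H K : ℕ} (h : H ≤ K) (t : ℤ → E) :
    av H t = ∑ k ∈ Finset.Icc (-(K : ℤ)) (K : ℤ), uw H k • t k := by
  unfold av
  rw [Finset.smul_sum]
  have hsub : Finset.Icc (-(H : ℤ)) (H : ℤ) ⊆ Finset.Icc (-(K : ℤ)) (K : ℤ) :=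
    Finset.Icc_subset_Icc (by omega) (by omega)
  rw [← Finset.sum_subset hsub]
  · refine Finset.sum_congr rfl fun k hk => ?_
    rw [Finset.mem_Icc] at hk
    rw [uw, if_pos (by omega)]
  · intro k _ hk
    rw [Finset.mem_Icc] at hk
    rw [uw, if_neg (by omega), zero_smul]

theorem tens_sq {ι : Type} [Fintype ι] (u v : ℤ → ι → ℂ) {H₀ H K : ℕ} (h0 : H₀ ≤ K) (h : H ≤ K)
    (n : ℤ) :
    ((‖(av H₀ fun k => tens (u (n + k)) (v (n + k))) -
        av H fun k => tens (u (n + k)) (v (n + k))‖ ^ 2 : ℝ) : ℂ) =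
      ∑ k ∈ Finset.Icc (-(K : ℤ)) (K : ℤ), ∑ l ∈ Finset.Icc (-(K : ℤ)) (K : ℤ),
        (((uw H₀ k - uw H k) * (uw H₀ l - uw H l) : ℝ) : ℂ) *
          ((∑ j, u (n + k) j * conj (u (n + l) j)) *
            conj (∑ j, v (n + k) j * conj (v (n + l) j))) := by
  have e1 : (av H₀ fun k => tens (u (n + k)) (v (n + k))) -
      (av H fun k => tens (u (n + k)) (v (n + k))) =
      ∑ k ∈ Finset.Icc (-(K : ℤ)) (K : ℤ),
        ((uw H₀ k - uw H k : ℝ) : ℂ) • tens (u (n + k)) (v (n + k)) := by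
    rw [RedB_av_uw h0, RedB_av_uw h, ← Finset.sum_sub_distrib]
    refine Finset.sum_congr rfl fun k _ => ?_
    rw [← sub_smul]
    rfl
  rw [e1]
  have e2 := inner_self_eq_norm_sq_to_K (𝕜 := ℂ) (∑ k ∈ Finset.Icc (-(K : ℤ)) (K : ℤ),
        ((uw H₀ k - uw H k : ℝ) : ℂ) • tens (u (n + k)) (v (n + k)))
  rw [Complex.ofReal_pow]
  refine e2.symm.trans ?_
  rw [inner_sum]
  refine Finset.sum_congr rfl fun k _ => ?_
  rw [sum_inner]
  refine Finset.sum_congr rfl fun l _ => ?_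
  rw [inner_smul_left, inner_smul_right, RedB_inner, Complex.conj_ofReal, Complex.ofReal_mul]
  ring

theorem RedB_sum_uw {H K : ℕ} (h : H ≤ K) : ∑ k ∈ Finset.Icc (-(K : ℤ)) (K : ℤ), uw H k = 1 := by
  have h1 := RedB_av_uw h fun _ => (1 : ℝ)
  rw [av_const] at h1
  simpa using h1.symm

theorem RedB_uw_nonneg (H : ℕ) (k : ℤ) : 0 ≤ uw H k := by
  unfold uw
  split_ifs
  · positivity
  · exact le_rfl

/-- `∑ |α_k α_l| ≤ 4` -/
theorem sum_uw_le {H₀ H K : ℕ} (h0 : H₀ ≤ K) (h : H ≤ K) :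
    ∑ k ∈ Finset.Icc (-(K : ℤ)) (K : ℤ), ∑ l ∈ Finset.Icc (-(K : ℤ)) (K : ℤ),
      |(uw H₀ k - uw H k) * (uw H₀ l - uw H l)| ≤ 4 := by
  have h1 : ∑ k ∈ Finset.Icc (-(K : ℤ)) (K : ℤ), |uw H₀ k - uw H k| ≤ 2 := by
    calc _ ≤ ∑ k ∈ Finset.Icc (-(K : ℤ)) (K : ℤ), (uw H₀ k + uw H k) := by
          refine Finset.sum_le_sum fun k _ => ?_
          refine (abs_sub _ _).trans ?_
          rw [abs_of_nonneg (RedB_uw_nonneg _ _), abs_of_nonneg (RedB_uw_nonneg _ _)]
      _ = 2 := by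
          rw [Finset.sum_add_distrib, RedB_sum_uw h0, RedB_sum_uw h]
          norm_num
  have h2 : ∑ k ∈ Finset.Icc (-(K : ℤ)) (K : ℤ), ∑ l ∈ Finset.Icc (-(K : ℤ)) (K : ℤ),
      |(uw H₀ k - uw H k) * (uw H₀ l - uw H l)| =
      (∑ k ∈ Finset.Icc (-(K : ℤ)) (K : ℤ), |uw H₀ k - uw H k|) *
        ∑ k ∈ Finset.Icc (-(K : ℤ)) (K : ℤ), |uw H₀ k - uw H k| := by
    rw [Finset.sum_mul_sum]
    exact Finset.sum_congr rfl fun k _ => Finset.sum_congr rfl fun l _ => abs_mul _ _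
  rw [h2]
  have h3 : 0 ≤ ∑ k ∈ Finset.Icc (-(K : ℤ)) (K : ℤ), |uw H₀ k - uw H k| :=
    Finset.sum_nonneg fun _ _ => abs_nonneg _
  nlinarith

end Pool.DRT
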