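import Pool.Agent.DRT.Adj
import Pool.Agent.DRT.Chain
import Pool.Agent.DRT.LemB
import Pool.Agent.DRT.LemC3
import Pool.Agent.DRT.Dist

set_option autoImplicit false

/-!
# The maximal good factor

PROOF of `main1`.  By Zorn's lemma (`zorn_le_nonempty₀` for the set of good σ-algebras, upper bounds by
`chain_bound`) there is a maximal good `m ≥ m₀`.  By `adjoin` (with `hB` from `lemB'`) and maximality every
`h ∈ Cpt m μ S` is `m`-measurable; the same for `T` (`Good.symm`, `hST.symm`).  (a): for `f` `m`-measurable, bounded,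
`Cpt.of_meas` and `lemB'`; for `g` `m`-measurable the same with the roles exchanged (`AN T S g f = AN S T f g`).
(b) is `relmix` for `S` and for `T`.  (c): `m` is complete by maximality (`complete_of_max`), so `dist_le` applies.
-/

open MeasureTheory Filter Topology
open scoped ComplexConjugate NNReal ENNReal

noncomputable section

namespace Pool.DRT

variable {X : Type*}

theorem Zorn_swap (S T : Equiv.Perm X) (f g : X → ℂ) (N : ℕ) (x : X) :
    AN T S g f N x = AN S T f g N x := by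
  unfold AN
  simp only [mul_comm]

section

variable {m : MeasurableSpace X} [mX : MeasurableSpace X] {μ : Measure X}
  [IsProbabilityMeasure μ] {S T : Equiv.Perm X}

/-- a maximal good factor contains all relatively compact functions -/
theorem Zorn_max (hS : MP μ S) (hT : MP μ T) (hST : Commute S T) (hG : Good m μ S T)
    (hmax : ∀ m' : MeasurableSpace X, @Good X m' mX μ S T → m ≤ m' → m' ≤ m) :
    ∀ h : X → ℂ, Cpt m μ S h → Measurable[m] h := by
  intro h hh
  obtain ⟨m', h1, h2, h3⟩ := adjoin hS hT hST hG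
    (fun f g hf hg hgb => lemB' hS hT hST hG hf hg hgb)
  exact (h3 h hh).mono (hmax m' h2 h1) le_rfl

theorem Zorn_concl (hS : MP μ S) (hT : MP μ T) (hST : Commute S T) (hG : Good m μ S T)
    (hmax : ∀ m' : MeasurableSpace X, @Good X m' mX μ S T → m ≤ m' → m' ≤ m) :
    (∀ f g : X → ℂ, Measurable[mX] f → Measurable[mX] g → Bd f → Bd g →
        (Measurable[m] f ∨ Measurable[m] g) → ∀ᵐ x ∂μ, CV fun N => AN S T f g N x) ∧
      (∀ f g : X → ℂ, Measurable[mX] f → Measurable[mX] g → Bd f → Bd g → μ[f | m] =ᵐ[μ] 0 →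
        Tendsto (fun N => av N fun n => ∫ x, ‖(μ[fun z => f ((S ^ n) z) * g z | m]) x‖ ^ 2 ∂μ)
          atTop (𝓝 0)) ∧
      (∀ f g : X → ℂ, Measurable[mX] f → Measurable[mX] g → Bd f → Bd g → μ[f | m] =ᵐ[μ] 0 →
        Tendsto (fun N => av N fun n => ∫ x, ‖(μ[fun z => f ((T ^ n) z) * g z | m]) x‖ ^ 2 ∂μ)
          atTop (𝓝 0)) ∧
      ∀ m₁ : MeasurableSpace X, (@DistF X m₁ mX μ S ∨ @DistF X m₁ mX μ T) → m₁ ≤ m := by
  have hle : m ≤ mX := hG.le
  have hIS : Inv m S := hG.invS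
  have hIT : Inv m T := hG.invT
  have hcS := Zorn_max hS hT hST hG hmax
  have hcT := Zorn_max hT hS hST.symm hG.symm
    (fun m' h1 h2 => hmax m' (@Good.symm X m' mX μ T S h1) h2)
  have hcpl : ∀ A B : Set X, MeasurableSet[mX] A → MeasurableSet[m] B → A =ᵐ[μ] B →
      MeasurableSet[m] A := fun A B hA hB hAB => complete_of_max hS hT hG hmax hA hB hAB
  refine ⟨?_, ?_, ?_, ?_⟩
  · rintro f g hf hg hfb hgb (h | h)
    · exact lemB' hS hT hST hG (Cpt.of_meas hle hS hG.invS h hfb) hg hgb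
    · have := lemB' hT hS hST.symm hG.symm (Cpt.of_meas hle hT hG.invT h hgb) hf hfb
      simpa only [Zorn_swap] using this
  · intro f g hf hg hfb hgb h0
    exact relmix hle hS hG.invS hcS hf hfb hg hgb h0
  · intro f g hf hg hfb hgb h0
    exact relmix hle hT hG.invT hcT hf hfb hg hgb h0
  · rintro m₁ (hD | hD)
    · exact @dist_le X m m₁ mX μ _ S hle hS hIS hcpl hcS hD
    · exact @dist_le X m m₁ mX μ _ T hle hT hIT hcpl hcT hD

end

variable {m₀ : MeasurableSpace X} [mX : MeasurableSpace X] {μ : Measure X}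
  [IsProbabilityMeasure μ] {S T : Equiv.Perm X}

theorem main1 (hS : MP μ S) (hT : MP μ T) (hST : Commute S T) (hG : Good m₀ μ S T) :
    ∃ m : MeasurableSpace X, m₀ ≤ m ∧ @Good X m mX μ S T ∧
      (∀ f g : X → ℂ, Measurable[mX] f → Measurable[mX] g → Bd f → Bd g →
        (Measurable[m] f ∨ Measurable[m] g) → ∀ᵐ x ∂μ, CV fun N => AN S T f g N x) ∧
      (∀ f g : X → ℂ, Measurable[mX] f → Measurable[mX] g → Bd f → Bd g → μ[f | m] =ᵐ[μ] 0 →
        Tendsto (fun N => av N fun n => ∫ x, ‖(μ[fun z => f ((S ^ n) z) * g z | m]) x‖ ^ 2 ∂μ)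
          atTop (𝓝 0)) ∧
      (∀ f g : X → ℂ, Measurable[mX] f → Measurable[mX] g → Bd f → Bd g → μ[f | m] =ᵐ[μ] 0 →
        Tendsto (fun N => av N fun n => ∫ x, ‖(μ[fun z => f ((T ^ n) z) * g z | m]) x‖ ^ 2 ∂μ)
          atTop (𝓝 0)) ∧
      ∀ m₁ : MeasurableSpace X, (@DistF X m₁ mX μ S ∨ @DistF X m₁ mX μ T) → m₁ ≤ m := by
  have hch : ∀ c ⊆ {m : MeasurableSpace X | @Good X m mX μ S T}, IsChain (· ≤ ·) c →
      ∀ y ∈ c, ∃ ub ∈ {m : MeasurableSpace X | @Good X m mX μ S T}, ∀ z ∈ c, z ≤ ub := by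
    intro c hc hchain y hy
    obtain ⟨m', h1, h2⟩ := @chain_bound X mX μ _ S T hS hT c hchain ⟨y, hy⟩ (fun m hm => hc hm)
    exact ⟨m', h1, h2⟩
  obtain ⟨m, hm0, hmax⟩ := zorn_le_nonempty₀ _ hch m₀ hG
  exact ⟨m, hm0, hmax.prop, @Zorn_concl X m mX μ _ S T hS hT hST hmax.prop
    (fun m' h1 h2 => hmax.le_of_ge h1 h2)⟩

end Pool.DRT
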